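import Pool.Agent.Ldc.E1
set_option autoImplicit false

/-!
# E4.  Entropy and cardinality; conditioning.

`H_le_log_card`: Jensen / Gibbs: `Σ_ω p(ω) log (1/(N P(f ω))) ≤ Σ_ω p(ω) (1/(N P(f ω)) - 1) ≤ 0`.
`H_cond_sum`: `P(f = a, g = b) = P(g=b) P(f = a | g = b)`.
-/
namespace Pool.Agent.Ldc
open Finset
variable {Ω α β : Type} [Fintype Ω] {p : Ω → ℝ}

open Classical in
private theorem E4_pr_eq {Ω₀ α₀ : Type} [Fintype Ω₀] (p₀ : Ω₀ → ℝ) (f₀ : Ω₀ → α₀) (a₀ : α₀) :
    pr p₀ f₀ a₀ = ∑ ω, if f₀ ω = a₀ then p₀ ω else 0 := rfl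

open Classical in
private theorem E4_pe_eq {Ω₀ : Type} [Fintype Ω₀] (p₀ : Ω₀ → ℝ) (A : Ω₀ → Prop) :
    pe p₀ A = ∑ ω, if A ω then p₀ ω else 0 := rfl

private theorem E4_exists_pos (hp : IsP p) : ∃ ω, 0 < p ω := by
  by_contra h
  push Not at h
  have h1 : ∑ ω, p ω ≤ 0 := Finset.sum_nonpos fun ω _ => h ω
  rw [hp.2] at h1
  exact absurd h1 (by norm_num)

theorem H_le_log_card (hp : IsP p) (f : Ω → α) (s : Finset α) (hs : ∀ ω, 0 < p ω → f ω ∈ s) :
    H p f ≤ Real.log (s.card : ℝ) := by
  classical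
  obtain ⟨ω0, hω0⟩ := E4_exists_pos hp
  have hN : (0 : ℝ) < (s.card : ℝ) := by
    exact_mod_cast Finset.card_pos.mpr ⟨f ω0, hs ω0 hω0⟩
  -- the sum of p ω / P(f ω)
  have hsum : ∑ ω, p ω / pr p f (f ω) ≤ (s.card : ℝ) := by
    have h1 : ∀ ω, p ω / pr p f (f ω) = ∑ a ∈ s, if f ω = a then p ω / pr p f a else 0 := by
      intro ω
      rcases (hp.1 ω).lt_or_eq with h0 | h0
      · rw [Finset.sum_ite_eq s (f ω)]
        rw [if_pos (hs ω h0)]
      · rw [← h0]; simp
    rw [Finset.sum_congr rfl (fun ω _ => h1 ω), Finset.sum_comm]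
    have h2 : ∀ a ∈ s, (∑ ω, if f ω = a then p ω / pr p f a else 0) ≤ 1 := by
      intro a _
      have h3 : (∑ ω, if f ω = a then p ω / pr p f a else 0) = pr p f a / pr p f a := by
        conv_rhs => lhs; simp only [E4_pr_eq]
        rw [Finset.sum_div]
        refine Finset.sum_congr rfl fun ω _ => ?_
        by_cases h : f ω = a
        · rw [if_pos h, if_pos h]
        · rw [if_neg h, if_neg h, zero_div]
      rw [h3]
      exact div_self_le_one _
    calc _ ≤ ∑ a ∈ s, (1 : ℝ) := Finset.sum_le_sum h2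
      _ = (s.card : ℝ) := by simp
  have hterm : ∀ ω, p ω * (-Real.log (pr p f (f ω)) - Real.log (s.card : ℝ))
      ≤ (p ω / pr p f (f ω)) / (s.card : ℝ) - p ω := by
    intro ω
    rcases (hp.1 ω).lt_or_eq with h0 | h0
    · have hpos := pr_pos hp f h0
      have h1 := Real.log_le_sub_one_of_pos (show 0 < 1 / (pr p f (f ω) * (s.card : ℝ)) by positivity)
      rw [one_div, Real.log_inv, Real.log_mul hpos.ne' hN.ne'] at h1
      have h2 := mul_le_mul_of_nonneg_left h1 h0.le
      have h3 : p ω * ((pr p f (f ω) * (s.card : ℝ))⁻¹ - 1)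
          = (p ω / pr p f (f ω)) / (s.card : ℝ) - p ω := by
        field_simp
      rw [h3] at h2
      calc _ = p ω * -(Real.log (pr p f (f ω)) + Real.log (s.card : ℝ)) := by ring
        _ ≤ _ := h2
    · rw [← h0]; simp
  have h4 := Finset.sum_le_sum (fun ω (_ : ω ∈ univ) => hterm ω)
  rw [Finset.sum_sub_distrib, hp.2, ← Finset.sum_div] at h4
  have h5 : (∑ ω, p ω / pr p f (f ω)) / (s.card : ℝ) ≤ 1 := by
    rw [div_le_one hN]; exact hsum
  have h6 : ∑ ω, p ω * (-Real.log (pr p f (f ω)) - Real.log (s.card : ℝ))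
      = H p f - Real.log (s.card : ℝ) := by
    unfold H
    have : ∀ ω, p ω * (-Real.log (pr p f (f ω)) - Real.log (s.card : ℝ))
        = -(p ω * Real.log (pr p f (f ω))) - p ω * Real.log (s.card : ℝ) := fun ω => by ring
    rw [Finset.sum_congr rfl (fun ω _ => this ω), Finset.sum_sub_distrib, ← Finset.sum_mul, hp.2,
      one_mul, Finset.sum_neg_distrib]
  rw [h6] at h4
  linarith

theorem unif_isP [Fintype α] (s : Finset α) (hs : s.Nonempty) : IsP (unif s) := by
  classical
  have hN : (0 : ℝ) < (s.card : ℝ) := by exact_mod_cast Finset.card_pos.mpr hs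
  refine ⟨fun a => ?_, ?_⟩
  · unfold unif
    split_ifs
    · positivity
    · exact le_refl _
  · unfold unif
    rw [← Finset.sum_filter]
    have : (univ.filter (fun a => a ∈ s)) = s := by ext a; simp
    rw [this]
    simp only [Finset.sum_const, nsmul_eq_mul]
    field_simp

theorem H_unif [Fintype α] (s : Finset α) (hs : s.Nonempty) (f : α → β) (hf : Set.InjOn f s) :
    H (unif s) f = Real.log (s.card : ℝ) := by
  classical
  have hN : (0 : ℝ) < (s.card : ℝ) := by exact_mod_cast Finset.card_pos.mpr hs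
  have h1 : ∀ a ∈ s, pr (unif s) f (f a) = 1 / (s.card : ℝ) := by
    intro a ha
    simp only [E4_pr_eq]
    rw [Finset.sum_eq_single a]
    · rw [if_pos rfl]; unfold unif; rw [if_pos ha]
    · intro b _ hb
      by_cases h : f b = f a
      · rw [if_pos h]
        unfold unif
        rw [if_neg]
        intro hbs
        exact hb (hf hbs ha h)
      · rw [if_neg h]
    · intro h; exact absurd (mem_univ a) h
  have h2 : ∀ a, unif s a * Real.log (pr (unif s) f (f a))
      = if a ∈ s then -(1 / (s.card : ℝ) * Real.log (s.card : ℝ)) else 0 := by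
    intro a
    by_cases ha : a ∈ s
    · rw [if_pos ha, h1 a ha]
      unfold unif
      rw [if_pos ha, one_div, Real.log_inv]
      ring
    · rw [if_neg ha]
      unfold unif
      rw [if_neg ha, zero_mul]
  unfold H
  rw [Finset.sum_congr rfl (fun a _ => h2 a), ← Finset.sum_filter]
  have : (univ.filter (fun a => a ∈ s)) = s := by ext a; simp
  rw [this]
  simp only [Finset.sum_const, nsmul_eq_mul]
  field_simp

theorem cnd_isP (hp : IsP p) (g : Ω → β) (b : β) (hb : 0 < pr p g b) : IsP (cnd p g b) := by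
  classical
  refine ⟨fun ω => ?_, ?_⟩
  · unfold cnd
    split_ifs
    · exact div_nonneg (hp.1 ω) hb.le
    · exact le_refl _
  · have h1 : ∀ ω, cnd p g b ω = (if g ω = b then p ω else 0) / pr p g b := by
      intro ω
      unfold cnd
      by_cases h : g ω = b
      · rw [if_pos h, if_pos h]
      · rw [if_neg h, if_neg h, zero_div]
    rw [Finset.sum_congr rfl (fun ω _ => h1 ω), ← Finset.sum_div]
    have h2 : (∑ ω, if g ω = b then p ω else 0) = pr p g b := by
      rw [E4_pr_eq]
    rw [h2, div_self hb.ne']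

private theorem E4_pr_cnd (p : Ω → ℝ) (f : Ω → α) (g : Ω → β) (a : α) (b : β) :
    pr (cnd p g b) f a = pr p (fun ω => (f ω, g ω)) (a, b) / pr p g b := by
  classical
  conv_lhs => simp only [E4_pr_eq]
  conv_rhs => lhs; simp only [E4_pr_eq]
  rw [Finset.sum_div]
  refine Finset.sum_congr rfl fun ω _ => ?_
  unfold cnd
  by_cases h1 : f ω = a
  · by_cases h2 : g ω = b
    · rw [if_pos h1, if_pos h2, if_pos (by rw [h1, h2])]
    · rw [if_pos h1, if_neg h2, if_neg (fun h => h2 (Prod.mk.inj h).2), zero_div]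
  · rw [if_neg h1, if_neg (fun h => h1 (Prod.mk.inj h).1), zero_div]

theorem H_cond_sum [Fintype β] (hp : IsP p) (f : Ω → α) (g : Ω → β) :
    H p (fun ω => (f ω, g ω)) = H p g + ∑ b, pr p g b * H (cnd p g b) f := by
  classical
  have h1 : ∀ b, pr p g b * H (cnd p g b) f
      = ∑ ω, if g ω = b then
          -(p ω * (Real.log (pr p (fun ω => (f ω, g ω)) (f ω, g ω)) - Real.log (pr p g (g ω))))
        else 0 := by
    intro b
    unfold H
    rw [← Finset.sum_neg_distrib, Finset.mul_sum]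
    refine Finset.sum_congr rfl fun ω _ => ?_
    by_cases h : g ω = b
    · rw [if_pos h]
      rcases (hp.1 ω).lt_or_eq with h0 | h0
      · have hg := pr_pos hp g h0
        have hfg := pr_pos hp (fun ω => (f ω, g ω)) h0
        rw [E4_pr_cnd]
        unfold cnd
        rw [if_pos h, ← h, Real.log_div hfg.ne' hg.ne']
        field_simp
      · unfold cnd
        rw [if_pos h, ← h0]; simp
    · rw [if_neg h]
      unfold cnd
      rw [if_neg h]; simp
  rw [Finset.sum_congr rfl (fun b _ => h1 b), Finset.sum_comm]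
  have h2 : ∀ ω, (∑ b, if g ω = b then
          -(p ω * (Real.log (pr p (fun ω => (f ω, g ω)) (f ω, g ω)) - Real.log (pr p g (g ω))))
        else 0) = -(p ω * (Real.log (pr p (fun ω => (f ω, g ω)) (f ω, g ω))
          - Real.log (pr p g (g ω)))) := by
    intro ω
    rw [Finset.sum_ite_eq]
    rw [if_pos (mem_univ _)]
  rw [Finset.sum_congr rfl (fun ω _ => h2 ω)]
  unfold H
  rw [← Finset.sum_neg_distrib, ← Finset.sum_neg_distrib, ← Finset.sum_add_distrib]
  refine Finset.sum_congr rfl fun ω _ => ?_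
  ring

private theorem E4_sum_pr [Fintype β] (hp : IsP p) (g : Ω → β) : ∑ b, pr p g b = 1 :=
  (pr_isP hp g).2

/-- a value at most the average -/
theorem exists_le_avg [Fintype β] (hp : IsP p) (g : Ω → β) (u : β → ℝ) (c : ℝ)
    (h : ∑ b, pr p g b * u b ≤ c) : ∃ b, 0 < pr p g b ∧ u b ≤ c := by
  by_contra hcon
  push Not at hcon
  obtain ⟨ω0, hω0⟩ := E4_exists_pos hp
  have hb0 := pr_pos hp g hω0
  have h1 : ∑ b, pr p g b * c < ∑ b, pr p g b * u b := by
    refine Finset.sum_lt_sum (fun b _ => ?_) ⟨g ω0, mem_univ _, ?_⟩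
    · rcases (pr_nonneg hp g b).lt_or_eq with h0 | h0
      · exact mul_le_mul_of_nonneg_left (hcon b h0).le h0.le
      · rw [← h0]; simp
    · exact mul_lt_mul_of_pos_left (hcon _ hb0) hb0
  rw [← Finset.sum_mul, E4_sum_pr hp g, one_mul] at h1
  exact absurd h (not_le.mpr h1)

/-- averaging -/
theorem avg_le [Fintype β] (hp : IsP p) (g : Ω → β) (u : β → ℝ) (c : ℝ)
    (h : ∀ b, 0 < pr p g b → c ≤ u b) : c ≤ ∑ b, pr p g b * u b := by
  have h1 : ∑ b, pr p g b * c ≤ ∑ b, pr p g b * u b := by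
    refine Finset.sum_le_sum fun b _ => ?_
    rcases (pr_nonneg hp g b).lt_or_eq with h0 | h0
    · exact mul_le_mul_of_nonneg_left (h b h0) h0.le
    · rw [← h0]; simp
  rwa [← Finset.sum_mul, E4_sum_pr hp g, one_mul] at h1

/-- if every fibre of `π` meets the support of `f` in at most `N` points then `H[f] ≤ H[π f] + log N` -/
theorem H_le_fiber (hp : IsP p) (f : Ω → α) (π : α → β) (s : Finset α)
    (hs : ∀ ω, 0 < p ω → f ω ∈ s) (L : ℝ)
    (hL : ∀ ω, 0 < p ω → ∀ u : Finset α, u ⊆ s → (∀ a ∈ u, π a = π (f ω)) →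
      Real.log (u.card : ℝ) ≤ L) :
    H p f ≤ H p (fun ω => π (f ω)) + L := by
  classical
  let T : Finset β := univ.image (fun ω => π (f ω))
  have hT : ∀ ω, π (f ω) ∈ T := fun ω => Finset.mem_image_of_mem _ (mem_univ ω)
  let g : Ω → T := fun ω => ⟨π (f ω), hT ω⟩
  obtain ⟨ω0, hω0⟩ := E4_exists_pos hp
  have h1 : H p g ≤ H p (fun ω => π (f ω)) := by
    have h2 := H_comp_le hp (fun ω => π (f ω))
      (fun c : β => if h : c ∈ T then (⟨c, h⟩ : T) else g ω0)
    have h3 : (fun ω => (fun c : β => if h : c ∈ T then (⟨c, h⟩ : T) else g ω0) (π (f ω))) = g := by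
      funext ω
      simp only [dif_pos (hT ω)]
      rfl
    rw [h3] at h2
    exact h2
  have h2 : H p f ≤ H p (fun ω => (f ω, g ω)) := H_comp_le hp (fun ω => (f ω, g ω)) Prod.fst
  rw [H_cond_sum hp f g] at h2
  have h3 : ∑ b, pr p g b * H (cnd p g b) f ≤ ∑ b, pr p g b * L := by
    refine Finset.sum_le_sum fun b _ => ?_
    rcases (pr_nonneg hp g b).lt_or_eq with h0 | h0
    · refine mul_le_mul_of_nonneg_left ?_ h0.le
      have hc := cnd_isP hp g b h0
      obtain ⟨ω1, hω1, hb1⟩ := exists_of_pr_pos hp g h0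
      have h4 : H (cnd p g b) f ≤ Real.log ((s.filter (fun a => π a = (b : β))).card : ℝ) := by
        refine H_le_log_card hc f _ fun ω hω => ?_
        have hgb : g ω = b := by
          by_contra hne
          unfold cnd at hω
          rw [if_neg hne] at hω
          exact lt_irrefl _ hω
        have hpω : 0 < p ω := by
          rcases (hp.1 ω).lt_or_eq with h5 | h5
          · exact h5
          · exfalso
            unfold cnd at hω
            rw [if_pos hgb, ← h5, zero_div] at hω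
            exact lt_irrefl _ hω
        rw [Finset.mem_filter]
        exact ⟨hs ω hpω, by rw [← hgb]⟩
      refine h4.trans (hL ω1 hω1 _ (Finset.filter_subset _ _) fun a ha => ?_)
      rw [Finset.mem_filter] at ha
      rw [ha.2, ← hb1]
    · rw [← h0]; simp
  rw [← Finset.sum_mul, E4_sum_pr hp g, one_mul] at h3
  linarith

end Pool.Agent.Ldc
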