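import Pool.Agent.Ldc.E6
import Pool.Agent.Ldc.E4
set_option autoImplicit false

/-!
# E7a.  Conditional distance `rdc`.

`rdc_eq_sum`: both sides split over the values of `g` (`H_cond_sum` on `(G×Ω, pp x p)` and on `Ω`;
`cnd (pp x p) (g ∘ snd) b = pp x (cnd p g b)`).
`rdc_le`: `H(x - f, g) ≤ H(x - f) + H(g)`.
`cnd_pair`: iterated conditioning.
-/
namespace Pool.Agent.Ldc
open Finset
variable {Ω G β δ : Type} [Fintype Ω] [AddCommGroup G] [Fintype G] {p : Ω → ℝ} {x : G → ℝ}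

theorem E7a_cnd_pp (hx : IsP x) (g : Ω → β) (b : β) :
    cnd (pp x p) (fun u : G × Ω => g u.2) b = pp x (cnd p g b) := by
  have h : pr (pp x p) (fun u : G × Ω => g u.2) b = pr p g b := by
    rw [pr_pp_snd hx g]
  funext u
  unfold cnd
  rw [h]
  unfold pp
  dsimp only
  split_ifs
  · rw [mul_div_assoc]
  · rw [mul_zero]

theorem E7a_H_sub (hx : IsP x) (hp : IsP p) (f : Ω → G) :
    H (pp x (pr p f)) (fun u => u.1 - u.2) = H (pp x p) (fun u => u.1 - f u.2) := by
  have h := H_fun_of_indep (indep_pp hx hp (fun a : G => a) f) (fun u : G × G => u.1 - u.2)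
  rw [h, pr_pp_fst hp (fun a : G => a), pr_pp_snd hx f, pr_id]

theorem rdc_eq_sum [Fintype β] (hp : IsP p) (hx : IsP x) (f : Ω → G) (g : Ω → β) :
    rdc x p f g = ∑ b, pr p g b * rd x (pr (cnd p g b) f) := by
  have h1 := H_cond_sum (pp_isP hx hp) (fun u : G × Ω => u.1 - f u.2) (fun u => g u.2)
  rw [H_pp_snd hx g] at h1
  have h2 := H_cond_sum hp f g
  have h3 : ∀ b, pr p g b * rd x (pr (cnd p g b) f) =
      pr (pp x p) (fun u : G × Ω => g u.2) b *
        H (cnd (pp x p) (fun u : G × Ω => g u.2) b) (fun u => u.1 - f u.2)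
      - pr p g b * (ent x / 2) - pr p g b * H (cnd p g b) f / 2 := by
    intro b
    rw [pr_pp_snd hx g, E7a_cnd_pp hx]
    rcases (pr_nonneg hp g b).lt_or_eq with hb | hb
    · have hc := cnd_isP hp g b hb
      unfold rd
      rw [E7a_H_sub hx hc, ← H_eq_ent]
      ring
    · rw [← hb]
      ring
  rw [Finset.sum_congr rfl (fun b _ => h3 b), Finset.sum_sub_distrib, Finset.sum_sub_distrib,
    ← Finset.sum_mul, (pr_isP hp g).2, ← Finset.sum_div]
  unfold rdc
  rw [h1, h2]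
  ring

theorem rdc_le (hp : IsP p) (hx : IsP x) (f : Ω → G) (g : Ω → β) :
    rdc x p f g ≤ rd x (pr p f) + (H p f + H p g - H p (fun ω => (f ω, g ω))) / 2 := by
  have h1 := H_pair_le (pp_isP hx hp) (fun u : G × Ω => u.1 - f u.2) (fun u => g u.2)
  rw [H_pp_snd hx g] at h1
  unfold rdc rd
  rw [E7a_H_sub hx hp, ← H_eq_ent]
  linarith

theorem E7a_pr_cnd (p : Ω → ℝ) (f : Ω → β) (g : Ω → δ) (b : β) (c : δ) :
    pr (cnd p g c) f b = pr p (fun ω => (f ω, g ω)) (b, c) / pr p g c := by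
  unfold pr pe cnd
  rw [Finset.sum_div]
  refine Finset.sum_congr rfl fun ω _ => ?_
  by_cases h1 : f ω = b
  · by_cases h2 : g ω = c
    · simp [h1, h2, pr, pe]
    · simp [h1, h2]
  · simp [h1]

open Classical in
theorem E7a_cnd_apply (p : Ω → ℝ) (g : Ω → β) (b : β) (ω : Ω) :
    cnd p g b ω = if g ω = b then p ω / pr p g b else 0 := by
  unfold cnd
  rfl

theorem cnd_pair (p : Ω → ℝ) (f : Ω → β) (g : Ω → δ) (b : β) (c : δ) (hp : IsP p)
    (h : 0 < pr p g c) : cnd (cnd p g c) f b = cnd p (fun ω => (f ω, g ω)) (b, c) := by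
  classical
  funext ω
  rw [E7a_cnd_apply, E7a_cnd_apply, E7a_cnd_apply, E7a_pr_cnd p f g b c]
  by_cases hf : f ω = b
  · by_cases hg : g ω = c
    · rw [if_pos hf, if_pos hg, if_pos (by rw [hf, hg]), div_div_div_cancel_right₀ h.ne']
    · rw [if_pos hf, if_neg hg, if_neg (by simp [hg]), zero_div]
  · rw [if_neg hf, if_neg (by simp [hf])]

end Pool.Agent.Ldc
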