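import Pool.Agent.Ldc.E1
set_option autoImplicit false

/-!
# E2.  Submodularity of entropy and data processing.

`H_submod`:  with `P(a,b,c)` etc. the laws,
`H(f,g,h)+H(h)-H(f,h)-H(g,h) = Σ_ω p(ω) log [ P(f,h)(ω) P(g,h)(ω) / (P(f,g,h)(ω) P(h)(ω)) ]`
`≤ Σ_ω p(ω) ( P(f,h) P(g,h) / (P(f,g,h) P(h)) - 1 )` (log x ≤ x - 1, for p(ω) > 0 everything is > 0)
and, grouping the ω by the value (a,b,c) of (f,g,h) (finite image),
`= Σ_{(a,b,c) in the image} P(a,c)P(b,c)/P(c) - 1 ≤ Σ_c Σ_{a,b} P(a,c)P(b,c)/P(c) - 1 = 0`.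
(One may replace the codomains by the finite subtypes `Set.range`, or by `Ω`-indexed quotients.)
`cmi_comp_le`: `H_submod` with `f, g, (φ f, h)`, then the same on the other side.
-/
namespace Pool.Agent.Ldc
open Finset
variable {Ω α β δ α' β' : Type} [Fintype Ω] {p : Ω → ℝ}

private theorem E2_H_ker (p : Ω → ℝ) (f : Ω → α) (g : Ω → β)
    (h : ∀ ω ω', f ω = f ω' ↔ g ω = g ω') : H p f = H p g := by
  unfold H
  congr 1
  refine Finset.sum_congr rfl fun ω _ => ?_
  have h1 : (fun ω' => f ω' = f ω) = (fun ω' => g ω' = g ω) := funext fun ω' => propext (h ω' ω)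
  unfold pr
  rw [h1]

private theorem E2_marg [Fintype α] [Fintype δ] (p : Ω → ℝ) (f : Ω → α) (h : Ω → δ) (c : δ) :
    ∑ a, pr p (fun ω => (f ω, h ω)) (a, c) = pr p h c := by
  classical
  have h1 := congrFun (pr_pr p (fun ω => (f ω, h ω)) Prod.snd) c
  simp only at h1
  have h2 : pr (pr p (fun ω => (f ω, h ω))) Prod.snd c
      = ∑ a, pr p (fun ω => (f ω, h ω)) (a, c) := by
    unfold pr pe
    rw [Fintype.sum_prod_type]
    refine Finset.sum_congr rfl fun a _ => ?_
    rw [Finset.sum_eq_single c]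
    · simp
    · intro b _ hb
      simp [hb]
    · intro hc
      exact absurd (Finset.mem_univ c) hc
  rw [← h2, h1]

private theorem E2_main [Fintype α] [Fintype β] [Fintype δ] (hp : IsP p) (f : Ω → α) (g : Ω → β)
    (h : Ω → δ) :
    H p (fun ω => (f ω, g ω, h ω)) + H p h
      ≤ H p (fun ω => (f ω, h ω)) + H p (fun ω => (g ω, h ω)) := by
  classical
  have key : ∑ ω, p ω * Real.log (pr p (fun ω => (f ω, h ω)) (f ω, h ω)
      * pr p (fun ω => (g ω, h ω)) (g ω, h ω)
      / (pr p (fun ω => (f ω, g ω, h ω)) (f ω, g ω, h ω) * pr p h (h ω))) ≤ 0 := by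
    have step1 : ∀ ω, p ω * Real.log (pr p (fun ω => (f ω, h ω)) (f ω, h ω)
        * pr p (fun ω => (g ω, h ω)) (g ω, h ω)
        / (pr p (fun ω => (f ω, g ω, h ω)) (f ω, g ω, h ω) * pr p h (h ω)))
        ≤ p ω * (pr p (fun ω => (f ω, h ω)) (f ω, h ω)
        * pr p (fun ω => (g ω, h ω)) (g ω, h ω)
        / (pr p (fun ω => (f ω, g ω, h ω)) (f ω, g ω, h ω) * pr p h (h ω))) - p ω := by
      intro ω
      rcases (hp.nonneg ω).eq_or_lt with h0 | h0
      · rw [← h0]; simp
      · have a1 := pr_pos hp (fun ω => (f ω, h ω)) h0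
        have a2 := pr_pos hp (fun ω => (g ω, h ω)) h0
        have a3 := pr_pos hp (fun ω => (f ω, g ω, h ω)) h0
        have a4 := pr_pos hp h h0
        have hx := Real.log_le_sub_one_of_pos (div_pos (mul_pos a1 a2) (mul_pos a3 a4))
        have := mul_le_mul_of_nonneg_left hx h0.le
        linarith
    have step2 : ∑ ω, p ω * (pr p (fun ω => (f ω, h ω)) (f ω, h ω)
        * pr p (fun ω => (g ω, h ω)) (g ω, h ω)
        / (pr p (fun ω => (f ω, g ω, h ω)) (f ω, g ω, h ω) * pr p h (h ω))) ≤ 1 := by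
      rw [← sum_pr_mul p (fun ω => (f ω, g ω, h ω)) (fun x : α × β × δ =>
        pr p (fun ω => (f ω, h ω)) (x.1, x.2.2) * pr p (fun ω => (g ω, h ω)) (x.2.1, x.2.2)
        / (pr p (fun ω => (f ω, g ω, h ω)) x * pr p h x.2.2))]
      have step3 : ∀ x : α × β × δ, pr p (fun ω => (f ω, g ω, h ω)) x *
          (pr p (fun ω => (f ω, h ω)) (x.1, x.2.2) * pr p (fun ω => (g ω, h ω)) (x.2.1, x.2.2)
          / (pr p (fun ω => (f ω, g ω, h ω)) x * pr p h x.2.2))
          ≤ pr p (fun ω => (f ω, h ω)) (x.1, x.2.2) * pr p (fun ω => (g ω, h ω)) (x.2.1, x.2.2)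
            / pr p h x.2.2 := by
        intro x
        have b1 := pr_nonneg hp (fun ω => (f ω, h ω)) (x.1, x.2.2)
        have b2 := pr_nonneg hp (fun ω => (g ω, h ω)) (x.2.1, x.2.2)
        have b3 := pr_nonneg hp (fun ω => (f ω, g ω, h ω)) x
        have b4 := pr_nonneg hp h x.2.2
        rcases b3.eq_or_lt with h0 | h0
        · rw [← h0, zero_mul]
          positivity
        · apply le_of_eq
          rw [← mul_div_assoc, mul_div_mul_left _ _ h0.ne']
      refine (Finset.sum_le_sum fun x _ => step3 x).trans ?_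
      rw [Fintype.sum_prod_type]
      have h5 : ∑ a : α, ∑ y : β × δ, pr p (fun ω => (f ω, h ω)) (a, y.2)
          * pr p (fun ω => (g ω, h ω)) (y.1, y.2) / pr p h y.2
          = ∑ c : δ, pr p h c * pr p h c / pr p h c := by
        have : ∀ a : α, ∑ y : β × δ, pr p (fun ω => (f ω, h ω)) (a, y.2)
          * pr p (fun ω => (g ω, h ω)) (y.1, y.2) / pr p h y.2
          = ∑ c : δ, pr p (fun ω => (f ω, h ω)) (a, c) * pr p h c / pr p h c := by
          intro a
          rw [Fintype.sum_prod_type_right]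
          refine Finset.sum_congr rfl fun c _ => ?_
          show ∑ x, pr p (fun ω => (f ω, h ω)) (a, c) * pr p (fun ω => (g ω, h ω)) (x, c)
            / pr p h c = _
          rw [← Finset.sum_div, ← Finset.mul_sum, E2_marg]
        simp_rw [this]
        rw [Finset.sum_comm]
        refine Finset.sum_congr rfl fun c _ => ?_
        rw [← Finset.sum_div, ← Finset.sum_mul, E2_marg]
      have h6 : ∑ c : δ, pr p h c * pr p h c / pr p h c = ∑ c, pr p h c := by
        refine Finset.sum_congr rfl fun c _ => ?_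
        by_cases hc : pr p h c = 0
        · simp [hc]
        · field_simp
      exact le_of_eq (h5.trans (h6.trans (pr_isP hp h).2))
    calc _ ≤ ∑ ω, (p ω * (pr p (fun ω => (f ω, h ω)) (f ω, h ω)
        * pr p (fun ω => (g ω, h ω)) (g ω, h ω)
        / (pr p (fun ω => (f ω, g ω, h ω)) (f ω, g ω, h ω) * pr p h (h ω))) - p ω) :=
          Finset.sum_le_sum fun ω _ => step1 ω
      _ ≤ 0 := by
          rw [Finset.sum_sub_distrib, hp.2]
          linarith
  have key2 : ∑ ω, p ω * Real.log (pr p (fun ω => (f ω, h ω)) (f ω, h ω)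
      * pr p (fun ω => (g ω, h ω)) (g ω, h ω)
      / (pr p (fun ω => (f ω, g ω, h ω)) (f ω, g ω, h ω) * pr p h (h ω)))
      = ∑ ω, (p ω * Real.log (pr p (fun ω => (f ω, h ω)) (f ω, h ω))
        + p ω * Real.log (pr p (fun ω => (g ω, h ω)) (g ω, h ω))
        - p ω * Real.log (pr p (fun ω => (f ω, g ω, h ω)) (f ω, g ω, h ω))
        - p ω * Real.log (pr p h (h ω))) := by
    refine Finset.sum_congr rfl fun ω _ => ?_
    rcases (hp.nonneg ω).eq_or_lt with h0 | h0
    · rw [← h0]; simp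
    · have a1 := pr_pos hp (fun ω => (f ω, h ω)) h0
      have a2 := pr_pos hp (fun ω => (g ω, h ω)) h0
      have a3 := pr_pos hp (fun ω => (f ω, g ω, h ω)) h0
      have a4 := pr_pos hp h h0
      rw [Real.log_div (mul_pos a1 a2).ne' (mul_pos a3 a4).ne', Real.log_mul a1.ne' a2.ne',
        Real.log_mul a3.ne' a4.ne']
      ring
  rw [key2, Finset.sum_sub_distrib, Finset.sum_sub_distrib, Finset.sum_add_distrib] at key
  unfold H
  linarith

theorem H_submod (hp : IsP p) (f : Ω → α) (g : Ω → β) (h : Ω → δ) :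
    H p (fun ω => (f ω, g ω, h ω)) + H p h
      ≤ H p (fun ω => (f ω, h ω)) + H p (fun ω => (g ω, h ω)) := by
  classical
  have : Fintype (Set.range f) := Fintype.ofFinite _
  have : Fintype (Set.range g) := Fintype.ofFinite _
  have : Fintype (Set.range h) := Fintype.ofFinite _
  have e := E2_main hp (Set.rangeFactorization f) (Set.rangeFactorization g)
    (Set.rangeFactorization h)
  have e1 : H p (fun ω => (f ω, g ω, h ω)) = H p (fun ω => (Set.rangeFactorization f ω,
      Set.rangeFactorization g ω, Set.rangeFactorization h ω)) :=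
    E2_H_ker _ _ _ fun ω ω' => by
      simp [Prod.ext_iff, Subtype.ext_iff, Set.rangeFactorization]
  have e2 : H p (fun ω => (f ω, h ω)) = H p (fun ω => (Set.rangeFactorization f ω,
      Set.rangeFactorization h ω)) :=
    E2_H_ker _ _ _ fun ω ω' => by
      simp [Prod.ext_iff, Subtype.ext_iff, Set.rangeFactorization]
  have e3 : H p (fun ω => (g ω, h ω)) = H p (fun ω => (Set.rangeFactorization g ω,
      Set.rangeFactorization h ω)) :=
    E2_H_ker _ _ _ fun ω ω' => by
      simp [Prod.ext_iff, Subtype.ext_iff, Set.rangeFactorization]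
  have e4 : H p h = H p (Set.rangeFactorization h) :=
    E2_H_ker _ _ _ fun ω ω' => by
      simp [Subtype.ext_iff, Set.rangeFactorization]
  rw [e1, e2, e3, e4]
  exact e

theorem H_pair_le (hp : IsP p) (f : Ω → α) (g : Ω → β) :
    H p (fun ω => (f ω, g ω)) ≤ H p f + H p g := by
  have h := H_submod hp f g (fun _ : Ω => ())
  have h0 : H p (fun _ : Ω => ()) = 0 := H_const hp _ fun _ _ => rfl
  have h1 : H p (fun ω => (f ω, g ω, ())) = H p (fun ω => (f ω, g ω)) :=
    E2_H_ker _ _ _ fun ω ω' => by simp [Prod.ext_iff]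
  have h2 : H p (fun ω => (f ω, ())) = H p f :=
    E2_H_ker _ _ _ fun ω ω' => by simp [Prod.ext_iff]
  have h3 : H p (fun ω => (g ω, ())) = H p g :=
    E2_H_ker _ _ _ fun ω ω' => by simp [Prod.ext_iff]
  rw [h0, h1, h2, h3] at h
  linarith

theorem H_le_pair (hp : IsP p) (f : Ω → α) (g : Ω → β) : H p f ≤ H p (fun ω => (f ω, g ω)) :=
  H_comp_le hp (fun ω => (f ω, g ω)) Prod.fst

theorem H_le_pair' (hp : IsP p) (f : Ω → α) (g : Ω → β) : H p g ≤ H p (fun ω => (f ω, g ω)) :=
  H_comp_le hp (fun ω => (f ω, g ω)) Prod.snd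

theorem cmi_nonneg (hp : IsP p) (f : Ω → α) (g : Ω → β) (h : Ω → δ) : 0 ≤ cmi p f g h := by
  have := H_submod hp f g h
  unfold cmi
  linarith

private theorem E2_left (hp : IsP p) (f : Ω → α) (g : Ω → β) (h : Ω → δ) (φ : α → α') :
    cmi p (fun ω => φ (f ω)) g h ≤ cmi p f g h := by
  have e := H_submod hp f g (fun ω => (φ (f ω), h ω))
  have h1 : H p (fun ω => (f ω, g ω, (φ (f ω), h ω))) = H p (fun ω => (f ω, g ω, h ω)) :=
    E2_H_ker _ _ _ fun ω ω' => by
      simp only [Prod.ext_iff]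
      constructor
      · rintro ⟨a, b, c, d⟩; exact ⟨a, b, d⟩
      · rintro ⟨a, b, c⟩; exact ⟨a, b, by rw [a], c⟩
  have h2 : H p (fun ω => (f ω, (φ (f ω), h ω))) = H p (fun ω => (f ω, h ω)) :=
    E2_H_ker _ _ _ fun ω ω' => by
      simp only [Prod.ext_iff]
      constructor
      · rintro ⟨a, c, d⟩; exact ⟨a, d⟩
      · rintro ⟨a, c⟩; exact ⟨a, by rw [a], c⟩
  have h3 : H p (fun ω => (g ω, (φ (f ω), h ω))) = H p (fun ω => (φ (f ω), g ω, h ω)) :=
    E2_H_ker _ _ _ fun ω ω' => by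
      simp only [Prod.ext_iff]
      constructor
      · rintro ⟨a, c, d⟩; exact ⟨c, a, d⟩
      · rintro ⟨c, a, d⟩; exact ⟨a, c, d⟩
  rw [h1, h2, h3] at e
  unfold cmi
  linarith

private theorem E2_symm (p : Ω → ℝ) (f : Ω → α) (g : Ω → β) (h : Ω → δ) :
    cmi p f g h = cmi p g f h := by
  have h3 : H p (fun ω => (f ω, g ω, h ω)) = H p (fun ω => (g ω, f ω, h ω)) :=
    E2_H_ker _ _ _ fun ω ω' => by
      simp only [Prod.ext_iff]
      constructor
      · rintro ⟨a, c, d⟩; exact ⟨c, a, d⟩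
      · rintro ⟨c, a, d⟩; exact ⟨a, c, d⟩
  unfold cmi
  rw [h3]
  ring

/-- data processing -/
theorem cmi_comp_le (hp : IsP p) (f : Ω → α) (g : Ω → β) (h : Ω → δ) (φ : α → α') (ψ : β → β') :
    cmi p (fun ω => φ (f ω)) (fun ω => ψ (g ω)) h ≤ cmi p f g h := by
  refine (E2_left hp f _ h φ).trans ?_
  rw [E2_symm, E2_symm p f g h]
  exact E2_left hp g f h ψ

/-- more conditioning decreases conditional entropy: `H[f | g, h] ≤ H[f | h']` when `h' = φ (g, h)`;
here in the form: `k` is a function of `g` -/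
theorem H_cond_anti (hp : IsP p) (f : Ω → α) (g : Ω → β) (φ : β → δ) :
    H p (fun ω => (f ω, g ω)) - H p g
      ≤ H p (fun ω => (f ω, φ (g ω))) - H p (fun ω => φ (g ω)) := by
  have e := H_submod hp f g (fun ω => φ (g ω))
  have h1 : H p (fun ω => (f ω, g ω, φ (g ω))) = H p (fun ω => (f ω, g ω)) :=
    E2_H_ker _ _ _ fun ω ω' => by
      simp only [Prod.ext_iff]
      constructor
      · rintro ⟨a, b, c⟩; exact ⟨a, b⟩
      · rintro ⟨a, b⟩; exact ⟨a, b, by rw [b]⟩
  have h2 : H p (fun ω => (g ω, φ (g ω))) = H p g :=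
    E2_H_ker _ _ _ fun ω ω' => by
      simp only [Prod.ext_iff]
      constructor
      · rintro ⟨b, c⟩; exact b
      · intro b; exact ⟨b, by rw [b]⟩
  rw [h1, h2] at e
  linarith

end Pool.Agent.Ldc
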