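import Pool.Agent.Ldc.E6
import Pool.Agent.Ldc.E4
set_option autoImplicit false

/-!
# E7b.  The entropic Balog-Szemeredi-Gowers inequality (unconditional form).

`Z = A+B`.  Let `(A1,B1),(A2,B2)` be two copies of `(A,B)` conditionally independent given `Z`: on `Ω×Ω` put the
weight `P2(ω,ω') = p(ω)p(ω')/P(Z = Z ω)` if `Z ω = Z ω'`, else 0 (a probability; both marginals are `p`; given
`Z = z` it is the product of two copies of `cnd p Z z`).  Then `A1 - B2 = A2 - B1`, so by submodularity (with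
`f = (A1,B2)`, `g = (A2,B1)`, `h = A1 - B2`)
`H(A1,B1,A2,B2) + H(A1-B2) ≤ H(A1,B2) + H(A2,B1) ≤ 2H(A)+2H(B)`, and `H(A1,B1,A2,B2) = 2H(A,B) - H(Z)`,
so `H(A1-B2 | Z) ≤ H(A1-B2) ≤ 2 (H A + H B - H(A,B)) + H(Z)`; and `H(A|Z) = H(B|Z) = H(A,B) - H(Z)`.
`Σ_z P(Z=z) rd(A|z, B|z) = H(A1-B2|Z) - H(A|Z)/2 - H(B|Z)/2 ≤ 3 I[A:B] + 2H(Z) - H(A) - H(B)`.
-/
namespace Pool.Agent.Ldc
open Finset
variable {Ω G : Type} [Fintype Ω] [AddCommGroup G] [Fintype G] {p : Ω → ℝ}

open Classical in
private theorem E7b_pr_eq {Ω₀ α₀ : Type} [Fintype Ω₀] (p₀ : Ω₀ → ℝ) (f₀ : Ω₀ → α₀) (a₀ : α₀) :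
    pr p₀ f₀ a₀ = ∑ ω, if f₀ ω = a₀ then p₀ ω else 0 := rfl

open Classical in
private theorem E7b_pe_eq {Ω₀ : Type} [Fintype Ω₀] (p₀ : Ω₀ → ℝ) (A : Ω₀ → Prop) :
    pe p₀ A = ∑ ω, if A ω then p₀ ω else 0 := rfl

/-- equality on the support is enough for the entropies to agree -/
private theorem E7b_H_supp {Ω' α : Type} [Fintype Ω'] {r : Ω' → ℝ} (hr : IsP r) (f g : Ω' → α)
    (h : ∀ ω, 0 < r ω → f ω = g ω) : H r f = H r g := by
  classical
  have hpr : pr r f = pr r g := by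
    funext a
    simp only [E7b_pr_eq]
    refine Finset.sum_congr rfl fun ω _ => ?_
    rcases (hr.1 ω).lt_or_eq with h0 | h0
    · rw [h ω h0]
    · rw [← h0]; simp
  unfold H
  congr 1
  refine Finset.sum_congr rfl fun ω _ => ?_
  rcases (hr.1 ω).lt_or_eq with h0 | h0
  · rw [hpr, h ω h0]
  · rw [← h0]; simp

open Classical in
/-- two copies, conditionally independent given `Z` -/
private noncomputable def E7b_P2 {Ω' β : Type} [Fintype Ω'] (p : Ω' → ℝ) (Z : Ω' → β) : Ω' × Ω' → ℝ :=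
  fun x => if Z x.1 = Z x.2 then p x.1 * p x.2 / pr p Z (Z x.1) else 0

private theorem E7b_P2_nonneg {β : Type} (hp : IsP p) (Z : Ω → β) (x : Ω × Ω) :
    0 ≤ E7b_P2 p Z x := by
  unfold E7b_P2
  split_ifs
  · exact div_nonneg (mul_nonneg (hp.1 _) (hp.1 _)) (pr_nonneg hp Z _)
  · exact le_refl _

private theorem E7b_P2_symm {β : Type} (Z : Ω → β) (a b : Ω) :
    E7b_P2 p Z (a, b) = E7b_P2 p Z (b, a) := by
  unfold E7b_P2
  by_cases h : Z a = Z b
  · rw [if_pos h, if_pos h.symm]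
    simp only [h]
    rw [mul_comm]
  · rw [if_neg h, if_neg (fun h' => h h'.symm)]

private theorem E7b_marg {β : Type} (hp : IsP p) (Z : Ω → β) (a : Ω) :
    ∑ b, E7b_P2 p Z (a, b) = p a := by
  classical
  rcases (hp.1 a).lt_or_eq with h0 | h0
  · have hpos := pr_pos hp Z h0
    have h1 : ∀ b, E7b_P2 p Z (a, b) = (p a / pr p Z (Z a)) * (if Z b = Z a then p b else 0) := by
      intro b
      unfold E7b_P2
      by_cases h : Z b = Z a
      · rw [if_pos h.symm, if_pos h]; simp only; ring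
      · rw [if_neg (fun h' => h h'.symm), if_neg h, mul_zero]
    rw [Finset.sum_congr rfl (fun b _ => h1 b), ← Finset.mul_sum]
    have h2 : (∑ b, if Z b = Z a then p b else 0) = pr p Z (Z a) := by
      rw [E7b_pr_eq]
    rw [h2]
    field_simp
  · rw [← h0]
    refine Finset.sum_eq_zero fun b _ => ?_
    unfold E7b_P2
    simp [← h0]

private theorem E7b_marg' {β : Type} (hp : IsP p) (Z : Ω → β) (a : Ω) :
    ∑ b, E7b_P2 p Z (b, a) = p a := by
  rw [← E7b_marg hp Z a]
  exact Finset.sum_congr rfl fun b _ => E7b_P2_symm Z b a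

private theorem E7b_isP {β : Type} (hp : IsP p) (Z : Ω → β) : IsP (E7b_P2 p Z) := by
  refine ⟨E7b_P2_nonneg hp Z, ?_⟩
  rw [Fintype.sum_prod_type]
  rw [Finset.sum_congr rfl (fun a _ => E7b_marg hp Z a)]
  exact hp.2

private theorem E7b_pr_fst {α β : Type} (hp : IsP p) (Z : Ω → β) (F : Ω → α) :
    pr (E7b_P2 p Z) (fun x => F x.1) = pr p F := by
  classical
  funext a
  simp only [E7b_pr_eq]
  rw [Fintype.sum_prod_type]
  refine Finset.sum_congr rfl fun ω _ => ?_
  by_cases h : F ω = a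
  · simp only [h, if_true]
    exact E7b_marg hp Z ω
  · simp only [h, if_false]
    exact Finset.sum_const_zero

private theorem E7b_H_fst {α β : Type} (hp : IsP p) (Z : Ω → β) (F : Ω → α) :
    H (E7b_P2 p Z) (fun x => F x.1) = H p F := by
  unfold H
  rw [E7b_pr_fst hp Z F]
  congr 1
  rw [Fintype.sum_prod_type]
  refine Finset.sum_congr rfl fun ω _ => ?_
  show ∑ y, E7b_P2 p Z (ω, y) * Real.log (pr p F (F ω)) = _
  rw [← Finset.sum_mul]
  rw [E7b_marg hp Z ω]

private theorem E7b_pr_snd {α β : Type} (hp : IsP p) (Z : Ω → β) (F : Ω → α) :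
    pr (E7b_P2 p Z) (fun x => F x.2) = pr p F := by
  classical
  funext a
  simp only [E7b_pr_eq]
  rw [Fintype.sum_prod_type_right]
  refine Finset.sum_congr rfl fun ω _ => ?_
  by_cases h : F ω = a
  · simp only [h, if_true]
    exact E7b_marg' hp Z ω
  · simp only [h, if_false]
    exact Finset.sum_const_zero

private theorem E7b_H_snd {α β : Type} (hp : IsP p) (Z : Ω → β) (F : Ω → α) :
    H (E7b_P2 p Z) (fun x => F x.2) = H p F := by
  unfold H
  rw [E7b_pr_snd hp Z F]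
  congr 1
  rw [Fintype.sum_prod_type_right]
  refine Finset.sum_congr rfl fun ω _ => ?_
  show ∑ y, E7b_P2 p Z (y, ω) * Real.log (pr p F (F ω)) = _
  rw [← Finset.sum_mul]
  rw [E7b_marg' hp Z ω]

private theorem E7b_cnd {β : Type} (hp : IsP p) (Z : Ω → β) (z : β) :
    cnd (E7b_P2 p Z) (fun x => Z x.1) z = pp (cnd p Z z) (cnd p Z z) := by
  funext x
  simp only [cnd, pp]
  rw [E7b_pr_fst hp Z Z]
  by_cases h1 : Z x.1 = z
  · rw [if_pos h1, if_pos h1]
    by_cases h2 : Z x.2 = z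
    · rw [if_pos h2]
      unfold E7b_P2
      rw [if_pos (h1.trans h2.symm), h1]
      by_cases h3 : pr p Z z = 0
      · rw [h3]; simp
      · field_simp
    · rw [if_neg h2, mul_zero]
      unfold E7b_P2
      rw [if_neg (fun h => h2 (h.symm.trans h1))]
      simp
  · rw [if_neg h1, if_neg h1, zero_mul]

theorem BSG0 (hp : IsP p) (A B : Ω → G) :
    ∑ z : G, pr p (fun ω => A ω + B ω) z
        * rd (pr (cnd p (fun ω => A ω + B ω) z) A) (pr (cnd p (fun ω => A ω + B ω) z) B)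
      ≤ 3 * (H p A + H p B - H p (fun ω => (A ω, B ω))) + 2 * H p (fun ω => A ω + B ω)
        - H p A - H p B := by
  classical
  set Z : Ω → G := fun ω => A ω + B ω with hZ
  have hP2 : IsP (E7b_P2 p Z) := E7b_isP hp Z
  set P2 : Ω × Ω → ℝ := E7b_P2 p Z with hP2def
  -- the conditional entropies of A and B
  have hcA : ∑ z, pr p Z z * H (cnd p Z z) A = H p (fun ω => (A ω, B ω)) - H p Z := by
    have h1 := H_cond_sum hp A Z
    have h2 : H p (fun ω => (A ω, Z ω)) = H p (fun ω => (A ω, B ω)) :=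
      H_congr hp _ _ (fun x => (x.1, x.2 - x.1)) (fun x => (x.1, x.1 + x.2))
        (fun ω => by simp [hZ]) (fun ω => by simp [hZ])
    linarith
  have hcB : ∑ z, pr p Z z * H (cnd p Z z) B = H p (fun ω => (A ω, B ω)) - H p Z := by
    have h1 := H_cond_sum hp B Z
    have h2 : H p (fun ω => (B ω, Z ω)) = H p (fun ω => (A ω, B ω)) :=
      H_congr hp _ _ (fun x => (x.2 - x.1, x.1)) (fun x => (x.2, x.1 + x.2))
        (fun ω => by simp [hZ]) (fun ω => by simp [hZ])
    linarith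
  have hcAB : ∑ z, pr p Z z * H (cnd p Z z) (fun ω => (A ω, B ω))
      = H p (fun ω => (A ω, B ω)) - H p Z := by
    have h1 := H_cond_sum hp (fun ω => (A ω, B ω)) Z
    have h2 : H p (fun ω => ((A ω, B ω), Z ω)) = H p (fun ω => (A ω, B ω)) :=
      H_congr hp _ _ (fun x => x.1) (fun x => (x, x.1 + x.2))
        (fun ω => by simp) (fun ω => by simp [hZ])
    linarith
  -- joint entropy of the two copies
  have hjoint : H P2 (fun x => ((A x.1, B x.1), (A x.2, B x.2)))
      = 2 * H p (fun ω => (A ω, B ω)) - H p Z := by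
    have h1 := H_cond_sum hP2 (fun x => ((A x.1, B x.1), (A x.2, B x.2))) (fun x => Z x.1)
    have h2 : H P2 (fun x => (((A x.1, B x.1), (A x.2, B x.2)), Z x.1))
        = H P2 (fun x => ((A x.1, B x.1), (A x.2, B x.2))) :=
      H_congr hP2 _ _ (fun x => x.1) (fun x => (x, x.1.1 + x.1.2))
        (fun ω => by simp) (fun ω => by simp [hZ])
    have h3 : ∀ z, pr P2 (fun x => Z x.1) z
          * H (cnd P2 (fun x => Z x.1) z) (fun x => ((A x.1, B x.1), (A x.2, B x.2)))
        = 2 * (pr p Z z * H (cnd p Z z) (fun ω => (A ω, B ω))) := by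
      intro z
      rw [hP2def, E7b_cnd hp Z z, E7b_pr_fst hp Z Z]
      rcases (pr_nonneg hp Z z).lt_or_eq with h0 | h0
      · have hc := cnd_isP hp Z z h0
        have h4 := H_indep (pp_isP hc hc) (fun x : Ω × Ω => (A x.1, B x.1))
          (fun x : Ω × Ω => (A x.2, B x.2))
          (indep_pp hc hc (fun ω => (A ω, B ω)) (fun ω => (A ω, B ω)))
        rw [h4, H_pp_fst hc (fun ω => (A ω, B ω)), H_pp_snd hc (fun ω => (A ω, B ω))]
        ring
      · rw [← h0]; ring
    rw [Finset.sum_congr rfl (fun z _ => h3 z), ← Finset.mul_sum, hcAB] at h1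
    have h5 : H P2 (fun x => Z x.1) = H p Z := E7b_H_fst hp Z Z
    linarith
  -- submodularity
  have hsub := H_submod hP2 (fun x => (A x.1, B x.2)) (fun x => (A x.2, B x.1))
    (fun x => A x.1 - B x.2)
  have hs1 : H P2 (fun x => ((A x.1, B x.2), (A x.2, B x.1), A x.1 - B x.2))
      = 2 * H p (fun ω => (A ω, B ω)) - H p Z := by
    rw [← hjoint]
    exact H_congr hP2 _ _ (fun y => ((y.1.1, y.2.1.2), (y.2.1.1, y.1.2)))
      (fun y => ((y.1.1, y.2.2), (y.2.1, y.1.2), y.1.1 - y.2.2))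
      (fun ω => by simp) (fun ω => by simp)
  have hs2 : H P2 (fun x => ((A x.1, B x.2), A x.1 - B x.2)) ≤ H p A + H p B := by
    have h1 : H P2 (fun x => ((A x.1, B x.2), A x.1 - B x.2)) = H P2 (fun x => (A x.1, B x.2)) :=
      H_congr hP2 _ _ (fun y => y.1) (fun y => (y, y.1 - y.2)) (fun ω => by simp) (fun ω => by simp)
    have h2 := H_pair_le hP2 (fun x => A x.1) (fun x => B x.2)
    have h3 : H P2 (fun x => A x.1) = H p A := E7b_H_fst hp Z A
    have h4 : H P2 (fun x => B x.2) = H p B := E7b_H_snd hp Z B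
    linarith
  have hs3 : H P2 (fun x => ((A x.2, B x.1), A x.1 - B x.2)) ≤ H p A + H p B := by
    have h0 : H P2 (fun x => ((A x.2, B x.1), A x.1 - B x.2))
        = H P2 (fun x => ((A x.2, B x.1), A x.2 - B x.1)) := by
      refine E7b_H_supp hP2 _ _ fun x hx => ?_
      have hz : Z x.1 = Z x.2 := by
        by_contra hne
        rw [hP2def] at hx
        unfold E7b_P2 at hx
        rw [if_neg hne] at hx
        exact lt_irrefl _ hx
      have hz' : A x.1 + B x.1 = A x.2 + B x.2 := hz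
      have : A x.1 - B x.2 = A x.2 - B x.1 := by
        rw [sub_eq_sub_iff_add_eq_add]; exact hz'
      rw [this]
    have h1 : H P2 (fun x => ((A x.2, B x.1), A x.2 - B x.1)) = H P2 (fun x => (A x.2, B x.1)) :=
      H_congr hP2 _ _ (fun y => y.1) (fun y => (y, y.1 - y.2)) (fun ω => by simp) (fun ω => by simp)
    have h2 := H_pair_le hP2 (fun x => A x.2) (fun x => B x.1)
    have h3 : H P2 (fun x => A x.2) = H p A := E7b_H_snd hp Z A
    have h4 : H P2 (fun x => B x.1) = H p B := E7b_H_fst hp Z B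
    linarith
  -- the conditional distance
  have hterm : ∀ z, pr p Z z * rd (pr (cnd p Z z) A) (pr (cnd p Z z) B)
      = pr P2 (fun x => Z x.1) z * H (cnd P2 (fun x => Z x.1) z) (fun x => A x.1 - B x.2)
        - (pr p Z z * H (cnd p Z z) A) / 2 - (pr p Z z * H (cnd p Z z) B) / 2 := by
    intro z
    rw [hP2def, E7b_cnd hp Z z, E7b_pr_fst hp Z Z]
    rcases (pr_nonneg hp Z z).lt_or_eq with h0 | h0
    · have hc := cnd_isP hp Z z h0
      have h4 := H_fun_of_indep (indep_pp hc hc A B) (fun y : G × G => y.1 - y.2)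
      rw [pr_pp_fst hc A, pr_pp_snd hc B] at h4
      unfold rd
      rw [← H_eq_ent, ← H_eq_ent, ← h4]
      ring
    · rw [← h0]; ring
  rw [Finset.sum_congr rfl (fun z _ => hterm z), Finset.sum_sub_distrib, Finset.sum_sub_distrib,
    ← Finset.sum_div, ← Finset.sum_div, hcA, hcB]
  have hcd := H_cond_sum hP2 (fun x => A x.1 - B x.2) (fun x => Z x.1)
  have hpl := H_pair_le hP2 (fun x => A x.1 - B x.2) (fun x => Z x.1)
  have h5 : H P2 (fun x => Z x.1) = H p Z := E7b_H_fst hp Z Z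
  linarith

end Pool.Agent.Ldc
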