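import Pool.Agent.Ldc.E7a
import Pool.Agent.Ldc.E7b
import Pool.Agent.Ldc.E2
set_option autoImplicit false

/-!
# E7c.  BSG with a conditioning variable.

Apply `BSG0` to `cnd p h c` for each `c` with `P(h = c) > 0` and sum with weights `P(h = c)`
(`cnd (cnd p h c) Z z = cnd p (Z,h) (z,c)` is `cnd_pair`, `P(Z = z | h = c) P(h = c) = P(Z = z, h = c)`;
`H_cond_sum` for each entropy; `cmi = Σ_c P(h=c) I_c`).
-/
namespace Pool.Agent.Ldc
open Finset
variable {Ω G δ : Type} [Fintype Ω] [AddCommGroup G] [Fintype G] {p : Ω → ℝ}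

private theorem E7c_pr_mul {β : Type} (hp : IsP p) (S : Ω → β) (h : Ω → δ) (z : β) (c : δ) :
    pr p (fun ω => (S ω, h ω)) (z, c) = pr p h c * pr (cnd p h c) S z := by
  classical
  by_cases h0 : pr p h c = 0
  · rw [h0, zero_mul]
    refine le_antisymm ?_ (pr_nonneg hp _ _)
    rw [← h0]
    unfold pr
    apply pe_mono hp
    intro ω hω
    exact (Prod.ext_iff.1 hω).2
  · unfold pr pe
    rw [Finset.mul_sum]
    apply Finset.sum_congr rfl
    intro ω _
    unfold cnd
    by_cases h1 : S ω = z <;> by_cases h2 : h ω = c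
    · have h3 : (∑ ω, if h ω = c then p ω else 0) ≠ 0 := by
        intro h4; apply h0; unfold pr pe; convert h4
      simp only [h1, h2, if_true]
      have h5 : pr p h c = ∑ ω, if h ω = c then p ω else 0 := by unfold pr pe; rfl
      rw [h5]
      field_simp
    · simp [h1, h2]
    · simp [h1, h2]
    · simp [h1, h2]

theorem BSG [Fintype δ] (hp : IsP p) (A B : Ω → G) (h : Ω → δ) :
    ∑ v : G × δ, pr p (fun ω => (A ω + B ω, h ω)) v
        * rd (pr (cnd p (fun ω => (A ω + B ω, h ω)) v) A)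
             (pr (cnd p (fun ω => (A ω + B ω, h ω)) v) B)
      ≤ 3 * cmi p A B h + 2 * (H p (fun ω => (A ω + B ω, h ω)) - H p h)
        - (H p (fun ω => (A ω, h ω)) - H p h) - (H p (fun ω => (B ω, h ω)) - H p h) := by
  classical
  have key : ∀ c : δ, ∑ z : G, pr p (fun ω => (A ω + B ω, h ω)) (z, c)
        * rd (pr (cnd p (fun ω => (A ω + B ω, h ω)) (z, c)) A)
             (pr (cnd p (fun ω => (A ω + B ω, h ω)) (z, c)) B)
      ≤ pr p h c * (3 * (H (cnd p h c) A + H (cnd p h c) B - H (cnd p h c) (fun ω => (A ω, B ω)))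
        + 2 * H (cnd p h c) (fun ω => A ω + B ω) - H (cnd p h c) A - H (cnd p h c) B) := by
    intro c
    rcases (pr_nonneg hp h c).eq_or_lt with h0 | h0
    · rw [← h0, zero_mul]
      apply le_of_eq
      apply Finset.sum_eq_zero
      intro z _
      rw [E7c_pr_mul hp (fun ω => A ω + B ω) h z c, ← h0]
      simp
    · have h1 := BSG0 (cnd_isP hp h c h0) A B
      have h2 := mul_le_mul_of_nonneg_left h1 h0.le
      refine le_trans (le_of_eq ?_) h2
      rw [Finset.mul_sum]
      apply Finset.sum_congr rfl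
      intro z _
      rw [E7c_pr_mul hp (fun ω => A ω + B ω) h z c, cnd_pair p (fun ω => A ω + B ω) h z c hp h0]
      ring
  rw [Fintype.sum_prod_type_right]
  refine le_trans (Finset.sum_le_sum (fun c _ => key c)) (le_of_eq ?_)
  have e1 := H_cond_sum hp A h
  have e2 := H_cond_sum hp B h
  have e3 := H_cond_sum hp (fun ω => (A ω, B ω)) h
  have e4 := H_cond_sum hp (fun ω => A ω + B ω) h
  have e5 : H p (fun ω => (A ω, B ω, h ω)) = H p (fun ω => ((A ω, B ω), h ω)) :=
    H_congr hp _ _ (fun x => ((x.1, x.2.1), x.2.2)) (fun x => (x.1.1, x.1.2, x.2))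
      (fun _ => rfl) (fun _ => rfl)
  unfold cmi
  rw [e5, e1, e2, e3, e4]
  have e6 : ∑ c, pr p h c * (3 * (H (cnd p h c) A + H (cnd p h c) B - H (cnd p h c) (fun ω => (A ω, B ω)))
        + 2 * H (cnd p h c) (fun ω => A ω + B ω) - H (cnd p h c) A - H (cnd p h c) B)
      = 3 * ((∑ c, pr p h c * H (cnd p h c) A) + (∑ c, pr p h c * H (cnd p h c) B)
          - ∑ c, pr p h c * H (cnd p h c) (fun ω => (A ω, B ω)))
        + 2 * (∑ c, pr p h c * H (cnd p h c) (fun ω => A ω + B ω))
        - (∑ c, pr p h c * H (cnd p h c) A) - (∑ c, pr p h c * H (cnd p h c) B) := by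
    simp only [Finset.mul_sum, ← Finset.sum_add_distrib, ← Finset.sum_sub_distrib]
    apply Finset.sum_congr rfl
    intro c _
    ring
  rw [e6]
  ring

end Pool.Agent.Ldc
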