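import Pool.Agent.Ldc.E5
import Pool.Agent.Ldc.E4
set_option autoImplicit false

/-!
# S1b.  Difference with the uniform law of a subgroup.

`u - v` with `v` uniform on `V`: given `π u = c` it is uniform on the coset `c` (`π (u - v) = π u`).  Direct
computation: `P(u - v = g) = P(π u = π g)/|V|`, so `H = Σ_g -(P/|V|) log (P/|V|) = log|V| + H(π u)`.
-/
namespace Pool.Agent.Ldc
open Finset

open Classical in
private theorem S1b_pr_eq {Ω₀ α₀ : Type} [Fintype Ω₀] (p₀ : Ω₀ → ℝ) (f₀ : Ω₀ → α₀) (a₀ : α₀) :
    pr p₀ f₀ a₀ = ∑ ω, if f₀ ω = a₀ then p₀ ω else 0 := rfl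

open Classical in
private theorem S1b_uS {G : Type} [AddCommGroup G] [Fintype G] (V : AddSubgroup G) :
    uS V = unif (univ.filter (fun g => g ∈ V)) := by
  unfold uS
  congr

open Classical in
private theorem S1b_card {G : Type} [AddCommGroup G] [Fintype G] (V : AddSubgroup G) :
    (((univ.filter (fun g => g ∈ V)).card : ℕ) : ℝ) = (Nat.card V : ℝ) := by
  have h : (univ.filter (fun g => g ∈ V)).card = Nat.card V := by
    rw [Nat.card_eq_fintype_card, Fintype.card_subtype]
  rw [h]

open Classical in
private theorem S1b_val {G : Type} [AddCommGroup G] [Fintype G] (V : AddSubgroup G) (g : G) :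
    uS V g = if g ∈ V then 1 / (Nat.card V : ℝ) else 0 := by
  rw [S1b_uS]
  unfold unif
  rw [S1b_card]
  by_cases h : g ∈ V
  · rw [if_pos h, if_pos (by simp [h])]
  · rw [if_neg h, if_neg (by simp [h])]

private theorem S1b_pos {G : Type} [AddCommGroup G] [Fintype G] (V : AddSubgroup G) :
    (0 : ℝ) < (Nat.card V : ℝ) := by
  have : 0 < Nat.card V := Nat.card_pos
  exact_mod_cast this

theorem uS_isP {G : Type} [AddCommGroup G] [Fintype G] (V : AddSubgroup G) : IsP (uS V) := by
  classical
  rw [S1b_uS]
  exact unif_isP _ ⟨0, by simp [V.zero_mem]⟩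

theorem ent_uS {G : Type} [AddCommGroup G] [Fintype G] (V : AddSubgroup G) :
    ent (uS V) = Real.log (Nat.card V) := by
  classical
  rw [ent_eq_H, S1b_uS, H_unif _ ⟨0, by simp [V.zero_mem]⟩ _ (fun a _ b _ h => h), S1b_card]

/-- the law of the difference -/
private theorem S1b_law {G : Type} [AddCommGroup G] [Fintype G] (x : G → ℝ) (V : AddSubgroup G)
    (g : G) :
    pr (pp x (uS V)) (fun u => u.1 - u.2) g
      = pr x (fun g => (QuotientAddGroup.mk g : G ⧸ V)) (QuotientAddGroup.mk g) / (Nat.card V : ℝ) := by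
  classical
  rw [S1b_pr_eq, S1b_pr_eq, Fintype.sum_prod_type, Finset.sum_div]
  refine Finset.sum_congr rfl fun a _ => ?_
  simp only [pp]
  rw [Finset.sum_eq_single (a - g)]
  · rw [if_pos (by abel), S1b_val]
    by_cases h : (QuotientAddGroup.mk a : G ⧸ V) = QuotientAddGroup.mk g
    · have h1 : a - g ∈ V := by
        have h2 := QuotientAddGroup.eq.mp h
        have h3 := V.neg_mem h2
        have h4 : -(-a + g) = a - g := by abel
        rwa [h4] at h3
      rw [if_pos h, if_pos h1]
      ring
    · have h1 : ¬ (a - g ∈ V) := by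
        intro h2
        apply h
        rw [QuotientAddGroup.eq]
        have h3 := V.neg_mem h2
        have h4 : -(a - g) = -a + g := by abel
        rwa [h4] at h3
      rw [if_neg h, if_neg h1]
      simp
  · intro b _ hb
    rw [if_neg]
    intro h
    apply hb
    rw [← h]; abel
  · intro h; exact absurd (mem_univ _) h

/-- uniform laws of subgroups: `H(x - u_V) = log|V| + H(π x)` -/
theorem H_sub_uS {G : Type} [AddCommGroup G] [Fintype G] (x : G → ℝ) (hx : IsP x)
    (V : AddSubgroup G) :
    H (pp x (uS V)) (fun u => u.1 - u.2)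
      = Real.log (Nat.card V) + H x (fun g => (QuotientAddGroup.mk g : G ⧸ V)) := by
  classical
  have hV := S1b_pos V
  have hu := uS_isP V
  have hpp := pp_isP hx hu
  unfold H
  have h1 : ∀ u : G × G, pp x (uS V) u
        * Real.log (pr (pp x (uS V)) (fun u => u.1 - u.2) (u.1 - u.2))
      = pp x (uS V) u * Real.log (pr x (fun g => (QuotientAddGroup.mk g : G ⧸ V))
          (QuotientAddGroup.mk u.1)) - pp x (uS V) u * Real.log (Nat.card V : ℝ) := by
    intro u
    rcases (hpp.1 u).lt_or_eq with h0 | h0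
    · have hx1 : 0 < x u.1 := by
        rcases (hx.1 u.1).lt_or_eq with h2 | h2
        · exact h2
        · exfalso; unfold pp at h0; rw [← h2, zero_mul] at h0; exact lt_irrefl _ h0
      have hv1 : u.2 ∈ V := by
        by_contra h2
        unfold pp at h0
        rw [S1b_val, if_neg h2, mul_zero] at h0
        exact lt_irrefl _ h0
      rw [S1b_law]
      have h3 : (QuotientAddGroup.mk (u.1 - u.2) : G ⧸ V) = QuotientAddGroup.mk u.1 := by
        rw [QuotientAddGroup.eq]
        have h4 : -(u.1 - u.2) + u.1 = u.2 := by abel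
        rw [h4]; exact hv1
      rw [h3, Real.log_div (pr_pos hx _ hx1).ne' hV.ne']
      ring
    · rw [← h0]; simp
  rw [Finset.sum_congr rfl (fun u _ => h1 u), Finset.sum_sub_distrib, ← Finset.sum_mul, hpp.2,
    one_mul]
  have h2 : ∑ u : G × G, pp x (uS V) u * Real.log (pr x (fun g => (QuotientAddGroup.mk g : G ⧸ V))
          (QuotientAddGroup.mk u.1))
      = ∑ g, x g * Real.log (pr x (fun g => (QuotientAddGroup.mk g : G ⧸ V))
          (QuotientAddGroup.mk g)) := by
    rw [Fintype.sum_prod_type]
    refine Finset.sum_congr rfl fun g _ => ?_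
    simp only [pp]
    rw [← Finset.sum_mul, ← Finset.mul_sum, hu.2, mul_one]
  rw [h2]
  ring

end Pool.Agent.Ldc
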