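import Pool.Agent.Ldc.E7b
set_option autoImplicit false

/-!
# S1a.  A law supported in `S` with small self-distance.

Let `Γ = {(a,b) ∈ S×S : a - b ∈ P}`, `λ = log (1/κ)`.  On the uniform law of `Γ` (on `G × G`, `unif Γ`) put `A = a`,
`B = -b`, `Z = A+B ∈ P`.  `H(A,B) = log|Γ| ≥ 2 log|S| - λ`, `H(A), H(B) ≤ log|S|`, `H(Z) ≤ log|P| ≤ log|S| + log K`
(`H_unif`, `H_le_log_card`); so `I[A:B] ≤ λ`, `H(A), H(B) ≥ log|S| - λ`.
BSG0: `Σ_z P(z) rd(A|z, B|z) ≤ 3λ + 2(log|S| + log K) - 2(log|S| - λ) = 5λ + 2 log K`, and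
`Σ_z P(z) (log|S| - H(A|z)) = log|S| - (H(A,B) - H(Z)) ≤ λ + log K` (`H_cond_sum`, `H((A,B) | Z) = H(A|Z)`).
So (`exists_le_avg`) some `z` with `P(z)>0` has `rd(A|z,B|z) + (log|S| - H(A|z)) ≤ 6λ + 3 log K`; both terms are
`≥ 0`.  Take `x = pr (cnd (unif Γ) Z z) A`, supported in `S`; `rd x x ≤ 2 rd(A|z,B|z)` (`rd_self_le`).
-/
namespace Pool.Agent.Ldc
open Finset

private theorem S1a_cnd_pos {Ω β : Type} [Fintype Ω] {p : Ω → ℝ} (hp : IsP p) (g : Ω → β) (b : β)
    {ω : Ω} (h : 0 < cnd p g b ω) : 0 < p ω ∧ g ω = b := by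
  classical
  have hgb : g ω = b := by
    by_contra hne
    unfold cnd at h
    rw [if_neg hne] at h
    exact lt_irrefl _ h
  refine ⟨?_, hgb⟩
  rcases (hp.1 ω).lt_or_eq with h5 | h5
  · exact h5
  · exfalso
    unfold cnd at h
    rw [if_pos hgb, ← h5, zero_div] at h
    exact lt_irrefl _ h

private theorem S1a_unif_pos {α : Type} {s : Finset α} {a : α} (h : 0 < unif s a) : a ∈ s := by
  classical
  by_contra hne
  unfold unif at h
  rw [if_neg hne] at h
  exact lt_irrefl _ h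

theorem S2_law {G : Type} [AddCommGroup G] [Fintype G] [DecidableEq G] (S P : Finset G)
    (hS : S.Nonempty) (κ K : ℝ) (hκ : 0 < κ) (hκ1 : κ ≤ 1) (hK : 1 ≤ K)
    (h1 : κ * (S.card : ℝ) ^ 2 ≤ (((S ×ˢ S).filter (fun u => u.1 - u.2 ∈ P)).card : ℝ))
    (h2 : (P.card : ℝ) ≤ K * S.card) :
    ∃ x : G → ℝ, IsP x ∧ (∀ g, 0 < x g → g ∈ S) ∧
      rd x x ≤ 12 * Real.log (1 / κ) + 6 * Real.log K ∧
      Real.log S.card - (6 * Real.log (1 / κ) + 3 * Real.log K) ≤ ent x := by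
  classical
  have hS0 : (0 : ℝ) < (S.card : ℝ) := by exact_mod_cast Finset.card_pos.mpr hS
  set Γ : Finset (G × G) := (S ×ˢ S).filter (fun u => u.1 - u.2 ∈ P) with hΓ
  have hΓ0 : (0 : ℝ) < (Γ.card : ℝ) := lt_of_lt_of_le (by positivity) h1
  have hΓne : Γ.Nonempty := by
    rw [← Finset.card_pos]; exact_mod_cast hΓ0
  have hmem : ∀ u ∈ Γ, u.1 ∈ S ∧ u.2 ∈ S ∧ u.1 - u.2 ∈ P := by
    intro u hu
    rw [hΓ, Finset.mem_filter, Finset.mem_product] at hu
    exact ⟨hu.1.1, hu.1.2, hu.2⟩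
  set p : G × G → ℝ := unif Γ with hpdef
  have hp : IsP p := unif_isP Γ hΓne
  set A : G × G → G := fun u => u.1 with hA
  set B : G × G → G := fun u => -u.2 with hB
  set Z : G × G → G := fun u => A u + B u with hZ
  have hsupp : ∀ u, 0 < p u → u ∈ Γ := fun u hu => S1a_unif_pos hu
  set l : ℝ := Real.log (1 / κ) with hl
  have hHAB : H p (fun u => (A u, B u)) = Real.log (Γ.card : ℝ) := by
    refine H_unif Γ hΓne _ ?_
    intro u _ v _ h
    have h3 := Prod.mk.inj h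
    exact Prod.ext h3.1 (neg_injective h3.2)
  have hΓlog : 2 * Real.log (S.card : ℝ) - l ≤ Real.log (Γ.card : ℝ) := by
    have h3 := Real.log_le_log (by positivity) h1
    rw [Real.log_mul hκ.ne' (by positivity), Real.log_pow] at h3
    have h4 : l = -Real.log κ := by rw [hl, one_div, Real.log_inv]
    rw [h4]
    push_cast at h3
    linarith
  have hHA : H p A ≤ Real.log (S.card : ℝ) := H_le_log_card hp A S (fun u hu => (hmem u (hsupp u hu)).1)
  have hHB : H p B ≤ Real.log (S.card : ℝ) := by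
    have h3 := H_le_log_card hp B (S.image (fun g => -g))
      (fun u hu => Finset.mem_image_of_mem _ (hmem u (hsupp u hu)).2.1)
    rwa [Finset.card_image_of_injective S neg_injective] at h3
  have hHZ : H p Z ≤ Real.log (S.card : ℝ) + Real.log K := by
    have h3 := H_le_log_card hp Z P (fun u hu => by
      have h4 := (hmem u (hsupp u hu)).2.2
      have h5 : Z u = u.1 - u.2 := by simp only [hZ, hA, hB]; abel
      rw [h5]; exact h4)
    have hP0 : (0 : ℝ) < (P.card : ℝ) := by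
      obtain ⟨u, hu⟩ := hΓne
      exact_mod_cast Finset.card_pos.mpr ⟨_, (hmem u hu).2.2⟩
    have h4 := Real.log_le_log hP0 h2
    rw [Real.log_mul (by linarith) hS0.ne'] at h4
    linarith
  have hpair := H_pair_le hp A B
  have hbsg := BSG0 hp A B
  have hbsg' : ∑ z : G, pr p Z z * rd (pr (cnd p Z z) A) (pr (cnd p Z z) B)
      ≤ 5 * l + 2 * Real.log K := by
    refine le_trans hbsg ?_
    have : H p (fun ω => A ω + B ω) = H p Z := rfl
    rw [this]
    linarith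
  have hcA : ∑ z, pr p Z z * H (cnd p Z z) A = H p (fun ω => (A ω, B ω)) - H p Z := by
    have h3 := H_cond_sum hp A Z
    have h4 : H p (fun ω => (A ω, Z ω)) = H p (fun ω => (A ω, B ω)) :=
      H_congr hp _ _ (fun x => (x.1, x.2 - x.1)) (fun x => (x.1, x.1 + x.2))
        (fun ω => by simp [hZ]) (fun ω => by simp [hZ])
    linarith
  have hsum1 : ∑ z, pr p Z z = 1 := (pr_isP hp Z).2
  have hav : ∑ z, pr p Z z * (rd (pr (cnd p Z z) A) (pr (cnd p Z z) B)
      + (Real.log (S.card : ℝ) - H (cnd p Z z) A)) ≤ 6 * l + 3 * Real.log K := by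
    have h3 : ∑ z, pr p Z z * (rd (pr (cnd p Z z) A) (pr (cnd p Z z) B)
      + (Real.log (S.card : ℝ) - H (cnd p Z z) A))
      = ∑ z : G, pr p Z z * rd (pr (cnd p Z z) A) (pr (cnd p Z z) B)
        + (∑ z, pr p Z z) * Real.log (S.card : ℝ) - ∑ z, pr p Z z * H (cnd p Z z) A := by
      rw [Finset.sum_mul, ← Finset.sum_add_distrib, ← Finset.sum_sub_distrib]
      exact Finset.sum_congr rfl fun z _ => by ring
    rw [h3, hsum1, hcA, one_mul]
    linarith
  obtain ⟨z, hz0, hz⟩ := exists_le_avg hp Z _ _ hav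
  have hc := cnd_isP hp Z z hz0
  have hxA := pr_isP hc A
  have hxB := pr_isP hc B
  have hcs : ∀ u, 0 < cnd p Z z u → u ∈ Γ := fun u hu => hsupp u (S1a_cnd_pos hp Z z hu).1
  have hHc : H (cnd p Z z) A ≤ Real.log (S.card : ℝ) :=
    H_le_log_card hc A S (fun u hu => (hmem u (hcs u hu)).1)
  have hrd0 := rd_nonneg hxA hxB
  have hself := rd_self_le hxA hxB
  refine ⟨pr (cnd p Z z) A, hxA, ?_, ?_, ?_⟩
  · intro g hg
    obtain ⟨u, hu, hug⟩ := exists_of_pr_pos hc A hg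
    rw [← hug]
    exact (hmem u (hcs u hu)).1
  · linarith
  · rw [← H_eq_ent]
    linarith

end Pool.Agent.Ldc
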