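import Pool.Agent.Ldc.P7
import Pool.Agent.Ldc.S1a
import Pool.Agent.Ldc.S1b
set_option autoImplicit false

/-!
# S1.  From small doubling in the energy sense to a subgroup (bounded torsion).

Apply `ent_pfr` with `3m` in place of `m` (`AddCommGroup.zmodModule`), `x` from `S2_law`, `λ = log(1/κ)`,
`M = 1201 (3m)^8 (12λ + 6 log K) ≥ rd x (uS V)`.
`|ent x - log|V|| ≤ 2M` (`abs_ent_sub_le`, `ent_uS`); `H(x - uS V) = log|V| + H(π x)` (`H_sub_uS`), so
`H(π x) = rd x (uS V) + (ent x - log|V|)/2 ≤ 2M`; `H_le_fiber`: `ent x ≤ H(π x) + max log |S ∩ coset|`.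
So some coset has `log|S ∩ (a+V)| ≥ log|S| - (6λ+3 log K) - 2M`; same lower bound for `log|V|`, and
`log|V| ≤ ent x + 2M ≤ log|S| + 2M`.  `C = 6 + 24 * 1201 (3m)^8`.
-/
namespace Pool.Agent.Ldc
open Finset

private theorem S1_rpow {a C s t : ℝ} (ha : 0 < a) (hs : 0 < s) (ht : 0 < t)
    (h : C * Real.log a + Real.log s ≤ Real.log t) : a ^ C * s ≤ t := by
  rw [Real.rpow_def_of_pos ha]
  have h1 : Real.exp (Real.log a * C) * s = Real.exp (C * Real.log a + Real.log s) := by
    rw [Real.exp_add, Real.exp_log hs, mul_comm C]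
  rw [h1]
  calc _ ≤ Real.exp (Real.log t) := Real.exp_le_exp.mpr h
    _ = t := Real.exp_log ht

private theorem S1_rpow' {a C s t : ℝ} (ha : 0 < a) (hs : 0 < s) (ht : 0 < t)
    (h : Real.log t ≤ C * Real.log a + Real.log s) : t ≤ a ^ C * s := by
  rw [Real.rpow_def_of_pos ha]
  have h1 : Real.exp (Real.log a * C) * s = Real.exp (C * Real.log a + Real.log s) := by
    rw [Real.exp_add, Real.exp_log hs, mul_comm C]
  rw [h1]
  calc t = Real.exp (Real.log t) := (Real.exp_log ht).symm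
    _ ≤ _ := Real.exp_le_exp.mpr h

theorem pfr_energy (m : ℕ) (hm : 0 < m) : ∃ C : ℝ, 1 ≤ C ∧
    ∀ (G : Type) [AddCommGroup G] [Fintype G] [DecidableEq G], (∀ g : G, m • g = 0) →
    ∀ (S P : Finset G), S.Nonempty → ∀ κ K : ℝ, 0 < κ → κ ≤ 1 → 1 ≤ K →
    κ * (S.card : ℝ) ^ 2 ≤ (((S ×ˢ S).filter (fun u => u.1 - u.2 ∈ P)).card : ℝ) →
    (P.card : ℝ) ≤ K * S.card →
    ∃ (V : AddSubgroup G) (a : G) (T : Finset G), T ⊆ S ∧ (∀ g ∈ T, g - a ∈ V) ∧
      (κ / K) ^ C * (S.card : ℝ) ≤ T.card ∧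
      (κ / K) ^ C * (S.card : ℝ) ≤ Nat.card V ∧
      (Nat.card V : ℝ) ≤ (K / κ) ^ C * S.card := by
  classical
  set D : ℝ := 1201 * ((3 * m : ℕ) : ℝ) ^ 8 with hD
  have hD0 : 0 ≤ D := by positivity
  refine ⟨6 + 24 * D, by linarith, ?_⟩
  intro G _ _ _ hG S P hS κ K hκ hκ1 hK h1 h2
  obtain ⟨x, hx, hxS, hxx, hent⟩ := S2_law S P hS κ K hκ hκ1 hK h1 h2
  haveI : NeZero (3 * m) := ⟨by omega⟩
  letI : Module (ZMod (3 * m)) G := AddCommGroup.zmodModule (fun g => by
    rw [mul_comm, mul_nsmul, hG, smul_zero])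
  obtain ⟨V, hV⟩ := ent_pfr (m := 3 * m) (G := G) (by omega) x hx
  rw [← hD] at hV
  have hS0 : (0 : ℝ) < (S.card : ℝ) := by exact_mod_cast Finset.card_pos.mpr hS
  have hV0 : (0 : ℝ) < (Nat.card V : ℝ) := by
    have : 0 < Nat.card V := Nat.card_pos
    exact_mod_cast this
  have hK0 : (0 : ℝ) < K := by linarith
  set l : ℝ := Real.log (1 / κ) with hl
  have hl' : l = -Real.log κ := by rw [hl, one_div, Real.log_inv]
  have hl0 : 0 ≤ l := by
    rw [hl', neg_nonneg]; exact Real.log_nonpos hκ.le hκ1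
  have hlK : 0 ≤ Real.log K := Real.log_nonneg hK
  have hM : rd x (uS V) ≤ D * (12 * l + 6 * Real.log K) :=
    hV.trans (mul_le_mul_of_nonneg_left hxx hD0)
  have habs := abs_ent_sub_le hx (uS_isP V)
  rw [ent_uS] at habs
  have habs1 := abs_le.mp habs
  have hsub := H_sub_uS x hx V
  have hrdeq : rd x (uS V) = H (pp x (uS V)) (fun u => u.1 - u.2) - ent x / 2
      - Real.log (Nat.card V) / 2 := by
    unfold rd
    rw [ent_uS]
  have hentS : ent x ≤ Real.log (S.card : ℝ) := by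
    rw [ent_eq_H]
    exact H_le_log_card hx _ S (fun g hg => hxS g hg)
  -- the best coset
  obtain ⟨a, haS, hamax⟩ := Finset.exists_max_image S
    (fun a => (S.filter (fun g => g - a ∈ V)).card) hS
  set T : Finset G := S.filter (fun g => g - a ∈ V) with hT
  have haT : a ∈ T := by
    rw [hT, Finset.mem_filter]
    exact ⟨haS, by rw [sub_self]; exact V.zero_mem⟩
  have hT0 : 0 < T.card := Finset.card_pos.mpr ⟨a, haT⟩
  have hT0' : (0 : ℝ) < (T.card : ℝ) := by exact_mod_cast hT0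
  have hfib := H_le_fiber hx (fun g => g) (fun g => (QuotientAddGroup.mk g : G ⧸ V)) S
    (fun g hg => hxS g hg) (Real.log (T.card : ℝ)) (by
      intro g hg u hu hfu
      rcases Nat.eq_zero_or_pos u.card with h0 | h0
      · rw [h0]
        simp only [Nat.cast_zero, Real.log_zero]
        exact Real.log_nonneg (by exact_mod_cast hT0)
      · have h3 : u ⊆ S.filter (fun g' => g' - g ∈ V) := by
          intro b hb
          rw [Finset.mem_filter]
          refine ⟨hu hb, ?_⟩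
          have h4 := QuotientAddGroup.eq.mp (hfu b hb)
          have h5 := V.neg_mem h4
          have h6 : -(-b + g) = b - g := by abel
          rwa [h6] at h5
        have h4 : u.card ≤ T.card := (Finset.card_le_card h3).trans (hamax g (hxS g hg))
        exact Real.log_le_log (by exact_mod_cast h0) (by exact_mod_cast h4))
  rw [← ent_eq_H] at hfib
  have hlogr : Real.log (κ / K) = -(l + Real.log K) := by
    rw [Real.log_div hκ.ne' hK0.ne', hl']; ring
  have hlogr' : Real.log (K / κ) = l + Real.log K := by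
    rw [Real.log_div hK0.ne' hκ.ne', hl']; ring
  have hDl : 0 ≤ D * l := mul_nonneg hD0 hl0
  have hDK : 0 ≤ D * Real.log K := mul_nonneg hD0 hlK
  refine ⟨V, a, T, Finset.filter_subset _ _, ?_, ?_, ?_, ?_⟩
  · intro g hg
    rw [hT, Finset.mem_filter] at hg
    exact hg.2
  · refine S1_rpow (div_pos hκ hK0) hS0 hT0' ?_
    rw [hlogr]
    nlinarith
  · refine S1_rpow (div_pos hκ hK0) hS0 hV0 ?_
    rw [hlogr]
    nlinarith
  · refine S1_rpow' (div_pos hK0 hκ) hS0 hV0 ?_
    rw [hlogr']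
    nlinarith

end Pool.Agent.Ldc
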