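import Mathlib
set_option autoImplicit false

/-!
# Squad LDC (MP_d4aa67_lc), owner helper91.  Definitions.
-/
namespace Pool.Agent.Ldc
open Finset

/-- probability weights on a finite type -/
def IsP {Ω : Type} [Fintype Ω] (p : Ω → ℝ) : Prop := (∀ ω, 0 ≤ p ω) ∧ ∑ ω, p ω = 1

open Classical in
/-- probability of an event -/
noncomputable def pe {Ω : Type} [Fintype Ω] (p : Ω → ℝ) (A : Ω → Prop) : ℝ :=
  ∑ ω, if A ω then p ω else 0

/-- the law of `f`:  `pr p f a = P(f = a)` -/
noncomputable def pr {Ω α : Type} [Fintype Ω] (p : Ω → ℝ) (f : Ω → α) (a : α) : ℝ :=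
  pe p (fun ω => f ω = a)

/-- Shannon entropy (natural logarithm) of the random variable `f` on `(Ω, p)`; no finiteness of the
codomain is needed. `H[f] = - Σ_ω p(ω) log P(f = f ω)`. -/
noncomputable def H {Ω α : Type} [Fintype Ω] (p : Ω → ℝ) (f : Ω → α) : ℝ :=
  -∑ ω, p ω * Real.log (pr p f (f ω))

/-- entropy of a law -/
noncomputable def ent {α : Type} [Fintype α] (p : α → ℝ) : ℝ := ∑ a, Real.negMulLog (p a)

/-- independence of two random variables -/
def Indep {Ω α β : Type} [Fintype Ω] (p : Ω → ℝ) (f : Ω → α) (g : Ω → β) : Prop :=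
  ∀ a b, pr p (fun ω => (f ω, g ω)) (a, b) = pr p f a * pr p g b

/-- independence of a finite family of random variables -/
def IndepFam {Ω ι α : Type} [Fintype Ω] [Fintype ι] (p : Ω → ℝ) (F : ι → Ω → α) : Prop :=
  ∀ a : ι → α, pr p (fun ω i => F i ω) a = ∏ i, pr p (F i) (a i)

/-- product of two laws -/
def pp {α β : Type} (p : α → ℝ) (q : β → ℝ) : α × β → ℝ := fun x => p x.1 * q x.2

/-- product of a family of laws -/
noncomputable def pf {ι α : Type} [Fintype ι] (q : ι → α → ℝ) : (ι → α) → ℝ :=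
  fun ω => ∏ i, q i (ω i)

open Classical in
/-- `p` conditioned on `g = b` -/
noncomputable def cnd {Ω β : Type} [Fintype Ω] (p : Ω → ℝ) (g : Ω → β) (b : β) : Ω → ℝ :=
  fun ω => if g ω = b then p ω / pr p g b else 0

open Classical in
/-- uniform law on a finset -/
noncomputable def unif {α : Type} (s : Finset α) : α → ℝ := fun a => if a ∈ s then 1 / (s.card : ℝ) else 0

section
variable {G : Type} [AddCommGroup G] [Fintype G]

/-- entropic Ruzsa distance of two laws on a finite abelian group -/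
noncomputable def rd (p q : G → ℝ) : ℝ :=
  H (pp p q) (fun x => x.1 - x.2) - ent p / 2 - ent q / 2

/-- conditional entropic Ruzsa distance between a law `q` and (`f` given `g`), `f, g` on `(Ω, p)` -/
noncomputable def rdc {Ω β : Type} [Fintype Ω] (q : G → ℝ) (p : Ω → ℝ) (f : Ω → G) (g : Ω → β) : ℝ :=
  H (pp q p) (fun x => (x.1 - f x.2, g x.2)) - H p g - ent q / 2
    - (H p (fun ω => (f ω, g ω)) - H p g) / 2

/-- multidistance of a tuple of laws -/
noncomputable def mD {ι : Type} [Fintype ι] [DecidableEq ι] (q : ι → G → ℝ) : ℝ :=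
  H (pf q) (fun ω => ∑ i, ω i) - (∑ i, ent (q i)) / (Fintype.card ι : ℝ)

/-- mean entropy of a tuple of laws -/
noncomputable def hb {ι : Type} [Fintype ι] (q : ι → G → ℝ) : ℝ :=
  (∑ i, ent (q i)) / (Fintype.card ι : ℝ)

/-- the only property of a minimiser of the functional
`mD q + η Σ rd (q i) q₀` which is used -/
structure WeakMin {ι : Type} [Fintype ι] [DecidableEq ι] (η k : ℝ) (q : ι → G → ℝ) : Prop where
  prob : ∀ i, IsP (q i)
  eq : mD q = k
  le : ∀ q' : ι → G → ℝ, (∀ i, IsP (q' i)) → ∀ σ : Equiv.Perm ι,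
    k - η * ∑ i, rd (q (σ i)) (q' i) ≤ mD q'

/-- conditional mutual information `I[f : g | h]` -/
noncomputable def cmi {Ω α β δ : Type} [Fintype Ω] (p : Ω → ℝ) (f : Ω → α) (g : Ω → β) (h : Ω → δ) : ℝ :=
  H p (fun ω => (f ω, h ω)) + H p (fun ω => (g ω, h ω)) - H p (fun ω => (f ω, g ω, h ω)) - H p h

/-- uniform law on (the carrier of) a subgroup -/
noncomputable def uS (V : AddSubgroup G) : G → ℝ := by
  classical exact unif (univ.filter (fun g => g ∈ V))

end
end Pool.Agent.Ldc
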