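import Pool.Agent.Ldc.Defs
set_option autoImplicit false

/-!
# E1.  Elementary facts on `pe`, `pr`, `H`, `ent`.

Everything is a finite sum.  Key identity: for `u : α → ℝ` (α finite)
`Σ_a pr p f a * u a = Σ_ω p ω * u (f ω)`; with `u = -log (pr p f ·)` this gives `H p f = ent (pr p f)`.
For `H_comp_le`:  `{f = f ω} ⊆ {φ∘f = φ(f ω)}` so `pr p f (f ω) ≤ pr p (φ∘f) (φ (f ω))`, and both are `> 0`
when `p ω > 0`; log is monotone.  `H_congr` from two applications of `H_comp_le`.
For codomains without `Fintype` argue directly with the sums over `Ω`.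
-/
namespace Pool.Agent.Ldc
open Finset
variable {Ω Ω' α β δ : Type} [Fintype Ω] [Fintype Ω'] {p : Ω → ℝ} {q : Ω' → ℝ}

theorem IsP.nonneg (hp : IsP p) (ω : Ω) : 0 ≤ p ω := hp.1 ω

theorem pe_nonneg (hp : IsP p) (A : Ω → Prop) : 0 ≤ pe p A := by
  classical
  unfold pe
  exact Finset.sum_nonneg (fun ω _ => by split_ifs; exacts [hp.1 ω, le_refl _])

theorem pe_mono (hp : IsP p) {A B : Ω → Prop} (h : ∀ ω, A ω → B ω) : pe p A ≤ pe p B := by
  classical
  unfold pe
  refine Finset.sum_le_sum (fun ω _ => ?_)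
  by_cases hA : A ω
  · rw [if_pos hA, if_pos (h ω hA)]
  · rw [if_neg hA]
    split_ifs
    · exact hp.1 ω
    · exact le_refl _

theorem pr_nonneg (hp : IsP p) (f : Ω → α) (a : α) : 0 ≤ pr p f a := pe_nonneg hp _

theorem pr_le_one (hp : IsP p) (f : Ω → α) (a : α) : pr p f a ≤ 1 := by
  have h := pe_mono hp (A := fun ω => f ω = a) (B := fun _ => True) (fun _ _ => trivial)
  have h2 : pe p (fun _ => True) = 1 := by
    unfold pe
    simp [hp.2]
  unfold pr
  linarith

theorem pr_pos (hp : IsP p) (f : Ω → α) {ω : Ω} (h : 0 < p ω) : 0 < pr p f (f ω) := by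
  classical
  unfold pr pe
  refine Finset.sum_pos' (fun x _ => ?_) ⟨ω, Finset.mem_univ _, ?_⟩
  · split_ifs
    · exact hp.1 x
    · exact le_refl _
  · simpa using h

theorem exists_of_pr_pos (hp : IsP p) (f : Ω → α) {a : α} (h : 0 < pr p f a) :
    ∃ ω, 0 < p ω ∧ f ω = a := by
  classical
  unfold pr pe at h
  obtain ⟨ω, _, hω⟩ := Finset.exists_lt_of_sum_lt (s := Finset.univ) (f := fun _ : Ω => (0:ℝ))
    (g := fun ω => if f ω = a then p ω else 0) (by simpa using h)
  by_cases hfa : f ω = a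
  · exact ⟨ω, by simpa [hfa] using hω, hfa⟩
  · simp [hfa] at hω

theorem E1_sum_pr_mul [Fintype α] (p : Ω → ℝ) (f : Ω → α) (u : α → ℝ) :
    ∑ a, pr p f a * u a = ∑ ω, p ω * u (f ω) := by
  classical
  unfold pr pe
  simp only [Finset.sum_mul]
  rw [Finset.sum_comm]
  refine Finset.sum_congr rfl (fun ω _ => ?_)
  rw [Finset.sum_eq_single (f ω)]
  · simp
  · intro b _ hb
    rw [if_neg (Ne.symm hb), zero_mul]
  · intro h
    exact absurd (Finset.mem_univ _) h

theorem pr_isP [Fintype α] (hp : IsP p) (f : Ω → α) : IsP (pr p f) := by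
  refine ⟨fun a => pr_nonneg hp f a, ?_⟩
  have h := E1_sum_pr_mul p f (fun _ => 1)
  simpa [hp.2] using h

theorem pr_id [Fintype α] (r : α → ℝ) : pr r (fun a => a) = r := by
  classical
  funext a
  unfold pr pe
  rw [Finset.sum_eq_single a]
  · simp
  · intro b _ hb
    rw [if_neg hb]
  · intro h
    exact absurd (Finset.mem_univ _) h

/-- finite sums over the law -/
theorem sum_pr_mul [Fintype α] (p : Ω → ℝ) (f : Ω → α) (u : α → ℝ) :
    ∑ a, pr p f a * u a = ∑ ω, p ω * u (f ω) := E1_sum_pr_mul p f u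

theorem pr_pr [Fintype α] (p : Ω → ℝ) (f : Ω → α) (φ : α → β) :
    pr (pr p f) φ = pr p (fun ω => φ (f ω)) := by
  classical
  funext b
  have h := sum_pr_mul p f (fun a => if φ a = b then 1 else 0)
  have h1 : pr (pr p f) φ b = ∑ a, pr p f a * (if φ a = b then 1 else 0) := by
    unfold pr pe
    refine Finset.sum_congr rfl (fun a _ => ?_)
    by_cases hb : φ a = b <;> simp [hb]
  have h2 : pr p (fun ω => φ (f ω)) b = ∑ ω, p ω * (if φ (f ω) = b then 1 else 0) := by
    unfold pr pe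
    refine Finset.sum_congr rfl (fun a _ => ?_)
    by_cases hb : φ (f a) = b <;> simp [hb]
  rw [h1, h2, h]

theorem H_law [Fintype α] (p : Ω → ℝ) (f : Ω → α) (φ : α → β) :
    H (pr p f) φ = H p (fun ω => φ (f ω)) := by
  unfold H
  rw [pr_pr]
  rw [sum_pr_mul p f (fun a => Real.log (pr p (fun ω => φ (f ω)) (φ a)))]

theorem H_eq_ent [Fintype α] (p : Ω → ℝ) (f : Ω → α) : H p f = ent (pr p f) := by
  unfold H ent
  have h := sum_pr_mul p f (fun a => Real.log (pr p f a))
  rw [← h, ← Finset.sum_neg_distrib]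
  refine Finset.sum_congr rfl (fun a _ => ?_)
  unfold Real.negMulLog
  ring

theorem ent_eq_H [Fintype α] (r : α → ℝ) : ent r = H r (fun a => a) := by
  rw [H_eq_ent, pr_id]

theorem H_nonneg (hp : IsP p) (f : Ω → α) : 0 ≤ H p f := by
  unfold H
  rw [← Finset.sum_neg_distrib]
  refine Finset.sum_nonneg (fun ω _ => ?_)
  have h1 : Real.log (pr p f (f ω)) ≤ 0 :=
    Real.log_nonpos (pr_nonneg hp _ _) (pr_le_one hp _ _)
  have := mul_nonneg (hp.1 ω) (neg_nonneg.mpr h1)
  linarith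

theorem H_comp_le (hp : IsP p) (f : Ω → α) (φ : α → β) : H p (fun ω => φ (f ω)) ≤ H p f := by
  unfold H
  refine neg_le_neg (Finset.sum_le_sum (fun ω _ => ?_))
  rcases eq_or_lt_of_le (hp.1 ω) with h0 | h0
  · rw [← h0]; simp
  · refine mul_le_mul_of_nonneg_left ?_ (hp.1 ω)
    refine Real.log_le_log (pr_pos hp f h0) ?_
    unfold pr
    exact pe_mono hp (fun x hx => congrArg φ hx)

/-- `f` and `g` determine each other -/
theorem H_congr (hp : IsP p) (f : Ω → α) (g : Ω → β) (φ : α → β) (ψ : β → α)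
    (h1 : ∀ ω, g ω = φ (f ω)) (h2 : ∀ ω, f ω = ψ (g ω)) : H p f = H p g := by
  apply le_antisymm
  · have h := H_comp_le hp g ψ
    have e : (fun ω => ψ (g ω)) = f := funext (fun ω => (h2 ω).symm)
    rwa [e] at h
  · have h := H_comp_le hp f φ
    have e : (fun ω => φ (f ω)) = g := funext (fun ω => (h1 ω).symm)
    rwa [e] at h

theorem H_const (hp : IsP p) (f : Ω → α) (h : ∀ ω ω', f ω = f ω') : H p f = 0 := by
  classical
  unfold H
  have h1 : ∀ ω, pr p f (f ω) = 1 := by
    intro ω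
    unfold pr pe
    rw [← hp.2]
    refine Finset.sum_congr rfl (fun x _ => ?_)
    rw [if_pos (h x ω)]
  simp [h1]

theorem pp_isP (hp : IsP p) (hq : IsP q) : IsP (pp p q) := by
  refine ⟨fun x => mul_nonneg (hp.1 _) (hq.1 _), ?_⟩
  unfold pp
  rw [Fintype.sum_prod_type]
  simp only []
  rw [← Finset.sum_mul_sum, hp.2, hq.2, one_mul]

theorem pf_isP {ι : Type} [Fintype ι] [DecidableEq ι] [Fintype α] (r : ι → α → ℝ)
    (hr : ∀ i, IsP (r i)) : IsP (pf r) := by
  refine ⟨fun x => Finset.prod_nonneg (fun i _ => (hr i).1 _), ?_⟩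
  unfold pf
  rw [← Fintype.prod_sum]
  exact Finset.prod_eq_one (fun i _ => (hr i).2)

end Pool.Agent.Ldc
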