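import Pool.Agent.Ldc.E6
set_option autoImplicit false

/-!
# E10.  Distance zero: laws at distance 0 are uniform on cosets of a subgroup.

`rd x y = 0` and `H(u - v) ≥ max (ent x) (ent y)` give `H(u-v) = ent x = ent y`.  Equality
`H(u - v) = ent x = H(u-v | v)` means that `u - v` is independent of `v` (equality case of
`H(f,g) ≤ H f + H g`; strict concavity, or a direct argument: Gibbs' inequality), so `x(w + v)` does not
depend on `v` in the support of `y`.  So `x` is invariant under `supp y - supp y`, and symmetrically `y` under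
`supp x - supp x`.  Let `V` be the subgroup generated by `supp x - supp x`; `supp y` is `V`-invariant, so
`V ⊆ supp y - supp y`, and the same with x and y exchanged; hence `x` is uniform on a coset of `V`.
-/
namespace Pool.Agent.Ldc
open Finset
variable {G : Type} [AddCommGroup G] [Fintype G] {x y : G → ℝ}

private theorem E10_sum_ent (x : G → ℝ) (hy : IsP y) :
    ∑ w, ∑ v, y v * Real.negMulLog (x (w + v)) = ent x := by
  rw [Finset.sum_comm]
  have h1 : ∀ v, ∑ w, y v * Real.negMulLog (x (w + v)) = y v * ent x := by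
    intro v
    rw [← Finset.mul_sum]
    congr 1
    exact Equiv.sum_comp (Equiv.addRight v) (fun w => Real.negMulLog (x w))
  rw [Finset.sum_congr rfl (fun v _ => h1 v), ← Finset.sum_mul, hy.2, one_mul]

private theorem E10_jensen (hx : IsP x) (hy : IsP y) (w : G) :
    ∑ v, y v * Real.negMulLog (x (w + v)) ≤ Real.negMulLog (∑ v, y v * x (w + v)) := by
  have h := Real.concaveOn_negMulLog.le_map_sum (t := univ) (w := y) (p := fun v => x (w + v))
    (fun v _ => hy.1 v) hy.2 (fun v _ => hx.1 _)
  simpa [smul_eq_mul] using h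

private theorem E10_key (hx : IsP x) (hy : IsP y)
    (h : ∑ w, Real.negMulLog (∑ v, y v * x (w + v)) = ent x) :
    ∀ v v', y v ≠ 0 → y v' ≠ 0 → ∀ w, x (w + v) = x (w + v') := by
  have h1 : ∑ w, ∑ v, y v * Real.negMulLog (x (w + v)) = ∑ w, Real.negMulLog (∑ v, y v * x (w + v)) := by
    rw [h, E10_sum_ent x hy]
  have h2 := (Finset.sum_eq_sum_iff_of_le (fun w _ => E10_jensen hx hy w)).mp h1
  intro v v' hv hv' w
  have h3 := h2 w (Finset.mem_univ w)
  have h4 := (Real.strictConcaveOn_negMulLog.map_sum_eq_iff' (t := univ) (w := y)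
    (p := fun v => x (w + v)) (fun v _ => hy.1 v) hy.2 (fun v _ => hx.1 _)).mp
    (by simpa [smul_eq_mul] using h3.symm)
  rw [h4 v (Finset.mem_univ v) hv, h4 v' (Finset.mem_univ v') hv']

private theorem E10_law (x y : G → ℝ) (w : G) :
    pr (pp x y) (fun u => u.1 - u.2) w = ∑ v, y v * x (w + v) := by
  classical
  unfold pr pe
  rw [Fintype.sum_prod_type, Finset.sum_comm]
  refine Finset.sum_congr rfl (fun v _ => ?_)
  rw [Finset.sum_eq_single (w + v)]
  · rw [if_pos (by simp)]
    unfold pp
    ring
  · intro b _ hb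
    rw [if_neg]
    intro h
    exact hb (by rw [← h]; simp)
  · intro h; exact absurd (Finset.mem_univ _) h

private theorem E10_law' (x y : G → ℝ) (w : G) :
    pr (pp x y) (fun u => u.1 - u.2) (-w) = ∑ u, x u * y (w + u) := by
  rw [E10_law]
  rw [← Equiv.sum_comp (Equiv.addLeft w) (fun v => y v * x (-w + v))]
  refine Finset.sum_congr rfl (fun u _ => ?_)
  simp only [Equiv.coe_addLeft, neg_add_cancel_left]
  ring

theorem rd_eq_zero (hx : IsP x) (hy : IsP y) (h : rd x y = 0) :
    ∃ (V : AddSubgroup G) (a : G), x = fun g => uS V (g - a) := by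
  classical
  -- entropies
  have hs : H (pp x y) (fun u => u.1 - u.2) = ∑ w, Real.negMulLog (∑ v, y v * x (w + v)) := by
    rw [H_eq_ent]
    unfold ent
    exact Finset.sum_congr rfl (fun w _ => by rw [E10_law])
  have hs' : H (pp x y) (fun u => u.1 - u.2) = ∑ w, Real.negMulLog (∑ v, x v * y (w + v)) := by
    rw [H_eq_ent]
    unfold ent
    rw [← Equiv.sum_comp (Equiv.neg G)]
    exact Finset.sum_congr rfl (fun w _ => by rw [Equiv.neg_apply, E10_law'])
  have hgx : ent x ≤ H (pp x y) (fun u => u.1 - u.2) := by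
    rw [hs, ← E10_sum_ent x hy]
    exact Finset.sum_le_sum (fun w _ => E10_jensen hx hy w)
  have hgy : ent y ≤ H (pp x y) (fun u => u.1 - u.2) := by
    rw [hs', ← E10_sum_ent y hx]
    exact Finset.sum_le_sum (fun w _ => E10_jensen hy hx w)
  unfold rd at h
  have hex : H (pp x y) (fun u => u.1 - u.2) = ent x := by linarith
  have hey : H (pp x y) (fun u => u.1 - u.2) = ent y := by linarith
  have hkx := E10_key hx hy (by rw [← hs, hex])
  have hky := E10_key hy hx (by rw [← hs', hey])
  -- supports
  have hne : ∀ {z : G → ℝ}, IsP z → ∃ a, z a ≠ 0 := by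
    intro z hz
    by_contra hcon
    push Not at hcon
    have := hz.2
    simp [hcon] at this
  obtain ⟨a, ha⟩ := hne hx
  obtain ⟨b, hb⟩ := hne hy
  -- stabilisers
  let St : (G → ℝ) → AddSubgroup G := fun z =>
    { carrier := {d | ∀ w, z (w + d) = z w}
      zero_mem' := by intro w; rw [add_zero]
      add_mem' := by
        intro d e hd he w
        rw [← add_assoc, he, hd]
      neg_mem' := by
        intro d hd w
        have := hd (w + -d)
        rw [neg_add_cancel_right] at this
        exact this.symm }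
  have hSt : ∀ z d, d ∈ St z ↔ ∀ w, z (w + d) = z w := fun z d => Iff.rfl
  have hyx : ∀ v v', y v ≠ 0 → y v' ≠ 0 → v - v' ∈ St x := by
    intro v v' hv hv' w
    have := hkx v v' hv hv' (w - v')
    rw [sub_add_cancel] at this
    rw [← this]
    congr 1
    abel
  have hxy : ∀ u u', x u ≠ 0 → x u' ≠ 0 → u - u' ∈ St y := by
    intro v v' hv hv' w
    have := hky v v' hv hv' (w - v')
    rw [sub_add_cancel] at this
    rw [← this]
    congr 1
    abel
  -- support of x = a + St x
  have hsupp : ∀ g, x g ≠ 0 → g - a ∈ St x := by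
    intro g hg
    have h1 := hxy g a hg ha
    have h2 : y (b + (g - a)) ≠ 0 := by rw [h1 b]; exact hb
    have h3 := hyx _ _ h2 hb
    rwa [add_sub_cancel_left] at h3
  have hval : ∀ g, x g = if g - a ∈ St x then x a else 0 := by
    intro g
    by_cases hg : g - a ∈ St x
    · rw [if_pos hg]
      have := hg a
      rw [add_sub_cancel] at this
      exact this
    · rw [if_neg hg]
      by_contra h0
      exact hg (hsupp g h0)
  refine ⟨St x, a, ?_⟩
  have hcard : ((univ.filter (fun g => g ∈ St x)).card : ℝ) * x a = 1 := by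
    have h1 := hx.2
    rw [Finset.sum_congr rfl (fun g _ => hval g)] at h1
    rw [← Equiv.sum_comp (Equiv.addRight a)] at h1
    simp only [Equiv.coe_addRight, add_sub_cancel_right] at h1
    rw [← Finset.sum_filter, Finset.sum_const, nsmul_eq_mul] at h1
    exact h1
  have hc0 : ((univ.filter (fun g => g ∈ St x)).card : ℝ) ≠ 0 := left_ne_zero_of_mul (by rw [hcard]; exact one_ne_zero)
  have hxa : x a = 1 / ((univ.filter (fun g => g ∈ St x)).card : ℝ) := by
    rw [eq_div_iff hc0, mul_comm]; exact hcard
  funext g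
  rw [hval g]
  unfold uS unif
  by_cases hg : g - a ∈ St x
  · rw [if_pos hg, if_pos (Finset.mem_filter.mpr ⟨Finset.mem_univ _, hg⟩), hxa]
  · rw [if_neg hg, if_neg (fun h => hg (Finset.mem_filter.mp h).2)]

end Pool.Agent.Ldc
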