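import Pool.Agent.Ldc.E1
set_option autoImplicit false

/-!
# E3.  Independence of two random variables; product of two laws.

`H_indep`: `log (P(f=a) P(g=b)) = log P(f=a) + log P(g=b)` for `p ω > 0`.
`Indep.comp`: `P(φ f = a, ψ g = b) = Σ_{x ∈ image f, φ x = a} Σ_{y ∈ image g, ψ y = b} P(f = x, g = y)`.
-/
namespace Pool.Agent.Ldc
open Finset
variable {Ω Ω' α β α' β' : Type} [Fintype Ω] [Fintype Ω'] {p : Ω → ℝ} {q : Ω' → ℝ}

open Classical in
private theorem E3_pr_eq {Ω₀ α₀ : Type} [Fintype Ω₀] (p₀ : Ω₀ → ℝ) (f₀ : Ω₀ → α₀) (a₀ : α₀) :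
    pr p₀ f₀ a₀ = ∑ ω, if f₀ ω = a₀ then p₀ ω else 0 := rfl

open Classical in
private theorem E3_pe_eq {Ω₀ : Type} [Fintype Ω₀] (p₀ : Ω₀ → ℝ) (A : Ω₀ → Prop) :
    pe p₀ A = ∑ ω, if A ω then p₀ ω else 0 := rfl

theorem H_indep (hp : IsP p) (f : Ω → α) (g : Ω → β) (hI : Indep p f g) :
    H p (fun ω => (f ω, g ω)) = H p f + H p g := by
  unfold H
  rw [← neg_add, ← Finset.sum_add_distrib]
  congr 1
  refine Finset.sum_congr rfl fun ω _ => ?_
  rcases (hp.1 ω).lt_or_eq with h0 | h0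
  · rw [hI (f ω) (g ω), Real.log_mul (pr_pos hp f h0).ne' (pr_pos hp g h0).ne']
    ring
  · rw [← h0]; ring

theorem Indep.symm {f : Ω → α} {g : Ω → β} (hI : Indep p f g) : Indep p g f := by
  classical
  intro b a
  rw [mul_comm, ← hI a b]
  simp only [E3_pr_eq]
  refine Finset.sum_congr rfl fun ω _ => ?_
  by_cases h : f ω = a ∧ g ω = b
  · rw [if_pos (by rw [h.1, h.2]), if_pos (by rw [h.1, h.2])]
  · rw [if_neg (fun h' => h ⟨(Prod.mk.inj h').2, (Prod.mk.inj h').1⟩),
      if_neg (fun h' => h ⟨(Prod.mk.inj h').1, (Prod.mk.inj h').2⟩)]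

private theorem E3_pe_comp (p : Ω → ℝ) (f : Ω → α) (g : Ω → β) (A : α → Prop) (B : β → Prop)
    (s : Finset α) (t : Finset β) (hs : ∀ ω, f ω ∈ s) (ht : ∀ ω, g ω ∈ t) :
    pe p (fun ω => A (f ω) ∧ B (g ω)) =
      ∑ x ∈ s, ∑ y ∈ t, (by classical exact if A x ∧ B y then pr p (fun ω => (f ω, g ω)) (x, y) else 0) := by
  classical
  have h1 : ∀ x ∈ s, ∀ y ∈ t, (if A x ∧ B y then pr p (fun ω => (f ω, g ω)) (x, y) else 0)
      = ∑ ω, if (f ω = x ∧ g ω = y) then (if A (f ω) ∧ B (g ω) then p ω else 0) else 0 := by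
    intro x _ y _
    by_cases h : A x ∧ B y
    · rw [if_pos h]
      simp only [E3_pr_eq]
      refine Finset.sum_congr rfl fun ω _ => ?_
      by_cases h2 : f ω = x ∧ g ω = y
      · rw [if_pos h2, if_pos (by rw [h2.1, h2.2]), if_pos (by rw [h2.1, h2.2]; exact h)]
      · rw [if_neg h2, if_neg (by intro h3; exact h2 (Prod.mk.inj h3))]
    · rw [if_neg h]
      symm
      refine Finset.sum_eq_zero fun ω _ => ?_
      by_cases h2 : f ω = x ∧ g ω = y
      · rw [if_pos h2, if_neg (by rw [h2.1, h2.2]; exact h)]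
      · rw [if_neg h2]
  have h2 : (∑ x ∈ s, ∑ y ∈ t, (if A x ∧ B y then pr p (fun ω => (f ω, g ω)) (x, y) else 0))
      = ∑ x ∈ s, ∑ y ∈ t, ∑ ω,
        if (f ω = x ∧ g ω = y) then (if A (f ω) ∧ B (g ω) then p ω else 0) else 0 :=
    Finset.sum_congr rfl fun x hx => Finset.sum_congr rfl fun y hy => h1 x hx y hy
  rw [h2]
  rw [Finset.sum_congr rfl (fun x _ => Finset.sum_comm), Finset.sum_comm]
  rw [E3_pe_eq]
  refine Finset.sum_congr rfl fun ω _ => ?_
  rw [Finset.sum_eq_single (f ω), Finset.sum_eq_single (g ω)]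
  · simp
  · intro y _ hy
    rw [if_neg (fun h => hy h.2.symm)]
  · intro h; exact absurd (ht ω) h
  · intro x _ hx
    refine Finset.sum_eq_zero fun y _ => ?_
    rw [if_neg (fun h => hx h.1.symm)]
  · intro h; exact absurd (hs ω) h

private theorem E3_pe_comp1 (p : Ω → ℝ) (f : Ω → α) (A : α → Prop)
    (s : Finset α) (hs : ∀ ω, f ω ∈ s) :
    pe p (fun ω => A (f ω)) =
      ∑ x ∈ s, (by classical exact if A x then pr p f x else 0) := by
  classical
  have h1 : ∀ x ∈ s, (if A x then pr p f x else 0)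
      = ∑ ω, if f ω = x then (if A (f ω) then p ω else 0) else 0 := by
    intro x _
    by_cases h : A x
    · rw [if_pos h]
      simp only [E3_pr_eq]
      refine Finset.sum_congr rfl fun ω _ => ?_
      by_cases h2 : f ω = x
      · rw [if_pos h2, if_pos h2, if_pos (by rw [h2]; exact h)]
      · rw [if_neg h2, if_neg h2]
    · rw [if_neg h]
      symm
      refine Finset.sum_eq_zero fun ω _ => ?_
      by_cases h2 : f ω = x
      · rw [if_pos h2, if_neg (by rw [h2]; exact h)]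
      · rw [if_neg h2]
  have h2 : (∑ x ∈ s, (if A x then pr p f x else 0))
      = ∑ x ∈ s, ∑ ω, if f ω = x then (if A (f ω) then p ω else 0) else 0 :=
    Finset.sum_congr rfl fun x hx => h1 x hx
  rw [h2, Finset.sum_comm]
  rw [E3_pe_eq]
  refine Finset.sum_congr rfl fun ω _ => ?_
  rw [Finset.sum_eq_single (f ω)]
  · simp
  · intro x _ hx
    rw [if_neg (fun h => hx h.symm)]
  · intro h; exact absurd (hs ω) h

theorem Indep.comp (hp : IsP p) {f : Ω → α} {g : Ω → β} (hI : Indep p f g) (φ : α → α')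
    (ψ : β → β') : Indep p (fun ω => φ (f ω)) (fun ω => ψ (g ω)) := by
  classical
  intro a b
  have hs : ∀ ω, f ω ∈ univ.image f := fun ω => Finset.mem_image_of_mem f (mem_univ ω)
  have ht : ∀ ω, g ω ∈ univ.image g := fun ω => Finset.mem_image_of_mem g (mem_univ ω)
  have h1 := E3_pe_comp p f g (fun x => φ x = a) (fun y => ψ y = b) _ _ hs ht
  have h2 := E3_pe_comp1 p f (fun x => φ x = a) _ hs
  have h3 := E3_pe_comp1 p g (fun y => ψ y = b) _ ht
  have h4 : pr p (fun ω => (φ (f ω), ψ (g ω))) (a, b)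
      = pe p (fun ω => φ (f ω) = a ∧ ψ (g ω) = b) := by
    rw [E3_pr_eq, E3_pe_eq]
    refine Finset.sum_congr rfl fun ω _ => ?_
    by_cases h : φ (f ω) = a ∧ ψ (g ω) = b
    · rw [if_pos (by rw [h.1, h.2]), if_pos h]
    · rw [if_neg (fun h' => h ⟨(Prod.mk.inj h').1, (Prod.mk.inj h').2⟩), if_neg h]
  have h5 : pr p (fun ω => φ (f ω)) a = pe p (fun ω => φ (f ω) = a) := rfl
  have h6 : pr p (fun ω => ψ (g ω)) b = pe p (fun ω => ψ (g ω) = b) := rfl
  rw [h4, h5, h6, h1, h2, h3, Finset.sum_mul_sum]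
  refine Finset.sum_congr rfl fun x _ => Finset.sum_congr rfl fun y _ => ?_
  by_cases hx : φ x = a
  · by_cases hy : ψ y = b
    · rw [if_pos ⟨hx, hy⟩, if_pos hx, if_pos hy, hI x y]
    · rw [if_neg (fun h => hy h.2), if_neg hy, mul_zero]
  · rw [if_neg (fun h => hx h.1), if_neg hx, zero_mul]

theorem pr_pp_fst (hq : IsP q) (f : Ω → α) : pr (pp p q) (fun x => f x.1) = pr p f := by
  classical
  funext a
  simp only [E3_pr_eq, pp]
  rw [Fintype.sum_prod_type]
  refine Finset.sum_congr rfl fun ω _ => ?_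
  by_cases h : f ω = a
  · simp only [h, if_true]
    rw [← Finset.mul_sum, hq.2, mul_one]
  · simp only [h, if_false]
    exact Finset.sum_const_zero

theorem pr_pp_snd (hp : IsP p) (g : Ω' → β) : pr (pp p q) (fun x => g x.2) = pr q g := by
  classical
  funext a
  simp only [E3_pr_eq, pp]
  rw [Fintype.sum_prod_type_right]
  refine Finset.sum_congr rfl fun ω _ => ?_
  by_cases h : g ω = a
  · simp only [h, if_true]
    rw [← Finset.sum_mul, hp.2, one_mul]
  · simp only [h, if_false]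
    exact Finset.sum_const_zero

theorem indep_pp (hp : IsP p) (hq : IsP q) (f : Ω → α) (g : Ω' → β) :
    Indep (pp p q) (fun x => f x.1) (fun x => g x.2) := by
  classical
  intro a b
  rw [pr_pp_fst hq f, pr_pp_snd hp g]
  simp only [E3_pr_eq, pp]
  rw [Fintype.sum_prod_type, Finset.sum_mul_sum]
  refine Finset.sum_congr rfl fun ω _ => Finset.sum_congr rfl fun ω' _ => ?_
  by_cases hx : f ω = a
  · by_cases hy : g ω' = b
    · rw [if_pos (by simp [hx, hy]), if_pos hx, if_pos hy]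
    · rw [if_neg (fun h => hy (Prod.mk.inj h).2), if_neg hy, mul_zero]
  · rw [if_neg (fun h => hx (Prod.mk.inj h).1), if_neg hx, zero_mul]

theorem H_pp_fst (hq : IsP q) (f : Ω → α) : H (pp p q) (fun x => f x.1) = H p f := by
  unfold H
  rw [pr_pp_fst hq f]
  congr 1
  rw [Fintype.sum_prod_type]
  refine Finset.sum_congr rfl fun ω _ => ?_
  unfold pp
  simp only
  rw [← Finset.sum_mul, ← Finset.mul_sum, hq.2, mul_one]

theorem H_pp_snd (hp : IsP p) (g : Ω' → β) : H (pp p q) (fun x => g x.2) = H q g := by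
  unfold H
  rw [pr_pp_snd hp g]
  congr 1
  rw [Fintype.sum_prod_type_right]
  refine Finset.sum_congr rfl fun ω _ => ?_
  unfold pp
  simp only
  rw [← Finset.sum_mul, ← Finset.sum_mul, hp.2, one_mul]

theorem pr_pair_of_indep {f : Ω → α} {g : Ω → β} (hI : Indep p f g) :
    pr p (fun ω => (f ω, g ω)) = pp (pr p f) (pr p g) := by
  funext x
  obtain ⟨a, b⟩ := x
  exact hI a b

/-- functions of an independent pair may be computed on the product of the laws -/
theorem H_fun_of_indep [Fintype α] [Fintype β] {f : Ω → α} {g : Ω → β} (hI : Indep p f g)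
    {δ : Type} (φ : α × β → δ) :
    H p (fun ω => φ (f ω, g ω)) = H (pp (pr p f) (pr p g)) φ := by
  rw [← pr_pair_of_indep hI]
  exact (H_law p (fun ω => (f ω, g ω)) φ).symm

end Pool.Agent.Ldc
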