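import Pool.Agent.Ldc.E3
set_option autoImplicit false

/-!
# E3b.  Independent families; the product space `(ι → α, pf r)`.

`indepFam_pf`: `F i` depends only on the coordinates in `A i`, the `A i` pairwise disjoint.
`P(F = a) = Σ_ω Π_s r_s(ω_s) Π_i 1[F_i(ω) = a_i]`; `F_i` factors through the restriction to `A i`; the sum
factorises (Fubini).  A convenient way: prove first the two block version `indep_pf`, then induct over a
finset of indices `i`, or use `Fintype.piFinset`/`Finset.prod_univ_sum` and `Finset.prod_biUnion`.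
`H_indepFam`: log of the product.
-/
namespace Pool.Agent.Ldc
open Finset
variable {Ω ι κ α β δ : Type} [Fintype Ω] [Fintype ι] [DecidableEq ι] [Fintype κ] [DecidableEq κ]
  {p : Ω → ℝ}

/-- probability of a finite set of values -/
theorem E3b_mem (p : Ω → ℝ) (f : Ω → α) (S : Finset α) :
    pe p (fun ω => f ω ∈ S) = ∑ x ∈ S, pr p f x := by
  classical
  unfold pr pe
  rw [Finset.sum_comm]
  refine Finset.sum_congr rfl (fun ω _ => ?_)
  rw [Finset.sum_ite_eq]
  split_ifs <;> rfl

theorem E3b_pe_congr (p : Ω → ℝ) {A B : Ω → Prop} (h : ∀ ω, A ω ↔ B ω) : pe p A = pe p B := by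
  classical
  unfold pe
  refine Finset.sum_congr rfl (fun ω _ => ?_)
  by_cases hA : A ω
  · rw [if_pos hA, if_pos ((h ω).1 hA)]
  · rw [if_neg hA, if_neg (fun hB => hA ((h ω).2 hB))]

theorem H_indepFam (hp : IsP p) (F : ι → Ω → α) (hI : IndepFam p F) :
    H p (fun ω i => F i ω) = ∑ i, H p (F i) := by
  unfold H
  rw [Finset.sum_neg_distrib, Finset.sum_comm]
  congr 1
  refine Finset.sum_congr rfl (fun ω _ => ?_)
  rw [← Finset.mul_sum]
  rcases (hp.1 ω).lt_or_eq with h | h
  · rw [hI, Real.log_prod]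
    intro i _
    exact (pr_pos hp (F i) h).ne'
  · rw [← h, zero_mul, zero_mul]

theorem IndepFam.comp (hp : IsP p) (F : ι → Ω → α) (hI : IndepFam p F) (φ : ι → α → β) :
    IndepFam p (fun i ω => φ i (F i ω)) := by
  classical
  intro b
  set S : ι → Finset α := fun i => (univ.image (F i)).filter (fun x => φ i x = b i) with hS
  have h1 : ∀ i, pr p (fun ω => φ i (F i ω)) (b i) = ∑ x ∈ S i, pr p (F i) x := by
    intro i
    rw [← E3b_mem]
    apply E3b_pe_congr
    intro ω
    rw [hS]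
    simp only [mem_filter, mem_image, mem_univ, true_and]
    exact ⟨fun h => ⟨⟨ω, rfl⟩, h⟩, fun h => h.2⟩
  have h2 : pr p (fun ω i => φ i (F i ω)) b
      = ∑ x ∈ Fintype.piFinset S, pr p (fun ω i => F i ω) x := by
    rw [← E3b_mem]
    apply E3b_pe_congr
    intro ω
    rw [Fintype.mem_piFinset]
    constructor
    · intro h i
      rw [hS]
      simp only [mem_filter, mem_image, mem_univ, true_and]
      exact ⟨⟨ω, rfl⟩, congrFun h i⟩
    · intro h
      funext i
      exact (mem_filter.1 (h i)).2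
  rw [h2]
  simp_rw [h1]
  rw [Finset.prod_univ_sum]
  exact Finset.sum_congr rfl (fun x _ => hI x)

/-- functions of an independent family may be computed on the product of the laws -/
theorem H_fun_of_indepFam [Fintype α] (hp : IsP p) (F : ι → Ω → α) (hI : IndepFam p F)
    (φ : (ι → α) → β) :
    H p (fun ω => φ (fun i => F i ω)) = H (pf (fun i => pr p (F i))) φ := by
  have h1 : pf (fun i => pr p (F i)) = pr p (fun ω i => F i ω) := by
    funext a
    exact (hI a).symm
  rw [h1, H_law]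

/-- expectation of a product of two functions of disjoint blocks -/
theorem E3b_two [Fintype α] (r : κ → α → ℝ) (hr : ∀ s, IsP (r s)) (A : Finset κ)
    (f g : (κ → α) → ℝ)
    (hf : ∀ ω ω' : κ → α, (∀ s ∈ A, ω s = ω' s) → f ω = f ω')
    (hg : ∀ ω ω' : κ → α, (∀ s, s ∉ A → ω s = ω' s) → g ω = g ω') :
    ∑ ω, pf r ω * (f ω * g ω) = (∑ ω, pf r ω * f ω) * ∑ ω, pf r ω * g ω := by
  classical
  have hP : ∑ ω, pf r ω = 1 := (pf_isP r hr).2
  let mix : (κ → α) → (κ → α) → (κ → α) := fun ω ω' s => if s ∈ A then ω s else ω' s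
  let T : (κ → α) × (κ → α) → (κ → α) × (κ → α) := fun x => (mix x.1 x.2, mix x.2 x.1)
  have hT : Function.Involutive T := by
    rintro ⟨ω, ω'⟩
    refine Prod.ext ?_ ?_
    · funext s
      show (if s ∈ A then (if s ∈ A then ω s else ω' s) else (if s ∈ A then ω' s else ω s)) = ω s
      split_ifs <;> rfl
    · funext s
      show (if s ∈ A then (if s ∈ A then ω' s else ω s) else (if s ∈ A then ω s else ω' s)) = ω' s
      split_ifs <;> rfl
  have hPT : ∀ ω ω' : κ → α, pf r (mix ω ω') * pf r (mix ω' ω) = pf r ω * pf r ω' := by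
    intro ω ω'
    unfold pf
    rw [← Finset.prod_mul_distrib, ← Finset.prod_mul_distrib]
    refine Finset.prod_congr rfl (fun s _ => ?_)
    show r s (if s ∈ A then ω s else ω' s) * r s (if s ∈ A then ω' s else ω s) = _
    split_ifs
    · rfl
    · ring
  have hfm : ∀ ω ω' : κ → α, f (mix ω ω') = f ω := by
    intro ω ω'
    apply hf
    intro s hs
    show (if s ∈ A then ω s else ω' s) = ω s
    rw [if_pos hs]
  have hgm : ∀ ω ω' : κ → α, g (mix ω ω') = g ω' := by
    intro ω ω'
    apply hg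
    intro s hs
    show (if s ∈ A then ω s else ω' s) = ω' s
    rw [if_neg hs]
  have e1 : (∑ ω, pf r ω * f ω) * ∑ ω, pf r ω * g ω
      = ∑ x : (κ → α) × (κ → α), pf r x.1 * pf r x.2 * (f x.1 * g x.2) := by
    rw [Fintype.sum_prod_type, Finset.sum_mul_sum]
    refine Finset.sum_congr rfl (fun ω _ => Finset.sum_congr rfl (fun ω' _ => ?_))
    ring
  have e2 : ∑ ω, pf r ω * (f ω * g ω)
      = ∑ x : (κ → α) × (κ → α), pf r x.1 * pf r x.2 * (f x.1 * g x.1) := by
    rw [Fintype.sum_prod_type]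
    refine Finset.sum_congr rfl (fun ω _ => ?_)
    have : ∀ ω', pf r ω * pf r ω' * (f ω * g ω) = pf r ω * (f ω * g ω) * pf r ω' := fun _ => by ring
    simp_rw [this]
    rw [← Finset.mul_sum, hP, mul_one]
  rw [e1, e2, ← Equiv.sum_comp (Function.Involutive.toPerm T hT)]
  refine Finset.sum_congr rfl (fun x _ => ?_)
  show pf r (mix x.1 x.2) * pf r (mix x.2 x.1) * (f (mix x.1 x.2) * g (mix x.1 x.2)) = _
  rw [hPT, hfm, hgm]

theorem E3b_prod [Fintype α] (r : κ → α → ℝ) (hr : ∀ s, IsP (r s)) (A : ι → Finset κ)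
    (hA : ∀ i j, i ≠ j → Disjoint (A i) (A j)) (g : ι → (κ → α) → ℝ)
    (hg : ∀ i (ω ω' : κ → α), (∀ s ∈ A i, ω s = ω' s) → g i ω = g i ω') (I : Finset ι) :
    ∑ ω, pf r ω * ∏ i ∈ I, g i ω = ∏ i ∈ I, ∑ ω, pf r ω * g i ω := by
  classical
  induction I using Finset.induction_on with
  | empty =>
    simp only [Finset.prod_empty, mul_one]
    exact (pf_isP r hr).2
  | insert i I hi ih =>
    rw [Finset.prod_insert hi, ← ih]
    simp_rw [Finset.prod_insert hi]
    apply E3b_two r hr (A i) (g i) (fun ω => ∏ j ∈ I, g j ω) (hg i)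
    intro ω ω' h
    refine Finset.prod_congr rfl (fun j hj => ?_)
    apply hg j
    intro s hs
    apply h
    intro hs'
    have hij : i ≠ j := fun e => hi (e ▸ hj)
    exact Finset.disjoint_left.1 (hA i j hij) hs' hs

theorem E3b_pr [Fintype α] (r : κ → α → ℝ) (f : (κ → α) → β) (b : β)
    [∀ ω, Decidable (f ω = b)] :
    pr (pf r) f b = ∑ ω, pf r ω * (if f ω = b then 1 else 0) := by
  unfold pr pe
  refine Finset.sum_congr rfl (fun ω _ => ?_)
  by_cases h : f ω = b
  · rw [if_pos h, if_pos h, mul_one]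
  · rw [if_neg h, if_neg h, mul_zero]

/-- on the product space, functions of disjoint blocks of coordinates are independent -/
theorem indepFam_pf [Fintype α] (r : κ → α → ℝ) (hr : ∀ s, IsP (r s)) (A : ι → Finset κ)
    (hA : ∀ i j, i ≠ j → Disjoint (A i) (A j)) (F : ι → (κ → α) → β)
    (hF : ∀ i (ω ω' : κ → α), (∀ s ∈ A i, ω s = ω' s) → F i ω = F i ω') :
    IndepFam (pf r) F := by
  classical
  intro a
  have h1 : pr (pf r) (fun ω i => F i ω) a
      = ∑ ω, pf r ω * ∏ i ∈ univ, (if F i ω = a i then (1 : ℝ) else 0) := by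
    unfold pr pe
    refine Finset.sum_congr rfl (fun ω _ => ?_)
    by_cases h : (fun i => F i ω) = a
    · rw [if_pos h, Finset.prod_eq_one, mul_one]
      intro i _
      rw [if_pos (congrFun h i)]
    · rw [if_neg h]
      have h' : ∃ i, F i ω ≠ a i := by
        by_contra hc
        push Not at hc
        exact h (funext hc)
      obtain ⟨i, hi⟩ := h'
      rw [Finset.prod_eq_zero (mem_univ i) (if_neg hi), mul_zero]
  rw [h1, E3b_prod r hr A hA (fun i ω => if F i ω = a i then (1 : ℝ) else 0)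
    (fun i ω ω' h => by rw [hF i ω ω' h]) univ]
  refine Finset.prod_congr rfl (fun i _ => ?_)
  rw [E3b_pr]

theorem indep_pf [Fintype α] (r : κ → α → ℝ) (hr : ∀ s, IsP (r s)) (A B : Finset κ)
    (hAB : Disjoint A B) (f : (κ → α) → β) (g : (κ → α) → δ)
    (hf : ∀ ω ω' : κ → α, (∀ s ∈ A, ω s = ω' s) → f ω = f ω')
    (hg : ∀ ω ω' : κ → α, (∀ s ∈ B, ω s = ω' s) → g ω = g ω') :
    Indep (pf r) f g := by
  classical
  intro a b
  have h1 : pr (pf r) (fun ω => (f ω, g ω)) (a, b)
      = ∑ ω, pf r ω * ((if f ω = a then (1 : ℝ) else 0) * (if g ω = b then (1 : ℝ) else 0)) := by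
    unfold pr pe
    refine Finset.sum_congr rfl (fun ω _ => ?_)
    by_cases h : f ω = a <;> by_cases h' : g ω = b <;> simp [h, h']
  rw [h1, E3b_two r hr A (fun ω => if f ω = a then (1 : ℝ) else 0)
    (fun ω => if g ω = b then (1 : ℝ) else 0) (fun ω ω' h => by
      show (if f ω = a then (1 : ℝ) else 0) = if f ω' = a then (1 : ℝ) else 0
      rw [hf ω ω' h])
    (fun ω ω' h => by
      show (if g ω = b then (1 : ℝ) else 0) = if g ω' = b then (1 : ℝ) else 0
      rw [hg ω ω' (fun s hs => h s (fun hs' => Finset.disjoint_left.1 hAB hs' hs))])]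
  rw [E3b_pr, E3b_pr]

theorem pr_pf_coord [Fintype α] (r : κ → α → ℝ) (hr : ∀ s, IsP (r s)) (s : κ) (φ : α → β) :
    pr (pf r) (fun ω => φ (ω s)) = pr (r s) φ := by
  classical
  funext b
  rw [E3b_pr]
  have h1 : ∀ ω : κ → α, pf r ω * (if φ (ω s) = b then (1 : ℝ) else 0)
      = ∏ k, (r k (ω k) * (if k = s then (if φ (ω k) = b then (1 : ℝ) else 0) else 1)) := by
    intro ω
    rw [Finset.prod_mul_distrib, Finset.prod_ite_eq' univ s, if_pos (mem_univ s)]
    rfl
  have h2 : ∑ ω : κ → α, ∏ k, (r k (ω k) * (if k = s then (if φ (ω k) = b then (1 : ℝ) else 0)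
      else 1)) = ∏ k, ∑ x, (r k x * (if k = s then (if φ x = b then (1 : ℝ) else 0) else 1)) := by
    rw [Finset.prod_univ_sum, Fintype.piFinset_univ]
  simp_rw [h1]
  rw [h2, Finset.prod_eq_single_of_mem s (mem_univ s)]
  · unfold pr pe
    refine Finset.sum_congr rfl (fun x _ => ?_)
    rw [if_pos rfl]
    by_cases h : φ x = b
    · rw [if_pos h, if_pos h, mul_one]
    · rw [if_neg h, if_neg h, mul_zero]
  · intro k _ hk
    simp_rw [if_neg hk, mul_one]
    exact (hr k).2

theorem H_pf_coord [Fintype α] (r : κ → α → ℝ) (hr : ∀ s, IsP (r s)) (s : κ) (φ : α → β) :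
    H (pf r) (fun ω => φ (ω s)) = H (r s) φ := by
  have h1 : pr (pf r) (fun ω => ω s) = r s := by
    have := pr_pf_coord r hr s (fun x => x)
    rw [this, pr_id]
  rw [← H_law (pf r) (fun ω => ω s) φ, h1]

theorem H_pf_coord2 [Fintype α] (r : κ → α → ℝ) (hr : ∀ s, IsP (r s)) (s s' : κ) (hs : s ≠ s')
    (φ : α × α → β) :
    H (pf r) (fun ω => φ (ω s, ω s')) = H (pp (r s) (r s')) φ := by
  have hI : Indep (pf r) (fun ω => ω s) (fun ω => ω s') :=
    indep_pf r hr {s} {s'} (by rwa [Finset.disjoint_singleton]) (fun ω => ω s) (fun ω => ω s')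
      (fun ω ω' h => h s (mem_singleton_self s)) (fun ω ω' h => h s' (mem_singleton_self s'))
  have h1 : ∀ s, pr (pf r) (fun ω => ω s) = r s := by
    intro s
    have := pr_pf_coord r hr s (fun x => x)
    rw [this, pr_id]
  rw [H_fun_of_indep hI φ, h1, h1]

theorem H_pf_reindex [Fintype α] (r : κ → α → ℝ) (e : ι ≃ κ) (f : (κ → α) → β) :
    H (pf r) f = H (pf (fun i => r (e i))) (fun ω => f (fun k => ω (e.symm k))) := by
  classical
  set T : (κ → α) ≃ (ι → α) := Equiv.arrowCongr e.symm (Equiv.refl α) with hT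
  have hTe : ∀ (ω : κ → α) (i : ι), T ω i = ω (e i) := fun _ _ => rfl
  have hinv : ∀ ω : κ → α, (fun k => T ω (e.symm k)) = ω := by
    intro ω
    funext k
    rw [hTe, Equiv.apply_symm_apply]
  have hpf : ∀ ω : κ → α, pf (fun i => r (e i)) (T ω) = pf r ω := by
    intro ω
    unfold pf
    exact Equiv.prod_comp e (fun k => r k (ω k))
  set g : (ι → α) → β := fun ω => f (fun k => ω (e.symm k)) with hg
  have hgT : ∀ ω : κ → α, g (T ω) = f ω := fun ω => congrArg f (hinv ω)
  have hpr : ∀ b, pr (pf (fun i => r (e i))) g b = pr (pf r) f b := by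
    intro b
    unfold pr pe
    rw [← Equiv.sum_comp T]
    refine Finset.sum_congr rfl (fun ω _ => ?_)
    simp only [hgT, hpf]
  unfold H
  congr 1
  rw [← Equiv.sum_comp T]
  refine Finset.sum_congr rfl (fun ω _ => ?_)
  rw [hpf, hpr, hgT]

end Pool.Agent.Ldc
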