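import Pool.Agent.Ldc.E2
import Pool.Agent.Ldc.E3
set_option autoImplicit false

/-!
# E5.  Improved Ruzsa triangle inequality, Kaimanovich-Vershik-Madiman.

`H_triangle`: submodularity with `X = A - Z`, `Y = (A, B)`, `T = A - B`:
`H(A-Z, T) = H(A-Z, Z-B) ≤ H(A-Z)+H(Z-B)`, `H(Y,T) = H(A,B)`, `H(X,Y,T) = H(A,B,Z) = H(A,B)+H(Z)`.
`KVM`: submodularity with `(X, Z, X+Y+Z)`:
`H(X, X+Y+Z) = H(X)+H(Y+Z)`, `H(Z, X+Y+Z) = H(Z)+H(X+Y)`, `H(X,Z,X+Y+Z) = H(X)+H(Y)+H(Z)`.
-/
namespace Pool.Agent.Ldc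
open Finset
variable {Ω G : Type} [Fintype Ω] [AddCommGroup G] [Fintype G] {p : Ω → ℝ}

private theorem E5_ker {α β : Type} (p : Ω → ℝ) (f : Ω → α) (g : Ω → β)
    (h : ∀ ω ω', f ω = f ω' ↔ g ω = g ω') : H p f = H p g := by
  unfold H
  congr 1
  refine Finset.sum_congr rfl fun ω _ => ?_
  have h1 : (fun ω' => f ω' = f ω) = (fun ω' => g ω' = g ω) := funext fun ω' => propext (h ω' ω)
  unfold pr
  rw [h1]

theorem H_triangle (hp : IsP p) (A B Z : Ω → G) (hI : Indep p (fun ω => (A ω, B ω)) Z) :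
    H p (fun ω => A ω - B ω) + H p Z
      ≤ H p (fun ω => A ω - Z ω) + H p (fun ω => Z ω - B ω) := by
  have e := H_submod hp (fun ω => A ω - Z ω) (fun ω => (A ω, B ω)) (fun ω => A ω - B ω)
  have h1 : H p (fun ω => (A ω - Z ω, (A ω, B ω), A ω - B ω)) = H p (fun ω => ((A ω, B ω), Z ω)) :=
    E5_ker _ _ _ fun ω ω' => by
      simp only [Prod.ext_iff]
      constructor
      · rintro ⟨a, ⟨b, c⟩, d⟩
        refine ⟨⟨b, c⟩, ?_⟩
        rw [b] at a
        exact sub_right_injective a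
      · rintro ⟨⟨b, c⟩, d⟩
        exact ⟨by rw [b, d], ⟨b, c⟩, by rw [b, c]⟩
  have h2 : H p (fun ω => (A ω - Z ω, A ω - B ω)) = H p (fun ω => (A ω - Z ω, Z ω - B ω)) :=
    E5_ker _ _ _ fun ω ω' => by
      simp only [Prod.ext_iff]
      constructor
      · rintro ⟨a, b⟩
        refine ⟨a, ?_⟩
        have : (A ω - B ω) - (A ω - Z ω) = (A ω' - B ω') - (A ω' - Z ω') := by rw [a, b]
        simpa using this
      · rintro ⟨a, b⟩
        refine ⟨a, ?_⟩
        have : (A ω - Z ω) + (Z ω - B ω) = (A ω' - Z ω') + (Z ω' - B ω') := by rw [a, b]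
        simpa using this
  have h3 : H p (fun ω => ((A ω, B ω), A ω - B ω)) = H p (fun ω => (A ω, B ω)) :=
    E5_ker _ _ _ fun ω ω' => by
      simp only [Prod.ext_iff]
      constructor
      · rintro ⟨⟨b, c⟩, d⟩; exact ⟨b, c⟩
      · rintro ⟨b, c⟩; exact ⟨⟨b, c⟩, by rw [b, c]⟩
  have h4 := H_indep hp (fun ω => (A ω, B ω)) Z hI
  have h5 := H_pair_le hp (fun ω => A ω - Z ω) (fun ω => Z ω - B ω)
  rw [h1, h2, h3, h4] at e
  linarith

theorem KVM (hp : IsP p) (X Y Z : Ω → G) (h1 : Indep p X (fun ω => (Y ω, Z ω)))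
    (h2 : Indep p Z (fun ω => (X ω, Y ω))) :
    H p (fun ω => X ω + Y ω + Z ω) + H p Y
      ≤ H p (fun ω => X ω + Y ω) + H p (fun ω => Y ω + Z ω) := by
  have e := H_submod hp X Z (fun ω => X ω + Y ω + Z ω)
  have k1 : H p (fun ω => (X ω, Z ω, X ω + Y ω + Z ω)) = H p (fun ω => (X ω, (Y ω, Z ω))) :=
    E5_ker _ _ _ fun ω ω' => by
      simp only [Prod.ext_iff]
      constructor
      · rintro ⟨a, b, c⟩
        rw [a, b] at c
        exact ⟨a, add_left_cancel (add_right_cancel c), b⟩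
      · rintro ⟨a, b, c⟩
        exact ⟨a, c, by rw [a, b, c]⟩
  have k2 : H p (fun ω => (X ω, X ω + Y ω + Z ω)) = H p (fun ω => (X ω, Y ω + Z ω)) :=
    E5_ker _ _ _ fun ω ω' => by
      simp only [Prod.ext_iff]
      constructor
      · rintro ⟨a, c⟩
        rw [a, add_assoc, add_assoc] at c
        exact ⟨a, add_left_cancel c⟩
      · rintro ⟨a, b⟩
        exact ⟨a, by rw [a, add_assoc, add_assoc, b]⟩
  have k3 : H p (fun ω => (Z ω, X ω + Y ω + Z ω)) = H p (fun ω => (Z ω, X ω + Y ω)) :=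
    E5_ker _ _ _ fun ω ω' => by
      simp only [Prod.ext_iff]
      constructor
      · rintro ⟨a, c⟩
        rw [a] at c
        exact ⟨a, add_right_cancel c⟩
      · rintro ⟨a, b⟩
        exact ⟨a, by rw [a, b]⟩
  have i1 : Indep p X (fun ω => Y ω + Z ω) :=
    Indep.comp hp h1 (fun x => x) (fun y : G × G => y.1 + y.2)
  have i2 : Indep p Z (fun ω => X ω + Y ω) :=
    Indep.comp hp h2 (fun x => x) (fun y : G × G => y.1 + y.2)
  have i3 : Indep p Z Y := Indep.comp hp h2 (fun x => x) (fun y : G × G => y.2)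
  have m1 := H_indep hp X (fun ω => (Y ω, Z ω)) h1
  have m2 := H_indep hp Y Z (Indep.symm i3)
  have m3 := H_indep hp X (fun ω => Y ω + Z ω) i1
  have m4 := H_indep hp Z (fun ω => X ω + Y ω) i2
  rw [k1, k2, k3, m1, m2, m3, m4] at e
  linarith

/-- the entropy of a sum of independent variables is at least that of a summand -/
theorem H_le_add (hp : IsP p) (X Y : Ω → G) (h : Indep p X Y) : H p X ≤ H p (fun ω => X ω + Y ω) := by
  have k1 : H p (fun ω => (X ω + Y ω, Y ω)) = H p (fun ω => (X ω, Y ω)) :=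
    E5_ker _ _ _ fun ω ω' => by
      simp only [Prod.ext_iff]
      constructor
      · rintro ⟨a, b⟩
        rw [b] at a
        exact ⟨add_right_cancel a, b⟩
      · rintro ⟨a, b⟩
        exact ⟨by rw [a, b], b⟩
  have k2 := H_indep hp X Y h
  have k3 := H_pair_le hp (fun ω => X ω + Y ω) Y
  rw [k1, k2] at k3
  linarith

theorem H_le_add' (hp : IsP p) (X Y : Ω → G) (h : Indep p X Y) : H p Y ≤ H p (fun ω => X ω + Y ω) := by
  have e := H_le_add hp Y X (Indep.symm h)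
  have : (fun ω => X ω + Y ω) = fun ω => Y ω + X ω := funext fun ω => add_comm _ _
  rw [this]
  exact e

end Pool.Agent.Ldc
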