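import Pool.Agent.Ldc.E5
import Pool.Agent.Ldc.E3b
set_option autoImplicit false

/-!
# E5b.  KVM for many summands, on the product space.

Induction on `S`: with `Y = φ_a(ω_a)` in the middle, `X = Σ_{s∈S} φ_s(ω_s)`, `Z = φ_{s'}(ω_{s'})`:
`H(Y+X+Z) ≤ H(Y+X) + H(Y+Z) - H(Y)` (KVM, `indep_pf`, `H_pf_coord`, `H_pf_coord2`).
-/
namespace Pool.Agent.Ldc
open Finset
variable {G κ : Type} [AddCommGroup G] [Fintype G] [Fintype κ] [DecidableEq κ]

theorem KVM_sum (r : κ → G → ℝ) (hr : ∀ s, IsP (r s)) (φ : κ → G → G) (a : κ) (S : Finset κ)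
    (ha : a ∉ S) :
    H (pf r) (fun ω => φ a (ω a) + ∑ s ∈ S, φ s (ω s))
      ≤ H (r a) (φ a)
        + ∑ s ∈ S, (H (pp (r a) (r s)) (fun x => φ a x.1 + φ s x.2) - H (r a) (φ a)) := by
  induction S using Finset.induction_on with
  | empty =>
    rw [Finset.sum_empty, add_zero]
    have h1 : (fun ω : κ → G => φ a (ω a) + ∑ s ∈ (∅ : Finset κ), φ s (ω s))
        = fun ω => φ a (ω a) := by
      funext ω
      rw [Finset.sum_empty, add_zero]
    rw [h1, H_pf_coord r hr a (φ a)]
  | insert t S ht ih =>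
    have hta : a ≠ t := fun h => ha (by rw [h]; exact Finset.mem_insert_self _ _)
    have haS : a ∉ S := fun h => ha (Finset.mem_insert_of_mem h)
    have ih' := ih haS
    have hp := pf_isP r hr
    have i1 : Indep (pf r) (fun ω : κ → G => ∑ s ∈ S, φ s (ω s))
        (fun ω => (φ a (ω a), φ t (ω t))) := by
      refine indep_pf r hr S {a, t} ?_ _ _ ?_ ?_
      · rw [Finset.disjoint_right]
        intro z hz
        rcases Finset.mem_insert.1 hz with h | h
        · rw [h]; exact haS
        · rw [Finset.mem_singleton.1 h]; exact ht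
      · intro ω ω' h
        exact Finset.sum_congr rfl fun s hs => by rw [h s hs]
      · intro ω ω' h
        rw [h a (by simp), h t (by simp)]
    have i2 : Indep (pf r) (fun ω : κ → G => φ t (ω t))
        (fun ω => (∑ s ∈ S, φ s (ω s), φ a (ω a))) := by
      refine indep_pf r hr {t} (insert a S) ?_ _ _ ?_ ?_
      · rw [Finset.disjoint_singleton_left]
        intro h
        rcases Finset.mem_insert.1 h with h | h
        · exact hta h.symm
        · exact ht h
      · intro ω ω' h
        rw [h t (by simp)]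
      · intro ω ω' h
        rw [h a (by simp), Finset.sum_congr rfl fun s hs => by
          rw [h s (Finset.mem_insert_of_mem hs)]]
    have e := KVM hp (fun ω : κ → G => ∑ s ∈ S, φ s (ω s)) (fun ω => φ a (ω a))
      (fun ω => φ t (ω t)) i1 i2
    have h1 : (fun ω : κ → G => φ a (ω a) + ∑ s ∈ insert t S, φ s (ω s))
        = fun ω => ∑ s ∈ S, φ s (ω s) + φ a (ω a) + φ t (ω t) := by
      funext ω
      rw [Finset.sum_insert ht]
      abel
    have h2 : (fun ω : κ → G => ∑ s ∈ S, φ s (ω s) + φ a (ω a))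
        = fun ω => φ a (ω a) + ∑ s ∈ S, φ s (ω s) := by
      funext ω
      abel
    have h3 : H (pf r) (fun ω => φ a (ω a) + φ t (ω t))
        = H (pp (r a) (r t)) (fun x => φ a x.1 + φ t x.2) :=
      H_pf_coord2 r hr a t hta (fun x : G × G => φ a x.1 + φ t x.2)
    have h4 : H (pf r) (fun ω => φ a (ω a)) = H (r a) (φ a) := H_pf_coord r hr a (φ a)
    rw [h1, Finset.sum_insert ht]
    rw [h2, h3, h4] at e
    linarith

/-- entropy of a sum over a set of coordinates is at least the entropy of one summand -/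
theorem H_sum_ge (r : κ → G → ℝ) (hr : ∀ s, IsP (r s)) (φ : κ → G → G) (a : κ) (S : Finset κ)
    (ha : a ∈ S) :
    H (r a) (φ a) ≤ H (pf r) (fun ω => ∑ s ∈ S, φ s (ω s)) := by
  have hp := pf_isP r hr
  have i1 : Indep (pf r) (fun ω : κ → G => φ a (ω a)) (fun ω => ∑ s ∈ S.erase a, φ s (ω s)) := by
    refine indep_pf r hr {a} (S.erase a) ?_ _ _ ?_ ?_
    · rw [Finset.disjoint_singleton_left]
      exact Finset.notMem_erase a S
    · intro ω ω' h
      rw [h a (by simp)]
    · intro ω ω' h
      exact Finset.sum_congr rfl fun s hs => by rw [h s hs]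
  have e := H_le_add hp _ _ i1
  have h1 : (fun ω : κ → G => φ a (ω a) + ∑ s ∈ S.erase a, φ s (ω s))
      = fun ω => ∑ s ∈ S, φ s (ω s) := by
    funext ω
    exact Finset.add_sum_erase S (fun s => φ s (ω s)) ha
  rw [h1, H_pf_coord r hr a (φ a)] at e
  exact e

end Pool.Agent.Ldc
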