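import Pool.Agent.Ldc.E5
set_option autoImplicit false

/-!
# E6.  The entropic Ruzsa distance `rd` of laws.

All from `H_triangle`, `H_le_add`, `H_congr`, `indep_pp`, `H_law`, `ent_eq_H`, `H_fun_of_indep`.
* `rd_triangle`: on `(G×G)×G` with the product law, `A, B` = the two outer variables, `Z` the middle one.
* `rd_add_le`: KVM with middle `f`: `H(X - f - g) ≤ H(X - f) + H(f+g) - H(f)`  (outer `X` and `-g`).
* `H_add_self_le` (only place where the torsion is used): in an `m`-torsion group `u' = -(m-1)u'`; by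
  `H_dilate` below with `x := U`, and `v := -U'`... it is placed in E8.
-/
namespace Pool.Agent.Ldc
open Finset
variable {Ω G : Type} [Fintype Ω] [AddCommGroup G] [Fintype G] {p : Ω → ℝ} {x y z : G → ℝ}

private theorem E6_ker {Ω' α β : Type} [Fintype Ω'] (p : Ω' → ℝ) (f : Ω' → α) (g : Ω' → β)
    (h : ∀ ω ω', f ω = f ω' ↔ g ω = g ω') : H p f = H p g := by
  unfold H
  congr 1
  refine Finset.sum_congr rfl fun ω _ => ?_
  have h1 : (fun ω' => f ω' = f ω) = (fun ω' => g ω' = g ω) := funext fun ω' => propext (h ω' ω)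
  unfold pr
  rw [h1]

private theorem E6_equiv {Ω₁ Ω₂ α : Type} [Fintype Ω₁] [Fintype Ω₂] (p₁ : Ω₁ → ℝ) (p₂ : Ω₂ → ℝ)
    (e : Ω₁ ≃ Ω₂) (he : ∀ ω, p₂ (e ω) = p₁ ω) (f : Ω₂ → α) :
    H p₁ (fun ω => f (e ω)) = H p₂ f := by
  have h0 : ∀ a, pr p₁ (fun ω => f (e ω)) a = pr p₂ f a := by
    intro a
    unfold pr pe
    rw [← Equiv.sum_comp e]
    exact Finset.sum_congr rfl fun ω _ => by rw [he]
  unfold H
  rw [← Equiv.sum_comp e (fun ω => p₂ ω * Real.log (pr p₂ f (f ω)))]
  congr 1
  exact Finset.sum_congr rfl fun ω _ => by rw [he, h0]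

private theorem E6_two {Ω₁ Ω₂ δ : Type} [Fintype Ω₁] [Fintype Ω₂] {p₁ : Ω₁ → ℝ} {p₂ : Ω₂ → ℝ}
    (h1 : IsP p₁) (h2 : IsP p₂) (f : Ω₁ → G) (g : Ω₂ → G) (φ : G × G → δ) :
    H (pp p₁ p₂) (fun x => φ (f x.1, g x.2)) = H (pp (pr p₁ f) (pr p₂ g)) φ := by
  rw [H_fun_of_indep (indep_pp h1 h2 f g) φ, pr_pp_fst h2, pr_pp_snd h1]

theorem rd_comm (x y : G → ℝ) : rd x y = rd y x := by
  have h1 : H (pp x y) (fun u : G × G => u.1 - u.2) = H (pp y x) (fun u : G × G => u.1 - u.2) := by
    rw [← E6_equiv (pp x y) (pp y x) (Equiv.prodComm G G) (fun ω => mul_comm _ _)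
      (fun u : G × G => u.1 - u.2)]
    refine E6_ker _ _ _ fun ω ω' => ?_
    simp only [Equiv.prodComm_apply, Prod.fst_swap, Prod.snd_swap]
    constructor
    · intro h
      rw [← neg_sub, h, neg_sub]
    · intro h
      rw [← neg_sub, h, neg_sub]
  unfold rd
  rw [h1]
  ring

private theorem E6_ent_le (hx : IsP x) (hy : IsP y) :
    ent x ≤ H (pp x y) (fun u : G × G => u.1 - u.2)
      ∧ ent y ≤ H (pp x y) (fun u : G × G => u.1 - u.2) := by
  have hp := pp_isP hx hy
  have hI : Indep (pp x y) (fun u : G × G => u.1) (fun u : G × G => -u.2) :=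
    indep_pp hx hy (fun a => a) (fun b => -b)
  have e1 := H_le_add hp (fun u : G × G => u.1) (fun u : G × G => -u.2) hI
  have e2 := H_le_add' hp (fun u : G × G => u.1) (fun u : G × G => -u.2) hI
  have h3 : (fun u : G × G => u.1 + -u.2) = fun u : G × G => u.1 - u.2 :=
    funext fun u => (sub_eq_add_neg _ _).symm
  rw [h3] at e1 e2
  constructor
  · have h4 : H (pp x y) (fun u : G × G => u.1) = ent x := by
      rw [ent_eq_H]
      exact H_pp_fst hy (fun a => a)
    rw [← h4]
    exact e1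
  · have h4 : H (pp x y) (fun u : G × G => -u.2) = ent y := by
      rw [ent_eq_H, ← H_pp_snd hx (fun a : G => a)]
      refine E6_ker _ _ _ fun ω ω' => ?_
      simp
    rw [← h4]
    exact e2

theorem abs_ent_sub_le (hx : IsP x) (hy : IsP y) : |ent x - ent y| ≤ 2 * rd x y := by
  obtain ⟨h1, h2⟩ := E6_ent_le hx hy
  unfold rd
  rw [abs_le]
  constructor <;> linarith

theorem rd_nonneg (hx : IsP x) (hy : IsP y) : 0 ≤ rd x y := by
  have := (abs_nonneg _).trans (abs_ent_sub_le hx hy)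
  linarith

theorem rd_triangle (hx : IsP x) (hy : IsP y) (hz : IsP z) : rd x z ≤ rd x y + rd y z := by
  have hxz := pp_isP hx hz
  have hp := pp_isP hxz hy
  have e := H_triangle hp (fun u : (G × G) × G => u.1.1) (fun u => u.1.2) (fun u => u.2)
    (indep_pp hxz hy (fun a : G × G => (a.1, a.2)) (fun b : G => b))
  have h1 : H (pp (pp x z) y) (fun u : (G × G) × G => u.1.1 - u.1.2)
      = H (pp x z) (fun u : G × G => u.1 - u.2) := H_pp_fst hy (fun u : G × G => u.1 - u.2)
  have h2 : H (pp (pp x z) y) (fun u : (G × G) × G => u.2) = ent y := by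
    rw [ent_eq_H]
    exact H_pp_snd hxz (fun a : G => a)
  have l1 : pr (pp x z) (fun u : G × G => u.1) = x :=
    (pr_pp_fst hz (fun a : G => a)).trans (pr_id x)
  have l2 : pr (pp x z) (fun u : G × G => u.2) = z :=
    (pr_pp_snd hx (fun a : G => a)).trans (pr_id z)
  have h3 : H (pp (pp x z) y) (fun u : (G × G) × G => u.1.1 - u.2)
      = H (pp x y) (fun u : G × G => u.1 - u.2) := by
    rw [E6_two hxz hy (fun u : G × G => u.1) (fun b : G => b) (fun u : G × G => u.1 - u.2), l1,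
      pr_id]
  have h4 : H (pp (pp x z) y) (fun u : (G × G) × G => u.2 - u.1.2)
      = H (pp y z) (fun u : G × G => u.1 - u.2) := by
    have := E6_two hxz hy (fun u : G × G => u.2) (fun b : G => b) (fun u : G × G => u.2 - u.1)
    rw [this, l2, pr_id,
      ← E6_equiv (pp z y) (pp y z) (Equiv.prodComm G G) (fun ω => mul_comm _ _)
        (fun u : G × G => u.1 - u.2)]
    rfl
  rw [h1, h2, h3, h4] at e
  unfold rd
  linarith

theorem rd_self_le (hx : IsP x) (hy : IsP y) : rd x x ≤ 2 * rd x y := by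
  have := rd_triangle hx hy hx
  rw [rd_comm y x] at this
  linarith

theorem ent_neg (x : G → ℝ) : ent (fun g => x (-g)) = ent x := by
  unfold ent
  exact Equiv.sum_comp (Equiv.neg G) (fun g => Real.negMulLog (x g))

/-- negation of both laws -/
theorem rd_neg (x y : G → ℝ) : rd (fun g => x (-g)) (fun g => y (-g)) = rd x y := by
  have h1 : H (pp (fun g => x (-g)) (fun g => y (-g))) (fun u : G × G => u.1 - u.2)
      = H (pp x y) (fun u : G × G => u.1 - u.2) := by
    rw [← E6_equiv (pp (fun g => x (-g)) (fun g => y (-g))) (pp x y)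
      (Equiv.prodCongr (Equiv.neg G) (Equiv.neg G)) (fun ω => rfl)
      (fun u : G × G => u.1 - u.2)]
    refine E6_ker _ _ _ fun ω ω' => ?_
    show ω.1 - ω.2 = ω'.1 - ω'.2 ↔ -ω.1 - -ω.2 = -ω'.1 - -ω'.2
    constructor
    · intro h
      have : -ω.1 - -ω.2 = -(ω.1 - ω.2) := by abel
      rw [this, h]
      abel
    · intro h
      have : ω.1 - ω.2 = -(-ω.1 - -ω.2) := by abel
      rw [this, h]
      abel
  unfold rd
  rw [h1, ent_neg, ent_neg]

/-- distance to the negated law is the entropy of a sum -/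
theorem rd_neg_right (x y : G → ℝ) :
    rd x (fun g => y (-g)) = H (pp x y) (fun u => u.1 + u.2) - ent x / 2 - ent y / 2 := by
  have h1 : H (pp x (fun g => y (-g))) (fun u : G × G => u.1 - u.2)
      = H (pp x y) (fun u : G × G => u.1 + u.2) := by
    rw [← E6_equiv (pp x (fun g => y (-g))) (pp x y)
      (Equiv.prodCongr (Equiv.refl G) (Equiv.neg G)) (fun ω => rfl)
      (fun u : G × G => u.1 + u.2)]
    refine E6_ker _ _ _ fun ω ω' => ?_
    show ω.1 - ω.2 = ω'.1 - ω'.2 ↔ ω.1 + -ω.2 = ω'.1 + -ω'.2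
    rw [sub_eq_add_neg, sub_eq_add_neg]
  unfold rd
  rw [h1, ent_neg]

theorem rd_translate (x y : G → ℝ) (a : G) : rd (fun g => x (g - a)) y = rd x y := by
  have h1 : H (pp (fun g => x (g - a)) y) (fun u : G × G => u.1 - u.2)
      = H (pp x y) (fun u : G × G => u.1 - u.2) := by
    rw [← E6_equiv (pp (fun g => x (g - a)) y) (pp x y)
      (Equiv.prodCongr (Equiv.subRight a) (Equiv.refl G)) (fun ω => rfl)
      (fun u : G × G => u.1 - u.2)]
    refine E6_ker _ _ _ fun ω ω' => ?_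
    show ω.1 - ω.2 = ω'.1 - ω'.2 ↔ ω.1 - a - ω.2 = ω'.1 - a - ω'.2
    constructor
    · intro h
      rw [sub_right_comm, h, sub_right_comm]
    · intro h
      rw [sub_right_comm, sub_right_comm ω'.1] at h
      exact sub_left_injective h
  have h2 : ent (fun g => x (g - a)) = ent x := by
    unfold ent
    exact Equiv.sum_comp (Equiv.subRight a) (fun g => Real.negMulLog (x g))
  unfold rd
  rw [h1, h2]

theorem H_sub_eq (hp : IsP p) (f g : Ω → G) (hI : Indep p f g) :
    H p (fun ω => f ω - g ω) = rd (pr p f) (pr p g) + H p f / 2 + H p g / 2 := by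
  have h1 := H_fun_of_indep hI (fun u : G × G => u.1 - u.2)
  simp only at h1
  unfold rd
  rw [h1, H_eq_ent p f, H_eq_ent p g]
  ring

private theorem E6_indep (hp : IsP p) (hx : IsP x) (f g : Ω → G) (hI : Indep p f g) :
    Indep (pp x p) (fun u : G × Ω => g u.2) (fun u : G × Ω => (u.1, f u.2)) := by
  rintro c ⟨a, b⟩
  have e1 : pr (pp x p) (fun u : G × Ω => (g u.2, u.1, f u.2)) (c, a, b)
      = pr (pp x p) (fun u : G × Ω => (u.1, (f u.2, g u.2))) (a, (b, c)) := by
    unfold pr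
    congr 1
    funext u
    apply propext
    simp only [Prod.mk.injEq]
    tauto
  have e2 := indep_pp hx hp (fun a : G => a) (fun ω => (f ω, g ω)) a (b, c)
  have e3 := indep_pp hx hp (fun a : G => a) f a b
  have e4 := hI b c
  have e5 : pr (pp x p) (fun u : G × Ω => g u.2) c = pr p g c := by
    rw [pr_pp_snd hx]
  have e6 : pr (pp x p) (fun u : G × Ω => (f u.2, g u.2)) (b, c) = pr p (fun ω => (f ω, g ω)) (b, c) := by
    rw [pr_pp_snd hx (fun ω => (f ω, g ω))]
  have e7 : pr (pp x p) (fun u : G × Ω => f u.2) b = pr p f b := by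
    rw [pr_pp_snd hx]
  rw [e1, e2, e3, e5, e6, e4, e7]
  ring

theorem rd_add_le (hp : IsP p) (hx : IsP x) (f g : Ω → G) (hI : Indep p f g) :
    rd x (pr p (fun ω => f ω + g ω))
      ≤ rd x (pr p f) + (H p (fun ω => f ω + g ω) - H p f) / 2 := by
  have hq := pp_isP hx hp
  have i1 : Indep (pp x p) (fun u : G × Ω => u.1) (fun u : G × Ω => (-f u.2, -g u.2)) :=
    indep_pp hx hp (fun a : G => a) (fun ω => (-f ω, -g ω))
  have i2 : Indep (pp x p) (fun u : G × Ω => -g u.2) (fun u : G × Ω => (u.1, -f u.2)) :=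
    Indep.comp hq (E6_indep hp hx f g hI) (fun c : G => -c) (fun u : G × G => (u.1, -u.2))
  have e := KVM hq (fun u : G × Ω => u.1) (fun u : G × Ω => -f u.2) (fun u : G × Ω => -g u.2) i1 i2
  have h1 : H (pp x p) (fun u : G × Ω => u.1 + -f u.2 + -g u.2)
      = H (pp x (pr p (fun ω => f ω + g ω))) (fun u : G × G => u.1 - u.2) := by
    have := E6_two hx hp (fun a : G => a) (fun ω => f ω + g ω) (fun u : G × G => u.1 - u.2)
    rw [pr_id] at this
    rw [← this]
    congr 1
    funext u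
    show u.1 + -f u.2 + -g u.2 = u.1 - (f u.2 + g u.2)
    abel
  have h2 : H (pp x p) (fun u : G × Ω => -f u.2) = H p f := by
    rw [← H_pp_snd hx f]
    refine E6_ker _ _ _ fun ω ω' => ?_
    simp
  have h3 : H (pp x p) (fun u : G × Ω => u.1 + -f u.2)
      = H (pp x (pr p f)) (fun u : G × G => u.1 - u.2) := by
    have := E6_two hx hp (fun a : G => a) f (fun u : G × G => u.1 - u.2)
    rw [pr_id] at this
    rw [← this]
    congr 1
    funext u
    show u.1 + -f u.2 = u.1 - f u.2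
    abel
  have h4 : H (pp x p) (fun u : G × Ω => -f u.2 + -g u.2) = H p (fun ω => f ω + g ω) := by
    rw [← H_pp_snd hx (fun ω => f ω + g ω)]
    refine E6_ker _ _ _ fun ω ω' => ?_
    show -f ω.2 + -g ω.2 = -f ω'.2 + -g ω'.2 ↔ f ω.2 + g ω.2 = f ω'.2 + g ω'.2
    constructor
    · intro h
      have : f ω.2 + g ω.2 = -(-f ω.2 + -g ω.2) := by abel
      rw [this, h]
      abel
    · intro h
      have : -f ω.2 + -g ω.2 = -(f ω.2 + g ω.2) := by abel
      rw [this, h]
      abel
  rw [h1, h2, h3, h4] at e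
  unfold rd
  rw [← H_eq_ent p f, ← H_eq_ent p (fun ω => f ω + g ω)]
  linarith

end Pool.Agent.Ldc
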