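import Pool.Agent.Ldc.E6
import Pool.Agent.Ldc.E5b
set_option autoImplicit false

/-!
# E8.  Dilates, and sums of `m` copies in an `m`-torsion group.

`H_dilate`: induction on `c`.  Put `V = -v`; on `(G×G)×G`, law `x⊗y⊗x`, variables `u, v, u'`:
`u + (c+1)v = (u + v) - (-(c v))`, `H_triangle` with `A = u+v`, `B = -(c v)`, `Z = u'`:
`H(u+(c+1)v) ≤ H(u+v-u') + H(u'+c v) - H(u')`; and KVM with middle `u`:
`H(u+v-u') ≤ H(u+v) + H(u-u') - H(u)`.
`H_add_self_le`: `mG = 0` gives `u + u' = u + (m-1)(-u')`; `H_dilate` with `y(g) = x(-g)`: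
`H(u+u') ≤ ent x + (m-1) (H(u-u') + H(u-u') - 2 ent x) = ent x + 2(m-1) rd x x`.
`mD_const_le`: `KVM_sum`: `H(Σ_i u_i) ≤ ent x + (m-1)(H(u+u') - ent x)`.
-/
namespace Pool.Agent.Ldc
open Finset
variable {G : Type} [AddCommGroup G] [Fintype G] {x y : G → ℝ}

private theorem E8_ker {Ω' α β : Type} [Fintype Ω'] (p : Ω' → ℝ) (f : Ω' → α) (g : Ω' → β)
    (h : ∀ ω ω', f ω = f ω' ↔ g ω = g ω') : H p f = H p g := by
  unfold H
  congr 1
  refine Finset.sum_congr rfl fun ω _ => ?_
  have h1 : (fun ω' => f ω' = f ω) = (fun ω' => g ω' = g ω) := funext fun ω' => propext (h ω' ω)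
  unfold pr
  rw [h1]

private theorem E8_equiv {Ω₁ Ω₂ α : Type} [Fintype Ω₁] [Fintype Ω₂] (p₁ : Ω₁ → ℝ) (p₂ : Ω₂ → ℝ)
    (e : Ω₁ ≃ Ω₂) (he : ∀ ω, p₂ (e ω) = p₁ ω) (f : Ω₂ → α) :
    H p₁ (fun ω => f (e ω)) = H p₂ f := by
  have h0 : ∀ a, pr p₁ (fun ω => f (e ω)) a = pr p₂ f a := by
    intro a
    unfold pr pe
    rw [← Equiv.sum_comp e]
    exact Finset.sum_congr rfl fun ω _ => by rw [he]
  unfold H
  rw [← Equiv.sum_comp e (fun ω => p₂ ω * Real.log (pr p₂ f (f ω)))]
  congr 1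
  exact Finset.sum_congr rfl fun ω _ => by rw [he, h0]

private theorem E8_two {Ω₁ Ω₂ δ : Type} [Fintype Ω₁] [Fintype Ω₂] {p₁ : Ω₁ → ℝ} {p₂ : Ω₂ → ℝ}
    (h1 : IsP p₁) (h2 : IsP p₂) (f : Ω₁ → G) (g : Ω₂ → G) (φ : G × G → δ) :
    H (pp p₁ p₂) (fun x => φ (f x.1, g x.2)) = H (pp (pr p₁ f) (pr p₂ g)) φ := by
  rw [H_fun_of_indep (indep_pp h1 h2 f g) φ, pr_pp_fst h2, pr_pp_snd h1]

private theorem E8_indep {Ω₁ Ω₂ : Type} [Fintype Ω₁] [Fintype Ω₂] {p : Ω₁ → ℝ} {q : Ω₂ → ℝ}
    (hp : IsP p) (hq : IsP q) (f g : Ω₁ → G) (h : Ω₂ → G) (hI : Indep p f g) :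
    Indep (pp p q) (fun u => f u.1) (fun u => (g u.1, h u.2)) := by
  rintro a ⟨b, c⟩
  have e1 : pr (pp p q) (fun u => (f u.1, g u.1, h u.2)) (a, b, c)
      = pr (pp p q) (fun u => ((f u.1, g u.1), h u.2)) ((a, b), c) := by
    unfold pr
    congr 1
    funext u
    apply propext
    simp only [Prod.mk.injEq]
    tauto
  have e2 := indep_pp hp hq (fun ω => (f ω, g ω)) h (a, b) c
  have e3 := indep_pp hp hq g h b c
  have e4 := hI a b
  have e5 : pr (pp p q) (fun u => f u.1) a = pr p f a := by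
    rw [pr_pp_fst hq]
  have e6 : pr (pp p q) (fun u => (f u.1, g u.1)) (a, b) = pr p (fun ω => (f ω, g ω)) (a, b) := by
    rw [pr_pp_fst hq (fun ω => (f ω, g ω))]
  rw [e1, e2, e3, e5, e6, e4]
  rw [pr_pp_fst hq]
  ring

theorem H_dilate (hx : IsP x) (hy : IsP y) (c : ℕ) :
    H (pp x y) (fun u => u.1 + c • u.2)
      ≤ ent x + c * (H (pp x y) (fun u => u.1 + u.2) + H (pp x x) (fun u => u.1 - u.2)
          - 2 * ent x) := by
  have hxy := pp_isP hx hy
  have hp := pp_isP hxy hx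
  have l1 : pr (pp x y) (fun u : G × G => u.1) = x :=
    (pr_pp_fst hy (fun a : G => a)).trans (pr_id x)
  induction c with
  | zero =>
    have h1 : H (pp x y) (fun u : G × G => u.1 + (0 : ℕ) • u.2) = ent x := by
      have h2 : (fun u : G × G => u.1 + (0 : ℕ) • u.2) = fun u : G × G => u.1 := by
        funext u
        rw [zero_smul, add_zero]
      rw [h2, ent_eq_H]
      exact H_pp_fst hy (fun a : G => a)
    rw [h1]
    simp
  | succ c ih =>
    have e := H_triangle hp (fun ω : (G × G) × G => ω.1.1 + ω.1.2) (fun ω => -(c • ω.1.2))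
      (fun ω => ω.2)
      (indep_pp hxy hx (fun a : G × G => (a.1 + a.2, -(c • a.2))) (fun b : G => b))
    have h1 : H (pp (pp x y) x) (fun ω : (G × G) × G => ω.1.1 + ω.1.2 - -(c • ω.1.2))
        = H (pp x y) (fun u : G × G => u.1 + (c + 1) • u.2) := by
      rw [← H_pp_fst hx (fun u : G × G => u.1 + (c + 1) • u.2)]
      congr 1
      funext ω
      rw [add_smul, one_smul]
      abel
    have h2 : H (pp (pp x y) x) (fun ω : (G × G) × G => ω.2) = ent x := by
      rw [ent_eq_H]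
      exact H_pp_snd hxy (fun a : G => a)
    have h3 : H (pp (pp x y) x) (fun ω : (G × G) × G => ω.2 - -(c • ω.1.2))
        = H (pp x y) (fun u : G × G => u.1 + c • u.2) := by
      have l2 : pr (pp x y) (fun u : G × G => u.2) = y :=
        (pr_pp_snd hx (fun a : G => a)).trans (pr_id y)
      have := E8_two hxy hx (fun u : G × G => u.2) (fun b : G => b)
        (fun u : G × G => u.2 - -(c • u.1))
      rw [l2, pr_id] at this
      have h4 := E8_equiv (pp y x) (pp x y) (Equiv.prodComm G G) (fun ω => mul_comm _ _)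
        (fun u : G × G => u.1 + c • u.2)
      rw [← h4]
      refine this.trans ?_
      congr 1
      funext u
      show u.2 - -(c • u.1) = u.2 + c • u.1
      abel
    -- KVM
    have hI : Indep (pp x y) (fun u : G × G => u.2) (fun u : G × G => u.1) :=
      Indep.symm (indep_pp hx hy (fun a : G => a) (fun b : G => b))
    have i1 : Indep (pp (pp x y) x) (fun ω : (G × G) × G => ω.1.2) (fun ω => (ω.1.1, -ω.2)) :=
      E8_indep hxy hx (fun u : G × G => u.2) (fun u : G × G => u.1) (fun b : G => -b) hI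
    have i2 : Indep (pp (pp x y) x) (fun ω : (G × G) × G => -ω.2) (fun ω => (ω.1.2, ω.1.1)) :=
      Indep.symm (indep_pp hxy hx (fun a : G × G => (a.2, a.1)) (fun b : G => -b))
    have k := KVM hp (fun ω : (G × G) × G => ω.1.2) (fun ω => ω.1.1) (fun ω => -ω.2) i1 i2
    have k1 : H (pp (pp x y) x) (fun ω : (G × G) × G => ω.1.1) = ent x := by
      rw [ent_eq_H]
      refine (H_pp_fst hx (fun u : G × G => u.1)).trans ?_
      exact H_pp_fst hy (fun a : G => a)
    have k2 : H (pp (pp x y) x) (fun ω : (G × G) × G => ω.1.2 + ω.1.1)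
        = H (pp x y) (fun u : G × G => u.1 + u.2) := by
      refine (H_pp_fst hx (fun u : G × G => u.2 + u.1)).trans ?_
      congr 1
      funext u
      exact add_comm _ _
    have k3 : H (pp (pp x y) x) (fun ω : (G × G) × G => ω.1.1 + -ω.2)
        = H (pp x x) (fun u : G × G => u.1 - u.2) := by
      have := E8_two hxy hx (fun u : G × G => u.1) (fun b : G => b)
        (fun u : G × G => u.1 - u.2)
      rw [l1, pr_id] at this
      rw [← this]
      congr 1
      funext u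
      exact (sub_eq_add_neg _ _).symm
    have k4 : H (pp (pp x y) x) (fun ω : (G × G) × G => ω.1.2 + ω.1.1 + -ω.2)
        = H (pp (pp x y) x) (fun ω : (G × G) × G => ω.1.1 + ω.1.2 - ω.2) := by
      congr 1
      funext ω
      abel
    rw [k1, k2, k3, k4] at k
    rw [h1, h2, h3] at e
    push_cast
    linarith

theorem H_add_self_le (m : ℕ) (hm : 1 ≤ m) (hG : ∀ g : G, m • g = 0) (hx : IsP x) :
    H (pp x x) (fun u => u.1 + u.2) ≤ ent x + 2 * (m - 1) * rd x x := by
  have hy : IsP (fun g => x (-g)) := by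
    refine ⟨fun g => hx.1 _, ?_⟩
    rw [← hx.2]
    exact Equiv.sum_comp (Equiv.neg G) x
  have e := H_dilate hx hy (m - 1)
  have h1 : H (pp x (fun g => x (-g))) (fun u : G × G => u.1 + (m - 1) • u.2)
      = H (pp x x) (fun u : G × G => u.1 + u.2) := by
    rw [← E8_equiv (pp x (fun g => x (-g))) (pp x x)
      (Equiv.prodCongr (Equiv.refl G) (Equiv.neg G)) (fun ω => rfl)
      (fun u : G × G => u.1 + u.2)]
    congr 1
    funext u
    show u.1 + (m - 1) • u.2 = u.1 + -u.2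
    congr 1
    rw [eq_neg_iff_add_eq_zero, ← succ_nsmul, Nat.sub_add_cancel hm, hG]
  have h2 : H (pp x (fun g => x (-g))) (fun u : G × G => u.1 + u.2)
      = H (pp x x) (fun u : G × G => u.1 - u.2) := by
    rw [← E8_equiv (pp x (fun g => x (-g))) (pp x x)
      (Equiv.prodCongr (Equiv.refl G) (Equiv.neg G)) (fun ω => rfl)
      (fun u : G × G => u.1 - u.2)]
    congr 1
    funext u
    show u.1 + u.2 = u.1 - -u.2
    rw [sub_neg_eq_add]
  rw [h1, h2] at e
  have h3 : ((m - 1 : ℕ) : ℝ) = (m : ℝ) - 1 := by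
    rw [Nat.cast_sub hm, Nat.cast_one]
  rw [h3] at e
  unfold rd
  refine e.trans (le_of_eq ?_)
  ring

/-- multidistance of a constant tuple -/
theorem mD_const_le {ι : Type} [Fintype ι] [DecidableEq ι] (hι : 1 ≤ Fintype.card ι)
    (hG : ∀ g : G, Fintype.card ι • g = 0) (hx : IsP x) :
    mD (fun _ : ι => x) ≤ 2 * (Fintype.card ι : ℝ) ^ 2 * rd x x := by
  obtain ⟨a⟩ : Nonempty ι := Fintype.card_pos_iff.1 hι
  have e := KVM_sum (fun _ : ι => x) (fun _ => hx) (fun _ g => g) a (Finset.univ.erase a)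
    (Finset.notMem_erase a _)
  have h1 : (fun ω : ι → G => ω a + ∑ s ∈ Finset.univ.erase a, ω s) = fun ω => ∑ s, ω s := by
    funext ω
    exact Finset.add_sum_erase _ (fun s => ω s) (Finset.mem_univ a)
  simp only [h1, Finset.sum_const, Finset.card_erase_of_mem (Finset.mem_univ a),
    Finset.card_univ, nsmul_eq_mul] at e
  have h2 := H_add_self_le (Fintype.card ι) hι hG hx
  have h3 : ((Fintype.card ι - 1 : ℕ) : ℝ) = (Fintype.card ι : ℝ) - 1 := by
    rw [Nat.cast_sub hι, Nat.cast_one]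
  have h4 : H x (fun g => g) = ent x := (ent_eq_H x).symm
  have h5 : mD (fun _ : ι => x) = H (pf fun _ : ι => x) (fun ω => ∑ i, ω i) - ent x := by
    unfold mD
    rw [Finset.sum_const, Finset.card_univ, nsmul_eq_mul, mul_div_cancel_left₀]
    have : (0 : ℝ) < Fintype.card ι := by exact_mod_cast hι
    exact this.ne'
  rw [h3, h4] at e
  rw [h5]
  have h6 := rd_nonneg hx hx
  have h7 : (1 : ℝ) ≤ Fintype.card ι := by exact_mod_cast hι
  have h8 : ((Fintype.card ι : ℝ) - 1) * (H (pp x x) (fun u : G × G => u.1 + u.2) - ent x)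
      ≤ ((Fintype.card ι : ℝ) - 1) * (2 * ((Fintype.card ι : ℝ) - 1) * rd x x) := by
    apply mul_le_mul_of_nonneg_left
    · linarith
    · linarith
  nlinarith

end Pool.Agent.Ldc
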