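import Pool.Agent.Ldc.E6
import Pool.Agent.Ldc.E3b
set_option autoImplicit false

/-!
# E9.  Existence of a minimiser of `τ(q) = mD q + η Σ_i rd (q i) x`, which is a `WeakMin`.

The set of tuples of laws is compact in `ι → G → ℝ` (closed and bounded, `stdSimplex`); `τ` is continuous
(`H` of a sum is a finite sum of `negMulLog` of polynomials in the `q i g`: use `H_eq_ent`).
At a minimiser, for laws `q'` and a permutation `σ`: apply minimality to `q' ∘ σ⁻¹`; `mD` is invariant under
permutations (`H_pf_reindex`), and `rd (q' (σ⁻¹ i)) x ≤ rd (q i) (q' (σ⁻¹ i)) + rd (q i) x`.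
The last claim of the theorem is minimality against the constant tuple `x`.
-/
namespace Pool.Agent.Ldc
open Finset
variable {G : Type} [AddCommGroup G] [Fintype G]

theorem E9_cont_H {X Ω α : Type} [TopologicalSpace X] [Fintype Ω] [Fintype α] (P : X → Ω → ℝ)
    (hP : ∀ ω, Continuous fun t => P t ω) (f : Ω → α) : Continuous fun t => H (P t) f := by
  simp_rw [H_eq_ent]
  unfold ent
  refine continuous_finsetSum _ fun a _ => ?_
  refine Real.continuous_negMulLog.comp ?_
  unfold pr pe
  refine continuous_finsetSum _ fun ω _ => ?_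
  split_ifs
  · exact hP ω
  · exact continuous_const

theorem E9_cont_ent {X α : Type} [TopologicalSpace X] [Fintype α] (P : X → α → ℝ)
    (hP : ∀ ω, Continuous fun t => P t ω) : Continuous fun t => ent (P t) := by
  unfold ent
  exact continuous_finsetSum _ fun a _ => Real.continuous_negMulLog.comp (hP a)

theorem E9_mD_perm {ι : Type} [Fintype ι] [DecidableEq ι] (q : ι → G → ℝ) (σ : Equiv.Perm ι) :
    mD (fun i => q (σ.symm i)) = mD q := by
  unfold mD
  congr 1
  · rw [H_pf_reindex q σ.symm (fun ω => ∑ i, ω i)]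
    congr 1
    funext ω
    exact (Equiv.sum_comp σ ω).symm
  · congr 1
    exact Equiv.sum_comp σ.symm (fun i => ent (q i))

theorem exists_weakMin {ι : Type} [Fintype ι] [DecidableEq ι] (η : ℝ) (hη : 0 < η) (x : G → ℝ)
    (hx : IsP x) :
    ∃ q : ι → G → ℝ, WeakMin η (mD q) q ∧
      mD q + η * ∑ i, rd (q i) x ≤ mD (fun _ : ι => x) + η * (Fintype.card ι : ℝ) * rd x x := by
  have hK : IsCompact (Set.pi Set.univ (fun _ : ι => stdSimplex ℝ G)) :=
    isCompact_univ_pi fun _ => isCompact_stdSimplex ℝ G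
  have hne : (Set.pi Set.univ (fun _ : ι => stdSimplex ℝ G)).Nonempty :=
    ⟨fun _ => x, fun _ _ => hx⟩
  have hcoord : ∀ (i : ι) (g : G), Continuous fun q : ι → G → ℝ => q i g := fun i g =>
    (continuous_apply g).comp (continuous_apply i)
  have hcont : Continuous fun q : ι → G → ℝ => mD q + η * ∑ i, rd (q i) x := by
    refine Continuous.add ?_ (Continuous.mul continuous_const ?_)
    · unfold mD
      refine Continuous.sub (E9_cont_H _ (fun ω => ?_) _) (Continuous.div_const ?_ _)
      · unfold pf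
        exact continuous_finsetProd _ fun i _ => hcoord i (ω i)
      · exact continuous_finsetSum _ fun i _ => E9_cont_ent _ (hcoord i)
    · refine continuous_finsetSum _ fun i _ => ?_
      unfold rd
      refine Continuous.sub (Continuous.sub (E9_cont_H _ (fun ω => ?_) _)
        (Continuous.div_const (E9_cont_ent _ (hcoord i)) _)) continuous_const
      unfold pp
      exact (hcoord i ω.1).mul continuous_const
  obtain ⟨q, hqK, hq⟩ := hK.exists_isMinOn hne hcont.continuousOn
  have hqP : ∀ i, IsP (q i) := fun i => hqK i (Set.mem_univ i)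
  have hmin : ∀ q' : ι → G → ℝ, (∀ i, IsP (q' i)) →
      mD q + η * ∑ i, rd (q i) x ≤ mD q' + η * ∑ i, rd (q' i) x := fun q' h =>
    hq (show q' ∈ Set.pi Set.univ (fun _ : ι => stdSimplex ℝ G) from fun i _ => h i)
  refine ⟨q, ⟨hqP, rfl, ?_⟩, ?_⟩
  · intro q' hq' σ
    have h1 := hmin (fun i => q' (σ.symm i)) (fun i => hq' _)
    rw [E9_mD_perm q' σ] at h1
    have h2 : ∑ i, rd (q' (σ.symm i)) x = ∑ i, rd (q' i) x :=
      Equiv.sum_comp σ.symm (fun i => rd (q' i) x)
    have h3 : ∑ i, rd (q (σ i)) x = ∑ i, rd (q i) x :=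
      Equiv.sum_comp σ (fun i => rd (q i) x)
    have h4 : ∑ i, rd (q' i) x ≤ ∑ i, (rd (q (σ i)) (q' i) + rd (q (σ i)) x) := by
      refine Finset.sum_le_sum fun i _ => ?_
      rw [rd_comm (q (σ i)) (q' i)]
      exact rd_triangle (hq' i) (hqP _) hx
    rw [Finset.sum_add_distrib, h3] at h4
    rw [h2] at h1
    nlinarith
  · have h1 := hmin (fun _ => x) (fun _ => hx)
    rw [Finset.sum_const, Finset.card_univ, nsmul_eq_mul] at h1
    linarith

end Pool.Agent.Ldc
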