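import Pool.Agent.Ldc.L10a
set_option autoImplicit false

/-!
# L10.  A translation-invariant linear code with disjoint decoders gives a good structure.

`M g a = E (Pi.single a 1) g ∈ F` the generator matrix; over `K ⊇ F` put `Ê x g = Σ_a algebraMap (M g a) x_a`,
`V = range Ê ⊆ (G → K)`, `dim V = k` (injectivity over F is a rank statement, so it holds over K: e.g. a non-zero
`k × k` minor, or `LinearMap.baseChange`; here it also follows from the decoders: `x i = Σ a_g Ê x g` over K).
`V` is translation invariant (the translate of `E (single a 1)` is an F-combination of the generators).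
`chars`: `V` is spanned by the characters in it.    So `S = {γ : w^γ ∈ V}` has `k`
elements, `x_γ := Ê⁻¹(w^γ)` is a basis of `K^k`, and the functionals `f_i γ = (x_γ) i`, `i < k`, are a basis of
`S → K`.  `Rec` for `f_i`: `(x_γ)_i = Σ_{g∈T j} a_g w^{γ(g)}`, `N = M`, list `T j` in `≤ t` slots (other slots `c = 0`);
by disjointness each `(l, x)` is used by at most one `j`, and `|G| ≤ (t/δ) M`.
-/
namespace Pool.Agent.Ldc
open Finset


private theorem L10_sum_dite {K : Type} [AddCommMonoid K] (n t : ℕ) (h : n ≤ t) (f : Fin n → K) :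
    ∑ l : Fin t, (if h : (l : ℕ) < n then f ⟨l, h⟩ else 0) = ∑ i, f i := by
  rw [Fin.sum_univ_eq_sum_range (fun i => if h : i < n then f ⟨i, h⟩ else 0) t]
  rw [← Finset.sum_subset (Finset.range_subset_range.2 h)]
  · rw [← Fin.sum_univ_eq_sum_range (fun i => if h : i < n then f ⟨i, h⟩ else 0) n]
    refine Finset.sum_congr rfl fun i _ => ?_
    rw [dif_pos i.2]
  · intro i _ hi
    rw [Finset.mem_range] at hi
    rw [dif_neg hi]

theorem pos_of_code {F K : Type} [Field F] [Fintype F] [Field K] [Algebra F K] {m : ℕ} [NeZero m]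
    {w : K} (hw : IsPrimitiveRoot w m) (hmK : (m : K) ≠ 0)
    {G : Type} [AddCommGroup G] [Fintype G] [DecidableEq G] (hG : ∀ g : G, m • g = 0)
    {k t : ℕ} {δ : ℝ} (hδ : 0 < δ) (E : (Fin k → F) →ₗ[F] (G → F))
    (hE : ∀ (x : Fin k → F) (h : G), ∃ x' : Fin k → F, ∀ g, E x' g = E x (g + h))
    (hdec : ∀ i : Fin k, ∃ (M : ℕ) (T : Fin M → Finset G) (a : Fin M → G → F),
      δ * (Fintype.card G : ℝ) ≤ t * M ∧ (∀ j, (T j).card ≤ t) ∧
      (∀ j j', j ≠ j' → Disjoint (T j) (T j')) ∧
      ∀ j (x : Fin k → F), x i = ∑ g ∈ T j, a j g * E x g) :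
    Pos m t w (t / δ) k (Fintype.card G) := by
  classical
  -- the code over `K`
  let Ehat : (Fin k → K) →ₗ[K] (G → K) :=
    { toFun := fun x g => ∑ b, x b * algebraMap F K (E (Pi.single b 1) g)
      map_add' := by
        intro x y
        funext g
        simp only [Pi.add_apply, add_mul, Finset.sum_add_distrib]
      map_smul' := by
        intro r x
        funext g
        simp only [Pi.smul_apply, smul_eq_mul, RingHom.id_apply, Finset.mul_sum, mul_assoc] }
  have hEhat : ∀ x g, Ehat x g = ∑ b, x b * algebraMap F K (E (Pi.single b 1) g) :=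
    fun x g => rfl
  -- linearity of `E`
  have hElin : ∀ (x : Fin k → F) (g : G), E x g = ∑ b, x b * E (Pi.single b 1) g := by
    intro x g
    have h1 : x = ∑ b, x b • (Pi.single b (1 : F) : Fin k → F) := by
      funext i
      rw [Finset.sum_apply]
      simp [Pi.single_apply]
    conv_lhs => rw [h1]
    rw [map_sum, Finset.sum_apply]
    refine Finset.sum_congr rfl fun b _ => ?_
    rw [map_smul, Pi.smul_apply, smul_eq_mul]
  have hcoe : ∀ (x : Fin k → F) (g : G), Ehat (fun b => algebraMap F K (x b)) g =
      algebraMap F K (E x g) := by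
    intro x g
    rw [hEhat, hElin x g, map_sum]
    refine Finset.sum_congr rfl fun b _ => ?_
    rw [map_mul]
  -- the decoders over `K`
  have hdecK : ∀ i : Fin k, ∃ (M : ℕ) (T : Fin M → Finset G) (a : Fin M → G → F),
      δ * (Fintype.card G : ℝ) ≤ t * M ∧ (∀ j, (T j).card ≤ t) ∧
      (∀ j j', j ≠ j' → Disjoint (T j) (T j')) ∧
      ∀ j (x : Fin k → K), x i = ∑ g ∈ T j, algebraMap F K (a j g) * Ehat x g := by
    intro i
    obtain ⟨M, T, a, h1, h2, h3, h4⟩ := hdec i
    refine ⟨M, T, a, h1, h2, h3, ?_⟩
    intro j x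
    have h5 : ∀ b : Fin k, (Pi.single b (1 : K) : Fin k → K) i =
        ∑ g ∈ T j, algebraMap F K (a j g) * algebraMap F K (E (Pi.single b 1) g) := by
      intro b
      have h6 := h4 j (Pi.single b 1)
      have h7 := congrArg (algebraMap F K) h6
      rw [map_sum] at h7
      rw [show (Pi.single b (1 : K) : Fin k → K) i =
        algebraMap F K ((Pi.single b (1 : F) : Fin k → F) i) by
          simp only [Pi.single_apply]
          split_ifs <;> simp]
      rw [h7]
      refine Finset.sum_congr rfl fun g _ => ?_
      rw [map_mul]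
    have h8 : x i = ∑ b, x b * (Pi.single b (1 : K) : Fin k → K) i := by
      simp [Pi.single_apply]
    rw [h8]
    simp only [h5, hEhat, Finset.mul_sum]
    rw [Finset.sum_comm]
    refine Finset.sum_congr rfl fun g _ => Finset.sum_congr rfl fun b _ => ?_
    ring
  have hMpos : ∀ (M : ℕ), δ * (Fintype.card G : ℝ) ≤ t * M → 0 < M := by
    intro M hM
    by_contra hcon
    have h0 : M = 0 := by omega
    rw [h0] at hM
    have : (0 : ℝ) < Fintype.card G := by exact_mod_cast Fintype.card_pos
    have : 0 < δ * (Fintype.card G : ℝ) := mul_pos hδ this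
    simp at hM
    linarith
  have hinj : Function.Injective Ehat := by
    rw [injective_iff_map_eq_zero]
    intro x hx
    funext i
    obtain ⟨M, T, a, h1, h2, h3, h4⟩ := hdecK i
    have := h4 ⟨0, hMpos M h1⟩ x
    rw [this, hx]
    simp
  -- translation invariance
  have hV : ∀ f ∈ LinearMap.range Ehat, ∀ h : G, (fun g => f (g + h)) ∈ LinearMap.range Ehat := by
    rintro _ ⟨x, rfl⟩ h
    choose x' hx' using fun b : Fin k => hE (Pi.single b 1) h
    refine ⟨fun c => ∑ b, x b * algebraMap F K (x' b c), ?_⟩
    funext g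
    rw [hEhat, hEhat]
    have h1 : ∀ b, algebraMap F K (E (Pi.single b 1) (g + h)) =
        ∑ c, algebraMap F K (x' b c) * algebraMap F K (E (Pi.single c 1) g) := by
      intro b
      rw [← hx' b g, ← hcoe, hEhat]
    simp only [h1, Finset.mul_sum, Finset.sum_mul]
    rw [Finset.sum_comm]
    refine Finset.sum_congr rfl fun g _ => Finset.sum_congr rfl fun b _ => ?_
    ring
  obtain ⟨S, hScard, hSV, hSli, hSspan⟩ := chars hw hmK hG (LinearMap.range Ehat) hV
  refine ⟨G, inferInstance, inferInstance, hG, S, ?_, rfl, ?_⟩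
  · rw [hScard, LinearMap.finrank_range_of_inj hinj]
    simp
  · -- the functionals
    have hx : ∀ γ : S, ∃ x : Fin k → K, Ehat x = fun g => w ^ ((γ : G →+ ZMod m) g).val := by
      intro γ
      exact hSV γ γ.2
    choose x hx using hx
    have hRec : ∀ i : Fin k, Rec m t w (t / δ) S (fun γ => x γ i) := by
      intro i
      obtain ⟨M, T, a, h1, h2, h3, h4⟩ := hdecK i
      let e : ∀ j : Fin M, Fin (T j).card ≃ T j := fun j => (T j).equivFin.symm
      refine ⟨M, hMpos M h1,
        fun j l => if h : (l : ℕ) < (T j).card then algebraMap F K (a j (e j ⟨l, h⟩)) else 0,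
        fun j l => if h : (l : ℕ) < (T j).card then (e j ⟨l, h⟩ : G) else 0, ?_, ?_⟩
      · intro j γ
        show x γ i = _
        rw [h4 j (x γ), hx γ]
        unfold Phi
        have h5 : ∀ l : Fin t, (if h : (l : ℕ) < (T j).card then
            algebraMap F K (a j (e j ⟨l, h⟩)) else 0) *
            w ^ ((γ : G →+ ZMod m) (if h : (l : ℕ) < (T j).card then
              (e j ⟨l, h⟩ : G) else 0)).val =
            (if h : (l : ℕ) < (T j).card then
              (fun i : Fin (T j).card => algebraMap F K (a j (e j i)) *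
                w ^ ((γ : G →+ ZMod m) (e j i : G)).val) ⟨l, h⟩ else 0) := by
          intro l
          by_cases h : (l : ℕ) < (T j).card
          · simp only [dif_pos h]
          · simp only [dif_neg h, zero_mul]
        symm
        refine (Finset.sum_congr rfl fun l _ => h5 l).trans ?_
        refine (L10_sum_dite (T j).card t (h2 j) (fun i : Fin (T j).card =>
          algebraMap F K (a j (e j i)) * w ^ ((γ : G →+ ZMod m) (e j i : G)).val)).trans ?_
        rw [← Finset.sum_coe_sort (T j)]
        exact Equiv.sum_comp (e j) (fun g : T j => algebraMap F K (a j g) *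
          w ^ ((γ : G →+ ZMod m) (g : G)).val)
      · intro l y
        have hle : ∀ s : Finset (Fin M), (∀ j ∈ s, y ∈ T j) → (s.card : ℝ) ≤ 1 := by
          intro s hs
          have : s.card ≤ 1 := by
            rw [Finset.card_le_one]
            intro j hj j' hj'
            by_contra hne
            exact Finset.disjoint_left.1 (h3 j j' hne) (hs j hj) (hs j' hj')
          exact_mod_cast this
        have hG0 : (0 : ℝ) ≤ Fintype.card G := Nat.cast_nonneg _
        refine le_trans (mul_le_mul_of_nonneg_right (hle _ ?_) hG0) ?_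
        · intro j hj
          obtain ⟨hj1, hj2⟩ := (@Finset.mem_filter _ _ (_) _ _).1 hj |>.2
          by_cases h : (l : ℕ) < (T j).card
          · simp only [dif_pos h] at hj2
            rw [← hj2]
            exact (e j ⟨l, h⟩).2
          · simp only [dif_neg h] at hj1
            exact absurd rfl hj1
        · rw [one_mul, div_mul_eq_mul_div, le_div_iff₀ hδ]
          linarith
    -- they span
    unfold Good
    by_contra hne
    have hlt : Submodule.span K {f : S → K | Rec m t w (t / δ) S f} < ⊤ := lt_top_iff_ne_top.2 hne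
    obtain ⟨φ, hφ0, hφ⟩ := Submodule.exists_le_ker_of_lt_top _ hlt
    have hφi : ∀ i : Fin k, φ (fun γ => x γ i) = 0 := by
      intro i
      exact hφ (Submodule.subset_span (hRec i))
    -- coefficients of `φ`
    have hφc : ∀ f : S → K, φ f = ∑ γ, f γ * φ (Pi.single γ 1) := by
      intro f
      have h1 : f = ∑ γ, f γ • (Pi.single γ (1 : K) : S → K) := by
        funext γ
        rw [Finset.sum_apply]
        simp [Pi.single_apply]
      conv_lhs => rw [h1]
      rw [map_sum]
      refine Finset.sum_congr rfl fun γ _ => ?_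
      rw [map_smul, smul_eq_mul]
    have hsum : ∑ γ : S, φ (Pi.single γ 1) • x γ = 0 := by
      funext i
      rw [Finset.sum_apply]
      have h1 := hφi i
      rw [hφc] at h1
      simp only [Pi.smul_apply, smul_eq_mul, Pi.zero_apply]
      rw [← h1]
      refine Finset.sum_congr rfl fun γ _ => ?_
      ring
    have hsum' : ∑ γ : S, φ (Pi.single γ 1) • (fun g => w ^ ((γ : G →+ ZMod m) g).val) =
        (0 : G → K) := by
      have h1 := congrArg Ehat hsum
      rw [map_sum, map_zero] at h1
      rw [← h1]
      refine Finset.sum_congr rfl fun γ _ => ?_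
      rw [map_smul, hx γ]
    have hz := Fintype.linearIndependent_iff.1 hSli (fun γ => φ (Pi.single γ 1)) hsum'
    apply hφ0
    ext f
    simp [hz]

end Pool.Agent.Ldc
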