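import Mathlib
set_option autoImplicit false

/-!
# L9.  From a (randomised, adaptive) decoder of a linear code to many disjoint linear decoders.

A finset `T` is *good* if `|T| ≤ t` and `x i = Σ_{g∈T} a g * E x g` for all `x`, for some `a`.  Take a maximal family
of pairwise disjoint good sets (for `k ≥ 1` good sets are non-empty), with union `U`.  Claim `|U| ≥ δ n`; then
`δ n ≤ |U| ≤ t M`.  Otherwise put `r x g = 0` for `g ∈ U`, `= E x g` else: fewer than `δ n` errors.  Fix `j` (one
deterministic decoder) and let `x` be uniform.  Partition the `x` by `(Q j (r x), r x|_{Q j (r x)})`; a class is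
`{x : r x = r₀ on Q₀}` (certificate property), i.e. an affine subspace given by the values of `E x g`,
`g ∈ Q₀ \ U`; `x ↦ x i` is not in the span of these evaluations (a good subset of `Q₀ \ U` would be disjoint from
`U`), so there is `y` with `E y g = 0` on `Q₀ \ U` and `y i = 1`; translation by `c • y` shows that `x i` is uniform on
the class while `D j (r x)` is constant.  So `P_x(D j (r x) = x i) = 1/|F| ≤ 1/2` for every `j`, and the average over
`j` (weights `p j`) is `< 2/3`: contradiction.
-/
namespace Pool.Agent.Ldc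
open Finset

/-- Message symbol `i` can be decoded from fewer than `δ n` errors by a randomised algorithm (a
distribution `p` on deterministic ones) reading at most `t` positions, chosen adaptively: `Q j r` is the
set of positions read by the `j`-th algorithm on input `r`, `D j r` its output; both are determined by the
symbols of `r` at the positions read. -/
def Decodable {F G : Type} [Fintype G] [DecidableEq F] {k : ℕ} (t : ℕ) (δ : ℝ)
    (E : (Fin k → F) → G → F) (i : Fin k) : Prop :=
  ∃ (N : ℕ) (p : Fin N → ℝ) (Q : Fin N → (G → F) → Finset G) (D : Fin N → (G → F) → F),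
    (∀ j, 0 ≤ p j) ∧ ∑ j, p j = 1 ∧ (∀ j r, (Q j r).card ≤ t) ∧
    (∀ j r r', (∀ g ∈ Q j r, r g = r' g) → Q j r' = Q j r ∧ D j r' = D j r) ∧
    ∀ (x : Fin k → F) (r : G → F),
      ((univ.filter (fun g => r g ≠ E x g)).card : ℝ) < δ * (Fintype.card G : ℝ) →
      (2 : ℝ) / 3 ≤ ∑ j ∈ univ.filter (fun j => D j r = x i), p j

private lemma L9_exists_y {F G : Type} [Field F] [Fintype G] [DecidableEq G] {k : ℕ}
    (E : (Fin k → F) →ₗ[F] (G → F)) (i : Fin k) (Q0 : Finset G)
    (h : ¬ ∃ a : G → F, ∀ x : Fin k → F, x i = ∑ g ∈ Q0, a g * E x g) :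
    ∃ y : Fin k → F, y i ≠ 0 ∧ ∀ g ∈ Q0, E y g = 0 := by
  by_contra hcon
  push Not at hcon
  apply h
  have hker : ⨅ g : Q0, LinearMap.ker ((LinearMap.proj (g : G) : (G → F) →ₗ[F] F) ∘ₗ E)
      ≤ LinearMap.ker (LinearMap.proj i : (Fin k → F) →ₗ[F] F) := by
    intro y hy
    rw [LinearMap.mem_ker, LinearMap.proj_apply]
    by_contra hne
    obtain ⟨g, hg, hEg⟩ := hcon y hne
    rw [Submodule.mem_iInf] at hy
    exact hEg (hy ⟨g, hg⟩)
  have hmem := mem_span_of_iInf_ker_le_ker hker
  rw [Submodule.mem_span_range_iff_exists_fun] at hmem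
  obtain ⟨c, hc⟩ := hmem
  refine ⟨fun g => if hg : g ∈ Q0 then c ⟨g, hg⟩ else 0, fun x => ?_⟩
  have hx := congrArg (fun L : (Fin k → F) →ₗ[F] F => L x) hc
  simp only [LinearMap.coe_sum, Finset.sum_apply, LinearMap.smul_apply, LinearMap.comp_apply,
    LinearMap.proj_apply, smul_eq_mul] at hx
  rw [← hx, ← Finset.sum_coe_sort Q0]
  apply Finset.sum_congr rfl
  intro g _
  beta_reduce
  rw [dif_pos g.2]

theorem disjoint_decoders {F G : Type} [Field F] [Fintype F] [DecidableEq F] [Fintype G]
    [DecidableEq G] {k t : ℕ} {δ : ℝ} (E : (Fin k → F) →ₗ[F] (G → F)) (i : Fin k)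
    (h : Decodable t δ (fun x => E x) i) :
    ∃ (M : ℕ) (T : Fin M → Finset G) (a : Fin M → G → F),
      δ * (Fintype.card G : ℝ) ≤ t * M ∧ (∀ j, (T j).card ≤ t) ∧
      (∀ j j', j ≠ j' → Disjoint (T j) (T j')) ∧
      ∀ j (x : Fin k → F), x i = ∑ g ∈ T j, a j g * E x g := by
  classical
  set good : Finset G → Prop := fun T => T.card ≤ t ∧ ∃ a : G → F, ∀ x : Fin k → F,
    x i = ∑ g ∈ T, a g * E x g with hgood
  -- a good set is nonempty
  have hne : ∀ T, good T → T.Nonempty := by
    intro T hT
    rw [Finset.nonempty_iff_ne_empty]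
    rintro rfl
    obtain ⟨a, ha⟩ := hT.2
    have := ha (Pi.single i 1)
    simp at this
  -- a maximal family
  obtain ⟨𝓕, h𝓕, hmax⟩ := Finset.exists_max_image
    (univ.filter (fun 𝓕 : Finset (Finset G) => (∀ T ∈ 𝓕, good T) ∧
      ∀ T ∈ 𝓕, ∀ T' ∈ 𝓕, T ≠ T' → Disjoint T T'))
    (fun 𝓕 => 𝓕.card) ⟨∅, by simp⟩
  obtain ⟨h𝓕g, h𝓕d⟩ := (Finset.mem_filter.1 h𝓕).2
  set U : Finset G := 𝓕.biUnion id with hU
  -- no good set is disjoint from U
  have hnoU : ∀ T, good T → ¬ Disjoint T U := by
    intro T hT hd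
    have hTn : T ∉ 𝓕 := by
      intro hTF
      have h1 : T ⊆ U := fun g hg => Finset.mem_biUnion.2 ⟨T, hTF, hg⟩
      obtain ⟨g, hg⟩ := hne T hT
      exact Finset.disjoint_left.1 hd hg (h1 hg)
    have hd' : ∀ T' ∈ 𝓕, Disjoint T T' := by
      intro T' hT'
      rw [Finset.disjoint_left] at hd ⊢
      intro g hg hg'
      exact hd hg (Finset.mem_biUnion.2 ⟨T', hT', hg'⟩)
    have h2 : insert T 𝓕 ∈ univ.filter (fun 𝓕 : Finset (Finset G) => (∀ T ∈ 𝓕, good T) ∧
        ∀ T ∈ 𝓕, ∀ T' ∈ 𝓕, T ≠ T' → Disjoint T T') := by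
      refine Finset.mem_filter.2 ⟨mem_univ _, ?_, ?_⟩
      · intro T' hT'
        rcases Finset.mem_insert.1 hT' with rfl | hT'
        · exact hT
        · exact h𝓕g T' hT'
      · intro T1 hT1 T2 hT2 hne12
        rcases Finset.mem_insert.1 hT1 with e1 | hT1'
        · rcases Finset.mem_insert.1 hT2 with e2 | hT2'
          · exact absurd (e1.trans e2.symm) hne12
          · rw [e1]; exact hd' T2 hT2'
        · rcases Finset.mem_insert.1 hT2 with e2 | hT2'
          · rw [e2]; exact (hd' T1 hT1').symm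
          · exact h𝓕d T1 hT1' T2 hT2' hne12
    have h3 := hmax _ h2
    rw [Finset.card_insert_of_notMem hTn] at h3
    omega
  have hUcard : U.card ≤ t * 𝓕.card := by
    rw [mul_comm]
    exact Finset.card_biUnion_le_card_mul _ _ _ (fun T hT => (h𝓕g T hT).1)
  -- the main claim
  have hmain : δ * (Fintype.card G : ℝ) ≤ (U.card : ℝ) := by
    by_contra hcon
    push Not at hcon
    obtain ⟨N, p, Q, D, hp, hp1, hQt, hcert, hdec⟩ := h
    set r : (Fin k → F) → G → F := fun x g => if g ∈ U then 0 else E x g with hr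
    have herr : ∀ x, ((univ.filter (fun g => r x g ≠ E x g)).card : ℝ) < δ * (Fintype.card G : ℝ) := by
      intro x
      refine lt_of_le_of_lt ?_ hcon
      have : univ.filter (fun g => r x g ≠ E x g) ⊆ U := by
        intro g hg
        by_contra hgU
        apply (Finset.mem_filter.1 hg).2
        simp only [hr]
        rw [if_neg hgU]
      exact_mod_cast Finset.card_le_card this
    have h1 : ∀ x : Fin k → F, (2 : ℝ) / 3 ≤ ∑ j ∈ univ.filter (fun j => D j (r x) = x i), p j :=
      fun x => hdec x (r x) (herr x)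
    -- each deterministic decoder is right at most half of the time
    have h2 : ∀ j, 2 * (univ.filter (fun x : Fin k → F => D j (r x) = x i)).card
        ≤ Fintype.card (Fin k → F) := by
      intro j
      have hy : ∀ Q0 : Finset G, ∃ y : Fin k → F, Q0.card ≤ t → (y i ≠ 0 ∧ ∀ g ∈ Q0, g ∉ U → E y g = 0) := by
        intro Q0
        by_cases hQ0 : Q0.card ≤ t
        · have hno : ¬ ∃ a : G → F, ∀ x : Fin k → F, x i = ∑ g ∈ Q0 \ U, a g * E x g := by
            intro ha
            refine hnoU (Q0 \ U) ⟨(Finset.card_le_card Finset.sdiff_subset).trans hQ0, ha⟩ ?_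
            exact Finset.sdiff_disjoint
          obtain ⟨y, hy1, hy2⟩ := L9_exists_y E i (Q0 \ U) hno
          exact ⟨y, fun _ => ⟨hy1, fun g hg hgU => hy2 g (Finset.mem_sdiff.2 ⟨hg, hgU⟩)⟩⟩
        · exact ⟨0, fun h => absurd h hQ0⟩
      choose y hy using hy
      set σ : (Fin k → F) → (Fin k → F) := fun x => x + y (Q j (r x)) with hσ
      have hagree : ∀ x, ∀ g ∈ Q j (r x), r x g = r (σ x) g := by
        intro x g hg
        simp only [hr]
        by_cases hgU : g ∈ U
        · rw [if_pos hgU, if_pos hgU]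
        · rw [if_neg hgU, if_neg hgU]
          simp only [hσ]
          rw [map_add, Pi.add_apply, (hy _ (hQt j _)).2 g hg hgU, add_zero]
      have hQσ : ∀ x, Q j (r (σ x)) = Q j (r x) := fun x => (hcert j _ _ (hagree x)).1
      have hDσ : ∀ x, D j (r (σ x)) = D j (r x) := fun x => (hcert j _ _ (hagree x)).2
      have hinj : Function.Injective σ := by
        intro x x' hxx
        have e1 : Q j (r x) = Q j (r x') := by rw [← hQσ x, ← hQσ x', hxx]
        simp only [hσ] at hxx
        rw [e1] at hxx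
        exact add_right_cancel hxx
      set A : Finset (Fin k → F) := univ.filter (fun x : Fin k → F => D j (r x) = x i) with hA
      have hdisj : Disjoint A (A.image σ) := by
        rw [Finset.disjoint_left]
        intro x' hx' hx''
        obtain ⟨x, hx, rfl⟩ := Finset.mem_image.1 hx''
        have e1 := (Finset.mem_filter.1 hx').2
        have e2 := (Finset.mem_filter.1 hx).2
        rw [hDσ, e2] at e1
        simp only [hσ, Pi.add_apply] at e1
        exact (hy _ (hQt j (r x))).1 (left_eq_add.1 e1)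
      have h3 : (A ∪ A.image σ).card ≤ Fintype.card (Fin k → F) := Finset.card_le_univ _
      rw [Finset.card_union_of_disjoint hdisj, Finset.card_image_of_injective _ hinj] at h3
      omega
    -- average
    have h4 : (2 : ℝ) / 3 * (Fintype.card (Fin k → F) : ℝ)
        ≤ ∑ x : Fin k → F, ∑ j ∈ univ.filter (fun j => D j (r x) = x i), p j := by
      calc (2 : ℝ) / 3 * (Fintype.card (Fin k → F) : ℝ) = ∑ x : Fin k → F, (2 : ℝ) / 3 := by
            rw [Finset.sum_const, Finset.card_univ, nsmul_eq_mul, mul_comm]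
        _ ≤ _ := Finset.sum_le_sum (fun x _ => h1 x)
    have h5 : ∑ x : Fin k → F, ∑ j ∈ univ.filter (fun j => D j (r x) = x i), p j
        = ∑ j, p j * ((univ.filter (fun x : Fin k → F => D j (r x) = x i)).card : ℝ) := by
      simp only [Finset.sum_filter]
      rw [Finset.sum_comm]
      apply Finset.sum_congr rfl
      intro j _
      rw [← Finset.sum_filter, Finset.sum_const, nsmul_eq_mul, mul_comm]
    have h6 : ∑ j, p j * ((univ.filter (fun x : Fin k → F => D j (r x) = x i)).card : ℝ)
        ≤ ∑ j, p j * ((Fintype.card (Fin k → F) : ℝ) / 2) := by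
      apply Finset.sum_le_sum
      intro j _
      apply mul_le_mul_of_nonneg_left _ (hp j)
      have e1 : (2 : ℝ) * ((univ.filter (fun x : Fin k → F => D j (r x) = x i)).card : ℝ)
          ≤ (Fintype.card (Fin k → F) : ℝ) := by exact_mod_cast h2 j
      linarith
    rw [← Finset.sum_mul, hp1, one_mul] at h6
    have h7 : (0 : ℝ) < (Fintype.card (Fin k → F) : ℝ) := by exact_mod_cast Fintype.card_pos
    rw [h5] at h4
    linarith
  -- assemble
  set ε := 𝓕.equivFin.symm with hε
  have hgoodj : ∀ j, good (ε j : Finset G) := fun j => h𝓕g _ (ε j).2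
  choose a ha using fun j => (hgoodj j).2
  refine ⟨𝓕.card, fun j => (ε j : Finset G), a, ?_, fun j => (hgoodj j).1, ?_, ha⟩
  · refine hmain.trans ?_
    exact_mod_cast hUcard
  · intro j j' hjj
    apply h𝓕d _ (ε j).2 _ (ε j').2
    intro heq
    exact hjj (ε.injective (Subtype.ext heq))

end Pool.Agent.Ldc
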