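import Pool.Agent.Ldc.L8
import Pool.Agent.Ldc.L9
import Pool.Agent.Ldc.L10
set_option autoImplicit false

/-!
# Final (owner helper91)
-/
namespace Pool.Agent.Ldc
open Finset

theorem final (F : Type) [Field F] [Fintype F] [DecidableEq F] (m t : ℕ) (hm : (m : F) ≠ 0)
    (C : ℝ) :
    ∃ ε : ℝ, 0 < ε ∧ ∃ k₀ : ℕ, ∀ k : ℕ, k₀ ≤ k →
      ∀ (G : Type) [AddCommGroup G] [Fintype G] [DecidableEq G], (∀ g : G, m • g = 0) →
      ∀ E : (Fin k → F) →ₗ[F] (G → F),
        (∀ (x : Fin k → F) (h : G), ∃ x' : Fin k → F, ∀ g, E x' g = E x (g + h)) →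
      ∀ δ : ℝ, (Fintype.card G : ℝ) ^ (-ε) ≤ δ → (∀ i, Decodable t δ (fun x => E x) i) →
        (k : ℝ) ^ C ≤ (Fintype.card G : ℝ) := by
  have hm0 : m ≠ 0 := by rintro rfl; simp at hm
  have : NeZero m := ⟨hm0⟩
  have : NeZero (m : F) := ⟨hm⟩
  let K : Type := CyclotomicField m F
  have : Module.Finite F K := IsCyclotomicExtension.finiteDimensional {m} F K
  have : Finite K := Module.finite_of_finite F
  let _ : Fintype K := Fintype.ofFinite K
  have hw : IsPrimitiveRoot (IsCyclotomicExtension.zeta m F K) m :=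
    IsCyclotomicExtension.zeta_spec m F K
  set w := IsCyclotomicExtension.zeta m F K
  have hmK : (m : K) ≠ 0 := by
    intro h
    apply hm
    have : algebraMap F K (m : F) = 0 := by simpa using h
    exact (map_eq_zero _).1 this
  set C' : ℝ := max C 1 with hC'
  have hC'1 : 1 ≤ C' := le_max_right _ _
  have hC'0 : 0 < C' := by linarith
  set κ : ℝ := 1 / (2 * C') with hκd
  have hκ : 0 < κ := by positivity
  obtain ⟨n₀, hn₀⟩ := pos_bound t hw hmK κ hκ
  have hlarge : ∃ n₂ : ℕ, ∀ n : ℕ, n₂ ≤ n → (t : ℝ) ≤ (n : ℝ) ^ (κ / 8) := by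
    have h1 : Filter.Tendsto (fun n : ℕ => (n : ℝ) ^ (κ / 8)) Filter.atTop Filter.atTop :=
      (tendsto_rpow_atTop (by positivity)).comp tendsto_natCast_atTop_atTop
    obtain ⟨n₂, h2⟩ := (Filter.tendsto_atTop.1 h1 t).exists_forall_of_atTop
    exact ⟨n₂, h2⟩
  obtain ⟨n₂, hn₂⟩ := hlarge
  refine ⟨κ / 8, by positivity, max (max n₀ n₂) 1, ?_⟩
  intro k hk G _ _ _ hG E hE δ hδ hdec
  have hk0 : n₀ ≤ k := le_trans (le_trans (le_max_left _ _) (le_max_left _ _)) hk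
  have hk2 : n₂ ≤ k := le_trans (le_trans (le_max_right _ _) (le_max_left _ _)) hk
  have hk1 : 1 ≤ k := le_trans (le_max_right _ _) hk
  have hn0 : 0 < Fintype.card G := Fintype.card_pos_iff.2 ⟨0⟩
  have hn0' : (0 : ℝ) < (Fintype.card G : ℝ) := by exact_mod_cast hn0
  have hδ0 : 0 < δ := lt_of_lt_of_le (Real.rpow_pos_of_pos hn0' _) hδ
  have hpos : Pos m t w (t / δ) k (Fintype.card G) :=
    pos_of_code hw hmK hG hδ0 E hE (fun i => disjoint_decoders E i (hdec i))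
  have hkn : k ≤ Fintype.card G := pos_le hpos
  have hρ : (t : ℝ) / δ ≤ (Fintype.card G : ℝ) ^ (κ / 4) := by
    rw [div_le_iff₀ hδ0]
    calc (t : ℝ) ≤ (Fintype.card G : ℝ) ^ (κ / 8) := hn₂ _ (hk2.trans hkn)
      _ = (Fintype.card G : ℝ) ^ (κ / 4) * (Fintype.card G : ℝ) ^ (-(κ / 8)) := by
        rw [← Real.rpow_add hn0']; congr 1; ring
      _ ≤ _ := mul_le_mul_of_nonneg_left hδ (by positivity)
  have hlt := hn₀ k (Fintype.card G) (t / δ) (hk0.trans hkn) hρ hpos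
  have hk1' : (1 : ℝ) ≤ k := by exact_mod_cast hk1
  calc (k : ℝ) ^ C ≤ (k : ℝ) ^ C' := Real.rpow_le_rpow_of_exponent_le hk1' (le_max_left _ _)
    _ ≤ ((Fintype.card G : ℝ) ^ (2 * κ)) ^ C' :=
        Real.rpow_le_rpow (by positivity) hlt.le hC'0.le
    _ = (Fintype.card G : ℝ) := by
        rw [← Real.rpow_mul hn0'.le]
        have : 2 * κ * C' = 1 := by rw [hκd]; field_simp
        rw [this, Real.rpow_one]

end Pool.Agent.Ldc
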