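import Pool.Agent.Ldc.L1a
set_option autoImplicit false

/-!
# L1.  Tight maximisers.

`pos_le`: every `f` with `Rec` is in the span of the `|G|` vectors `γ ↦ w^{γ(g)}`, so `|S| ≤ |G|`.
`exists_tight`: among the finitely many pairs `(s', n')`, `n' ≤ n`, `s' ≤ n'`, `Pos s' n'`, take one with
`s'/n'^κ` maximal (`0 < n'` as a group is non-empty); `pos_sub` gives tightness (`|V|` divides `|G|`); `s* / n*^κ ≥ s/n^κ > 0`.
-/
namespace Pool.Agent.Ldc
open Finset
variable {K : Type} [Field K] {m t : ℕ} [NeZero m] {w : K} {ρ : ℝ}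

theorem pos_le {s n : ℕ} (h : Pos m t w ρ s n) : s ≤ n := by
  obtain ⟨G, iG, fG, hG, S, hSs, hGn, hgood⟩ := h
  let e : G → (S → K) := fun g γ => w ^ (γ.1 g).val
  have hle : Submodule.span K {f : S → K | Rec m t w ρ S f} ≤ Submodule.span K (Set.range e) := by
    rw [Submodule.span_le]
    rintro f ⟨N, hN, c, g, hrep, _⟩
    have hf : f = ∑ l, c ⟨0, hN⟩ l • e (g ⟨0, hN⟩ l) := by
      funext γ
      rw [hrep ⟨0, hN⟩ γ, Finset.sum_apply]
      rfl
    rw [hf]
    exact Submodule.sum_mem _ (fun l _ => Submodule.smul_mem _ _ (Submodule.subset_span ⟨_, rfl⟩))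
  have htop : Submodule.span K (Set.range e) = ⊤ := by
    rw [eq_top_iff]
    have : Submodule.span K {f : S → K | Rec m t w ρ S f} = ⊤ := hgood
    rw [← this]
    exact hle
  have h1 : Module.finrank K (S → K) ≤ Fintype.card G := by
    have h2 := finrank_range_le_card (R := K) e
    unfold Set.finrank at h2
    rw [htop, finrank_top] at h2
    exact h2
  rw [Module.finrank_fintype_fun_eq_card, Fintype.card_coe] at h1
  omega

theorem exists_tight (hw : w ^ m = 1) (κ : ℝ) (hκ : 0 < κ) {s n : ℕ} (hs : 0 < s)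
    (h : Pos m t w ρ s n) :
    ∃ (G : Type) (_ : AddCommGroup G) (_ : Fintype G), (∀ g : G, m • g = 0) ∧
      ∃ S : Finset (G →+ ZMod m), S.Nonempty ∧ Good m t w ρ S ∧ Tight κ S ∧
        Fintype.card G ≤ n ∧ S.card ≤ Fintype.card G ∧
        (s : ℝ) / (n : ℝ) ^ κ ≤ (S.card : ℝ) / (Fintype.card G : ℝ) ^ κ := by
  classical
  let C : Finset (ℕ × ℕ) := ((range (n+1)) ×ˢ (range (n+1))).filter
    (fun x => 0 < x.1 ∧ Pos m t w ρ x.1 x.2)
  have hC : (s, n) ∈ C := by
    refine Finset.mem_filter.mpr ⟨Finset.mem_product.mpr ⟨?_, ?_⟩, hs, h⟩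
    · exact Finset.mem_range.mpr (Nat.lt_succ_of_le (pos_le h))
    · exact Finset.mem_range.mpr (Nat.lt_succ_self n)
  obtain ⟨⟨s', n'⟩, hC', hmax⟩ := Finset.exists_max_image C
    (fun x => (x.1 : ℝ) / (x.2 : ℝ) ^ κ) ⟨_, hC⟩
  obtain ⟨hpr, hs', hpos'⟩ := Finset.mem_filter.mp hC'
  obtain ⟨_, hn'⟩ := Finset.mem_product.mp hpr
  have hn'n : n' ≤ n := Nat.lt_succ_iff.mp (Finset.mem_range.mp hn')
  simp only at hs' hpos'
  have hmx := hmax _ hC
  have hsn' := pos_le hpos'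
  obtain ⟨G, iG, fG, hG, S, hSs, hGn, hgood⟩ := hpos'
  refine ⟨G, iG, fG, hG, S, ?_, hgood, ?_, ?_, ?_, ?_⟩
  · rw [← Finset.card_pos, hSs]; exact hs'
  · intro A hA V hV
    rcases Finset.eq_empty_or_nonempty A with rfl | hA0
    · simp
    have hp := pos_sub hw hG S A hgood hA hA0 V hV
    have hcardG : Fintype.card (G ⧸ V) * Nat.card V = Fintype.card G := by
      have := AddSubgroup.card_eq_card_quotient_mul_card_addSubgroup V
      rw [← Nat.card_eq_fintype_card, ← Nat.card_eq_fintype_card, this]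
    have hVpos : 0 < Nat.card V := Nat.card_pos
    have hq : Fintype.card G / Nat.card V = Fintype.card (G ⧸ V) := by
      rw [← hcardG, Nat.mul_div_cancel _ hVpos]
    rw [hq] at hp
    have hqle : Fintype.card (G ⧸ V) ≤ n := by
      have : Fintype.card (G ⧸ V) ≤ Fintype.card G := by
        rw [← hcardG]
        exact Nat.le_mul_of_pos_right _ hVpos
      omega
    have hmem : (A.card, Fintype.card (G ⧸ V)) ∈ C := by
      refine Finset.mem_filter.mpr ⟨Finset.mem_product.mpr ⟨?_, ?_⟩, Finset.card_pos.mpr hA0, hp⟩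
      · exact Finset.mem_range.mpr (Nat.lt_succ_of_le ((pos_le hp).trans hqle))
      · exact Finset.mem_range.mpr (Nat.lt_succ_of_le hqle)
    have hm := hmax _ hmem
    simp only at hm
    have hqpos : (0:ℝ) < (Fintype.card (G ⧸ V) : ℝ) := by
      have : 0 < Fintype.card (G ⧸ V) := Fintype.card_pos_iff.mpr ⟨0⟩
      exact_mod_cast this
    have hVr : (0:ℝ) < (Nat.card V : ℝ) := by exact_mod_cast hVpos
    have hn'r : (n' : ℝ) = (Fintype.card (G ⧸ V) : ℝ) * (Nat.card V : ℝ) := by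
      rw [← hGn, ← hcardG]; push_cast; ring
    rw [hn'r, Real.mul_rpow hqpos.le hVr.le] at hm
    have hq1 : (0:ℝ) < (Fintype.card (G ⧸ V) : ℝ) ^ κ := Real.rpow_pos_of_pos hqpos κ
    have hV1 : (0:ℝ) < (Nat.card V : ℝ) ^ κ := Real.rpow_pos_of_pos hVr κ
    rw [div_le_div_iff₀ hq1 (mul_pos hq1 hV1)] at hm
    rw [hSs]
    have h3 : (Fintype.card (G ⧸ V) : ℝ) ^ κ * ((A.card:ℝ) * (Nat.card V : ℝ) ^ κ)
        ≤ (Fintype.card (G ⧸ V) : ℝ) ^ κ * (s' : ℝ) := by
      calc _ = (A.card:ℝ) * ((Fintype.card (G ⧸ V) : ℝ) ^ κ * (Nat.card V : ℝ) ^ κ) := by ring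
        _ ≤ _ := hm
        _ = _ := by ring
    exact le_of_mul_le_mul_left h3 hq1
  · omega
  · omega
  · rw [hSs, hGn]
    exact hmx

end Pool.Agent.Ldc
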