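import Pool.Agent.Ldc.LDefs
set_option autoImplicit false
set_option linter.unusedSectionVars false

/-!
# L10a.  Translation-invariant subspaces of `G → K` are spanned by characters.

For `f ∈ V`, `f_γ = |G|⁻¹ Σ_h w^{-γ(h)} f(· + h) ∈ V` equals `f_γ(0) · (g ↦ w^{γ(g)})` and `f = Σ_γ f_γ` over all
`γ : G →+ ZMod m` (orthogonality `Σ_γ w^{γ(g)} = 0` for `g ≠ 0` and `= |G|` for `g = 0`: for `g ≠ 0` some `γ` has
`γ g ≠ 0`: duality of finite abelian groups of exponent dividing `m`, Mathlib
`CommGroup.exists_apply_ne_one_of_hasEnoughRootsOfUnity`, and `#(G →+ ZMod m) = |G|`, same file;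
`|G|` is invertible in `K` since all its prime factors divide `m`).  (Alternatively: the translations are commuting
diagonalisable operators.)  Distinct characters are linearly independent (`linearIndependent_monoidHom`).
-/
namespace Pool.Agent.Ldc
open Finset


section L10a_aux

variable {K : Type} [Field K] {m : ℕ} [NeZero m] {w : K}

private theorem L10a_pow_mod (hw : IsPrimitiveRoot w m) (x : ℕ) : w ^ (x % m) = w ^ x := by
  conv_rhs => rw [← Nat.div_add_mod x m]
  rw [pow_add, pow_mul, hw.pow_eq_one, one_pow, one_mul]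

theorem L10a_add (hw : IsPrimitiveRoot w m) (a b : ZMod m) :
    w ^ (a + b).val = w ^ a.val * w ^ b.val := by
  rw [ZMod.val_add, L10a_pow_mod hw, pow_add]

theorem L10a_zero (_hw : IsPrimitiveRoot w m) : w ^ (0 : ZMod m).val = 1 := by
  rw [ZMod.val_zero, pow_zero]

theorem L10a_inj (hw : IsPrimitiveRoot w m) {a b : ZMod m} (h : w ^ a.val = w ^ b.val) :
    a = b := ZMod.val_injective m (hw.pow_inj (ZMod.val_lt a) (ZMod.val_lt b) h)

theorem L10a_ne_zero (hw : IsPrimitiveRoot w m) : w ≠ 0 := hw.ne_zero (NeZero.ne m)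

variable {G : Type} [AddCommGroup G] [Fintype G]

/-- The character of `γ` as a function. -/
def L10a_chi (w : K) (γ : G →+ ZMod m) : G → K := fun g => w ^ (γ g).val

theorem L10a_chi_add (hw : IsPrimitiveRoot w m) (γ : G →+ ZMod m) (g h : G) :
    L10a_chi w γ (g + h) = L10a_chi w γ g * L10a_chi w γ h := by
  unfold L10a_chi
  rw [map_add, L10a_add hw]

theorem L10a_chi_ne (hw : IsPrimitiveRoot w m) (γ : G →+ ZMod m) (g : G) :
    L10a_chi w γ g ≠ 0 := pow_ne_zero _ (L10a_ne_zero hw)

/-- The character of `γ` as a monoid homomorphism. -/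
def L10a_hom (hw : IsPrimitiveRoot w m) (γ : G →+ ZMod m) : Multiplicative G →* K where
  toFun g := L10a_chi w γ (Multiplicative.toAdd g)
  map_one' := by
    show w ^ (γ 0).val = 1
    rw [map_zero, L10a_zero hw]
  map_mul' g h := L10a_chi_add hw γ _ _

theorem L10a_hom_inj (hw : IsPrimitiveRoot w m) :
    Function.Injective (L10a_hom (G := G) hw) := by
  intro γ γ' h
  ext g
  have := DFunLike.congr_fun h (Multiplicative.ofAdd g)
  exact L10a_inj hw this

theorem L10a_li (hw : IsPrimitiveRoot w m) :
    LinearIndependent K (fun γ : G →+ ZMod m => L10a_chi w γ) := by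
  have h := (linearIndependent_monoidHom (Multiplicative G) K).comp (L10a_hom (G := G) hw)
    (L10a_hom_inj hw)
  exact h

theorem L10a_card (hw : IsPrimitiveRoot w m) (hG : ∀ g : G, m • g = 0) :
    Nat.card (G →+ ZMod m) = Nat.card G := by
  have hE : HasEnoughRootsOfUnity K m := ⟨⟨w, hw⟩, inferInstance⟩
  have hexp : Monoid.exponent (Multiplicative G) ∣ m := by
    apply Monoid.exponent_dvd_of_forall_pow_eq_one
    intro g
    exact hG (Multiplicative.toAdd g)
  have hE' : HasEnoughRootsOfUnity K (Monoid.exponent (Multiplicative G)) :=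
    HasEnoughRootsOfUnity.of_dvd K hexp
  have h1 := CommGroup.card_monoidHom_of_hasEnoughRootsOfUnity (Multiplicative G) K
  have h2 : Nat.card (Multiplicative G) = Nat.card G := rfl
  rw [← h2, ← h1]
  -- bijection
  let f : (G →+ ZMod m) → (Multiplicative G →* Kˣ) := fun γ => (L10a_hom hw γ).toHomUnits
  have hf : Function.Bijective f := by
    constructor
    · intro γ γ' h
      apply L10a_hom_inj hw
      ext g
      have := DFunLike.congr_fun h g
      have := congrArg (fun u : Kˣ => (u : K)) this
      exact this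
    · intro φ
      have hex : ∀ g : G, ∃ a : ZMod m, w ^ a.val = (φ (Multiplicative.ofAdd g) : K) := by
        intro g
        have h3 : ((φ (Multiplicative.ofAdd g) : Kˣ) : K) ^ m = 1 := by
          rw [← Units.val_pow_eq_pow_val, ← map_pow, ← ofAdd_nsmul, hG g, ofAdd_zero, map_one,
            Units.val_one]
        obtain ⟨i, hi, hi'⟩ := hw.eq_pow_of_pow_eq_one h3
        refine ⟨(i : ZMod m), ?_⟩
        rw [ZMod.val_natCast, Nat.mod_eq_of_lt hi, hi']
      choose a ha using hex
      let γ : G →+ ZMod m :=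
        { toFun := a
          map_zero' := by
            apply L10a_inj hw
            rw [ha, L10a_zero hw, ofAdd_zero, map_one, Units.val_one]
          map_add' := by
            intro x y
            apply L10a_inj hw
            rw [L10a_add hw, ha, ha, ha, ofAdd_add, map_mul, Units.val_mul] }
      refine ⟨γ, ?_⟩
      ext g
      exact ha (Multiplicative.toAdd g)
  exact Nat.card_congr (Equiv.ofBijective f hf)

theorem L10a_cardG (hmK : (m : K) ≠ 0) (hG : ∀ g : G, m • g = 0) :
    (Fintype.card G : K) ≠ 0 := by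
  intro h0
  obtain ⟨p, hp⟩ := CharP.exists K
  have hpd : p ∣ Fintype.card G := (CharP.cast_eq_zero_iff K p _).1 h0
  rcases CharP.char_is_prime_or_zero K p with hprime | hzero
  · have : Fact p.Prime := ⟨hprime⟩
    obtain ⟨g, hg⟩ := exists_prime_addOrderOf_dvd_card p hpd
    have h1 : addOrderOf g ∣ m := addOrderOf_dvd_of_nsmul_eq_zero (hG g)
    rw [hg] at h1
    exact hmK ((CharP.cast_eq_zero_iff K p _).2 h1)
  · rw [hzero, zero_dvd_iff] at hpd
    exact Fintype.card_ne_zero hpd

theorem L10a_orth (hw : IsPrimitiveRoot w m) (γ γ' : G →+ ZMod m) (h : γ ≠ γ') :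
    ∑ g : G, (L10a_chi w γ g)⁻¹ * L10a_chi w γ' g = 0 := by
  classical
  obtain ⟨h0, hh0⟩ : ∃ h0 : G, γ h0 ≠ γ' h0 := by
    by_contra hcon
    push Not at hcon
    exact h (AddMonoidHom.ext hcon)
  have hne : (L10a_chi w γ h0)⁻¹ * L10a_chi w γ' h0 ≠ 1 := by
    intro h1
    have h2 : L10a_chi w γ' h0 = L10a_chi w γ h0 := by
      have := L10a_chi_ne hw γ h0
      field_simp at h1
      exact h1
    exact hh0 (L10a_inj hw h2.symm)
  set TT := ∑ g : G, (L10a_chi w γ g)⁻¹ * L10a_chi w γ' g with hS
  have h3 : ((L10a_chi w γ h0)⁻¹ * L10a_chi w γ' h0) * TT = TT := by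
    rw [hS, Finset.mul_sum]
    refine Fintype.sum_equiv (Equiv.addRight h0) _ _ (fun g => ?_)
    rw [Equiv.coe_addRight, L10a_chi_add hw, L10a_chi_add hw, mul_inv]
    ring
  have h4 : ((L10a_chi w γ h0)⁻¹ * L10a_chi w γ' h0 - 1) * TT = 0 := by
    rw [sub_mul, h3, one_mul, sub_self]
  rcases mul_eq_zero.1 h4 with h5 | h5
  · exact absurd (sub_eq_zero.1 h5) hne
  · exact h5

end L10a_aux

open Classical in
/-- translation-invariant subspaces are spanned by characters -/
theorem chars {K : Type} [Field K] {m : ℕ} [NeZero m] {w : K} (hw : IsPrimitiveRoot w m)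
    (hmK : (m : K) ≠ 0) {G : Type} [AddCommGroup G] [Fintype G] (hG : ∀ g : G, m • g = 0)
    (V : Submodule K (G → K)) (hV : ∀ f ∈ V, ∀ h : G, (fun g => f (g + h)) ∈ V) :
    ∃ S : Finset (G →+ ZMod m), S.card = Module.finrank K V ∧
      (∀ γ ∈ S, (fun g => w ^ (γ g).val) ∈ V) ∧
      LinearIndependent K (fun γ : S => fun g : G => w ^ ((γ : G →+ ZMod m) g).val) ∧
      V = Submodule.span K (Set.range (fun γ : S => fun g : G => w ^ ((γ : G →+ ZMod m) g).val)) := by
  have hfin : Finite (G →+ ZMod m) := DFunLike.finite _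
  have hft : Fintype (G →+ ZMod m) := Fintype.ofFinite _
  have hcard : Fintype.card (G →+ ZMod m) = Fintype.card G := by
    rw [← Nat.card_eq_fintype_card, ← Nat.card_eq_fintype_card]
    exact L10a_card hw hG
  have hspan : Submodule.span K (Set.range (fun γ : G →+ ZMod m => L10a_chi w γ)) = ⊤ := by
    apply (L10a_li hw).span_eq_top_of_card_eq_finrank'
    rw [hcard, Module.finrank_fintype_fun_eq_card]
  let S : Finset (G →+ ZMod m) := Finset.univ.filter (fun γ => L10a_chi w γ ∈ V)
  have hSmem : ∀ γ, γ ∈ S ↔ L10a_chi w γ ∈ V := fun γ => by simp [S]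
  have hli : LinearIndependent K (fun γ : S => L10a_chi w (γ : G →+ ZMod m)) :=
    (L10a_li hw).comp (fun γ : S => (γ : G →+ ZMod m)) Subtype.val_injective
  have hVS : V = Submodule.span K (Set.range (fun γ : S => L10a_chi w (γ : G →+ ZMod m))) := by
    apply le_antisymm
    · intro f hf
      -- expand `f`
      have hf' : f ∈ Submodule.span K (Set.range (fun γ : G →+ ZMod m => L10a_chi w γ)) := by
        rw [hspan]; exact Submodule.mem_top
      rw [Submodule.mem_span_range_iff_exists_fun] at hf'
      obtain ⟨c, hc⟩ := hf'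
      have hG0 := L10a_cardG (K := K) hmK hG
      have hcomp : ∀ γ : G →+ ZMod m, c γ • L10a_chi w γ ∈ V := by
        intro γ
        have h1 : c γ • L10a_chi w γ = (Fintype.card G : K)⁻¹ •
            ∑ h : G, (L10a_chi w γ h)⁻¹ • (fun g => f (g + h)) := by
          funext g
          have h2 : ∀ h : G, f (g + h) =
              ∑ γ' : G →+ ZMod m, c γ' * (L10a_chi w γ' g * L10a_chi w γ' h) := by
            intro h
            rw [← hc, Finset.sum_apply]
            refine Finset.sum_congr rfl fun γ' _ => ?_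
            rw [Pi.smul_apply, smul_eq_mul, L10a_chi_add hw]
          have h3 : ∑ h : G, (L10a_chi w γ h)⁻¹ * f (g + h) =
              ∑ γ' : G →+ ZMod m, c γ' * L10a_chi w γ' g *
                ∑ h : G, (L10a_chi w γ h)⁻¹ * L10a_chi w γ' h := by
            simp only [h2, Finset.mul_sum]
            rw [Finset.sum_comm]
            refine Finset.sum_congr rfl fun γ' _ => Finset.sum_congr rfl fun h _ => ?_
            ring
          have h4 : ∑ γ' : G →+ ZMod m, c γ' * L10a_chi w γ' g *
                ∑ h : G, (L10a_chi w γ h)⁻¹ * L10a_chi w γ' h =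
              c γ * L10a_chi w γ g * (Fintype.card G : K) := by
            rw [Finset.sum_eq_single γ]
            · congr 1
              have h5 : ∀ h : G, (L10a_chi w γ h)⁻¹ * L10a_chi w γ h = 1 := fun h =>
                inv_mul_cancel₀ (L10a_chi_ne hw γ h)
              simp [h5]
            · intro γ' _ hne
              rw [L10a_orth hw γ γ' (fun h => hne h.symm), mul_zero]
            · intro h
              exact absurd (Finset.mem_univ _) h
          rw [Pi.smul_apply, Pi.smul_apply, Finset.sum_apply]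
          simp only [Pi.smul_apply, smul_eq_mul]
          rw [h3, h4]
          field_simp
        rw [h1]
        apply Submodule.smul_mem
        apply Submodule.sum_mem
        intro h _
        apply Submodule.smul_mem
        exact hV f hf h
      rw [← hc]
      apply Submodule.sum_mem
      intro γ _
      by_cases hcγ : c γ = 0
      · rw [hcγ, zero_smul]
        exact Submodule.zero_mem _
      · have h6 : L10a_chi w γ ∈ V := by
          have := V.smul_mem (c γ)⁻¹ (hcomp γ)
          rwa [smul_smul, inv_mul_cancel₀ hcγ, one_smul] at this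
        apply Submodule.smul_mem
        apply Submodule.subset_span
        exact ⟨⟨γ, (hSmem γ).2 h6⟩, rfl⟩
    · rw [Submodule.span_le]
      rintro _ ⟨γ, rfl⟩
      exact (hSmem _).1 γ.2
  refine ⟨S, ?_, fun γ hγ => (hSmem γ).1 hγ, hli, hVS⟩
  rw [hVS, finrank_span_eq_card hli, Fintype.card_coe]

end Pool.Agent.Ldc
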