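import Pool.Agent.Ldc.LDefs
set_option autoImplicit false

/-!
# L1a.  Passing to a subset of the characters and a quotient of the group.

`pos_sub`: `γ₀ ∈ A`; `G' = G ⧸ V`; the characters `γ - γ₀` (γ ∈ A) are trivial on `V`, so they descend to
`G'` (`QuotientAddGroup.lift`), distinct γ give distinct descents; `|S'| = |A|`, `|G'| = |G|/|V|`.
A representation `f γ = Σ_l c_l w^{γ(g_l)}` on `S` restricted to `A` is
`Σ_l (c_l w^{γ₀(g_l)}) w^{(γ-γ₀)(g_l)}` (`w^m = 1`, so `w^(a+b).val = w^a.val * w^b.val`), which only depends on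
`g_l mod V`.  Each `x' ∈ G'` has `|V|` preimages, so the smoothness is preserved with the same `ρ`.
Span: the restriction `(S → K) → (A → K)` is linear and surjective.
-/
namespace Pool.Agent.Ldc
open Finset
variable {K : Type} [Field K] {m t : ℕ} [NeZero m] {w : K} {ρ : ℝ}

theorem w_pow_add (hw : w ^ m = 1) (a b : ZMod m) : w ^ (a + b).val = w ^ a.val * w ^ b.val := by
  rw [ZMod.val_add, ← pow_add]
  conv_rhs => rw [← Nat.div_add_mod (a.val + b.val) m, pow_add, pow_mul, hw, one_pow, one_mul]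

open Classical in
theorem L1a_fiber {G : Type} [AddCommGroup G] [Fintype G] (V : AddSubgroup G) (y : G ⧸ V) :
    ((univ.filter (fun g : G => (QuotientAddGroup.mk g : G ⧸ V) = y)).card) ≤ Nat.card V := by
  obtain ⟨g0, rfl⟩ := QuotientAddGroup.mk_surjective y
  rw [Nat.card_eq_fintype_card, ← Finset.card_univ]
  refine Finset.card_le_card_of_injOn (fun g => if h : -g0 + g ∈ V then ⟨-g0 + g, h⟩ else 0)
    (fun _ _ => Finset.mem_univ _) ?_
  intro g hg g' hg' he
  have h1 : -g0 + g ∈ V := QuotientAddGroup.eq.mp ((Finset.mem_filter.mp hg).2.symm)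
  have h2 : -g0 + g' ∈ V := QuotientAddGroup.eq.mp ((Finset.mem_filter.mp hg').2.symm)
  simp only [h1, h2, dif_pos, Subtype.mk.injEq] at he
  exact add_left_cancel he

open Classical in
theorem pos_sub (hw : w ^ m = 1) {G : Type} [AddCommGroup G] [Fintype G] (hG : ∀ g : G, m • g = 0)
    (S A : Finset (G →+ ZMod m)) (hS : Good m t w ρ S) (hA : A ⊆ S) (hA0 : A.Nonempty)
    (V : AddSubgroup G) (hV : ∀ γ ∈ A, ∀ γ' ∈ A, ∀ h ∈ V, γ h = γ' h) :
    Pos m t w ρ A.card (Fintype.card G / Nat.card V) := by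
  obtain ⟨γ0, hγ0⟩ := hA0
  -- descent
  let D : {γ // γ ∈ A} → ((G ⧸ V) →+ ZMod m) := fun γ =>
    QuotientAddGroup.lift V (γ.1 - γ0) (fun h hh => by
      rw [AddMonoidHom.mem_ker, AddMonoidHom.sub_apply, hV γ.1 γ.2 γ0 hγ0 h hh, sub_self])
  have hDmk : ∀ (γ : {γ // γ ∈ A}) (g : G), D γ (QuotientAddGroup.mk g) = γ.1 g - γ0 g := by
    intro γ g
    show QuotientAddGroup.lift V (γ.1 - γ0) _ _ = _
    rw [QuotientAddGroup.lift_mk]
    rfl
  have hDinj : Function.Injective D := by
    intro γ γ' h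
    apply Subtype.ext
    ext g
    have h1 := hDmk γ g
    have h2 := hDmk γ' g
    rw [h] at h1
    have h3 : γ.1 g - γ0 g = γ'.1 g - γ0 g := by rw [← h1, h2]
    exact sub_left_injective h3
  let S' : Finset ((G ⧸ V) →+ ZMod m) := Finset.univ.image D
  have hS'card : S'.card = A.card := by
    rw [Finset.card_image_of_injective _ hDinj, Finset.card_univ, Fintype.card_coe]
  have hcardG : Fintype.card (G ⧸ V) * Nat.card V = Fintype.card G := by
    have := AddSubgroup.card_eq_card_quotient_mul_card_addSubgroup V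
    rw [← Nat.card_eq_fintype_card, ← Nat.card_eq_fintype_card, this]
  have hVpos : 0 < Nat.card V := Nat.card_pos
  refine ⟨G ⧸ V, inferInstance, inferInstance, ?_, S', hS'card, ?_, ?_⟩
  · intro y
    obtain ⟨g, rfl⟩ := QuotientAddGroup.mk_surjective y
    rw [← QuotientAddGroup.mk_nsmul, hG g]
    rfl
  · rw [← hcardG, Nat.mul_div_cancel _ hVpos]
  · -- Good
    -- equivalence A ≃ S'
    have hmem : ∀ γ : {γ // γ ∈ A}, D γ ∈ S' := fun γ => Finset.mem_image_of_mem _ (Finset.mem_univ _)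
    have hsurj : ∀ δ : {δ // δ ∈ S'}, ∃ γ : {γ // γ ∈ A}, D γ = δ.1 := by
      intro δ
      obtain ⟨γ, _, hγ⟩ := Finset.mem_image.mp δ.2
      exact ⟨γ, hγ⟩
    choose E hE using hsurj
    -- linear map (S → K) → (S' → K)
    let R : ({γ // γ ∈ S} → K) →ₗ[K] ({δ // δ ∈ S'} → K) :=
      { toFun := fun f δ => f ⟨(E δ).1, hA (E δ).2⟩
        map_add' := fun _ _ => rfl
        map_smul' := fun _ _ => rfl }
    have hEinj : Function.Injective E := by
      intro δ δ' h
      apply Subtype.ext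
      rw [← hE δ, ← hE δ', h]
    have hRsurj : Function.Surjective R := by
      intro f'
      refine ⟨fun γ => if h : ∃ δ, (E δ).1 = γ.1 then f' h.choose else 0, ?_⟩
      funext δ
      show (if h : ∃ δ', (E δ').1 = (E δ).1 then f' h.choose else 0) = f' δ
      have h : ∃ δ', (E δ').1 = (E δ).1 := ⟨δ, rfl⟩
      rw [dif_pos h]
      congr 1
      exact hEinj (Subtype.ext h.choose_spec)
    have hmap : Submodule.map R (Submodule.span K {f | Rec m t w ρ S f}) = ⊤ := by
      have h1 : Submodule.span K {f | Rec m t w ρ S f} = ⊤ := hS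
      rw [h1, Submodule.map_top]
      exact LinearMap.range_eq_top.mpr hRsurj
    unfold Good
    rw [eq_top_iff, ← hmap, Submodule.map_span]
    refine Submodule.span_mono ?_
    rintro f' ⟨f, hf, rfl⟩
    obtain ⟨N, hN, c, g, hrep, hsm⟩ := hf
    refine ⟨N, hN, fun j l => c j l * w ^ (γ0 (g j l)).val, fun j l => QuotientAddGroup.mk (g j l), ?_, ?_⟩
    · intro j δ
      show f ⟨(E δ).1, hA (E δ).2⟩ = _
      rw [hrep j]
      unfold Phi
      refine Finset.sum_congr rfl (fun l _ => ?_)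
      show c j l * w ^ ((E δ).1 (g j l)).val = c j l * w ^ (γ0 (g j l)).val * w ^ (δ.1 (QuotientAddGroup.mk (g j l))).val
      rw [mul_assoc, ← w_pow_add hw, ← hE δ, hDmk]
      congr 3
      abel
    · intro l y
      have h1 : (univ.filter (fun j : Fin N => c j l * w ^ (γ0 (g j l)).val ≠ 0 ∧
          (QuotientAddGroup.mk (g j l) : G ⧸ V) = y)).card
          ≤ ∑ x ∈ univ.filter (fun x : G => (QuotientAddGroup.mk x : G ⧸ V) = y),
            (univ.filter (fun j : Fin N => c j l ≠ 0 ∧ g j l = x)).card := by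
        refine le_trans (Finset.card_le_card ?_) Finset.card_biUnion_le
        intro j hj
        obtain ⟨_, hj1, hj2⟩ := Finset.mem_filter.mp hj
        refine Finset.mem_biUnion.mpr ⟨g j l, Finset.mem_filter.mpr ⟨Finset.mem_univ _, hj2⟩, ?_⟩
        exact Finset.mem_filter.mpr ⟨Finset.mem_univ _, left_ne_zero_of_mul hj1, rfl⟩
      have hGpos : (0:ℝ) < Fintype.card G := by
        have : 0 < Fintype.card G := Fintype.card_pos_iff.mpr ⟨0⟩
        exact_mod_cast this
      have hcR : (Fintype.card (G ⧸ V) : ℝ) * (Nat.card V : ℝ) = Fintype.card G := by exact_mod_cast hcardG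
      have hV' : (0:ℝ) < (Nat.card V : ℝ) := by exact_mod_cast hVpos
      have h2 : (((univ.filter (fun j : Fin N => c j l * w ^ (γ0 (g j l)).val ≠ 0 ∧
          (QuotientAddGroup.mk (g j l) : G ⧸ V) = y)).card : ℕ) : ℝ) * (Fintype.card G : ℝ)
          ≤ (Nat.card V : ℝ) * (ρ * N) := by
        have h3 : (((univ.filter (fun j : Fin N => c j l * w ^ (γ0 (g j l)).val ≠ 0 ∧
          (QuotientAddGroup.mk (g j l) : G ⧸ V) = y)).card : ℕ) : ℝ) ≤
          ∑ x ∈ univ.filter (fun x : G => (QuotientAddGroup.mk x : G ⧸ V) = y),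
            ((univ.filter (fun j : Fin N => c j l ≠ 0 ∧ g j l = x)).card : ℝ) := by
          exact_mod_cast h1
        have h4 := mul_le_mul_of_nonneg_right h3 hGpos.le
        rw [Finset.sum_mul] at h4
        have h5 : ∑ x ∈ univ.filter (fun x : G => (QuotientAddGroup.mk x : G ⧸ V) = y),
            ((univ.filter (fun j : Fin N => c j l ≠ 0 ∧ g j l = x)).card : ℝ) * (Fintype.card G : ℝ)
            ≤ ∑ x ∈ univ.filter (fun x : G => (QuotientAddGroup.mk x : G ⧸ V) = y), ρ * N := by
          refine Finset.sum_le_sum (fun x _ => hsm l x)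
        rw [Finset.sum_const, nsmul_eq_mul] at h5
        have hρ : 0 ≤ ρ * N := le_trans (by positivity) (hsm l 0)
        have h6 : ((univ.filter (fun x : G => (QuotientAddGroup.mk x : G ⧸ V) = y)).card : ℝ) ≤ (Nat.card V : ℝ) := by
          exact_mod_cast L1a_fiber V y
        exact h4.trans (h5.trans (mul_le_mul_of_nonneg_right h6 hρ))
      rw [← hcR, ← mul_assoc, mul_comm (_ * (Fintype.card (G ⧸ V) : ℝ)) (Nat.card V : ℝ)] at h2
      have h7 := le_of_mul_le_mul_left h2 hV'
      refine le_trans (le_of_eq ?_) h7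
      congr!

end Pool.Agent.Ldc
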