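import Mathlib
set_option autoImplicit false

/-!
# S3.  Two Fourier facts for a finite set `A` of characters `G → ZMod m`.

`fhat A b = (1/|A|) Σ_{γ∈A} e(γ b)`, `e = ZMod.stdAddChar`.
`S3_pop`: choose unimodular `θ_b` with `θ_b fhat A b = ‖fhat A b‖`.
`c |B| ≤ |Σ_b θ_b fhat A b| = |E_γ Σ_b θ_b e(γ b)|`, square, Cauchy-Schwarz over `γ`:
`c² |B|² ≤ Σ_{b,b'} ‖fhat A (b-b')‖`, and each term is `≤ 1`.
`S3_coset`: `Σ_{h∈V} ‖fhat A (x+h)‖² = |A|^{-2} Σ_{γ,γ'} e((γ-γ')x) Σ_{h∈V} e((γ-γ') h)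
 = |V| |A|^{-2} Σ_{γ=γ' on V} e(..) ≤ |V| |A|^{-2} #{(γ,γ') : γ = γ' on V} ≤ |V| |A|^{-1} max_γ #{γ' : γ' = γ on V}`.
-/
namespace Pool.Agent.Ldc
open Finset
variable {m : ℕ} [NeZero m] {G : Type} [AddCommGroup G]

/-- Fourier transform of the uniform measure on a finite set of characters -/
noncomputable def fhat (A : Finset (G →+ ZMod m)) (b : G) : ℂ := (∑ γ ∈ A, ZMod.stdAddChar (γ b)) / (A.card : ℂ)

private lemma S3_norm_e (x : ZMod m) : ‖(ZMod.stdAddChar x : ℂ)‖ = 1 := AddChar.norm_apply _ _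

theorem fhat_norm_le (A : Finset (G →+ ZMod m)) (b : G) : ‖fhat A b‖ ≤ 1 := by
  unfold fhat
  rw [norm_div, Complex.norm_natCast]
  apply div_le_one_of_le₀ _ (Nat.cast_nonneg _)
  refine (norm_sum_le _ _).trans ?_
  simp

theorem S3_pop [DecidableEq G] (A : Finset (G →+ ZMod m)) (hA : A.Nonempty) (B : Finset G) (c : ℝ) (hc : 0 < c)
    (hB : ∀ b ∈ B, c ≤ ‖fhat A b‖) :
    c ^ 2 / 2 * (B.card : ℝ) ^ 2
      ≤ (((B ×ˢ B).filter (fun u => c ^ 2 / 2 ≤ ‖fhat A (u.1 - u.2)‖)).card : ℝ) := by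
  classical
  have hAc : (0 : ℝ) < (A.card : ℝ) := by exact_mod_cast hA.card_pos
  have hAc' : (A.card : ℂ) ≠ 0 := by exact_mod_cast hA.card_pos.ne'
  set θ : G → ℂ := fun b => (starRingEnd ℂ) (fhat A b) / (‖fhat A b‖ : ℂ) with hθ
  set e : (G →+ ZMod m) → G → ℂ := fun γ b => ZMod.stdAddChar (γ b) with he
  set g : (G →+ ZMod m) → ℂ := fun γ => ∑ b ∈ B, θ b * e γ b with hg
  have hpos : ∀ b ∈ B, 0 < ‖fhat A b‖ := fun b hb => lt_of_lt_of_le hc (hB b hb)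
  have hθn : ∀ b ∈ B, ‖θ b‖ = 1 := by
    intro b hb
    have := hpos b hb
    simp only [hθ]
    rw [norm_div, RCLike.norm_conj, Complex.norm_real, norm_norm, div_self this.ne']
  have hθF : ∀ b ∈ B, θ b * fhat A b = (‖fhat A b‖ : ℂ) := by
    intro b hb
    have h1 : (‖fhat A b‖ : ℂ) ≠ 0 := by exact_mod_cast (hpos b hb).ne'
    simp only [hθ]
    rw [div_mul_eq_mul_div, mul_comm, Complex.mul_conj', pow_two, mul_div_assoc, div_self h1, mul_one]
  have hF : ∀ b, (A.card : ℂ) * fhat A b = ∑ γ ∈ A, e γ b := by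
    intro b
    simp only [fhat, he]
    field_simp
  -- step 1
  have h1 : (A.card : ℂ) * ∑ b ∈ B, (‖fhat A b‖ : ℂ) = ∑ γ ∈ A, g γ := by
    simp only [hg]
    rw [Finset.sum_comm, Finset.mul_sum]
    apply Finset.sum_congr rfl
    intro b hb
    rw [← hθF b hb, ← Finset.mul_sum, ← hF b]
    ring
  have h2 : (A.card : ℝ) * ∑ b ∈ B, ‖fhat A b‖ ≤ ∑ γ ∈ A, ‖g γ‖ := by
    have h3 : ‖(A.card : ℂ) * ∑ b ∈ B, (‖fhat A b‖ : ℂ)‖ = (A.card : ℝ) * ∑ b ∈ B, ‖fhat A b‖ := by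
      rw [← Complex.ofReal_sum, ← Complex.ofReal_natCast, ← Complex.ofReal_mul, Complex.norm_real,
        Real.norm_of_nonneg]
      exact mul_nonneg hAc.le (Finset.sum_nonneg (fun _ _ => norm_nonneg _))
    rw [← h3, h1]
    exact norm_sum_le _ _
  have h4 : (A.card : ℝ) * (c * (B.card : ℝ)) ≤ ∑ γ ∈ A, ‖g γ‖ := by
    refine le_trans (mul_le_mul_of_nonneg_left ?_ hAc.le) h2
    calc c * (B.card : ℝ) = ∑ b ∈ B, c := by simp [mul_comm]
      _ ≤ ∑ b ∈ B, ‖fhat A b‖ := Finset.sum_le_sum hB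
  have h5 : (∑ γ ∈ A, ‖g γ‖) ^ 2 ≤ (A.card : ℝ) * ∑ γ ∈ A, ‖g γ‖ ^ 2 :=
    sq_sum_le_card_mul_sum_sq
  -- step 2
  have h6 : ((∑ γ ∈ A, ‖g γ‖ ^ 2 : ℝ) : ℂ)
      = ∑ u ∈ B ×ˢ B, θ u.1 * (starRingEnd ℂ) (θ u.2) * ((A.card : ℂ) * fhat A (u.1 - u.2)) := by
    have h7 : ∀ γ, ((‖g γ‖ ^ 2 : ℝ) : ℂ)
        = ∑ u ∈ B ×ˢ B, θ u.1 * (starRingEnd ℂ) (θ u.2) * e γ (u.1 - u.2) := by
      intro γ
      rw [Complex.ofReal_pow, ← Complex.mul_conj', Finset.sum_product]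
      simp only [hg, map_sum, Finset.sum_mul_sum]
      apply Finset.sum_congr rfl; intro b _
      apply Finset.sum_congr rfl; intro b' _
      have h8 : e γ (b - b') = e γ b * (starRingEnd ℂ) (e γ b') := by
        simp only [he]
        rw [map_sub, sub_eq_add_neg, AddChar.map_add_eq_mul, AddChar.map_neg_eq_conj]
      simp only [h8, map_mul]
      ring
    rw [Complex.ofReal_sum]
    simp only [h7]
    rw [Finset.sum_comm]
    apply Finset.sum_congr rfl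
    intro u _
    rw [← Finset.mul_sum, hF]
  have h9 : ∑ γ ∈ A, ‖g γ‖ ^ 2 ≤ (A.card : ℝ) * ∑ u ∈ B ×ˢ B, ‖fhat A (u.1 - u.2)‖ := by
    have h10 : (∑ γ ∈ A, ‖g γ‖ ^ 2 : ℝ) = ‖((∑ γ ∈ A, ‖g γ‖ ^ 2 : ℝ) : ℂ)‖ := by
      rw [Complex.norm_real, Real.norm_of_nonneg]
      exact Finset.sum_nonneg (fun _ _ => by positivity)
    rw [h10, h6]
    refine (norm_sum_le _ _).trans ?_
    rw [Finset.mul_sum]
    apply Finset.sum_le_sum
    intro u hu
    obtain ⟨hu1, hu2⟩ := Finset.mem_product.1 hu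
    rw [norm_mul, norm_mul, norm_mul, RCLike.norm_conj, hθn _ hu1, hθn _ hu2, Complex.norm_natCast]
    simp
  have h11 : c ^ 2 * (B.card : ℝ) ^ 2 ≤ ∑ u ∈ B ×ˢ B, ‖fhat A (u.1 - u.2)‖ := by
    have h12 : ((A.card : ℝ) * (c * (B.card : ℝ))) ^ 2
        ≤ (A.card : ℝ) * ((A.card : ℝ) * ∑ u ∈ B ×ˢ B, ‖fhat A (u.1 - u.2)‖) := by
      refine le_trans (pow_le_pow_left₀ (by positivity) h4 2) (h5.trans ?_)
      exact mul_le_mul_of_nonneg_left h9 hAc.le
    have h13 : (A.card : ℝ) ^ 2 * (c ^ 2 * (B.card : ℝ) ^ 2)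
        ≤ (A.card : ℝ) ^ 2 * ∑ u ∈ B ×ˢ B, ‖fhat A (u.1 - u.2)‖ := by
      nlinarith [h12]
    exact le_of_mul_le_mul_left h13 (by positivity)
  have h14 : ∑ u ∈ B ×ˢ B, ‖fhat A (u.1 - u.2)‖
      ≤ (((B ×ˢ B).filter (fun u => c ^ 2 / 2 ≤ ‖fhat A (u.1 - u.2)‖)).card : ℝ)
        + c ^ 2 / 2 * (B.card : ℝ) ^ 2 := by
    rw [← Finset.sum_filter_add_sum_filter_not (B ×ˢ B) (fun u => c ^ 2 / 2 ≤ ‖fhat A (u.1 - u.2)‖)]
    apply add_le_add
    · refine (Finset.sum_le_sum (fun u _ => fhat_norm_le A (u.1 - u.2))).trans ?_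
      simp
    · calc ∑ u ∈ (B ×ˢ B).filter (fun u => ¬ c ^ 2 / 2 ≤ ‖fhat A (u.1 - u.2)‖), ‖fhat A (u.1 - u.2)‖
          ≤ ∑ u ∈ (B ×ˢ B).filter (fun u => ¬ c ^ 2 / 2 ≤ ‖fhat A (u.1 - u.2)‖), c ^ 2 / 2 := by
            apply Finset.sum_le_sum
            intro u hu
            exact (not_le.1 (Finset.mem_filter.1 hu).2).le
        _ = (((B ×ˢ B).filter (fun u => ¬ c ^ 2 / 2 ≤ ‖fhat A (u.1 - u.2)‖)).card : ℝ) * (c ^ 2 / 2) := by
            simp
        _ ≤ ((B ×ˢ B).card : ℝ) * (c ^ 2 / 2) := by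
            apply mul_le_mul_of_nonneg_right _ (by positivity)
            exact_mod_cast Finset.card_filter_le _ _
        _ = c ^ 2 / 2 * (B.card : ℝ) ^ 2 := by
            rw [Finset.card_product]; push_cast; ring
  linarith

open Classical in
private lemma S3_sumV [Fintype G] (V : AddSubgroup G) [Fintype V] (η : G →+ ZMod m) :
    ‖∑ h : V, (ZMod.stdAddChar (η h) : ℂ)‖
      = if (∀ h ∈ V, η h = 0) then (Nat.card V : ℝ) else 0 := by
  classical
  set ψ : AddChar V ℂ := (ZMod.stdAddChar (N := m)).compAddMonoidHom (η.comp V.subtype) with hψ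
  have h1 : ∑ h : V, (ZMod.stdAddChar (η h) : ℂ) = ∑ h : V, ψ h := rfl
  rw [h1, AddChar.sum_eq_ite]
  have h2 : ψ = 0 ↔ ∀ h ∈ V, η h = 0 := by
    constructor
    · intro h x hx
      have h3 : ψ ⟨x, hx⟩ = 1 := by rw [h]; rfl
      have h4 : (ZMod.stdAddChar (η x) : ℂ) = ZMod.stdAddChar (0 : ZMod m) := by
        rw [AddChar.map_zero_eq_one]
        exact h3
      exact ZMod.injective_stdAddChar h4
    · intro h
      apply DFunLike.ext
      intro x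
      have h3 : ψ x = (ZMod.stdAddChar (η x) : ℂ) := rfl
      rw [h3, h x x.2, AddChar.map_zero_eq_one]
      rfl
  by_cases h : ψ = 0
  · rw [if_pos h, if_pos (h2.1 h), Complex.norm_natCast, Nat.card_eq_fintype_card]
  · rw [if_neg h, if_neg (fun h' => h (h2.2 h')), norm_zero]

open Classical in
theorem S3_coset [Fintype G] (A : Finset (G →+ ZMod m)) (hA : A.Nonempty) (V : AddSubgroup G) (x : G)
    (T : Finset G) (hT : ∀ g ∈ T, g - x ∈ V) :
    ∃ γ₀ ∈ A, (A.card : ℝ) * ∑ g ∈ T, ‖fhat A g‖ ^ 2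
      ≤ (Nat.card V : ℝ) * ((A.filter (fun γ => ∀ h ∈ V, γ h = γ₀ h)).card : ℝ) := by
  have hAc : (0 : ℝ) < (A.card : ℝ) := by exact_mod_cast hA.card_pos
  have hAc' : (A.card : ℂ) ≠ 0 := by exact_mod_cast hA.card_pos.ne'
  obtain ⟨γ₀, hγ₀, hmax⟩ := Finset.exists_max_image A
    (fun γ₀ : G →+ ZMod m => (A.filter (fun γ : G →+ ZMod m => ∀ h ∈ V, γ h = γ₀ h)).card) hA
  refine ⟨γ₀, hγ₀, ?_⟩
  set N : ℕ := (A.filter (fun γ => ∀ h ∈ V, γ h = γ₀ h)).card with hN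
  -- sum over the coset
  have h1 : ∑ g ∈ T, ‖fhat A g‖ ^ 2 ≤ ∑ h : V, ‖fhat A (x + h)‖ ^ 2 := by
    calc ∑ g ∈ T, ‖fhat A g‖ ^ 2
        = ∑ h ∈ T.attach.image (fun g : {g // g ∈ T} => (⟨g.1 - x, hT g.1 g.2⟩ : V)),
            ‖fhat A (x + h)‖ ^ 2 := by
          rw [Finset.sum_image]
          · rw [← Finset.sum_attach T]
            apply Finset.sum_congr rfl
            intro g _
            congr 3
            simp
          · intro a _ b _ hab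
            simp only [Subtype.mk.injEq, sub_left_inj] at hab
            exact Subtype.ext hab
      _ ≤ ∑ h : V, ‖fhat A (x + h)‖ ^ 2 :=
          Finset.sum_le_sum_of_subset_of_nonneg (Finset.subset_univ _) (fun _ _ _ => by positivity)
  have h2 : ((∑ h : V, ((A.card : ℝ) * ‖fhat A (x + h)‖) ^ 2 : ℝ) : ℂ)
      = ∑ u ∈ A ×ˢ A, ZMod.stdAddChar ((u.1 - u.2) x)
          * ∑ h : V, (ZMod.stdAddChar ((u.1 - u.2) (h : G)) : ℂ) := by
    rw [Complex.ofReal_sum]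
    simp only [Finset.mul_sum]
    rw [Finset.sum_comm]
    apply Finset.sum_congr rfl
    intro h _
    have h3 : (A.card : ℂ) * fhat A (x + h) = ∑ γ ∈ A, ZMod.stdAddChar (γ (x + h)) := by
      simp only [fhat]
      field_simp
    have h4 : (A.card : ℝ) * ‖fhat A (x + h)‖ = ‖(A.card : ℂ) * fhat A (x + h)‖ := by
      rw [norm_mul, Complex.norm_natCast]
    rw [h4, h3, Complex.ofReal_pow, ← Complex.mul_conj', Finset.sum_product, map_sum,
      Finset.sum_mul_sum]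
    apply Finset.sum_congr rfl; intro γ _
    apply Finset.sum_congr rfl; intro γ' _
    rw [← AddChar.map_neg_eq_conj, ← AddChar.map_add_eq_mul, ← AddChar.map_add_eq_mul]
    congr 1
    simp only [AddMonoidHom.sub_apply, map_add]
    ring
  have h5 : ∑ h : V, ((A.card : ℝ) * ‖fhat A (x + h)‖) ^ 2
      ≤ (A.card : ℝ) * ((Nat.card V : ℝ) * (N : ℝ)) := by
    have h6 : (∑ h : V, ((A.card : ℝ) * ‖fhat A (x + h)‖) ^ 2 : ℝ)
        = ‖((∑ h : V, ((A.card : ℝ) * ‖fhat A (x + h)‖) ^ 2 : ℝ) : ℂ)‖ := by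
      rw [Complex.norm_real, Real.norm_of_nonneg]
      exact Finset.sum_nonneg (fun _ _ => by positivity)
    rw [h6, h2]
    refine (norm_sum_le _ _).trans ?_
    rw [Finset.sum_product]
    calc ∑ γ ∈ A, ∑ γ' ∈ A, ‖(ZMod.stdAddChar ((γ - γ') x) : ℂ)
          * ∑ h : V, (ZMod.stdAddChar ((γ - γ') (h : G)) : ℂ)‖
        ≤ ∑ γ ∈ A, (Nat.card V : ℝ) * (N : ℝ) := by
          apply Finset.sum_le_sum
          intro γ hγ
          calc ∑ γ' ∈ A, ‖(ZMod.stdAddChar ((γ - γ') x) : ℂ)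
                * ∑ h : V, (ZMod.stdAddChar ((γ - γ') (h : G)) : ℂ)‖
              = ∑ γ' ∈ A, if (∀ h ∈ V, γ' h = γ h) then (Nat.card V : ℝ) else 0 := by
                apply Finset.sum_congr rfl
                intro γ' _
                rw [norm_mul, S3_norm_e, one_mul, S3_sumV]
                congr 1
                apply propext
                apply forall_congr'
                intro h
                apply forall_congr'
                intro _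
                rw [AddMonoidHom.sub_apply, sub_eq_zero, eq_comm]
            _ = ((A.filter (fun γ' => ∀ h ∈ V, γ' h = γ h)).card : ℝ) * (Nat.card V : ℝ) := by
                rw [← Finset.sum_filter]
                simp
            _ ≤ (Nat.card V : ℝ) * (N : ℝ) := by
                rw [mul_comm]
                apply mul_le_mul_of_nonneg_left _ (Nat.cast_nonneg _)
                exact_mod_cast hmax γ hγ
      _ = (A.card : ℝ) * ((Nat.card V : ℝ) * (N : ℝ)) := by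
          rw [Finset.sum_const, nsmul_eq_mul]
  have h7 : (A.card : ℝ) ^ 2 * ∑ h : V, ‖fhat A (x + h)‖ ^ 2
      ≤ (A.card : ℝ) * ((Nat.card V : ℝ) * (N : ℝ)) := by
    rw [Finset.mul_sum]
    simpa only [mul_pow] using h5
  have h8 : (A.card : ℝ) * ((A.card : ℝ) * ∑ g ∈ T, ‖fhat A g‖ ^ 2)
      ≤ (A.card : ℝ) * ((Nat.card V : ℝ) * (N : ℝ)) := by
    have h9 := mul_le_mul_of_nonneg_left h1 (sq_nonneg (A.card : ℝ))
    nlinarith [h9, h7]
  exact le_of_mul_le_mul_left h8 hAc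

end Pool.Agent.Ldc
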