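import Pool.Agent.Ldc.S1
import Pool.Agent.Ldc.S3
set_option autoImplicit false

/-!
# S4.  Large spectrum ⇒ concentration on a coset of a large annihilator (bounded torsion).

`n = |G|`.  `c_0 = c`, `c_{i+1} = c_i²/2`, `S_i = {b : ‖fhat A b‖ ≥ c_i}` (increasing in `i`).  Let `C = C(m)` from
`pfr_energy`, `N` a natural number with `N ≥ 8 C/ζ`, `N ≥ 8 C/ε` (say).  As `|S_0| ≤ … ≤ |S_N| ≤ n` some `i < N` has
`|S_{i+1}| ≤ n^{1/N} |S_i|`.  S3_pop with `B = S_i` and `pfr_energy` with `S = S_i`, `P = S_{i+1}`,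
`κ = c_i²/2 ≥ c_{N}` , `K = n^{1/N}`: a subgroup `V`, `T ⊆ S_i` in a coset of `V`, with
`|T|, |V| ≥ (κ/K)^C |S_i|`, `|V| ≤ (K/κ)^C |S_i|`.  S3_coset:
`|A| c_i² |T| ≤ |V| #{γ ∈ A : γ = γ₀ on V}`, so `# ≥ c_i² (κ/K)^{2C} |A| ≥ c' n^{-2C/N} |A| ≥ n^{-ε}|A|` for
large `n`; `|V| ≥ c'' n^{-C/N} n^ζ ≥ n^{ζ/2}`.
-/
namespace Pool.Agent.Ldc
open Finset

/-- the sequence `c_0 = c`, `c_{i+1} = c_i²/2` -/
private noncomputable def S4_cs (c : ℝ) : ℕ → ℝ
  | 0 => c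
  | i + 1 => S4_cs c i ^ 2 / 2

private theorem S4_cs_pos {c : ℝ} (hc : 0 < c) (hc1 : c ≤ 1) (i : ℕ) :
    0 < S4_cs c i ∧ S4_cs c i ≤ 1 := by
  induction i with
  | zero => exact ⟨hc, hc1⟩
  | succ i ih =>
    obtain ⟨h0, h1⟩ := ih
    refine ⟨by show 0 < S4_cs c i ^ 2 / 2; positivity, ?_⟩
    show S4_cs c i ^ 2 / 2 ≤ 1
    nlinarith

private theorem S4_cs_anti {c : ℝ} (hc : 0 < c) (hc1 : c ≤ 1) : Antitone (S4_cs c) := by
  refine antitone_nat_of_succ_le fun i => ?_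
  obtain ⟨h0, h1⟩ := S4_cs_pos hc hc1 i
  show S4_cs c i ^ 2 / 2 ≤ S4_cs c i
  nlinarith

/-- pigeonhole: a growing sequence of numbers between `1` and `n` has a step of ratio `≤ K` if `K^N ≥ n` -/
private theorem S4_step (s : ℕ → ℝ) (n K : ℝ) (N : ℕ) (hN : 0 < N) (hK : 0 ≤ K)
    (hKN : K ^ N = n) (hn : 0 ≤ n) (h0 : 1 ≤ s 0) (hs : s N ≤ n) :
    ∃ i < N, s (i + 1) ≤ K * s i := by
  by_contra hcon
  push Not at hcon
  have key : ∀ i, i < N → K ^ (i + 1) * s 0 < s (i + 1) := by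
    intro i
    induction i with
    | zero =>
      intro h
      have := hcon 0 h
      simpa using this
    | succ i ih =>
      intro h
      have h1 := ih (by omega)
      have h2 := hcon (i + 1) h
      have h3 : K ^ (i + 1 + 1) * s 0 ≤ K * s (i + 1) := by
        calc K ^ (i + 1 + 1) * s 0 = K * (K ^ (i + 1) * s 0) := by ring
          _ ≤ K * s (i + 1) := mul_le_mul_of_nonneg_left h1.le hK
      exact lt_of_le_of_lt h3 h2
  have h1 := key (N - 1) (by omega)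
  rw [Nat.sub_add_cancel hN, hKN] at h1
  have h2 : n * 1 ≤ n * s 0 := mul_le_mul_of_nonneg_left h0 hn
  linarith

open Classical in
theorem spec_bound (m : ℕ) [NeZero m] (c ζ ε : ℝ) (hc : 0 < c) (hc1 : c ≤ 1) (hζ : 0 < ζ)
    (hε : 0 < ε) : ∃ n₀ : ℕ,
    ∀ (G : Type) [AddCommGroup G] [Fintype G], (∀ g : G, m • g = 0) → n₀ ≤ Fintype.card G →
    ∀ A : Finset (G →+ ZMod m), A.Nonempty →
      (Fintype.card G : ℝ) ^ ζ ≤ ((univ.filter (fun b : G => c ≤ ‖fhat A b‖)).card : ℝ) →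
      ∃ V : AddSubgroup G, (Fintype.card G : ℝ) ^ (ζ / 2) ≤ Nat.card V ∧
        ∃ γ₀ ∈ A, (Fintype.card G : ℝ) ^ (-ε) * (A.card : ℝ)
          ≤ ((A.filter (fun γ => ∀ h ∈ V, γ h = γ₀ h)).card : ℝ) := by
  obtain ⟨C, hC1, hpfr⟩ := pfr_energy m (NeZero.pos m)
  have hC0 : 0 < C := lt_of_lt_of_le one_pos hC1
  obtain ⟨N, hN⟩ := exists_nat_ge (max (8 * C / ζ) (8 * C / ε))
  have hN1 : 8 * C / ζ ≤ N := (le_max_left _ _).trans hN
  have hN2 : 8 * C / ε ≤ N := (le_max_right _ _).trans hN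
  have hN0 : (0 : ℝ) < N := lt_of_lt_of_le (by positivity) hN1
  have hNpos : 0 < N := by exact_mod_cast hN0
  have hCζ : C / N ≤ ζ / 8 := by
    rw [div_le_iff₀ hζ] at hN1
    rw [div_le_iff₀ hN0]
    linarith
  have hCε : C / N ≤ ε / 8 := by
    rw [div_le_iff₀ hε] at hN2
    rw [div_le_iff₀ hN0]
    linarith
  set cN : ℝ := S4_cs c N with hcN
  obtain ⟨hcN0, hcN1⟩ := S4_cs_pos hc hc1 N
  rw [← hcN] at hcN0 hcN1
  have ev1 : ∀ᶠ n : ℕ in Filter.atTop, (cN ^ (2 + 2 * C))⁻¹ ≤ (n : ℝ) ^ (3 * ε / 4) :=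
    ((tendsto_rpow_atTop (by positivity : 0 < 3 * ε / 4)).comp
      tendsto_natCast_atTop_atTop).eventually_ge_atTop _
  have ev2 : ∀ᶠ n : ℕ in Filter.atTop, (cN ^ C)⁻¹ ≤ (n : ℝ) ^ (3 * ζ / 8) :=
    ((tendsto_rpow_atTop (by positivity : 0 < 3 * ζ / 8)).comp
      tendsto_natCast_atTop_atTop).eventually_ge_atTop _
  obtain ⟨n₀, hn₀⟩ := Filter.eventually_atTop.1 (ev1.and ev2)
  refine ⟨n₀, fun G _ _ hG hn A hA hspec => ?_⟩
  obtain ⟨hbig1, hbig2⟩ := hn₀ _ hn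
  set n : ℝ := (Fintype.card G : ℝ) with hndef
  have hn1 : 1 ≤ n := by
    rw [hndef]; exact_mod_cast Fintype.card_pos (α := G)
  have hnpos : 0 < n := lt_of_lt_of_le one_pos hn1
  -- the spectra
  let Sp : ℕ → Finset G := fun i => univ.filter (fun b : G => S4_cs c i ≤ ‖fhat A b‖)
  have hSpmono : ∀ i j, i ≤ j → Sp i ⊆ Sp j := by
    intro i j hij b hb
    simp only [Sp, Finset.mem_filter, Finset.mem_univ, true_and] at hb ⊢
    exact (S4_cs_anti hc hc1 hij).trans hb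
  have hSp0 : n ^ ζ ≤ ((Sp 0).card : ℝ) := hspec
  have hSp01 : (1 : ℝ) ≤ ((Sp 0).card : ℝ) := le_trans (Real.one_le_rpow hn1 hζ.le) hSp0
  have hSpN : ((Sp N).card : ℝ) ≤ n := by
    rw [hndef]; exact_mod_cast Finset.card_le_univ (Sp N)
  set K : ℝ := n ^ (1 / (N : ℝ)) with hK
  have hK1 : 1 ≤ K := Real.one_le_rpow hn1 (by positivity)
  have hK0 : 0 < K := lt_of_lt_of_le one_pos hK1
  have hKN : K ^ N = n := by
    rw [hK, ← Real.rpow_natCast, ← Real.rpow_mul hnpos.le, one_div,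
      inv_mul_cancel₀ hN0.ne', Real.rpow_one]
  obtain ⟨i, hiN, hi⟩ := S4_step (fun i => ((Sp i).card : ℝ)) n K N hNpos hK0.le hKN hnpos.le
    hSp01 hSpN
  change ((Sp (i + 1)).card : ℝ) ≤ K * ((Sp i).card : ℝ) at hi
  obtain ⟨hci0, hci1⟩ := S4_cs_pos hc hc1 i
  set B : Finset G := Sp i with hB
  have hB1 : (1 : ℝ) ≤ (B.card : ℝ) := by
    refine hSp01.trans ?_
    exact_mod_cast Finset.card_le_card (hSpmono 0 i (Nat.zero_le _))
  have hB0 : (0 : ℝ) < (B.card : ℝ) := lt_of_lt_of_le one_pos hB1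
  have hBne : B.Nonempty := Finset.card_pos.1 (by exact_mod_cast hB0)
  have hBζ : n ^ ζ ≤ (B.card : ℝ) := by
    refine hSp0.trans ?_
    exact_mod_cast Finset.card_le_card (hSpmono 0 i (Nat.zero_le _))
  set κ : ℝ := S4_cs c i ^ 2 / 2 with hκ
  have hκeq : κ = S4_cs c (i + 1) := rfl
  have hκ0 : 0 < κ := by rw [hκ]; positivity
  have hκ1 : κ ≤ 1 := by rw [hκeq]; exact (S4_cs_pos hc hc1 _).2
  have hκN : cN ≤ κ := by rw [hκeq, hcN]; exact S4_cs_anti hc hc1 (by omega)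
  have hciN : cN ≤ S4_cs c i := by rw [hcN]; exact S4_cs_anti hc hc1 (by omega)
  have hpop := S3_pop A hA B (S4_cs c i) hci0 (fun b hb => by
    simp only [hB, Sp, Finset.mem_filter, Finset.mem_univ, true_and] at hb
    exact hb)
  have henergy : κ * (B.card : ℝ) ^ 2
      ≤ (((B ×ˢ B).filter (fun u => u.1 - u.2 ∈ Sp (i + 1))).card : ℝ) := by
    refine hpop.trans ?_
    apply le_of_eq
    congr 2
    apply Finset.filter_congr
    intro u _
    simp only [Sp, Finset.mem_filter, Finset.mem_univ, true_and]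
    exact Iff.rfl
  obtain ⟨V, a, T, hTB, hTV, hTge, hVge, hVle⟩ :=
    hpfr G hG B (Sp (i + 1)) hBne κ K hκ0 hκ1 hK1 henergy hi
  obtain ⟨γ₀, hγ₀, hcos⟩ := S3_coset A hA V a T hTV
  -- lower bound for (κ/K)^C
  have hCN : K ^ C = n ^ (C / N) := by
    rw [hK, ← Real.rpow_mul hnpos.le]; congr 1; ring
  have hq : cN ^ C * n ^ (-(C / N)) ≤ (κ / K) ^ C := by
    rw [Real.div_rpow hκ0.le hK0.le, hCN, Real.rpow_neg hnpos.le, div_eq_mul_inv]
    exact mul_le_mul_of_nonneg_right (Real.rpow_le_rpow hcN0.le hκN hC0.le) (by positivity)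
  have hq0 : 0 < (κ / K) ^ C := by positivity
  have hqinv : (K / κ) ^ C = ((κ / K) ^ C)⁻¹ := by
    rw [← Real.inv_rpow (by positivity), inv_div]
  refine ⟨V, ?_, γ₀, hγ₀, ?_⟩
  · -- |V| large
    have h1 : cN ^ C * n ^ (-(C / N)) * n ^ ζ ≤ (Nat.card V : ℝ) :=
      le_trans (mul_le_mul hq hBζ (by positivity) hq0.le) hVge
    refine le_trans ?_ h1
    have h2 : n ^ (-(ζ / 8)) ≤ n ^ (-(C / N)) :=
      Real.rpow_le_rpow_of_exponent_le hn1 (by linarith)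
    have h3 : n ^ (ζ / 2) = n ^ (-(ζ / 8)) * n ^ ζ * (n ^ (3 * ζ / 8))⁻¹ := by
      rw [← Real.rpow_neg hnpos.le, ← Real.rpow_add hnpos, ← Real.rpow_add hnpos]
      congr 1; ring
    have h4 : (n ^ (3 * ζ / 8))⁻¹ ≤ cN ^ C := by
      rw [inv_le_comm₀ (by positivity) (by positivity)]
      exact hbig2
    calc n ^ (ζ / 2) = n ^ (-(ζ / 8)) * n ^ ζ * (n ^ (3 * ζ / 8))⁻¹ := h3
      _ ≤ n ^ (-(C / N)) * n ^ ζ * cN ^ C := by
          refine mul_le_mul ?_ h4 (by positivity) (by positivity)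
          exact mul_le_mul_of_nonneg_right h2 (by positivity)
      _ = cN ^ C * n ^ (-(C / N)) * n ^ ζ := by ring
  · -- concentration
    have hA0 : (0 : ℝ) < A.card := by exact_mod_cast hA.card_pos
    set W : ℝ := ((A.filter (fun γ => ∀ h ∈ V, γ h = γ₀ h)).card : ℝ) with hW
    have hW0 : 0 ≤ W := Nat.cast_nonneg _
    have hsum : (T.card : ℝ) * (S4_cs c i) ^ 2 ≤ ∑ g ∈ T, ‖fhat A g‖ ^ 2 := by
      rw [← nsmul_eq_mul]
      refine Finset.card_nsmul_le_sum _ _ _ fun g hg => ?_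
      have hg' := hTB hg
      simp only [hB, Sp, Finset.mem_filter, Finset.mem_univ, true_and] at hg'
      exact pow_le_pow_left₀ hci0.le hg' 2
    have h1 : (A.card : ℝ) * ((T.card : ℝ) * (S4_cs c i) ^ 2) ≤ (Nat.card V : ℝ) * W :=
      le_trans (mul_le_mul_of_nonneg_left hsum hA0.le) hcos
    set q : ℝ := (κ / K) ^ C with hqdef
    have h2 : (A.card : ℝ) * ((q * (B.card : ℝ)) * (S4_cs c i) ^ 2) ≤ q⁻¹ * (B.card : ℝ) * W := by
      refine le_trans ?_ (h1.trans (mul_le_mul_of_nonneg_right ?_ hW0))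
      · refine mul_le_mul_of_nonneg_left ?_ hA0.le
        exact mul_le_mul_of_nonneg_right hTge (by positivity)
      · rw [← hqinv]; exact hVle
    -- cancel |B| and multiply by q
    have h3 : (S4_cs c i) ^ 2 * q ^ 2 * (A.card : ℝ) ≤ W := by
      have h4 : ((S4_cs c i) ^ 2 * q ^ 2 * (A.card : ℝ)) * ((B.card : ℝ) * q⁻¹)
          ≤ W * ((B.card : ℝ) * q⁻¹) := by
        calc ((S4_cs c i) ^ 2 * q ^ 2 * (A.card : ℝ)) * ((B.card : ℝ) * q⁻¹)
            = (A.card : ℝ) * ((q * (B.card : ℝ)) * (S4_cs c i) ^ 2) := by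
              field_simp
          _ ≤ q⁻¹ * (B.card : ℝ) * W := h2
          _ = W * ((B.card : ℝ) * q⁻¹) := by ring
      exact le_of_mul_le_mul_right h4 (by positivity)
    refine le_trans (mul_le_mul_of_nonneg_right ?_ hA0.le) h3
    have h5 : cN ^ 2 ≤ (S4_cs c i) ^ 2 := pow_le_pow_left₀ hcN0.le hciN 2
    have h6 : (cN ^ C * n ^ (-(C / N))) ^ 2 ≤ q ^ 2 := pow_le_pow_left₀ (by positivity) hq 2
    have h7 : cN ^ 2 * (cN ^ C * n ^ (-(C / N))) ^ 2 ≤ (S4_cs c i) ^ 2 * q ^ 2 :=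
      mul_le_mul h5 h6 (by positivity) (by positivity)
    refine le_trans ?_ h7
    have h8 : cN ^ 2 * (cN ^ C * n ^ (-(C / N))) ^ 2 = cN ^ (2 + 2 * C) * n ^ (-(2 * (C / N))) := by
      have e1 : cN ^ (2 + 2 * C) = cN ^ 2 * (cN ^ C) ^ 2 := by
        rw [Real.rpow_add hcN0, show (2 : ℝ) * C = C * (2 : ℕ) by push_cast; ring,
          Real.rpow_mul hcN0.le, Real.rpow_natCast]
        norm_num
      have e2 : n ^ (-(2 * (C / N))) = (n ^ (-(C / N))) ^ 2 := by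
        rw [show -(2 * (C / (N : ℝ))) = (-(C / N)) * (2 : ℕ) by push_cast; ring,
          Real.rpow_mul hnpos.le, Real.rpow_natCast]
      rw [e1, e2]; ring
    rw [h8]
    have h9 : n ^ (-(ε / 4)) ≤ n ^ (-(2 * (C / N))) :=
      Real.rpow_le_rpow_of_exponent_le hn1 (by linarith)
    have h10 : (n ^ (3 * ε / 4))⁻¹ ≤ cN ^ (2 + 2 * C) := by
      rw [inv_le_comm₀ (by positivity) (by positivity)]
      exact hbig1
    calc n ^ (-ε) = (n ^ (3 * ε / 4))⁻¹ * n ^ (-(ε / 4)) := by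
          rw [← Real.rpow_neg hnpos.le, ← Real.rpow_add hnpos]
          congr 1; ring
      _ ≤ cN ^ (2 + 2 * C) * n ^ (-(2 * (C / N))) :=
          mul_le_mul h10 h9 (by positivity) (by positivity)

end Pool.Agent.Ldc
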