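import Pool.Agent.Ldc.LDefs
import Pool.Agent.Ldc.S4
set_option autoImplicit false

/-!
# L3.  Tight sets of characters have small large spectra.

`spec_bound` with this `ζ` and `ε = κζ/8`.  If the spectrum of `A` had `≥ n^ζ` elements there are `V`,
`|V| ≥ n^{ζ/2}`, and `A' = {γ ∈ A : γ = γ₀ on V}` with `|A'| ≥ n^{-κζ/8} |A| ≥ n^{-κζ/4} |S|`; tightness:
`|A'| n^{κζ/2} ≤ |A'| |V|^κ ≤ |S|`, so `n^{κζ/4} ≤ 1`, false for `n ≥ 2`.
-/
namespace Pool.Agent.Ldc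
open Finset
open Classical in
theorem spec_tight (m : ℕ) [NeZero m] (c ζ κ : ℝ) (hc : 0 < c) (hc1 : c ≤ 1) (hζ : 0 < ζ)
    (hκ : 0 < κ) : ∃ n₀ : ℕ,
    ∀ (G : Type) [AddCommGroup G] [Fintype G], (∀ g : G, m • g = 0) → n₀ ≤ Fintype.card G →
    ∀ S : Finset (G →+ ZMod m), Tight κ S → ∀ A ⊆ S, A.Nonempty →
      (Fintype.card G : ℝ) ^ (-(κ * ζ / 8)) * (S.card : ℝ) ≤ (A.card : ℝ) →
      ((univ.filter (fun b : G => c ≤ ‖fhat A b‖)).card : ℝ) ≤ (Fintype.card G : ℝ) ^ ζ := by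
  obtain ⟨n₀, hn₀⟩ := spec_bound m c ζ (κ * ζ / 8) hc hc1 hζ (by positivity)
  refine ⟨max n₀ 2, ?_⟩
  intro G _ _ hG hn S hS A hAS hA hcard
  by_contra hlt
  push Not at hlt
  obtain ⟨V, hV, γ₀, hγ₀, h1⟩ := hn₀ G hG ((le_max_left _ _).trans hn) A hA hlt.le
  have hn2 : (2 : ℝ) ≤ (Fintype.card G : ℝ) := by
    exact_mod_cast (le_max_right _ _).trans hn
  set n : ℝ := (Fintype.card G : ℝ) with hndef
  have hn0 : 0 < n := by linarith
  set A' := A.filter (fun γ => ∀ h ∈ V, γ h = γ₀ h) with hA'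
  have h2 := hS A' ((Finset.filter_subset _ _).trans hAS) V (by
    intro γ hγ γ' hγ' h hh
    rw [hA', Finset.mem_filter] at hγ hγ'
    rw [hγ.2 h hh, hγ'.2 h hh])
  have hSpos : 0 < (S.card : ℝ) := by
    have : 0 < S.card := Finset.card_pos.2 ⟨_, hAS hγ₀⟩
    exact_mod_cast this
  have h3 : n ^ (κ * ζ / 2) ≤ (Nat.card V : ℝ) ^ κ := by
    have : n ^ (κ * ζ / 2) = (n ^ (ζ / 2)) ^ κ := by
      rw [← Real.rpow_mul hn0.le]
      congr 1; ring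
    rw [this]
    exact Real.rpow_le_rpow (by positivity) hV hκ.le
  have h4 : n ^ (-(κ * ζ / 8)) * (n ^ (-(κ * ζ / 8)) * (S.card : ℝ)) ≤ (A'.card : ℝ) := by
    refine le_trans (mul_le_mul_of_nonneg_left hcard (by positivity)) h1
  have h5 : n ^ (-(κ * ζ / 8)) * (n ^ (-(κ * ζ / 8)) * (S.card : ℝ)) * n ^ (κ * ζ / 2) ≤ S.card :=
    le_trans (mul_le_mul h4 h3 (by positivity) (by positivity)) h2
  have h6 : n ^ (-(κ * ζ / 8)) * (n ^ (-(κ * ζ / 8)) * (S.card : ℝ)) * n ^ (κ * ζ / 2)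
      = n ^ (κ * ζ / 4) * (S.card : ℝ) := by
    have : n ^ (κ * ζ / 4) = n ^ (-(κ * ζ / 8)) * n ^ (-(κ * ζ / 8)) * n ^ (κ * ζ / 2) := by
      rw [← Real.rpow_add hn0, ← Real.rpow_add hn0]
      congr 1; ring
    rw [this]; ring
  rw [h6] at h5
  have h7 : 1 < n ^ (κ * ζ / 4) := Real.one_lt_rpow (by linarith) (by positivity)
  have h8 : (S.card : ℝ) < n ^ (κ * ζ / 4) * (S.card : ℝ) := by
    nlinarith
  linarith

end Pool.Agent.Ldc
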