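import Pool.Agent.Ldc.LDefs
set_option autoImplicit false

/-!
# L4.  The selection lemma, and the bias lemma.

`selection`: `Λ` finite set of indices χ, `b χ : τ → G`.  `Rig J' = {χ ∈ Λ : b χ constant on J'}`.  Among the
non-empty `J' ⊆ J` with `|J'| ≥ (Π_{s < |Rig J'|} θ_s) |J|` (J itself qualifies, as `0 ≤ θ ≤ 1`) take one with
`|Rig J'|` maximal.  If `χ ∈ Λ \ Rig J'` and a value `x` is taken `≥ θ_{|Rig J'|} |J'|` times on `J'`
(and at least once) then `J'' = {j ∈ J' : b χ j = x}` has `Rig J'' ⊋ Rig J'` and still qualifies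
(the products decrease), contradiction.
`bias`: `E_{γ∈A} |mean J b γ|² = E_{j,j'} fhat A (b j - b j')` (a real number); if it is `≥ c` some `j₀` has
`E_j ‖fhat A (b j - b j₀)‖ ≥ c`, so at least `(c/2)|J|` of the `j` have `‖fhat A (b j - b j₀)‖ ≥ c/2`; these
`b j - b j₀` lie in a set of at most `M` elements, so some value is taken `≥ (c/(2M)) |J|` times.
-/
namespace Pool.Agent.Ldc
open Finset

open Classical in
theorem selection {X τ G : Type} (Λ : Finset X) (J : Finset τ) (hJ : J.Nonempty) (b : X → τ → G)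
    (θ : ℕ → ℝ) (hθ0 : ∀ s, 0 < θ s) (hθ1 : ∀ s, θ s ≤ 1) :
    ∃ J' ⊆ J, J'.Nonempty ∧ ∃ R ⊆ Λ,
      (∀ χ ∈ R, ∀ j ∈ J', ∀ j' ∈ J', b χ j = b χ j') ∧
      (∏ s ∈ range R.card, θ s) * (J.card : ℝ) ≤ J'.card ∧
      ∀ χ ∈ Λ, χ ∉ R → (∃ j ∈ J', ∃ j' ∈ J', b χ j ≠ b χ j') ∧
        ∀ x, ((J'.filter (fun j => b χ j = x)).card : ℝ) < θ R.card * J'.card := by
  let Rig : Finset τ → Finset X := fun J' => Λ.filter (fun χ => ∀ j ∈ J', ∀ j' ∈ J', b χ j = b χ j')
  let P : ℕ → ℝ := fun n => ∏ s ∈ range n, θ s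
  have hP0 : ∀ n, 0 < P n := fun n => Finset.prod_pos (fun s _ => hθ0 s)
  have hP1 : ∀ n, P (n+1) ≤ P n := fun n => by
    show ∏ s ∈ range (n+1), θ s ≤ ∏ s ∈ range n, θ s
    rw [Finset.prod_range_succ]
    have := hP0 n
    have h2 := hθ1 n
    show P n * θ n ≤ P n
    nlinarith
  have hPanti : Antitone P := antitone_nat_of_succ_le hP1
  let C : Finset (Finset τ) := J.powerset.filter (fun J' => J'.Nonempty ∧ P (Rig J').card * (J.card : ℝ) ≤ J'.card)
  have hJC : J ∈ C := by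
    refine Finset.mem_filter.mpr ⟨Finset.mem_powerset_self J, hJ, ?_⟩
    have h1 : P (Rig J).card ≤ 1 := by
      have := hPanti (Nat.zero_le (Rig J).card)
      simpa [P] using this
    have h2 : (0:ℝ) ≤ J.card := Nat.cast_nonneg _
    nlinarith
  obtain ⟨J', hJ'C, hmax⟩ := Finset.exists_max_image C (fun J' => (Rig J').card) ⟨J, hJC⟩
  obtain ⟨hJ'J, hJ'ne, hJ'P⟩ := Finset.mem_filter.mp hJ'C
  refine ⟨J', Finset.mem_powerset.mp hJ'J, hJ'ne, Rig J', Finset.filter_subset _ _, ?_, hJ'P, ?_⟩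
  · intro χ hχ
    exact (Finset.mem_filter.mp hχ).2
  · intro χ hχΛ hχR
    have hnc : ∃ j ∈ J', ∃ j' ∈ J', b χ j ≠ b χ j' := by
      by_contra hcon
      push Not at hcon
      exact hχR (Finset.mem_filter.mpr ⟨hχΛ, hcon⟩)
    refine ⟨hnc, ?_⟩
    intro x
    by_contra hcon
    rw [not_lt] at hcon
    set J'' := J'.filter (fun j => b χ j = x) with hJ''
    have hJ'pos : (0:ℝ) < J'.card := by exact_mod_cast hJ'ne.card_pos
    have hJ''ne : J''.Nonempty := by
      rw [← Finset.card_pos]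
      have : (0:ℝ) < J''.card := lt_of_lt_of_le (mul_pos (hθ0 _) hJ'pos) hcon
      exact_mod_cast this
    have hsub : insert χ (Rig J') ⊆ Rig J'' := by
      intro χ' hχ'
      rcases Finset.mem_insert.mp hχ' with rfl | hχ'
      · refine Finset.mem_filter.mpr ⟨hχΛ, ?_⟩
        intro j hj j' hj'
        rw [(Finset.mem_filter.mp hj).2, (Finset.mem_filter.mp hj').2]
      · refine Finset.mem_filter.mpr ⟨(Finset.mem_filter.mp hχ').1, ?_⟩
        intro j hj j' hj'
        exact (Finset.mem_filter.mp hχ').2 j (Finset.mem_filter.mp hj).1 j' (Finset.mem_filter.mp hj').1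
    have hcard : (Rig J').card + 1 ≤ (Rig J'').card := by
      rw [← Finset.card_insert_of_notMem hχR]
      exact Finset.card_le_card hsub
    have hC'' : J'' ∈ C := by
      refine Finset.mem_filter.mpr ⟨Finset.mem_powerset.mpr
        ((Finset.filter_subset _ _).trans (Finset.mem_powerset.mp hJ'J)), hJ''ne, ?_⟩
      have h1 : P (Rig J'').card ≤ P (Rig J').card * θ (Rig J').card := by
        have h := hPanti hcard
        have h2 : P ((Rig J').card + 1) = P (Rig J').card * θ (Rig J').card :=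
          Finset.prod_range_succ _ _
        rw [h2] at h
        exact h
      have hJc : (0:ℝ) ≤ J.card := Nat.cast_nonneg _
      calc P (Rig J'').card * (J.card : ℝ) ≤ (P (Rig J').card * θ (Rig J').card) * J.card :=
            mul_le_mul_of_nonneg_right h1 hJc
        _ = θ (Rig J').card * (P (Rig J').card * J.card) := by ring
        _ ≤ θ (Rig J').card * J'.card := mul_le_mul_of_nonneg_left hJ'P (hθ0 _).le
        _ ≤ J''.card := hcon
    have hfin : (Rig J'').card ≤ (Rig J').card := hmax J'' hC''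
    omega

open Classical in
theorem bias {m : ℕ} [NeZero m] {G τ : Type} [AddCommGroup G] [Fintype G]
    (A : Finset (G →+ ZMod m)) (hA : A.Nonempty) (J : Finset τ) (hJ : J.Nonempty) (b : τ → G)
    (c M : ℝ) (hc : 0 < c) (hM : 0 < M)
    (hspec : ((univ.filter (fun x : G => c / 2 ≤ ‖fhat A x‖)).card : ℝ) ≤ M)
    (hb : ∀ x, ((J.filter (fun j => b j = x)).card : ℝ) < c / (2 * M) * J.card) :
    ∑ γ ∈ A, ‖mean J b γ‖ ^ 2 < c * (A.card : ℝ) := by
  by_contra hcon
  rw [not_lt] at hcon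
  have hJ0 : (0:ℝ) < J.card := by exact_mod_cast hJ.card_pos
  have hA0 : (0:ℝ) < A.card := by exact_mod_cast hA.card_pos
  have hJ0' : (J.card : ℂ) ≠ 0 := by exact_mod_cast hJ0.ne'
  have hA0' : (A.card : ℂ) ≠ 0 := by exact_mod_cast hA0.ne'
  have hid : ((∑ γ ∈ A, ‖mean J b γ‖ ^ 2 : ℝ) : ℂ)
      = (A.card : ℂ) / (J.card:ℂ)^2 * ∑ j' ∈ J, ∑ j ∈ J, fhat A (b j - b j') := by
    have h1 : ∀ γ ∈ A, ((‖mean J b γ‖ : ℂ))^2
        = (∑ j' ∈ J, ∑ j ∈ J, ZMod.stdAddChar (γ (b j - b j'))) / (J.card:ℂ)^2 := by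
      intro γ _
      rw [← Complex.mul_conj']
      unfold mean
      rw [map_div₀, map_sum, Complex.conj_natCast, div_mul_div_comm, ← pow_two, Finset.sum_mul_sum,
        Finset.sum_comm]
      congr 1
      refine Finset.sum_congr rfl (fun j' _ => Finset.sum_congr rfl (fun j _ => ?_))
      rw [← AddChar.map_neg_eq_conj, ← AddChar.map_add_eq_mul, map_sub, sub_eq_add_neg]
    push_cast
    rw [Finset.sum_congr rfl h1, ← Finset.sum_div, Finset.sum_comm]
    have h2 : ∀ j' ∈ J, ∑ γ ∈ A, ∑ j ∈ J, (ZMod.stdAddChar (γ (b j - b j')) : ℂ)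
        = (A.card : ℂ) * ∑ j ∈ J, fhat A (b j - b j') := by
      intro j' _
      rw [Finset.sum_comm, Finset.mul_sum]
      refine Finset.sum_congr rfl (fun j _ => ?_)
      unfold fhat
      field_simp
    rw [Finset.sum_congr rfl h2, ← Finset.mul_sum]
    ring
  have hle : c * (J.card : ℝ)^2 ≤ ∑ j' ∈ J, ∑ j ∈ J, ‖fhat A (b j - b j')‖ := by
    have h1 : ‖((∑ γ ∈ A, ‖mean J b γ‖ ^ 2 : ℝ) : ℂ)‖ = ∑ γ ∈ A, ‖mean J b γ‖ ^ 2 := by
      rw [Complex.norm_real, Real.norm_of_nonneg]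
      exact Finset.sum_nonneg (fun _ _ => by positivity)
    have h2 : ‖((∑ γ ∈ A, ‖mean J b γ‖ ^ 2 : ℝ) : ℂ)‖ ≤
        (A.card : ℝ) / (J.card:ℝ)^2 * ∑ j' ∈ J, ∑ j ∈ J, ‖fhat A (b j - b j')‖ := by
      rw [hid, norm_mul]
      have h3 : ‖(A.card : ℂ) / (J.card:ℂ)^2‖ = (A.card : ℝ) / (J.card:ℝ)^2 := by
        rw [norm_div, norm_pow, Complex.norm_natCast, Complex.norm_natCast]
      rw [h3]
      refine mul_le_mul_of_nonneg_left ?_ (by positivity)
      refine (norm_sum_le _ _).trans (Finset.sum_le_sum (fun j' _ => norm_sum_le _ _))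
    rw [h1] at h2
    have h4 := hcon.trans h2
    have h5 : c * (A.card:ℝ) * (J.card:ℝ)^2 ≤ (A.card:ℝ) * ∑ j' ∈ J, ∑ j ∈ J, ‖fhat A (b j - b j')‖ := by
      have h6 := mul_le_mul_of_nonneg_right h4 (by positivity : (0:ℝ) ≤ (J.card:ℝ)^2)
      refine h6.trans (le_of_eq ?_)
      field_simp
    have h7 : (A.card:ℝ) * (c * (J.card:ℝ)^2) ≤ (A.card:ℝ) * ∑ j' ∈ J, ∑ j ∈ J, ‖fhat A (b j - b j')‖ := by
      linarith
    exact le_of_mul_le_mul_left h7 hA0
  obtain ⟨j0, hj0, hj0s⟩ : ∃ j' ∈ J, c * (J.card:ℝ) ≤ ∑ j ∈ J, ‖fhat A (b j - b j')‖ := by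
    have h : ∑ j' ∈ J, c * (J.card:ℝ) ≤ ∑ j' ∈ J, ∑ j ∈ J, ‖fhat A (b j - b j')‖ := by
      rw [Finset.sum_const, nsmul_eq_mul]
      nlinarith
    exact Finset.exists_le_of_sum_le hJ h
  set N := J.filter (fun j => c / 2 ≤ ‖fhat A (b j - b j0)‖) with hN
  have hNcard : c / 2 * (J.card:ℝ) ≤ (N.card : ℝ) := by
    have h1 : ∑ j ∈ J, ‖fhat A (b j - b j0)‖ ≤ ∑ j ∈ J, ((if c / 2 ≤ ‖fhat A (b j - b j0)‖ then (1:ℝ) else 0) + c / 2) := by
      refine Finset.sum_le_sum (fun j _ => ?_)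
      by_cases h : c / 2 ≤ ‖fhat A (b j - b j0)‖
      · rw [if_pos h]
        have := fhat_norm_le A (b j - b j0)
        linarith
      · rw [if_neg h]
        rw [not_le] at h
        linarith
    rw [Finset.sum_add_distrib, Finset.sum_const, nsmul_eq_mul, ← Finset.sum_filter, ← hN,
      Finset.sum_const, nsmul_eq_mul, mul_one] at h1
    nlinarith
  set T := univ.filter (fun x : G => c / 2 ≤ ‖fhat A x‖) with hT
  have hNT : N.card ≤ ∑ x ∈ T, (J.filter (fun j => b j = x + b j0)).card := by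
    have hsub : N ⊆ T.biUnion (fun x => J.filter (fun j => b j = x + b j0)) := by
      intro j hj
      obtain ⟨hjJ, hjc⟩ := Finset.mem_filter.mp hj
      refine Finset.mem_biUnion.mpr ⟨b j - b j0, Finset.mem_filter.mpr ⟨Finset.mem_univ _, hjc⟩, ?_⟩
      exact Finset.mem_filter.mpr ⟨hjJ, by abel⟩
    exact (Finset.card_le_card hsub).trans Finset.card_biUnion_le
  have hNpos : (0:ℝ) < N.card := lt_of_lt_of_le (by positivity) hNcard
  have hTne : T.Nonempty := by
    rw [Finset.nonempty_iff_ne_empty]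
    intro h0
    rw [h0, Finset.sum_empty] at hNT
    have : (N.card:ℝ) ≤ 0 := by exact_mod_cast hNT
    linarith
  have hlt : ((∑ x ∈ T, (J.filter (fun j => b j = x + b j0)).card : ℕ) : ℝ) < ∑ x ∈ T, c / (2 * M) * (J.card:ℝ) := by
    push_cast
    exact Finset.sum_lt_sum_of_nonempty hTne (fun x _ => hb (x + b j0))
  rw [Finset.sum_const, nsmul_eq_mul] at hlt
  have h1 : (T.card:ℝ) * (c / (2 * M) * (J.card:ℝ)) ≤ M * (c / (2 * M) * (J.card:ℝ)) :=
    mul_le_mul_of_nonneg_right hspec (by positivity)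
  have h2 : M * (c / (2 * M) * (J.card:ℝ)) = c / 2 * (J.card:ℝ) := by
    field_simp
  have h3 : (N.card:ℝ) ≤ ((∑ x ∈ T, (J.filter (fun j => b j = x + b j0)).card : ℕ) : ℝ) := by
    exact_mod_cast hNT
  linarith

end Pool.Agent.Ldc
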