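import Pool.Agent.Ldc.LDefs
set_option autoImplicit false

/-!
# L6b.  `Phi` constant on a coset of `Λ^⊥` forces the constant to be 0.

`Z = {z : χ·z = 0 ∀ χ ∈ Λ}`.  `|Z| v = Σ_{z ∈ z₀+Z} Phi w c z = Σ_l c_l Σ_{z∈z₀+Z} w^{z_l}`.  For `c_l ≠ 0`
(so `single l 1 ∉ Λ`): in `K`, `1[z ∈ z₀+Z] = |Λ|⁻¹ Σ_{χ∈Λ} w^{χ·(z-z₀)}` (`|Λ|` divides `m^t ≠ 0` in `K`), hence
`Σ_{z ∈ z₀+Z} w^{z_l} = |Λ|⁻¹ Σ_{χ∈Λ} w^{-χ·z₀} Σ_{z ∈ X} w^{χ·z + z_l} = 0`, because the inner sum factorises over
the coordinates and is `0` unless `χ = -single l 1`, which is not in `Λ`.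
`|Z|` divides `m^t` (Lagrange), so is non-zero in `K`; thus `v = 0`.
(Alternative for the middle step: `Z ∋ z' ↦ w^{z'_l}` is a non-trivial character of `Z` — by duality — so its sum is 0.)
-/
namespace Pool.Agent.Ldc
open Finset

private theorem L6b_add {K : Type} [Field K] {m : ℕ} [NeZero m] {w : K} (hw : w ^ m = 1)
    (a b : ZMod m) : w ^ (a + b).val = w ^ a.val * w ^ b.val := by
  rw [ZMod.val_add, ← pow_add]
  conv_rhs => rw [← Nat.div_add_mod (a.val + b.val) m, pow_add, pow_mul, hw, one_pow, one_mul]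

private theorem L6b_one {K : Type} [Field K] {m : ℕ} [NeZero m] {w : K} (hw : IsPrimitiveRoot w m)
    (a : ZMod m) (h : w ^ a.val = 1) : a = 0 := by
  have h1 : m ∣ a.val := hw.dvd_of_pow_eq_one _ h
  have h2 : a.val < m := ZMod.val_lt a
  have h3 : a.val = 0 := Nat.eq_zero_of_dvd_of_lt h1 h2
  exact (ZMod.val_eq_zero a).mp h3

private theorem L6b_sum {K X : Type} [Field K] [AddCommGroup X] [Fintype X] (ψ : X → K)
    (hψ : ∀ x y, ψ (x + y) = ψ x * ψ y) (a : X) (ha : ψ a ≠ 1) : ∑ x, ψ x = 0 := by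
  have h1 : ∑ x, ψ x = ψ a * ∑ x, ψ x := by
    rw [Finset.mul_sum]
    rw [← Equiv.sum_comp (Equiv.addLeft a) ψ]
    exact Finset.sum_congr rfl (fun x _ => hψ a x)
  have h2 : (ψ a - 1) * ∑ x, ψ x = 0 := by
    rw [sub_mul, one_mul, ← h1, sub_self]
  rcases mul_eq_zero.mp h2 with h3 | h3
  · exact absurd (sub_eq_zero.mp h3) ha
  · exact h3

theorem phi_zero {K : Type} [Field K] {m t : ℕ} [NeZero m] {w : K} (hw : IsPrimitiveRoot w m)
    (hmK : (m : K) ≠ 0) (Λ : AddSubgroup (Fin t → ZMod m)) (c : Fin t → K)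
    (h6 : ∀ l, c l ≠ 0 → (Pi.single l 1 : Fin t → ZMod m) ∉ Λ) (z₀ : Fin t → ZMod m) (v : K)
    (h : ∀ z : Fin t → ZMod m, (∀ χ ∈ Λ, ∑ l, χ l * z l = ∑ l, χ l * z₀ l) → Phi w c z = v) :
    v = 0 := by
  classical
  have hwm : w ^ m = 1 := hw.pow_eq_one
  set W : ZMod m → K := fun a => w ^ a.val with hWdef
  have hWadd : ∀ a b, W (a + b) = W a * W b := fun a b => L6b_add hwm a b
  have hW1 : ∀ a, W a = 1 → a = 0 := fun a ha => L6b_one hw a ha
  have hW0 : W 0 = 1 := by simp [hWdef]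
  let dot : (Fin t → ZMod m) → (Fin t → ZMod m) → ZMod m := fun χ z => ∑ l, χ l * z l
  have dot_add : ∀ χ z z', dot χ (z + z') = dot χ z + dot χ z' := by
    intro χ z z'
    show ∑ l, χ l * (z l + z' l) = ∑ l, χ l * z l + ∑ l, χ l * z' l
    rw [← Finset.sum_add_distrib]
    exact Finset.sum_congr rfl (fun l _ => mul_add _ _ _)
  have add_dot : ∀ χ χ' z, dot (χ + χ') z = dot χ z + dot χ' z := by
    intro χ χ' z
    show ∑ l, (χ l + χ' l) * z l = ∑ l, χ l * z l + ∑ l, χ' l * z l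
    rw [← Finset.sum_add_distrib]
    exact Finset.sum_congr rfl (fun l _ => add_mul _ _ _)
  have hmt : ((m ^ t : ℕ) : K) ≠ 0 := by
    push_cast
    exact pow_ne_zero _ hmK
  have hcardX : Nat.card (Fin t → ZMod m) = m ^ t := by
    rw [Nat.card_eq_fintype_card, Fintype.card_fun, ZMod.card, Fintype.card_fin]
  have hsub0 : ∀ V : AddSubgroup (Fin t → ZMod m), ((Nat.card V : ℕ) : K) ≠ 0 := by
    intro V h0
    have hd : Nat.card V ∣ m ^ t := by
      rw [← hcardX]; exact AddSubgroup.card_addSubgroup_dvd_card V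
    obtain ⟨k, hk⟩ := hd
    apply hmt
    rw [hk]; push_cast; rw [h0, zero_mul]
  let Z : AddSubgroup (Fin t → ZMod m) :=
    { carrier := {z | ∀ χ ∈ Λ, dot χ z = 0}
      zero_mem' := by
        intro χ _
        show ∑ l, χ l * (0 : ZMod m) = 0
        simp
      add_mem' := by
        intro a b ha hb χ hχ
        rw [dot_add, ha χ hχ, hb χ hχ, add_zero]
      neg_mem' := by
        intro a ha χ hχ
        have h1 := dot_add χ a (-a)
        rw [add_neg_cancel, ha χ hχ, zero_add] at h1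
        rw [← h1]
        show ∑ l, χ l * (0 : ZMod m) = 0
        simp }
  have hZmem : ∀ z, z ∈ Z ↔ ∀ χ ∈ Λ, dot χ z = 0 := fun z => Iff.rfl
  -- J z = sum over Λ
  let J : (Fin t → ZMod m) → K := fun z => ∑ χ : Λ, W (dot χ.1 z)
  have hJin : ∀ z ∈ Z, J z = (Nat.card Λ : K) := by
    intro z hz
    show ∑ χ : Λ, W (dot χ.1 z) = _
    have : ∀ χ : Λ, W (dot χ.1 z) = 1 := by
      intro χ
      rw [hz χ.1 χ.2, hW0]
    rw [Finset.sum_congr rfl (fun χ _ => this χ), Finset.sum_const, Finset.card_univ,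
      Nat.card_eq_fintype_card, nsmul_eq_mul, mul_one]
  have hJout : ∀ z, z ∉ Z → J z = 0 := by
    intro z hz
    rw [hZmem] at hz
    push Not at hz
    obtain ⟨χ0, hχ0, hne⟩ := hz
    refine L6b_sum (fun χ : Λ => W (dot χ.1 z)) ?_ ⟨χ0, hχ0⟩ ?_
    · intro x y
      show W (dot (x.1 + y.1) z) = _
      rw [add_dot, hWadd]
    · intro h1
      exact hne (hW1 _ h1)
  have hL : ∑ z, J z * Phi w c (z₀ + z) = (Nat.card Λ : K) * (Nat.card Z : K) * v := by
    have h1 : ∀ z, J z * Phi w c (z₀ + z) = if z ∈ Z then (Nat.card Λ : K) * v else 0 := by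
      intro z
      by_cases hz : z ∈ Z
      · rw [if_pos hz, hJin z hz, h (z₀ + z)]
        intro χ hχ
        have h2 := dot_add χ z₀ z
        rw [hz χ hχ, add_zero] at h2
        exact h2
      · rw [if_neg hz, hJout z hz, zero_mul]
    rw [Finset.sum_congr rfl (fun z _ => h1 z), ← Finset.sum_filter, Finset.sum_const, nsmul_eq_mul]
    have h2 : ((univ.filter (fun z => z ∈ Z)).card) = Nat.card Z := by
      rw [Nat.card_eq_fintype_card, Fintype.card_subtype]
    rw [h2]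
    ring
  have hR : ∑ z, J z * Phi w c (z₀ + z) = 0 := by
    have h1 : ∀ z, J z * Phi w c (z₀ + z)
        = ∑ l, ∑ χ : Λ, c l * W (z₀ l) * W (dot (χ.1 + Pi.single l 1) z) := by
      intro z
      show (∑ χ : Λ, W (dot χ.1 z)) * (∑ l, c l * W ((z₀ + z) l)) = _
      rw [Finset.mul_sum]
      refine Finset.sum_congr rfl (fun l _ => ?_)
      rw [Finset.sum_mul]
      refine Finset.sum_congr rfl (fun χ _ => ?_)
      have hs : dot (Pi.single l 1) z = z l := by
        show ∑ i, (Pi.single l 1 : Fin t → ZMod m) i * z i = z l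
        rw [Finset.sum_eq_single l]
        · simp
        · intro b _ hb
          simp [Pi.single_eq_of_ne hb]
        · intro h; exact absurd (Finset.mem_univ _) h
      rw [add_dot, hWadd, hs, Pi.add_apply, hWadd]
      ring
    rw [Finset.sum_congr rfl (fun z _ => h1 z), Finset.sum_comm]
    refine Finset.sum_eq_zero (fun l _ => ?_)
    rw [Finset.sum_comm]
    refine Finset.sum_eq_zero (fun χ _ => ?_)
    rw [← Finset.mul_sum]
    by_cases hcl : c l = 0
    · rw [hcl]; ring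
    have hne : χ.1 + Pi.single l 1 ≠ 0 := by
      intro h0
      have h2 : (Pi.single l 1 : Fin t → ZMod m) = -χ.1 := by
        rw [eq_neg_iff_add_eq_zero, add_comm]; exact h0
      exact h6 l hcl (h2 ▸ Λ.neg_mem χ.2)
    obtain ⟨i, hi⟩ := Function.ne_iff.mp hne
    have h3 : ∑ z, W (dot (χ.1 + Pi.single l 1) z) = 0 := by
      refine L6b_sum (fun z => W (dot (χ.1 + Pi.single l 1) z)) ?_ (Pi.single i 1) ?_
      · intro x y
        show W (dot _ (x + y)) = _
        rw [dot_add, hWadd]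
      · intro h1
        have h4 := hW1 _ h1
        apply hi
        have h8 : dot (χ.1 + Pi.single l 1) (Pi.single i 1) = (χ.1 + Pi.single l 1 : Fin t → ZMod m) i := by
          show ∑ j, (χ.1 + Pi.single l 1 : Fin t → ZMod m) j * (Pi.single i 1 : Fin t → ZMod m) j = _
          rw [Finset.sum_eq_single i]
          · simp
          · intro b _ hb
            simp [Pi.single_eq_of_ne hb]
          · intro h; exact absurd (Finset.mem_univ _) h
        rw [← h8, h4]
        rfl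
    rw [h3, mul_zero]
  rw [hR] at hL
  have h5 := mul_eq_zero.mp hL.symm
  rcases h5 with h5 | h5
  · rcases mul_eq_zero.mp h5 with h7 | h7
    · exact absurd h7 (hsub0 Λ)
    · exact absurd h7 (hsub0 Z)
  · exact h5

end Pool.Agent.Ldc
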