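import Pool.Agent.Ldc.L6a
import Pool.Agent.Ldc.L6b
set_option autoImplicit false

/-!
# L6.  The covering argument (assembly of L6a, L6b).

`c₁ = 1/(100 (m^t)^4)`, `c₀ = 1/(2 m^t)`, `X = Fin t → ZMod m`.  `γ (comb χ x) = Σ_l χ l * γ (x l)`.
For `γ ∈ A, i ∈ B` say `good₁(γ,i)` if `‖mean (J i) (comb χ ∘ g i) γ‖ < c₀` for all `χ ∉ Λ₁`;
for each `i` all but `m^t (c₁/c₀²) |A| = 4 (m^t)^3 c₁ |A| = 0.04 m^{-t} |A|` of the `γ ∈ A` are good₁ (h2, Markov, union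
over χ).  `good₂(γ)`: `‖mean B (β₁ · χ) γ‖ < c₀` for all `χ ∈ Λ₁ \ R₂`; all but `0.04 m^{-t} |A|` of the γ ∈ A.
For `γ` good₂, `attain2` (v i χ = γ (β₁ i χ), additive in χ ∈ Λ₁ since `β₁ i χ = comb χ (g i j)` and `m G = 0`):
at least `|B|/(2 m^t)` of the `i ∈ B` satisfy `γ (β₁ i χ) = χ·z₀` on `Λ₁`.  Count pairs `(γ,i)`:
`(1 - 0.04 m^{-t})/(2m^t) > 0.04 m^{-t}`, so some pair `(γ,i)` is good₁ and satisfies `γ(β₁ i χ) = χ·z₀` on `Λ₁`.
For every `z'` with `χ·z' = χ·z₀` on `Λ₁`, `attain` (u j l = γ (g i j l)) gives `j ∈ J i` with `γ ∘ g i j = z'`, so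
`Phi w c z' = φ i γ` (h5).  `phi_zero` with `v = φ i γ`: `v = 0`; and `Phi w c z₀ = v`.
-/
namespace Pool.Agent.Ldc
open Finset

private theorem L6_map_comb {G : Type} [AddCommGroup G] {m t : ℕ} [NeZero m]
    (γ : G →+ ZMod m) (χ : Fin t → ZMod m) (x : Fin t → G) :
    γ (comb χ x) = ∑ l, χ l * γ (x l) := by
  simp [comb, map_sum, map_nsmul, nsmul_eq_mul]

private theorem L6_num (x y L : ℝ) (hL0 : 0 < L)
    (h : x * (1 / (2 * L)) ^ 2 < 1 / (100 * L ^ 4) * y) : x ≤ 1 / (25 * L ^ 2) * y := by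
  have h5 : x = (x * (1 / (2 * L)) ^ 2) * (4 * L ^ 2) := by
    field_simp
    ring
  have h6 : 1 / (100 * L ^ 4) * y * (4 * L ^ 2) = 1 / (25 * L ^ 2) * y := by
    field_simp
    ring
  rw [h5, ← h6]
  exact mul_le_mul_of_nonneg_right h.le (by positivity)

open Classical in
private theorem L6_markov {α ξ : Type} [Fintype ξ] (A : Finset α) (P : ξ → Prop) (h : ξ → α → ℝ)
    (h0 : ∀ χ a, 0 ≤ h χ a) (L : ℝ) (hL : 1 ≤ L) (hcard : (Fintype.card ξ : ℝ) ≤ L)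
    (hb : ∀ χ, P χ → ∑ a ∈ A, h χ a ^ 2 < 1 / (100 * L ^ 4) * (A.card : ℝ)) :
    ((A.filter (fun a => ¬ ∀ χ, P χ → h χ a < 1 / (2 * L))).card : ℝ) ≤ 1 / (25 * L) * A.card := by
  have hL0 : 0 < L := by linarith
  have h1 : A.filter (fun a => ¬ ∀ χ, P χ → h χ a < 1 / (2 * L)) ⊆
      (univ.filter P).biUnion (fun χ => A.filter (fun a => 1 / (2 * L) ≤ h χ a)) := by
    intro a ha
    obtain ⟨haA, hna⟩ := mem_filter.1 ha
    push Not at hna
    obtain ⟨χ, hχ, hle⟩ := hna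
    exact mem_biUnion.2 ⟨χ, mem_filter.2 ⟨mem_univ _, hχ⟩, mem_filter.2 ⟨haA, hle⟩⟩
  have h2 : ∀ χ, P χ → ((A.filter (fun a => 1 / (2 * L) ≤ h χ a)).card : ℝ)
      ≤ 1 / (25 * L ^ 2) * A.card := by
    intro χ hχ
    have h3 : ((A.filter (fun a => 1 / (2 * L) ≤ h χ a)).card : ℝ) * (1 / (2 * L)) ^ 2
        ≤ ∑ a ∈ A, h χ a ^ 2 := by
      calc ((A.filter (fun a => 1 / (2 * L) ≤ h χ a)).card : ℝ) * (1 / (2 * L)) ^ 2
          = ∑ a ∈ A.filter (fun a => 1 / (2 * L) ≤ h χ a), (1 / (2 * L)) ^ 2 := by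
            rw [Finset.sum_const, nsmul_eq_mul]
        _ ≤ ∑ a ∈ A.filter (fun a => 1 / (2 * L) ≤ h χ a), h χ a ^ 2 :=
            Finset.sum_le_sum (fun a ha => pow_le_pow_left₀ (by positivity) (mem_filter.1 ha).2 2)
        _ ≤ ∑ a ∈ A, h χ a ^ 2 :=
            Finset.sum_le_sum_of_subset_of_nonneg (filter_subset _ _) (fun _ _ _ => sq_nonneg _)
    have h4 := lt_of_le_of_lt h3 (hb χ hχ)
    exact L6_num _ _ L hL0 h4
  calc ((A.filter (fun a => ¬ ∀ χ, P χ → h χ a < 1 / (2 * L))).card : ℝ)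
      ≤ (((univ.filter P).biUnion (fun χ => A.filter (fun a => 1 / (2 * L) ≤ h χ a))).card : ℝ) := by
        exact_mod_cast card_le_card h1
    _ ≤ ∑ χ ∈ univ.filter P, ((A.filter (fun a => 1 / (2 * L) ≤ h χ a)).card : ℝ) := by
        exact_mod_cast card_biUnion_le
    _ ≤ ∑ χ ∈ univ.filter P, 1 / (25 * L ^ 2) * (A.card : ℝ) :=
        Finset.sum_le_sum (fun χ hχ => h2 χ (mem_filter.1 hχ).2)
    _ = ((univ.filter P).card : ℝ) * (1 / (25 * L ^ 2) * (A.card : ℝ)) := by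
        rw [Finset.sum_const, nsmul_eq_mul]
    _ ≤ L * (1 / (25 * L ^ 2) * (A.card : ℝ)) := by
        apply mul_le_mul_of_nonneg_right _ (by positivity)
        refine le_trans ?_ hcard
        exact_mod_cast (card_le_univ _)
    _ = 1 / (25 * L) * A.card := by
        field_simp

theorem cover {K : Type} [Field K] {m t : ℕ} [NeZero m] {w : K} (hw : IsPrimitiveRoot w m)
    (hmK : (m : K) ≠ 0) {G : Type} [AddCommGroup G] [Fintype G] (hG : ∀ g : G, m • g = 0)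
    {τ τ' : Type} (A : Finset (G →+ ZMod m)) (hA : A.Nonempty)
    (B : Finset τ) (hB : B.Nonempty) (J : τ → Finset τ') (hJ : ∀ i ∈ B, (J i).Nonempty)
    (g : τ → τ' → Fin t → G) (Λ₁ : AddSubgroup (Fin t → ZMod m)) (R₂ : Finset (Fin t → ZMod m))
    (h0 : (0 : Fin t → ZMod m) ∈ R₂)
    (β₁ : τ → (Fin t → ZMod m) → G) (β₂ : (Fin t → ZMod m) → G)
    (h1 : ∀ i ∈ B, ∀ χ ∈ Λ₁, ∀ j ∈ J i, comb χ (g i j) = β₁ i χ)
    (h2 : ∀ i ∈ B, ∀ χ ∉ Λ₁, ∑ γ ∈ A, ‖mean (J i) (fun j => comb χ (g i j)) γ‖ ^ 2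
        < 1 / (100 * ((m : ℝ) ^ t) ^ 4) * (A.card : ℝ))
    (h3 : ∀ χ ∈ R₂, χ ∈ Λ₁ ∧ ∀ i ∈ B, β₁ i χ = β₂ χ)
    (h4 : ∀ χ ∈ Λ₁, χ ∉ R₂ → ∑ γ ∈ A, ‖mean B (fun i => β₁ i χ) γ‖ ^ 2
        < 1 / (100 * ((m : ℝ) ^ t) ^ 4) * (A.card : ℝ))
    (φ : τ → (G →+ ZMod m) → K) (c : Fin t → K)
    (h5 : ∀ γ ∈ A, ∀ i ∈ B, ∀ j ∈ J i, φ i γ = Phi w c (fun l => γ (g i j l)))
    (h6 : ∀ l, c l ≠ 0 → (Pi.single l 1 : Fin t → ZMod m) ∉ Λ₁)
    (z₀ : Fin t → ZMod m) (h7 : ∀ χ ∈ R₂, ∀ γ ∈ A, γ (β₂ χ) = ∑ l, χ l * z₀ l) :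
    Phi w c z₀ = 0 := by
  classical
  have hm0 : 0 < m := Nat.pos_of_ne_zero (NeZero.ne m)
  set L : ℝ := (m : ℝ) ^ t with hL
  have hL1 : 1 ≤ L := one_le_pow₀ (by exact_mod_cast hm0)
  have hL0 : 0 < L := by linarith
  have hcard : (Fintype.card (Fin t → ZMod m) : ℝ) ≤ L := by
    rw [hL]
    simp [ZMod.card]
  have hApos : (0 : ℝ) < A.card := by exact_mod_cast hA.card_pos
  have hBpos : (0 : ℝ) < B.card := by exact_mod_cast hB.card_pos
  -- the two kinds of goodness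
  set good1 : τ → (G →+ ZMod m) → Prop := fun i γ =>
    ∀ χ, χ ∉ Λ₁ → ‖mean (J i) (fun j => comb χ (g i j)) γ‖ < 1 / (2 * L) with hgood1
  set good2 : (G →+ ZMod m) → Prop := fun γ =>
    ∀ χ, (χ ∈ Λ₁ ∧ χ ∉ R₂) → ‖mean B (fun i => β₁ i χ) γ‖ < 1 / (2 * L) with hgood2
  set P : τ → (G →+ ZMod m) → Prop := fun i γ =>
    ∀ χ ∈ Λ₁, γ (β₁ i χ) = ∑ l, χ l * z₀ l with hP
  have hg1 : ∀ i ∈ B, ((A.filter (fun γ => ¬ good1 i γ)).card : ℝ) ≤ 1 / (25 * L) * A.card :=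
    fun i hi => by
      have := L6_markov A (fun χ => χ ∉ Λ₁)
        (fun χ γ => ‖mean (J i) (fun j => comb χ (g i j)) γ‖) (fun _ _ => norm_nonneg _) L hL1 hcard
        (fun χ hχ => h2 i hi χ hχ)
      convert this
  have hg2 : ((A.filter (fun γ => ¬ good2 γ)).card : ℝ) ≤ 1 / (25 * L) * A.card := by
    have := L6_markov A (fun χ => χ ∈ Λ₁ ∧ χ ∉ R₂)
      (fun χ γ => ‖mean B (fun i => β₁ i χ) γ‖) (fun _ _ => norm_nonneg _) L hL1 hcard
      (fun χ hχ => h4 χ hχ.1 hχ.2)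
    convert this
  have hat : ∀ γ ∈ A, good2 γ →
      (B.card : ℝ) / (2 * L) ≤ ((B.filter (fun i => P i γ)).card : ℝ) := by
    intro γ hγ hγ2
    have := attain2 B hB Λ₁ R₂ (fun χ hχ => (h3 χ hχ).1) h0 (fun i χ => γ (β₁ i χ)) ?_ z₀ ?_ ?_
    · exact this
    · intro i hi χ hχ χ' hχ'
      obtain ⟨j, hj⟩ := hJ i hi
      rw [← h1 i hi χ hχ j hj, ← h1 i hi χ' hχ' j hj, ← h1 i hi _ (Λ₁.add_mem hχ hχ') j hj,
        L6_map_comb, L6_map_comb, L6_map_comb, ← Finset.sum_add_distrib]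
      apply Finset.sum_congr rfl
      intro l _
      rw [Pi.add_apply, add_mul]
    · intro χ hχ i hi
      rw [(h3 χ hχ).2 i hi]
      exact h7 χ hχ γ hγ
    · intro χ hχ hχR
      exact hγ2 χ ⟨hχ, hχR⟩
  -- a good pair
  have hpair : ∃ γ ∈ A, ∃ i ∈ B, good1 i γ ∧ P i γ := by
    by_contra hcon
    push Not at hcon
    have hsub : ∀ i ∈ B, ∀ γ ∈ A, P i γ → ¬ good1 i γ := fun i hi γ hγ hPγ hg => hcon γ hγ i hi hg hPγ
    have hup : ∑ γ ∈ A, ((B.filter (fun i => P i γ)).card : ℝ) ≤ B.card * (1 / (25 * L) * A.card) := by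
      calc ∑ γ ∈ A, ((B.filter (fun i => P i γ)).card : ℝ)
          = ∑ γ ∈ A, ∑ i ∈ B, (if P i γ then (1 : ℝ) else 0) := by
            apply Finset.sum_congr rfl
            intro γ _
            rw [Finset.sum_boole]
        _ = ∑ i ∈ B, ∑ γ ∈ A, (if P i γ then (1 : ℝ) else 0) := Finset.sum_comm
        _ ≤ ∑ i ∈ B, ((A.filter (fun γ => ¬ good1 i γ)).card : ℝ) := by
            apply Finset.sum_le_sum
            intro i hi
            rw [Finset.sum_boole]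
            have : (A.filter (fun γ => P i γ)) ⊆ A.filter (fun γ => ¬ good1 i γ) := by
              intro γ hγ
              obtain ⟨h8, h9⟩ := mem_filter.1 hγ
              exact mem_filter.2 ⟨h8, hsub i hi γ h8 h9⟩
            exact_mod_cast card_le_card this
        _ ≤ ∑ i ∈ B, 1 / (25 * L) * (A.card : ℝ) := Finset.sum_le_sum hg1
        _ = B.card * (1 / (25 * L) * A.card) := by rw [Finset.sum_const, nsmul_eq_mul]
    have hlow : (24 / 25 * A.card) * ((B.card : ℝ) / (2 * L))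
        ≤ ∑ γ ∈ A, ((B.filter (fun i => P i γ)).card : ℝ) := by
      have h8 : (24 / 25 * A.card : ℝ) ≤ ((A.filter (fun γ => good2 γ)).card : ℝ) := by
        have h9 : ((A.filter (fun γ => good2 γ)).card : ℝ) + ((A.filter (fun γ => ¬ good2 γ)).card : ℝ)
            = A.card := by exact_mod_cast card_filter_add_card_filter_not (s := A) good2
        have h10 : 1 / (25 * L) * (A.card : ℝ) ≤ 1 / 25 * A.card := by
          apply mul_le_mul_of_nonneg_right _ hApos.le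
          apply one_div_le_one_div_of_le (by norm_num)
          linarith
        linarith
      calc (24 / 25 * A.card) * ((B.card : ℝ) / (2 * L))
          ≤ ((A.filter (fun γ => good2 γ)).card : ℝ) * ((B.card : ℝ) / (2 * L)) :=
            mul_le_mul_of_nonneg_right h8 (by positivity)
        _ = ∑ γ ∈ A.filter (fun γ => good2 γ), (B.card : ℝ) / (2 * L) := by
            rw [Finset.sum_const, nsmul_eq_mul]
        _ ≤ ∑ γ ∈ A.filter (fun γ => good2 γ), ((B.filter (fun i => P i γ)).card : ℝ) :=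
            Finset.sum_le_sum (fun γ hγ => hat γ (mem_filter.1 hγ).1 (mem_filter.1 hγ).2)
        _ ≤ ∑ γ ∈ A, ((B.filter (fun i => P i γ)).card : ℝ) :=
            Finset.sum_le_sum_of_subset_of_nonneg (filter_subset _ _) (fun _ _ _ => by positivity)
    have h11 := hlow.trans hup
    have h12 : (24 / 25 * A.card) * ((B.card : ℝ) / (2 * L)) = 12 * (A.card * B.card / (25 * L)) := by
      field_simp
      ring
    have h13 : (B.card : ℝ) * (1 / (25 * L) * A.card) = A.card * B.card / (25 * L) := by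
      field_simp
    rw [h12, h13] at h11
    have h14 : 0 < (A.card : ℝ) * B.card / (25 * L) := by positivity
    linarith
  obtain ⟨γ, hγ, i, hi, hg, hPi⟩ := hpair
  have hall : ∀ z : Fin t → ZMod m, (∀ χ ∈ Λ₁, ∑ l, χ l * z l = ∑ l, χ l * z₀ l) →
      Phi w c z = φ i γ := by
    intro z hz
    obtain ⟨j, hj, hjz⟩ := attain (J i) (hJ i hi) (fun j l => γ (g i j l)) Λ₁ z
      (fun χ hχ j hj => by
        rw [← L6_map_comb, h1 i hi χ hχ j hj, hPi χ hχ, hz χ hχ])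
      (fun χ hχ => by
        have := hg χ hχ
        simp only [mean, L6_map_comb] at this
        exact this)
    rw [← hjz]
    exact (h5 γ hγ i hi j hj).symm
  have hv := phi_zero hw hmK Λ₁ c h6 z₀ (φ i γ) hall
  rw [hall z₀ (fun _ _ => rfl), hv]

end Pool.Agent.Ldc
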