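import Mathlib
set_option autoImplicit false

/-!
# L6a.  Two Fourier inversion lemmas on `X = Fin t → ZMod m` (`e = ZMod.stdAddChar`).

`attain`: `#{j ∈ J : u j = z}/|J| = m^{-t} Σ_χ e(-χ·z) mean_j e(χ·u_j)` (orthogonality
`Σ_χ e(χ·y) = m^t` or `0`); the `χ ∈ Λ` contribute `1` each (at least `χ = 0`), the others less than
`1/(2m^t)` each in absolute value: the sum has real part `≥ 1 - m^t/(2m^t) > 0`.
`attain2`: for `i ∈ B` the map `χ ↦ v i χ - χ·z` is additive on `Λ`, so `Σ_{χ∈Λ} e(v i χ - χ·z) = |Λ|` if it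
vanishes on `Λ`, else `0`.  So `#{i : …}/|B| = |Λ|^{-1} Σ_{χ∈Λ} e(-χ·z) mean_i e(v i χ)
≥ |Λ|^{-1} (|R| - (|Λ|-|R|)/(2m^t)) ≥ 1/|Λ| - 1/(2 m^t) ≥ 1/(2m^t)`.
-/
namespace Pool.Agent.Ldc
open Finset

private lemma L6a_orth {m t : ℕ} [NeZero m] (y : Fin t → ZMod m) (hy : y ≠ 0) :
    ∑ χ : Fin t → ZMod m, (ZMod.stdAddChar (∑ l, χ l * y l) : ℂ) = 0 := by
  classical
  set φ : (Fin t → ZMod m) →+ ZMod m := AddMonoidHom.mk' (fun χ => ∑ l, χ l * y l) (by
    intro a b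
    rw [← Finset.sum_add_distrib]
    apply Finset.sum_congr rfl
    intro l _
    rw [Pi.add_apply, add_mul]) with hφ
  set ψ : AddChar (Fin t → ZMod m) ℂ := (ZMod.stdAddChar (N := m)).compAddMonoidHom φ with hψ
  have h1 : ∑ χ : Fin t → ZMod m, (ZMod.stdAddChar (∑ l, χ l * y l) : ℂ) = ∑ χ, ψ χ := rfl
  rw [h1, AddChar.sum_eq_ite, if_neg]
  intro h
  obtain ⟨l, hl⟩ := Function.ne_iff.1 hy
  have h2 : ψ (Pi.single l 1) = 1 := by rw [h]; rfl
  have h3 : ψ (Pi.single l 1) = (ZMod.stdAddChar (y l) : ℂ) := by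
    have h4 : φ (Pi.single l 1) = y l := by
      simp only [hφ, AddMonoidHom.mk'_apply]
      rw [Finset.sum_eq_single l]
      · simp
      · intro b _ hb
        simp [Pi.single_eq_of_ne hb]
      · intro h; exact absurd (mem_univ _) h
    rw [← h4]
    rfl
  rw [h3] at h2
  apply hl
  have h5 : (ZMod.stdAddChar (y l) : ℂ) = ZMod.stdAddChar (0 : ZMod m) := by
    rw [AddChar.map_zero_eq_one]; exact h2
  exact ZMod.injective_stdAddChar h5

theorem attain {m t : ℕ} [NeZero m] {τ : Type} (J : Finset τ) (hJ : J.Nonempty)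
    (u : τ → Fin t → ZMod m) (Λ : AddSubgroup (Fin t → ZMod m)) (z : Fin t → ZMod m)
    (hΛ : ∀ χ ∈ Λ, ∀ j ∈ J, ∑ l, χ l * u j l = ∑ l, χ l * z l)
    (hs : ∀ χ ∉ Λ, ‖(∑ j ∈ J, ZMod.stdAddChar (∑ l, χ l * u j l) : ℂ) / (J.card : ℂ)‖
      < 1 / (2 * (m : ℝ) ^ t)) :
    ∃ j ∈ J, u j = z := by
  classical
  by_contra hcon
  push Not at hcon
  have hm : (0 : ℝ) < (m : ℝ) := by exact_mod_cast Nat.pos_of_ne_zero (NeZero.ne m)
  have hJc : (J.card : ℂ) ≠ 0 := by exact_mod_cast hJ.card_pos.ne'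
  set F : (Fin t → ZMod m) → ℂ := fun χ =>
    ZMod.stdAddChar (-(∑ l, χ l * z l)) * ((∑ j ∈ J, ZMod.stdAddChar (∑ l, χ l * u j l) : ℂ) / (J.card : ℂ))
    with hF
  have h0 : ∑ χ, F χ = 0 := by
    have h1 : ∀ χ, F χ = (∑ j ∈ J, (ZMod.stdAddChar (∑ l, χ l * (u j - z) l) : ℂ)) / (J.card : ℂ) := by
      intro χ
      simp only [hF]
      rw [← mul_div_assoc, Finset.mul_sum]
      congr 1
      apply Finset.sum_congr rfl
      intro j _
      rw [← AddChar.map_add_eq_mul]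
      congr 1
      rw [neg_add_eq_sub, ← Finset.sum_sub_distrib]
      apply Finset.sum_congr rfl
      intro l _
      rw [Pi.sub_apply, mul_sub]
    simp only [h1]
    rw [← Finset.sum_div, Finset.sum_comm, Finset.sum_eq_zero, zero_div]
    intro j hj
    exact L6a_orth _ (sub_ne_zero.2 (hcon j hj))
  rw [← Finset.sum_filter_add_sum_filter_not univ (fun χ => χ ∈ Λ)] at h0
  have h2 : ∑ χ ∈ univ.filter (fun χ => χ ∈ Λ), F χ
      = ((univ.filter (fun χ : Fin t → ZMod m => χ ∈ Λ)).card : ℂ) := by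
    rw [Finset.card_eq_sum_ones, Nat.cast_sum]
    apply Finset.sum_congr rfl
    intro χ hχ
    have hχ' := (Finset.mem_filter.1 hχ).2
    simp only [hF]
    have h3 : (∑ j ∈ J, ZMod.stdAddChar (∑ l, χ l * u j l) : ℂ)
        = (J.card : ℂ) * ZMod.stdAddChar (∑ l, χ l * z l) := by
      rw [Finset.sum_congr rfl (fun j hj => by rw [hΛ χ hχ' j hj]), Finset.sum_const, nsmul_eq_mul]
    rw [h3, mul_div_cancel_left₀ _ hJc, ← AddChar.map_add_eq_mul, neg_add_cancel,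
      AddChar.map_zero_eq_one]
    simp
  have h4 : ‖∑ χ ∈ univ.filter (fun χ => ¬ χ ∈ Λ), F χ‖ ≤ 1 / 2 := by
    refine (norm_sum_le _ _).trans ?_
    calc ∑ χ ∈ univ.filter (fun χ => ¬ χ ∈ Λ), ‖F χ‖
        ≤ ∑ χ ∈ univ.filter (fun χ : Fin t → ZMod m => ¬ χ ∈ Λ), 1 / (2 * (m : ℝ) ^ t) := by
          apply Finset.sum_le_sum
          intro χ hχ
          have hχ' := (Finset.mem_filter.1 hχ).2
          simp only [hF]
          rw [norm_mul, AddChar.norm_apply, one_mul]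
          exact (hs χ hχ').le
      _ ≤ ∑ χ : Fin t → ZMod m, 1 / (2 * (m : ℝ) ^ t) :=
          Finset.sum_le_sum_of_subset_of_nonneg (Finset.subset_univ _) (fun _ _ _ => by positivity)
      _ = 1 / 2 := by
          rw [Finset.sum_const, nsmul_eq_mul, Finset.card_univ, Fintype.card_fun, ZMod.card,
            Fintype.card_fin]
          push_cast
          field_simp
  have h5 : (1 : ℝ) ≤ ((univ.filter (fun χ : Fin t → ZMod m => χ ∈ Λ)).card : ℝ) := by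
    have : 0 < (univ.filter (fun χ : Fin t → ZMod m => χ ∈ Λ)).card :=
      Finset.card_pos.2 ⟨0, Finset.mem_filter.2 ⟨mem_univ _, Λ.zero_mem⟩⟩
    exact_mod_cast this
  have h6 : ((univ.filter (fun χ : Fin t → ZMod m => χ ∈ Λ)).card : ℂ)
      = - ∑ χ ∈ univ.filter (fun χ => ¬ χ ∈ Λ), F χ := by
    rw [← h2]
    exact eq_neg_of_add_eq_zero_left h0
  have h7 : ((univ.filter (fun χ : Fin t → ZMod m => χ ∈ Λ)).card : ℝ) ≤ 1 / 2 := by
    have h8 : ((univ.filter (fun χ : Fin t → ZMod m => χ ∈ Λ)).card : ℝ)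
        = ‖((univ.filter (fun χ : Fin t → ZMod m => χ ∈ Λ)).card : ℂ)‖ := by
      rw [Complex.norm_natCast]
    rw [h8, h6, norm_neg]
    exact h4
  linarith

open Classical in
theorem attain2 {m t : ℕ} [NeZero m] {τ : Type} (B : Finset τ) (hB : B.Nonempty)
    (Λ : AddSubgroup (Fin t → ZMod m)) (R : Finset (Fin t → ZMod m)) (hR : ∀ χ ∈ R, χ ∈ Λ)
    (h0 : (0 : Fin t → ZMod m) ∈ R) (v : τ → (Fin t → ZMod m) → ZMod m)
    (hadd : ∀ i ∈ B, ∀ χ ∈ Λ, ∀ χ' ∈ Λ, v i (χ + χ') = v i χ + v i χ')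
    (z : Fin t → ZMod m) (hz : ∀ χ ∈ R, ∀ i ∈ B, v i χ = ∑ l, χ l * z l)
    (hs : ∀ χ ∈ Λ, χ ∉ R → ‖(∑ i ∈ B, ZMod.stdAddChar (v i χ) : ℂ) / (B.card : ℂ)‖
      < 1 / (2 * (m : ℝ) ^ t)) :
    (B.card : ℝ) / (2 * (m : ℝ) ^ t)
      ≤ ((B.filter (fun i => ∀ χ ∈ Λ, v i χ = ∑ l, χ l * z l)).card : ℝ) := by
  have hm : (0 : ℝ) < (m : ℝ) := by exact_mod_cast Nat.pos_of_ne_zero (NeZero.ne m)
  have hmt : (0 : ℝ) < (m : ℝ) ^ t := by positivity
  have hBc : (0 : ℝ) < (B.card : ℝ) := by exact_mod_cast hB.card_pos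
  set P : τ → Prop := fun i => ∀ χ ∈ Λ, v i χ = ∑ l, χ l * z l with hP
  set F : τ → (Fin t → ZMod m) → ℂ := fun i χ => ZMod.stdAddChar (v i χ - ∑ l, χ l * z l) with hF
  -- inner sum
  have h1 : ∀ i ∈ B, ∑ χ : Λ, F i χ = if P i then (Fintype.card Λ : ℂ) else 0 := by
    intro i hi
    set φ : Λ →+ ZMod m := AddMonoidHom.mk' (fun χ : Λ => v i χ - ∑ l, (χ : Fin t → ZMod m) l * z l) (by
      intro a b
      have e1 : v i ((a + b : Λ) : Fin t → ZMod m) = v i a + v i b := by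
        rw [AddSubgroup.coe_add]
        exact hadd i hi a a.2 b b.2
      have e2 : ∑ l, ((a + b : Λ) : Fin t → ZMod m) l * z l
          = ∑ l, (a : Fin t → ZMod m) l * z l + ∑ l, (b : Fin t → ZMod m) l * z l := by
        rw [← Finset.sum_add_distrib]
        apply Finset.sum_congr rfl
        intro l _
        rw [AddSubgroup.coe_add, Pi.add_apply, add_mul]
      rw [e1, e2]
      ring) with hφ
    set ψ : AddChar Λ ℂ := (ZMod.stdAddChar (N := m)).compAddMonoidHom φ with hψ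
    have e3 : ∑ χ : Λ, F i χ = ∑ χ : Λ, ψ χ := rfl
    rw [e3, AddChar.sum_eq_ite]
    have e4 : ψ = 0 ↔ P i := by
      constructor
      · intro h χ hχ
        have h3 : ψ ⟨χ, hχ⟩ = 1 := by rw [h]; rfl
        have h4 : (ZMod.stdAddChar (v i χ - ∑ l, χ l * z l) : ℂ) = ZMod.stdAddChar (0 : ZMod m) := by
          rw [AddChar.map_zero_eq_one]
          exact h3
        exact sub_eq_zero.1 (ZMod.injective_stdAddChar h4)
      · intro h
        apply DFunLike.ext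
        intro χ
        have h3 : ψ χ = (ZMod.stdAddChar (v i χ - ∑ l, (χ : Fin t → ZMod m) l * z l) : ℂ) := rfl
        rw [h3, h χ χ.2, sub_self, AddChar.map_zero_eq_one]
        rfl
    by_cases h : ψ = 0
    · rw [if_pos h, if_pos (e4.1 h)]
    · rw [if_neg h, if_neg (fun h' => h (e4.2 h'))]
  set N : ℕ := (B.filter P).card with hN
  have h2 : (N : ℂ) * (Fintype.card Λ : ℂ) = ∑ χ : Λ, ∑ i ∈ B, F i χ := by
    rw [Finset.sum_comm, Finset.sum_congr rfl h1, ← Finset.sum_filter, Finset.sum_const, nsmul_eq_mul]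
  have hG : ∀ χ : Λ, ∑ i ∈ B, F i χ = ZMod.stdAddChar (-(∑ l, (χ : Fin t → ZMod m) l * z l))
      * ∑ i ∈ B, (ZMod.stdAddChar (v i χ) : ℂ) := by
    intro χ
    rw [Finset.mul_sum]
    apply Finset.sum_congr rfl
    intro i _
    rw [← AddChar.map_add_eq_mul]
    simp only [hF]
    congr 1
    ring
  rw [← Finset.sum_filter_add_sum_filter_not univ (fun χ : Λ => (χ : Fin t → ZMod m) ∈ R)] at h2
  set NR : ℕ := (univ.filter (fun χ : Λ => (χ : Fin t → ZMod m) ∈ R)).card with hNR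
  have h3 : ∑ χ ∈ univ.filter (fun χ : Λ => (χ : Fin t → ZMod m) ∈ R), ∑ i ∈ B, F i χ
      = (NR : ℂ) * (B.card : ℂ) := by
    rw [hNR, ← nsmul_eq_mul, ← Finset.sum_const]
    apply Finset.sum_congr rfl
    intro χ hχ
    have hχ' := (Finset.mem_filter.1 hχ).2
    rw [Finset.card_eq_sum_ones, Nat.cast_sum]
    apply Finset.sum_congr rfl
    intro i hi
    simp only [hF]
    rw [hz χ hχ' i hi, sub_self, AddChar.map_zero_eq_one]
    simp
  have h4 : ‖∑ χ ∈ univ.filter (fun χ : Λ => ¬ (χ : Fin t → ZMod m) ∈ R), ∑ i ∈ B, F i χ‖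
      ≤ (Fintype.card Λ : ℝ) * ((B.card : ℝ) / (2 * (m : ℝ) ^ t)) := by
    refine (norm_sum_le _ _).trans ?_
    calc ∑ χ ∈ univ.filter (fun χ : Λ => ¬ (χ : Fin t → ZMod m) ∈ R), ‖∑ i ∈ B, F i χ‖
        ≤ ∑ χ ∈ univ.filter (fun χ : Λ => ¬ (χ : Fin t → ZMod m) ∈ R), (B.card : ℝ) / (2 * (m : ℝ) ^ t) := by
          apply Finset.sum_le_sum
          intro χ hχ
          have hχ' := (Finset.mem_filter.1 hχ).2
          rw [hG χ, norm_mul, AddChar.norm_apply, one_mul]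
          have h5 := (hs χ χ.2 hχ').le
          rw [norm_div, Complex.norm_natCast, div_le_iff₀ hBc] at h5
          refine h5.trans (le_of_eq ?_)
          ring
      _ ≤ ∑ χ : Λ, (B.card : ℝ) / (2 * (m : ℝ) ^ t) :=
          Finset.sum_le_sum_of_subset_of_nonneg (Finset.subset_univ _) (fun _ _ _ => by positivity)
      _ = (Fintype.card Λ : ℝ) * ((B.card : ℝ) / (2 * (m : ℝ) ^ t)) := by
          rw [Finset.sum_const, nsmul_eq_mul, Finset.card_univ]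
  rw [h3] at h2
  have hNR1 : (1 : ℝ) ≤ (NR : ℝ) := by
    have : 0 < NR := Finset.card_pos.2 ⟨⟨0, Λ.zero_mem⟩, Finset.mem_filter.2 ⟨mem_univ _, h0⟩⟩
    exact_mod_cast this
  have hΛc : (Fintype.card Λ : ℝ) ≤ (m : ℝ) ^ t := by
    have e1 : Fintype.card Λ ≤ Fintype.card (Fin t → ZMod m) :=
      Fintype.card_le_of_injective _ Subtype.val_injective
    rw [Fintype.card_fun, ZMod.card, Fintype.card_fin] at e1
    exact_mod_cast e1
  have hΛ1 : (1 : ℝ) ≤ (Fintype.card Λ : ℝ) := by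
    have : 0 < Fintype.card Λ := Fintype.card_pos
    exact_mod_cast this
  have h6 : (NR : ℝ) * (B.card : ℝ) ≤ (N : ℝ) * (Fintype.card Λ : ℝ)
      + (Fintype.card Λ : ℝ) * ((B.card : ℝ) / (2 * (m : ℝ) ^ t)) := by
    have e1 : ((NR : ℂ) * (B.card : ℂ)) = (N : ℂ) * (Fintype.card Λ : ℂ)
        - ∑ χ ∈ univ.filter (fun χ : Λ => ¬ (χ : Fin t → ZMod m) ∈ R), ∑ i ∈ B, F i χ := by
      rw [h2]; ring
    have e2 : ‖(NR : ℂ) * (B.card : ℂ)‖ = (NR : ℝ) * (B.card : ℝ) := by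
      rw [norm_mul, Complex.norm_natCast, Complex.norm_natCast]
    rw [← e2, e1]
    refine (norm_sub_le _ _).trans (add_le_add (le_of_eq ?_) h4)
    rw [norm_mul, Complex.norm_natCast, Complex.norm_natCast]
  have h7 : (Fintype.card Λ : ℝ) * ((B.card : ℝ) / (2 * (m : ℝ) ^ t)) ≤ (B.card : ℝ) / 2 := by
    rw [← mul_div_assoc, div_le_div_iff₀ (by positivity) (by norm_num)]
    nlinarith [mul_le_mul_of_nonneg_right hΛc hBc.le]
  have h8 : (B.card : ℝ) ≤ (NR : ℝ) * (B.card : ℝ) := le_mul_of_one_le_left hBc.le hNR1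
  have h9 : (B.card : ℝ) / 2 ≤ (N : ℝ) * (Fintype.card Λ : ℝ) := by linarith
  have h10 : (N : ℝ) * (Fintype.card Λ : ℝ) ≤ (N : ℝ) * (m : ℝ) ^ t :=
    mul_le_mul_of_nonneg_left hΛc (Nat.cast_nonneg _)
  rw [div_le_iff₀ (by positivity)]
  nlinarith [h9, h10]

end Pool.Agent.Ldc
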