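import Pool.Agent.Ldc.L1
import Pool.Agent.Ldc.L4
set_option autoImplicit false

/-!
# L7a.  Level 1: one recoverable functional.

`Rec` gives `N, c, g`.  Pigeonhole: a vector `c⁰ : Fin t → K` is taken by at least `N/|K|^t` of the `c j`; let
`J⁰` be these `j` (as a finset of ℕ, `g` extended to ℕ by `0`).  `selection` with `Λ = univ`, `b χ j = comb χ (g j)`,
constant `θ = c₁/2 * n^{-ζ}`: `J ⊆ J⁰`, `|J| ≥ θ^{m^t} |J⁰|` and `R` = the set of χ with `comb χ ∘ g` constant on `J`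
(both directions are in `selection`), a subgroup (`comb` is additive in χ as `m G = 0`).  For `χ ∉ R` use `bias`
with `M = n^ζ`.  If `c⁰ l ≠ 0` and `single l 1 ∈ R` then `g j l` is constant on `J` (`m ≥ 2`), so by the smoothness
`|J| n ≤ ρ N`, while `|J| ≥ θ^{m^t} N/|K|^t`; contradiction with `hnum`.
-/
namespace Pool.Agent.Ldc
open Finset

private theorem L7a_mod_smul {G : Type} [AddCommGroup G] {m : ℕ} (hG : ∀ g : G, m • g = 0)
    (n : ℕ) (x : G) : (n % m) • x = n • x := by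
  conv_rhs => rw [← Nat.mod_add_div n m]
  rw [add_smul, mul_comm m, mul_smul, hG, smul_zero, add_zero]

private theorem L7a_val_add {G : Type} [AddCommGroup G] {m : ℕ} [NeZero m]
    (hG : ∀ g : G, m • g = 0) (a b : ZMod m) (x : G) :
    (a + b).val • x = a.val • x + b.val • x := by
  rw [ZMod.val_add, L7a_mod_smul hG, add_smul]

private theorem L7a_comb_add {G : Type} [AddCommGroup G] {m t : ℕ} [NeZero m]
    (hG : ∀ g : G, m • g = 0) (χ χ' : Fin t → ZMod m) (x : Fin t → G) :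
    comb (χ + χ') x = comb χ x + comb χ' x := by
  unfold comb
  rw [← Finset.sum_add_distrib]
  exact Finset.sum_congr rfl fun l _ => L7a_val_add hG _ _ _

private theorem L7a_comb_zero {G : Type} [AddCommGroup G] {m t : ℕ} [NeZero m]
    (x : Fin t → G) : comb (0 : Fin t → ZMod m) x = 0 := by
  unfold comb
  exact Finset.sum_eq_zero fun l _ => by simp

private theorem L7a_comb_neg {G : Type} [AddCommGroup G] {m t : ℕ} [NeZero m]
    (hG : ∀ g : G, m • g = 0) (χ : Fin t → ZMod m) (x : Fin t → G) :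
    comb (-χ) x = -comb χ x := by
  have h := L7a_comb_add hG (-χ) χ x
  rw [neg_add_cancel, L7a_comb_zero] at h
  exact eq_neg_of_add_eq_zero_left h.symm

private theorem L7a_comb_single {G : Type} [AddCommGroup G] {m t : ℕ} [NeZero m] (hm : 2 ≤ m)
    (l : Fin t) (x : Fin t → G) :
    comb (Pi.single l 1 : Fin t → ZMod m) x = x l := by
  unfold comb
  rw [Finset.sum_eq_single l]
  · have : Fact (1 < m) := ⟨hm⟩
    rw [Pi.single_eq_same, ZMod.val_one, one_smul]
  · intro b _ hb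
    rw [Pi.single_eq_of_ne hb, ZMod.val_zero, zero_smul]
  · intro h; exact absurd (Finset.mem_univ l) h

open Classical in
theorem level1 {K : Type} [Field K] [Fintype K] {m t : ℕ} [NeZero m] (hm : 2 ≤ m) {w : K}
    {G : Type} [AddCommGroup G] [Fintype G] (hG : ∀ g : G, m • g = 0)
    (S : Finset (G →+ ZMod m)) (ρ η ζ c₁ : ℝ) (hc₁ : 0 < c₁) (hc₁' : c₁ ≤ 1) (hζ : 0 ≤ ζ)
    (hspec : ∀ A ⊆ S, A.Nonempty → (Fintype.card G : ℝ) ^ (-η) * (S.card : ℝ) ≤ A.card →
      ((univ.filter (fun x : G => c₁ / 2 ≤ ‖fhat A x‖)).card : ℝ) ≤ (Fintype.card G : ℝ) ^ ζ)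
    (hnum : ρ * (Fintype.card K : ℝ) ^ t
      < (c₁ / 2 * (Fintype.card G : ℝ) ^ (-ζ)) ^ (m ^ t) * (Fintype.card G : ℝ))
    (f : S → K) (hf : Rec m t w ρ S f) :
    ∃ (c : Fin t → K) (g : ℕ → Fin t → G) (J : Finset ℕ) (Λ : AddSubgroup (Fin t → ZMod m)),
      J.Nonempty ∧ (∀ γ : S, ∀ j ∈ J, f γ = Phi w c (fun l => (γ : G →+ ZMod m) (g j l))) ∧
      (∀ χ ∈ Λ, ∀ j ∈ J, ∀ j' ∈ J, comb χ (g j) = comb χ (g j')) ∧
      (∀ χ ∉ Λ, ∀ A ⊆ S, A.Nonempty → (Fintype.card G : ℝ) ^ (-η) * (S.card : ℝ) ≤ A.card →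
        ∑ γ ∈ A, ‖mean J (fun j => comb χ (g j)) γ‖ ^ 2 < c₁ * (A.card : ℝ)) ∧
      (∀ l, c l ≠ 0 → (Pi.single l 1 : Fin t → ZMod m) ∉ Λ) := by
  obtain ⟨N, hN, c, g, hrep, hsm⟩ := hf
  have hn1 : (1 : ℝ) ≤ (Fintype.card G : ℝ) := by
    exact_mod_cast Fintype.card_pos (α := G)
  have hn0 : (0 : ℝ) < (Fintype.card G : ℝ) := lt_of_lt_of_le one_pos hn1
  have hN0 : (0 : ℝ) < (N : ℝ) := by exact_mod_cast hN
  have hK0 : (0 : ℝ) < (Fintype.card K : ℝ) ^ t := by
    have : 0 < Fintype.card K := Fintype.card_pos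
    positivity
  set θ : ℝ := c₁ / 2 * (Fintype.card G : ℝ) ^ (-ζ) with hθ
  have hpow1 : (Fintype.card G : ℝ) ^ (-ζ) ≤ 1 :=
    Real.rpow_le_one_of_one_le_of_nonpos hn1 (by linarith)
  have hpow0 : 0 < (Fintype.card G : ℝ) ^ (-ζ) := Real.rpow_pos_of_pos hn0 _
  have hθ0 : 0 < θ := by rw [hθ]; positivity
  have hθ1 : θ ≤ 1 := by
    rw [hθ]
    calc c₁ / 2 * (Fintype.card G : ℝ) ^ (-ζ) ≤ c₁ / 2 * 1 :=
          mul_le_mul_of_nonneg_left hpow1 (by positivity)
      _ ≤ 1 := by linarith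
  -- pigeonhole
  obtain ⟨c0, -, hc0⟩ := Finset.exists_le_card_fiber_of_nsmul_le_card_of_maps_to
    (s := (univ : Finset (Fin N))) (t := (univ : Finset (Fin t → K))) (f := c)
    (b := (N : ℝ) / (Fintype.card K : ℝ) ^ t) (fun _ _ => Finset.mem_univ _)
    (by exact ⟨0, Finset.mem_univ _⟩)
    (by
      rw [Finset.card_univ, Finset.card_univ, Fintype.card_fin, Fintype.card_fun, Fintype.card_fin,
        nsmul_eq_mul]
      push_cast
      rw [mul_div_cancel₀ _ hK0.ne'])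
  set F0 : Finset (Fin N) := univ.filter (fun j => c j = c0) with hF0
  set J0 : Finset ℕ := F0.map Fin.valEmbedding with hJ0
  have hJ0card : (J0.card : ℝ) = F0.card := by rw [hJ0, Finset.card_map]
  have hJ0ge : (N : ℝ) / (Fintype.card K : ℝ) ^ t ≤ J0.card := by
    rw [hJ0card]; exact hc0
  have hJ0pos : (0 : ℝ) < J0.card := lt_of_lt_of_le (by positivity) hJ0ge
  have hJ0ne : J0.Nonempty := Finset.card_pos.1 (by exact_mod_cast hJ0pos)
  set gN : ℕ → Fin t → G := fun j => if h : j < N then g ⟨j, h⟩ else 0 with hgN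
  have hgNv : ∀ i : Fin N, gN i.val = g i := by
    intro i; rw [hgN]; simp [i.isLt]
  obtain ⟨J, hJJ0, hJne, R, -, hRrig, hRcard, hRbias⟩ :=
    selection (univ : Finset (Fin t → ZMod m)) J0 hJ0ne (fun χ j => comb χ (gN j))
      (fun _ => θ) (fun _ => hθ0) (fun _ => hθ1)
  have hmemJ : ∀ j ∈ J, ∃ i : Fin N, c i = c0 ∧ i.val = j := by
    intro j hj
    have := hJJ0 hj
    rw [hJ0, Finset.mem_map] at this
    obtain ⟨i, hi, hij⟩ := this
    rw [hF0, Finset.mem_filter] at hi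
    exact ⟨i, hi.2, hij⟩
  let Λ : AddSubgroup (Fin t → ZMod m) :=
    { carrier := {χ | ∀ j ∈ J, ∀ j' ∈ J, comb χ (gN j) = comb χ (gN j')}
      add_mem' := by
        intro a b ha hb j hj j' hj'
        rw [L7a_comb_add hG, L7a_comb_add hG, ha j hj j' hj', hb j hj j' hj']
      zero_mem' := by
        intro j _ j' _
        rw [L7a_comb_zero, L7a_comb_zero]
      neg_mem' := by
        intro a ha j hj j' hj'
        rw [L7a_comb_neg hG, L7a_comb_neg hG, ha j hj j' hj'] }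
  have hΛ : ∀ χ, χ ∈ Λ ↔ ∀ j ∈ J, ∀ j' ∈ J, comb χ (gN j) = comb χ (gN j') := fun χ => Iff.rfl
  refine ⟨c0, gN, J, Λ, hJne, ?_, fun χ hχ => (hΛ χ).1 hχ, ?_, ?_⟩
  · intro γ j hj
    obtain ⟨i, hi, rfl⟩ := hmemJ j hj
    rw [hrep i γ, hi]
    simp only [hgNv]
  · intro χ hχ A hA hAne hAc
    have hχR : χ ∉ R := fun h => hχ ((hΛ χ).2 (hRrig χ h))
    have hb := (hRbias χ (Finset.mem_univ _) hχR).2
    refine bias A hAne J hJne (fun j => comb χ (gN j)) c₁ ((Fintype.card G : ℝ) ^ ζ) hc₁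
      (Real.rpow_pos_of_pos hn0 _) (hspec A hA hAne hAc) ?_
    intro x
    have h1 := hb x
    have h2 : θ = c₁ / (2 * (Fintype.card G : ℝ) ^ ζ) := by
      rw [hθ, Real.rpow_neg hn0.le]
      have : (Fintype.card G : ℝ) ^ ζ ≠ 0 := (Real.rpow_pos_of_pos hn0 _).ne'
      field_simp
    rw [← h2]
    exact h1
  · intro l hl hmem
    rw [hΛ] at hmem
    obtain ⟨j₀, hj₀⟩ := hJne
    have hconst : ∀ j ∈ J, gN j l = gN j₀ l := by
      intro j hj
      have := hmem j hj j₀ hj₀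
      rwa [L7a_comb_single hm, L7a_comb_single hm] at this
    have hsm' := hsm l (gN j₀ l)
    have hle : J.card ≤ (univ.filter (fun j : Fin N => c j l ≠ 0 ∧ g j l = gN j₀ l)).card := by
      have : J ⊆ (univ.filter (fun j : Fin N => c j l ≠ 0 ∧ g j l = gN j₀ l)).map
          Fin.valEmbedding := by
        intro j hj
        obtain ⟨i, hi, hij⟩ := hmemJ j hj
        rw [Finset.mem_map]
        refine ⟨i, ?_, hij⟩
        rw [Finset.mem_filter]
        refine ⟨Finset.mem_univ _, by rw [hi]; exact hl, ?_⟩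
        rw [← hconst j hj, ← hij, hgNv]
      have h2 := Finset.card_le_card this
      rwa [Finset.card_map] at h2
    have hle' : (J.card : ℝ) * (Fintype.card G : ℝ) ≤ ρ * N := by
      refine le_trans ?_ hsm'
      exact mul_le_mul_of_nonneg_right (by exact_mod_cast hle) hn0.le
    have hprod : θ ^ (m ^ t) ≤ ∏ s ∈ range R.card, θ := by
      rw [Finset.prod_const, Finset.card_range]
      refine pow_le_pow_of_le_one hθ0.le hθ1 ?_
      have := Finset.card_le_univ R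
      rwa [Fintype.card_fun, Fintype.card_fin, ZMod.card] at this
    have hJge : θ ^ (m ^ t) * ((N : ℝ) / (Fintype.card K : ℝ) ^ t) ≤ J.card := by
      refine le_trans ?_ hRcard
      exact mul_le_mul hprod hJ0ge (by positivity) (le_trans (by positivity) hprod)
    have h3 : θ ^ (m ^ t) * ((N : ℝ) / (Fintype.card K : ℝ) ^ t) * (Fintype.card G : ℝ)
        ≤ ρ * N := le_trans (mul_le_mul_of_nonneg_right hJge hn0.le) hle'
    have h4 : θ ^ (m ^ t) * (Fintype.card G : ℝ) * N ≤ ρ * (Fintype.card K : ℝ) ^ t * N := by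
      have h5 : θ ^ (m ^ t) * ((N : ℝ) / (Fintype.card K : ℝ) ^ t) * (Fintype.card G : ℝ)
          * (Fintype.card K : ℝ) ^ t = θ ^ (m ^ t) * (Fintype.card G : ℝ) * N := by
        field_simp
      rw [← h5]
      calc _ ≤ ρ * N * (Fintype.card K : ℝ) ^ t := mul_le_mul_of_nonneg_right h3 hK0.le
        _ = _ := by ring
    exact absurd (le_of_mul_le_mul_right h4 hN0) (not_le.2 hnum)

end Pool.Agent.Ldc
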