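import Pool.Agent.Ldc.LDefs
set_option autoImplicit false

/-!
# L7c.  Linear algebra: a basis of recoverable functionals; supports.

`exists_family`: a spanning set of the `|S|`-dimensional space `S → K` contains a basis.
`card_le_of_support`: restriction to `U` is injective on the span of the `f i`, `i ∈ B`.
-/
namespace Pool.Agent.Ldc
open Finset

theorem exists_family {K : Type} [Field K] {m t : ℕ} {w : K} {ρ : ℝ}
    {G : Type} [AddCommGroup G] [Fintype G] (S : Finset (G →+ ZMod m)) (hgood : Good m t w ρ S) :
    ∃ f : S → (S → K), LinearIndependent K f ∧ ∀ i, Rec m t w ρ S (f i) := by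
  obtain ⟨b, hbsub, hbspan, hbli⟩ := exists_linearIndependent K {f : S → K | Rec m t w ρ S f}
  have hspan : Submodule.span K b = ⊤ := by rw [hbspan]; exact hgood
  let B : Module.Basis b K (S → K) := Module.Basis.mk hbli (by
    rw [Subtype.range_coe, hspan])
  have hfin : Finite b := Module.Finite.finite_basis B
  have hcard : Nat.card b = Fintype.card S := by
    rw [← Module.finrank_fintype_fun_eq_card K]
    exact (Module.finrank_eq_nat_card_basis B).symm
  have hequiv : Nonempty (S ≃ b) := by
    have := Fintype.ofFinite b
    rw [Nat.card_eq_fintype_card] at hcard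
    exact ⟨Fintype.equivOfCardEq hcard.symm⟩
  obtain ⟨e⟩ := hequiv
  refine ⟨fun i => (e i).1, ?_, fun i => hbsub (e i).2⟩
  exact hbli.comp e e.injective

theorem card_le_of_support {K σ τ : Type} [Field K] [Fintype σ] (f : τ → σ → K) (B : Finset τ)
    (hf : LinearIndependent K f) (U : Finset σ) (h : ∀ i ∈ B, ∀ γ, γ ∉ U → f i γ = 0) :
    B.card ≤ U.card := by
  have hli : LinearIndependent K (fun i : B => fun γ : U => f i.1 γ.1) := by
    rw [Fintype.linearIndependent_iff]
    intro g hg
    have hf' : LinearIndependent K (fun i : B => f i.1) := hf.comp _ Subtype.val_injective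
    rw [Fintype.linearIndependent_iff] at hf'
    apply hf' g
    funext γ
    rw [Finset.sum_apply, Pi.zero_apply]
    by_cases hγ : γ ∈ U
    · have := congrFun hg ⟨γ, hγ⟩
      rw [Finset.sum_apply] at this
      exact this
    · refine Finset.sum_eq_zero (fun i _ => ?_)
      rw [Pi.smul_apply, h i.1 i.2 γ hγ, smul_zero]
  have h1 := hli.fintype_card_le_finrank
  rw [Module.finrank_fintype_fun_eq_card, Fintype.card_coe, Fintype.card_coe] at h1
  exact h1

end Pool.Agent.Ldc
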