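import Pool.Agent.Ldc.L7a
import Pool.Agent.Ldc.L7c
import Pool.Agent.Ldc.L6
set_option autoImplicit false

/-!
# L7b.  Level 2 and the contradiction.

`f : τ → (S → K)` (τ finite, `|τ| = |S|`) linearly independent recoverable functionals, `level1` for each (η = the
largest threshold).  Pigeonhole on `(c, Λ)`: at most `|K|^t 2^{m^t}` pairs, so a set `I₁` of indices with
`|I₁| ≥ |S| / (|K|^t 2^{m^t})` has common `c, Λ`.  `β₁ i χ` = the value of `comb χ (g i ·)` on `J i`.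
`selection` with `Λ` (as a finset), `J = I₁`, `b χ i = β₁ i χ`, `θ s = c₁/2 * n^{-ζ s}`: `B, R₂`; `s₀ = |R₂| ≤ m^t`;
`bias` with `M = n^{ζ s₀}` for every `A ⊆ S` with `|A| ≥ n^{-η s₀}|S|`.  Classes of `S`: by the map
`γ ↦ (χ ↦ γ (β₂ χ) if χ ∈ R₂ else 0)`, at most `m^{m^t}` classes.  On a class `A` with `|A| ≥ n^{-η s₀} |S|` `cover`
applies with `z₀ = (γ (g i j l))_l` for every `γ ∈ A, i ∈ B, j ∈ J i`, so `f i γ = 0`.  So the independent functionals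
`f i`, `i ∈ B`, vanish outside the union of the small classes: `|B| ≤ m^{m^t} n^{-η s₀} |S|`; but
`|B| ≥ (Π_{s<s₀} c₁/2 n^{-ζ s}) |S| / (|K|^t 2^{m^t})`, contradicting `hfin s₀`.
-/
namespace Pool.Agent.Ldc
open Finset

private theorem L7b_comb_zero {G : Type} [AddCommGroup G] {m t : ℕ} (x : Fin t → G) :
    comb (0 : Fin t → ZMod m) x = 0 := by
  simp [comb]

private theorem L7b_map_comb {G : Type} [AddCommGroup G] {m t : ℕ} [NeZero m]
    (γ : G →+ ZMod m) (χ : Fin t → ZMod m) (x : Fin t → G) :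
    γ (comb χ x) = ∑ l, χ l * γ (x l) := by
  simp [comb, map_sum, map_nsmul, nsmul_eq_mul, ZMod.natCast_zmod_val]

open Classical in
theorem level2 {K : Type} [Field K] [Fintype K] {m t : ℕ} [NeZero m] (hm : 2 ≤ m) {w : K}
    (hw : IsPrimitiveRoot w m) (hmK : (m : K) ≠ 0)
    {G : Type} [AddCommGroup G] [Fintype G] (hG : ∀ g : G, m • g = 0)
    (S : Finset (G →+ ZMod m)) (hS : S.Nonempty) (ρ : ℝ) (hgood : Good m t w ρ S)
    (η ζ : ℕ → ℝ) (c₁ : ℝ) (hc₁ : c₁ = 1 / (100 * ((m : ℝ) ^ t) ^ 4))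
    (hη : ∀ s ≤ m ^ t, η s ≤ η (m ^ t)) (hζ0 : ∀ s, 0 ≤ ζ s)
    (hspec : ∀ s ≤ m ^ t, ∀ A ⊆ S, A.Nonempty →
      (Fintype.card G : ℝ) ^ (-η s) * (S.card : ℝ) ≤ A.card →
      ((univ.filter (fun x : G => c₁ / 2 ≤ ‖fhat A x‖)).card : ℝ) ≤ (Fintype.card G : ℝ) ^ (ζ s))
    (hnum : ρ * (Fintype.card K : ℝ) ^ t
      < (c₁ / 2 * (Fintype.card G : ℝ) ^ (-ζ (m ^ t))) ^ (m ^ t) * (Fintype.card G : ℝ))
    (hfin : ∀ s ≤ m ^ t, (m : ℝ) ^ (m ^ t) * (Fintype.card G : ℝ) ^ (-η s)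
      * ((Fintype.card K : ℝ) ^ t * 2 ^ (m ^ t))
      < ∏ s' ∈ range s, (c₁ / 2 * (Fintype.card G : ℝ) ^ (-ζ s'))) : False := by
  have hm0 : 0 < m := by omega
  set n : ℕ := Fintype.card G with hnd
  have hn0 : 0 < n := Fintype.card_pos_iff.2 ⟨0⟩
  have hnpos : (0 : ℝ) < n := by exact_mod_cast hn0
  have hn1 : (1 : ℝ) ≤ n := by exact_mod_cast hn0
  have hmt1 : (1 : ℝ) ≤ (m : ℝ) ^ t := one_le_pow₀ (by exact_mod_cast hm0)
  have hc0 : 0 < c₁ := by rw [hc₁]; positivity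
  have hc1 : c₁ ≤ 1 := by
    rw [hc₁, div_le_one (by positivity)]
    nlinarith [pow_le_pow_left₀ (by norm_num) hmt1 4]
  have hSpos : (0 : ℝ) < S.card := by exact_mod_cast hS.card_pos
  obtain ⟨f, hf, hrec⟩ := exists_family S hgood
  -- level 1
  have hl1 := fun i : S => level1 hm hG S ρ (η (m ^ t)) (ζ (m ^ t)) c₁ hc0 hc1 (hζ0 _)
    (hspec (m ^ t) le_rfl) hnum (f i) (hrec i)
  choose c g J Λ hJ hfc hconst hbias hsing using hl1
  -- pigeonhole
  set F : S → (Fin t → K) × Finset (Fin t → ZMod m) :=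
    fun i => (c i, univ.filter (fun χ => χ ∈ Λ i)) with hF
  set b₀ : ℝ := (S.card : ℝ) / ((Fintype.card K : ℝ) ^ t * 2 ^ (m ^ t)) with hb₀
  have hKpos : (0 : ℝ) < (Fintype.card K : ℝ) := by exact_mod_cast Fintype.card_pos
  have hD : (0 : ℝ) < (Fintype.card K : ℝ) ^ t * 2 ^ (m ^ t) := by positivity
  have hb₀pos : 0 < b₀ := by positivity
  have hcardT : ((univ : Finset ((Fin t → K) × Finset (Fin t → ZMod m))).card : ℝ)
      = (Fintype.card K : ℝ) ^ t * 2 ^ (m ^ t) := by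
    rw [card_univ, Fintype.card_prod, Fintype.card_finset]
    simp [ZMod.card]
  obtain ⟨y, -, hy⟩ := Finset.exists_le_card_fiber_of_nsmul_le_card_of_maps_to
    (s := (univ : Finset S)) (t := (univ : Finset ((Fin t → K) × Finset (Fin t → ZMod m))))
    (f := F) (b := b₀) (fun _ _ => mem_univ _) ⟨(0, ∅), mem_univ _⟩ (by
      rw [nsmul_eq_mul, hcardT, hb₀, mul_div_cancel₀ _ hD.ne']
      simp)
  set I₁ : Finset S := univ.filter (fun i => F i = y) with hI₁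
  have hI₁card : b₀ ≤ (I₁.card : ℝ) := hy
  have hI₁ne : I₁.Nonempty := by
    rw [← Finset.card_pos]
    have : (0 : ℝ) < I₁.card := lt_of_lt_of_le hb₀pos hI₁card
    exact_mod_cast this
  obtain ⟨i₀, hi₀⟩ := hI₁ne
  have hcommon : ∀ i ∈ I₁, c i = c i₀ ∧ Λ i = Λ i₀ := by
    intro i hi
    have h1 : F i = y := (mem_filter.1 hi).2
    have h2 : F i₀ = y := (mem_filter.1 hi₀).2
    have h3 : F i = F i₀ := by rw [h1, h2]
    have h4 : c i = c i₀ := congrArg Prod.fst h3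
    have h5 : univ.filter (fun χ => χ ∈ Λ i) = univ.filter (fun χ => χ ∈ Λ i₀) :=
      congrArg Prod.snd h3
    refine ⟨h4, ?_⟩
    ext χ
    have := Finset.ext_iff.1 h5 χ
    simpa using this
  -- the values
  choose j₀ hj₀ using hJ
  set β₁ : S → (Fin t → ZMod m) → G := fun i χ => comb χ (g i (j₀ i)) with hβ₁
  set Λf : Finset (Fin t → ZMod m) := univ.filter (fun χ => χ ∈ Λ i₀) with hΛf
  have hmemΛf : ∀ χ, χ ∈ Λf ↔ χ ∈ Λ i₀ := fun χ => by simp [hΛf]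
  set θ : ℕ → ℝ := fun s => c₁ / 2 * (n : ℝ) ^ (-ζ s) with hθ
  have hθ0 : ∀ s, 0 < θ s := fun s => by simp only [hθ]; positivity
  have hθ1 : ∀ s, θ s ≤ 1 := fun s => by
    simp only [hθ]
    have h1 : (n : ℝ) ^ (-ζ s) ≤ 1 := Real.rpow_le_one_of_one_le_of_nonpos hn1 (by
      have := hζ0 s; linarith)
    have h2 : 0 ≤ (n : ℝ) ^ (-ζ s) := by positivity
    nlinarith
  obtain ⟨B, hBI, hB, R₂, hR₂, hRc, hBcard, hRn⟩ :=
    selection Λf I₁ ⟨i₀, hi₀⟩ (fun χ i => β₁ i χ) θ hθ0 hθ1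
  obtain ⟨i₁, hi₁⟩ := hB
  set β₂ : (Fin t → ZMod m) → G := β₁ i₁ with hβ₂
  set s₀ : ℕ := R₂.card with hs₀
  have hs₀le : s₀ ≤ m ^ t := by
    calc s₀ ≤ (univ : Finset (Fin t → ZMod m)).card := card_le_card (subset_univ _)
      _ = m ^ t := by rw [card_univ]; simp [ZMod.card]
  have h0 : (0 : Fin t → ZMod m) ∈ R₂ := by
    by_contra h
    obtain ⟨⟨j, -, j', -, hne⟩, -⟩ := hRn 0 ((hmemΛf 0).2 (Λ i₀).zero_mem) h
    apply hne
    simp only [hβ₁, L7b_comb_zero]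
  have hexp : (n : ℝ) ^ (-η (m ^ t)) ≤ (n : ℝ) ^ (-η s₀) :=
    Real.rpow_le_rpow_of_exponent_le hn1 (by linarith [hη s₀ hs₀le])
  -- classes
  set Θ : (G →+ ZMod m) → ((Fin t → ZMod m) → ZMod m) :=
    fun γ χ => if χ ∈ R₂ then γ (β₂ χ) else 0 with hΘ
  set cls : ((Fin t → ZMod m) → ZMod m) → Finset (G →+ ZMod m) :=
    fun v => S.filter (fun γ => Θ γ = v) with hcls
  have hzero : ∀ v, (n : ℝ) ^ (-η s₀) * (S.card : ℝ) ≤ ((cls v).card : ℝ) →
      ∀ γ : S, (γ : G →+ ZMod m) ∈ cls v → ∀ i ∈ B, f i γ = 0 := by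
    intro v hv γ₀ hγ₀ i hi
    have hA : (cls v).Nonempty := ⟨_, hγ₀⟩
    have hAS : cls v ⊆ S := filter_subset _ _
    have hiI : i ∈ I₁ := hBI hi
    have hcov := cover (t := t) hw hmK hG (cls v) hA B ⟨i₁, hi₁⟩ J (fun i _ => ⟨_, hj₀ i⟩) g (Λ i₀)
      R₂ h0 β₁ β₂
      (fun i hi χ hχ j hj => hconst i χ (by rw [(hcommon i (hBI hi)).2]; exact hχ) j hj _ (hj₀ i))
      (fun i hi χ hχ => by
        rw [← hc₁]
        exact hbias i χ (by rw [(hcommon i (hBI hi)).2]; exact hχ) (cls v) hAS hA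
          (le_trans (mul_le_mul_of_nonneg_right hexp hSpos.le) hv))
      (fun χ hχ => ⟨(hmemΛf χ).1 (hR₂ hχ), fun i hi => hRc χ hχ i hi i₁ hi₁⟩)
      (fun χ hχ hχR => by
        rw [← hc₁]
        refine bias (cls v) hA B ⟨i₁, hi₁⟩ (fun i => β₁ i χ) c₁ ((n : ℝ) ^ (ζ s₀)) hc0
          (by positivity) (hspec s₀ hs₀le (cls v) hAS hA hv) ?_
        intro x
        have h1 := (hRn χ ((hmemΛf χ).2 hχ) hχR).2 x
        have h2 : θ s₀ = c₁ / (2 * (n : ℝ) ^ (ζ s₀)) := by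
          simp only [hθ]
          rw [Real.rpow_neg hnpos.le]
          field_simp
        rw [← h2]
        exact h1)
      (fun i γ => if h : γ ∈ S then f i ⟨γ, h⟩ else 0) (c i₀)
      (fun γ hγ i hi j hj => by
        have hγS : γ ∈ S := hAS hγ
        simp only [dif_pos hγS]
        rw [hfc i ⟨γ, hγS⟩ j hj, (hcommon i (hBI hi)).1])
      (fun l hl => hsing i₀ l hl)
      (fun l => (γ₀ : G →+ ZMod m) (g i (j₀ i) l))
      (fun χ hχ γ hγ => by
        rw [← L7b_map_comb]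
        have h1 : Θ γ = v := (mem_filter.1 hγ).2
        have h2 : Θ (γ₀ : G →+ ZMod m) = v := (mem_filter.1 hγ₀).2
        have h3 : Θ γ χ = Θ (γ₀ : G →+ ZMod m) χ := by rw [h1, h2]
        simp only [hΘ, if_pos hχ] at h3
        rw [h3]
        have h4 : β₂ χ = β₁ i χ := hRc χ hχ i₁ hi₁ i hi
        rw [h4])
    rw [hfc i γ₀ (j₀ i) (hj₀ i), (hcommon i hiI).1]
    exact hcov
  -- support
  set small : Finset ((Fin t → ZMod m) → ZMod m) :=
    univ.filter (fun v => ((cls v).card : ℝ) < (n : ℝ) ^ (-η s₀) * (S.card : ℝ)) with hsmall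
  set U : Finset S := univ.filter (fun γ => Θ (γ : G →+ ZMod m) ∈ small) with hU
  have hsupp : ∀ i ∈ B, ∀ γ, γ ∉ U → f i γ = 0 := by
    intro i hi γ hγ
    have h1 : Θ (γ : G →+ ZMod m) ∉ small := fun h => hγ (mem_filter.2 ⟨mem_univ _, h⟩)
    have h2 : (n : ℝ) ^ (-η s₀) * (S.card : ℝ) ≤ ((cls (Θ (γ : G →+ ZMod m))).card : ℝ) := by
      by_contra h
      exact h1 (mem_filter.2 ⟨mem_univ _, not_le.1 h⟩)
    exact hzero _ h2 γ (mem_filter.2 ⟨γ.2, rfl⟩) i hi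
  have hBU : B.card ≤ U.card := card_le_of_support f B hf U hsupp
  have hUcard : (U.card : ℝ) ≤ (m : ℝ) ^ (m ^ t) * (n : ℝ) ^ (-η s₀) * (S.card : ℝ) := by
    have h1 : U.card = (S.filter (fun γ => Θ γ ∈ small)).card := by
      rw [hU]
      refine Finset.card_bij (fun γ _ => (γ : G →+ ZMod m)) ?_ ?_ ?_
      · intro γ hγ
        exact mem_filter.2 ⟨γ.2, (mem_filter.1 hγ).2⟩
      · intro a _ b _ h
        exact Subtype.ext h
      · intro γ hγ
        exact ⟨⟨γ, (mem_filter.1 hγ).1⟩, mem_filter.2 ⟨mem_univ _, (mem_filter.1 hγ).2⟩, rfl⟩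
    have h2 : (S.filter (fun γ => Θ γ ∈ small)).card = ∑ v ∈ small, (cls v).card := by
      rw [Finset.card_eq_sum_card_fiberwise (f := Θ) (t := small)]
      · apply Finset.sum_congr rfl
        intro v hv
        congr 1
        ext γ
        simp only [hcls, mem_filter]
        constructor
        · rintro ⟨⟨h3, h4⟩, h5⟩
          exact ⟨h3, h5⟩
        · rintro ⟨h3, h5⟩
          exact ⟨⟨h3, by rw [h5]; exact hv⟩, h5⟩
      · intro γ hγ
        exact (mem_filter.1 hγ).2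
    rw [h1, h2]
    push_cast
    calc ∑ v ∈ small, ((cls v).card : ℝ)
        ≤ ∑ v ∈ small, (n : ℝ) ^ (-η s₀) * (S.card : ℝ) :=
          Finset.sum_le_sum (fun v hv => (mem_filter.1 hv).2.le)
      _ = (small.card : ℝ) * ((n : ℝ) ^ (-η s₀) * (S.card : ℝ)) := by
          rw [Finset.sum_const, nsmul_eq_mul]
      _ ≤ (m : ℝ) ^ (m ^ t) * ((n : ℝ) ^ (-η s₀) * (S.card : ℝ)) := by
          apply mul_le_mul_of_nonneg_right _ (by positivity)
          have h3 : small.card ≤ m ^ (m ^ t) := by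
            calc small.card ≤ (univ : Finset ((Fin t → ZMod m) → ZMod m)).card :=
                  card_le_card (subset_univ _)
              _ = m ^ (m ^ t) := by rw [card_univ]; simp [ZMod.card]
          exact_mod_cast h3
      _ = _ := by ring
  have hfin' := hfin s₀ hs₀le
  have hP : 0 < ∏ s' ∈ range s₀, θ s' := Finset.prod_pos (fun s _ => hθ0 s)
  have hlow : (∏ s' ∈ range s₀, θ s') * b₀ ≤ (B.card : ℝ) :=
    le_trans (mul_le_mul_of_nonneg_left hI₁card hP.le) hBcard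
  have hup : (B.card : ℝ) ≤ (m : ℝ) ^ (m ^ t) * (n : ℝ) ^ (-η s₀) * (S.card : ℝ) :=
    le_trans (by exact_mod_cast hBU) hUcard
  have hcon : (m : ℝ) ^ (m ^ t) * (n : ℝ) ^ (-η s₀) * (S.card : ℝ)
      < (∏ s' ∈ range s₀, θ s') * b₀ := by
    have h1 : (S.card : ℝ) = b₀ * ((Fintype.card K : ℝ) ^ t * 2 ^ (m ^ t)) := by
      rw [hb₀, div_mul_cancel₀ _ hD.ne']
    calc (m : ℝ) ^ (m ^ t) * (n : ℝ) ^ (-η s₀) * (S.card : ℝ)
        = ((m : ℝ) ^ (m ^ t) * (n : ℝ) ^ (-η s₀) * ((Fintype.card K : ℝ) ^ t * 2 ^ (m ^ t))) * b₀ := by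
          rw [h1]; ring
      _ < _ := mul_lt_mul_of_pos_right hfin' hb₀pos
  linarith

end Pool.Agent.Ldc
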