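import Pool.Agent.Ldc.L7b
import Pool.Agent.Ldc.L3
set_option autoImplicit false

/-!
# L8.  Choice of the parameters; the bound for good structures.

`key`: `L = m^t`, `R = 1 + 16/κ`, `ε₀ = κ/(100 L R^L)`, `η s = ε₀ R^s`, `ζ s = 8 (η s)/κ` so that `κ (ζ s)/8 = η s`,
`ζ L = 0.08/L`, `Σ_{s'<s} ζ s' ≤ (η s)/2`.  `spec_tight` (with `c = c₁/2`) for each `s ≤ L` (a finite maximum of
`n₀`'s).  `hnum`: the right side is `(c₁/2)^L n^{1 - 0.08}`, left `≤ n^{1/4} |K|^t`.  `hfin`: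
right side `≥ (c₁/2)^L n^{-Σ_{s'<s} ζ s'} ≥ (c₁/2)^L n^{-(η s)/2}`, so `n^{(η s)/2} ≥ n^{ε₀/2}` large is enough.
`n ≥ 2` forces `m ≥ 2`.
`pos_bound`: if `s ≥ n^{2κ}` take `exists_tight`: `|G*| ≥ |S*|/|G*|^κ ≥ s/n^κ ≥ n^κ`, `ρ ≤ n^{κ/4} ≤ |G*|^{1/4}`;
contradiction to `key` when `n^κ ≥ n₁`.
-/
namespace Pool.Agent.Ldc
open Finset

private theorem L8_large (a B : ℝ) (ha : 0 < a) : ∃ n₀ : ℕ, ∀ n : ℕ, n₀ ≤ n → B < (n : ℝ) ^ a := by
  have h1 : Filter.Tendsto (fun n : ℕ => (n : ℝ) ^ a) Filter.atTop Filter.atTop :=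
    (tendsto_rpow_atTop ha).comp tendsto_natCast_atTop_atTop
  obtain ⟨n₂, h2⟩ := (Filter.tendsto_atTop.1 h1 (B + 1)).exists_forall_of_atTop
  exact ⟨n₂, fun n hn => lt_of_lt_of_le (by linarith) (h2 n hn)⟩

private theorem L8_sum (z R : ℝ) (hR : 1 < R) (hz : 0 ≤ z) (s : ℕ) :
    ∑ s' ∈ range s, z * R ^ s' ≤ z * R ^ s / (R - 1) := by
  rw [← Finset.mul_sum, geom_sum_eq hR.ne', mul_div_assoc]
  apply mul_le_mul_of_nonneg_left _ hz
  apply div_le_div_of_nonneg_right _ (by linarith)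
  linarith

theorem key {K : Type} [Field K] [Fintype K] {m : ℕ} (t : ℕ) [NeZero m] {w : K}
    (hw : IsPrimitiveRoot w m) (hmK : (m : K) ≠ 0) (κ : ℝ) (hκ : 0 < κ) :
    ∃ n₁ : ℕ, ∀ (G : Type) [AddCommGroup G] [Fintype G], (∀ g : G, m • g = 0) →
      n₁ ≤ Fintype.card G → ∀ ρ : ℝ, ρ ≤ (Fintype.card G : ℝ) ^ (1 / 4 : ℝ) →
      ∀ S : Finset (G →+ ZMod m), S.Nonempty → Good m t w ρ S → Tight κ S → False := by
  classical
  have hm0 : 0 < m := Nat.pos_of_ne_zero (NeZero.ne m)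
  set L : ℕ := m ^ t with hL
  have hL1 : 1 ≤ L := Nat.one_le_pow _ _ hm0
  have hL1' : (1 : ℝ) ≤ L := by exact_mod_cast hL1
  set c₁ : ℝ := 1 / (100 * ((m : ℝ) ^ t) ^ 4) with hc₁
  have hmt : ((m : ℝ) ^ t) = (L : ℝ) := by rw [hL]; push_cast; rfl
  have hc₁0 : 0 < c₁ := by rw [hc₁, hmt]; positivity
  have hc₁1 : c₁ ≤ 1 := by
    rw [hc₁, hmt, div_le_one (by positivity)]
    nlinarith [pow_le_pow_left₀ (by norm_num) hL1' 4]
  set R : ℝ := 1 + 16 / κ with hR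
  have hR1 : 1 < R := by rw [hR]; linarith [show 0 < 16 / κ by positivity]
  have hR0 : 0 < R := by linarith
  set z : ℝ := 8 / (100 * L * R ^ L) with hz
  have hz0 : 0 < z := by positivity
  set ζ : ℕ → ℝ := fun s => z * R ^ s with hζ
  set η : ℕ → ℝ := fun s => κ * ζ s / 8 with hη
  have hζpos : ∀ s, 0 < ζ s := fun s => by simp only [hζ]; positivity
  have hηpos : ∀ s, 0 < η s := fun s => by
    have := hζpos s
    simp only [hη]; positivity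
  have hζL : ζ L * L = 8 / 100 := by
    simp only [hζ, hz]; field_simp
  have hηmono : ∀ s s', s ≤ s' → η s ≤ η s' := by
    intro s s' h
    simp only [hη, hζ]
    have : R ^ s ≤ R ^ s' := pow_le_pow_right₀ hR1.le h
    have h2 : z * R ^ s ≤ z * R ^ s' := mul_le_mul_of_nonneg_left this hz0.le
    have h3 : κ * (z * R ^ s) ≤ κ * (z * R ^ s') := mul_le_mul_of_nonneg_left h2 hκ.le
    linarith
  -- spectra
  have hsp : ∀ s : ℕ, ∃ n₀ : ℕ, ∀ (G : Type) [AddCommGroup G] [Fintype G],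
      (∀ g : G, m • g = 0) → n₀ ≤ Fintype.card G →
      ∀ S : Finset (G →+ ZMod m), Tight κ S → ∀ A ⊆ S, A.Nonempty →
      (Fintype.card G : ℝ) ^ (-(κ * ζ s / 8)) * (S.card : ℝ) ≤ (A.card : ℝ) →
      ((univ.filter (fun b : G => c₁ / 2 ≤ ‖fhat A b‖)).card : ℝ)
        ≤ (Fintype.card G : ℝ) ^ ζ s := fun s =>
    spec_tight m (c₁ / 2) (ζ s) κ (by positivity) (by linarith) (hζpos s) hκ
  choose N₀ hN₀ using hsp
  set B₁ : ℝ := (Fintype.card K : ℝ) ^ t / (c₁ / 2) ^ L with hB₁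
  set B₂ : ℝ := (m : ℝ) ^ L * ((Fintype.card K : ℝ) ^ t * 2 ^ L) / (c₁ / 2) ^ L with hB₂
  obtain ⟨n₁, hn₁⟩ := L8_large (67 / 100) B₁ (by norm_num)
  obtain ⟨n₂, hn₂⟩ := L8_large (η 0 / 2) B₂ (by have := hηpos 0; positivity)
  refine ⟨(((range (L + 1)).sup N₀ ⊔ n₁) ⊔ n₂) ⊔ 2, ?_⟩
  intro G _ _ hG hn ρ hρ S hS hgood htight
  set n : ℕ := Fintype.card G with hnd
  have hn2 : 2 ≤ n := le_trans le_sup_right hn
  have hn₂' : n₂ ≤ n := le_trans (le_sup_right.trans le_sup_left) hn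
  have hn₁' : n₁ ≤ n := le_trans ((le_sup_right.trans le_sup_left).trans le_sup_left) hn
  have hN' : (range (L + 1)).sup N₀ ≤ n :=
    le_trans ((le_sup_left.trans le_sup_left).trans le_sup_left) hn
  have hnpos : (0 : ℝ) < n := by exact_mod_cast (by omega : 0 < n)
  have hn1 : (1 : ℝ) ≤ n := by exact_mod_cast (by omega : 1 ≤ n)
  have hm2 : 2 ≤ m := by
    by_contra h
    have hm1 : m = 1 := by omega
    have : Subsingleton G := ⟨fun a b => by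
      have ha := hG a
      have hb := hG b
      rw [hm1, one_smul] at ha hb
      rw [ha, hb]⟩
    have : Fintype.card G ≤ 1 := Fintype.card_le_one_iff_subsingleton.2 this
    omega
  have hc2 : 0 < c₁ / 2 := by positivity
  have hc2' : c₁ / 2 ≤ 1 := by linarith
  refine level2 (t := t) hm2 hw hmK hG S hS ρ hgood η ζ c₁ hc₁ (fun s hs => hηmono s _ hs)
    (fun s => (hζpos s).le) ?_ ?_ ?_
  · intro s hs A hA hA0 hcard
    exact hN₀ s G hG ((Finset.le_sup (mem_range.2 (Nat.lt_succ_of_le hs))).trans hN') S htight A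
      hA hA0 hcard
  · -- hnum
    have h1 : (c₁ / 2 * (n : ℝ) ^ (-ζ L)) ^ L * (n : ℝ)
        = (c₁ / 2) ^ L * (n : ℝ) ^ (92 / 100 : ℝ) := by
      rw [mul_pow, mul_assoc]
      congr 1
      rw [← Real.rpow_natCast ((n : ℝ) ^ (-ζ L)) L, ← Real.rpow_mul hnpos.le]
      nth_rewrite 2 [← Real.rpow_one (n : ℝ)]
      rw [← Real.rpow_add hnpos]
      congr 1
      linarith
    rw [← hL, h1]
    have h2 : B₁ < (n : ℝ) ^ (67 / 100 : ℝ) := hn₁ n hn₁'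
    rw [hB₁, div_lt_iff₀ (by positivity)] at h2
    calc ρ * (Fintype.card K : ℝ) ^ t
        ≤ (n : ℝ) ^ (1 / 4 : ℝ) * (Fintype.card K : ℝ) ^ t :=
          mul_le_mul_of_nonneg_right hρ (by positivity)
      _ < (n : ℝ) ^ (1 / 4 : ℝ) * ((n : ℝ) ^ (67 / 100 : ℝ) * (c₁ / 2) ^ L) :=
          mul_lt_mul_of_pos_left h2 (by positivity)
      _ = (c₁ / 2) ^ L * (n : ℝ) ^ (92 / 100 : ℝ) := by
          rw [← mul_assoc, ← Real.rpow_add hnpos, mul_comm]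
          congr 2
          norm_num
  · -- hfin
    intro s hs
    rw [← hL]
    have hprod : ∏ s' ∈ range s, (c₁ / 2 * (n : ℝ) ^ (-ζ s'))
        = (c₁ / 2) ^ s * (n : ℝ) ^ (-∑ s' ∈ range s, ζ s') := by
      rw [Finset.prod_mul_distrib, Finset.prod_const, card_range, ← Finset.sum_neg_distrib,
        ← Real.rpow_sum_of_pos hnpos]
    have hsum : ∑ s' ∈ range s, ζ s' ≤ η s / 2 := by
      refine (L8_sum z R hR1 hz0.le s).trans (le_of_eq ?_)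
      simp only [hη, hζ]
      have : R - 1 = 16 / κ := by rw [hR]; ring
      rw [this]
      field_simp
      ring
    rw [hprod]
    have h2 : B₂ < (n : ℝ) ^ (η 0 / 2) := hn₂ n hn₂'
    rw [hB₂, div_lt_iff₀ (by positivity)] at h2
    have h3 : (n : ℝ) ^ (η 0 / 2) ≤ (n : ℝ) ^ (η s / 2) :=
      Real.rpow_le_rpow_of_exponent_le hn1 (by linarith [hηmono 0 s (Nat.zero_le _)])
    have h4 : (c₁ / 2) ^ L ≤ (c₁ / 2) ^ s := pow_le_pow_of_le_one hc2.le hc2' hs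
    calc (m : ℝ) ^ L * (n : ℝ) ^ (-η s) * ((Fintype.card K : ℝ) ^ t * 2 ^ L)
        = (n : ℝ) ^ (-η s) * ((m : ℝ) ^ L * ((Fintype.card K : ℝ) ^ t * 2 ^ L)) := by ring
      _ < (n : ℝ) ^ (-η s) * ((n : ℝ) ^ (η 0 / 2) * (c₁ / 2) ^ L) :=
          mul_lt_mul_of_pos_left h2 (by positivity)
      _ ≤ (n : ℝ) ^ (-η s) * ((n : ℝ) ^ (η s / 2) * (c₁ / 2) ^ s) := by gcongr
      _ = (c₁ / 2) ^ s * (n : ℝ) ^ (-(η s / 2)) := by
          rw [← mul_assoc, ← Real.rpow_add hnpos, mul_comm]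
          congr 2
          ring
      _ ≤ (c₁ / 2) ^ s * (n : ℝ) ^ (-∑ s' ∈ range s, ζ s') := by
          apply mul_le_mul_of_nonneg_left _ (by positivity)
          exact Real.rpow_le_rpow_of_exponent_le hn1 (by linarith)

theorem pos_bound {K : Type} [Field K] [Fintype K] {m : ℕ} (t : ℕ) [NeZero m] {w : K}
    (hw : IsPrimitiveRoot w m) (hmK : (m : K) ≠ 0) (κ : ℝ) (hκ : 0 < κ) :
    ∃ n₀ : ℕ, ∀ (s n : ℕ) (ρ : ℝ), n₀ ≤ n → ρ ≤ (n : ℝ) ^ (κ / 4) → Pos m t w ρ s n →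
      (s : ℝ) < (n : ℝ) ^ (2 * κ) := by
  obtain ⟨n₁, hn₁⟩ := key t hw hmK κ hκ
  obtain ⟨n₂, hn₂⟩ := L8_large κ n₁ hκ
  refine ⟨n₂ ⊔ 1, ?_⟩
  intro s n ρ hn hρ hpos
  by_contra hcon
  rw [not_lt] at hcon
  have hn2 : n₂ ≤ n := le_sup_left.trans hn
  have hn1 : 1 ≤ n := le_sup_right.trans hn
  have hnpos : (0 : ℝ) < n := by exact_mod_cast (by omega : 0 < n)
  have hs : 0 < s := by
    rcases Nat.eq_zero_or_pos s with h | h
    · rw [h] at hcon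
      have : (0 : ℝ) < (n : ℝ) ^ (2 * κ) := Real.rpow_pos_of_pos hnpos _
      simp at hcon
      linarith
    · exact h
  obtain ⟨G, _, _, hG, S, hS, hgood, htight, hcardn, hcardS, hratio⟩ :=
    exists_tight hw.pow_eq_one κ hκ hs hpos
  have hG0 : 0 < Fintype.card G := Fintype.card_pos_iff.2 ⟨0⟩
  have hG1 : (1 : ℝ) ≤ Fintype.card G := by exact_mod_cast hG0
  have h1 : (n : ℝ) ^ κ ≤ (Fintype.card G : ℝ) := by
    calc (n : ℝ) ^ κ = (n : ℝ) ^ (2 * κ) / (n : ℝ) ^ κ := by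
          rw [← Real.rpow_sub hnpos]; congr 1; ring
      _ ≤ (s : ℝ) / (n : ℝ) ^ κ := by gcongr
      _ ≤ (S.card : ℝ) / (Fintype.card G : ℝ) ^ κ := hratio
      _ ≤ (S.card : ℝ) := div_le_self (by positivity) (Real.one_le_rpow hG1 hκ.le)
      _ ≤ (Fintype.card G : ℝ) := by exact_mod_cast hcardS
  refine hn₁ G hG ?_ ρ ?_ S hS hgood htight
  · have := hn₂ n hn2
    exact_mod_cast (this.le.trans h1)
  · refine hρ.trans ?_
    calc (n : ℝ) ^ (κ / 4) = ((n : ℝ) ^ κ) ^ (1 / 4 : ℝ) := by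
          rw [← Real.rpow_mul hnpos.le]; congr 1; ring
      _ ≤ _ := Real.rpow_le_rpow (by positivity) h1 (by norm_num)

end Pool.Agent.Ldc
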