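import Pool.Agent.Ldc.S3
set_option autoImplicit false

/-!
# LDefs.  The abstract structure behind translation-invariant LDCs.

`K` a finite field, `w : K` a primitive `m`-th root of unity, `G` a finite abelian group with `m G = 0`,
`S` a finite set of characters `γ : G →+ ZMod m`.  Character value at `g` in `K`:  `w ^ (γ g).val`.
-/
namespace Pool.Agent.Ldc
open Finset

/-- `Φ_c(z) = Σ_l c_l w^{z_l}` -/
def Phi {K : Type} [Field K] {m t : ℕ} (w : K) (c : Fin t → K) (z : Fin t → ZMod m) : K :=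
  ∑ l, c l * w ^ (z l).val

/-- `Σ_l χ_l x_l ∈ G` -/
def comb {G : Type} [AddCommGroup G] {m t : ℕ} (χ : Fin t → ZMod m) (x : Fin t → G) : G :=
  ∑ l, (χ l).val • x l

open Classical in
/-- `f : S → K` is recoverable: a distribution (uniform on `Fin N`) of `t`-sparse representations
`f γ = Σ_l c_{j,l} w^{γ(g_{j,l})}`, in which for every slot `l` every position `x` is used (with a non-zero
coefficient) with probability `≤ ρ/|G|` -/
def Rec {K : Type} [Field K] {G : Type} [AddCommGroup G] [Fintype G] (m t : ℕ) (w : K) (ρ : ℝ)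
    (S : Finset (G →+ ZMod m)) (f : S → K) : Prop :=
  ∃ N : ℕ, 0 < N ∧ ∃ (c : Fin N → Fin t → K) (g : Fin N → Fin t → G),
    (∀ j, ∀ γ : S, f γ = Phi w (c j) (fun l => (γ : G →+ ZMod m) (g j l))) ∧
    ∀ (l : Fin t) (x : G),
      ((univ.filter (fun j : Fin N => c j l ≠ 0 ∧ g j l = x)).card : ℝ) * (Fintype.card G : ℝ) ≤ ρ * N

/-- the recoverable functionals span everything -/
def Good {K : Type} [Field K] {G : Type} [AddCommGroup G] [Fintype G] (m t : ℕ) (w : K) (ρ : ℝ)
    (S : Finset (G →+ ZMod m)) : Prop :=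
  Submodule.span K {f : S → K | Rec m t w ρ S f} = ⊤

/-- there is a good structure with `|S| = s`, `|G| = n` -/
def Pos {K : Type} [Field K] (m t : ℕ) (w : K) (ρ : ℝ) (s n : ℕ) : Prop :=
  ∃ (G : Type) (_ : AddCommGroup G) (_ : Fintype G), (∀ g : G, m • g = 0) ∧
    ∃ S : Finset (G →+ ZMod m), S.card = s ∧ Fintype.card G = n ∧ Good m t w ρ S

/-- `κ`-tightness of `S`: a subset of `S` whose elements agree on the subgroup `V` has at most
`|V|^{-κ} |S|` elements -/
def Tight {G : Type} [AddCommGroup G] {m : ℕ} (κ : ℝ) (S : Finset (G →+ ZMod m)) : Prop :=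
  ∀ A ⊆ S, ∀ V : AddSubgroup G, (∀ γ ∈ A, ∀ γ' ∈ A, ∀ h ∈ V, γ h = γ' h) →
    (A.card : ℝ) * (Nat.card V : ℝ) ^ κ ≤ S.card

/-- mean of `e(γ (b j))` over `j ∈ J` -/
noncomputable def mean {G τ : Type} [AddCommGroup G] {m : ℕ} [NeZero m] (J : Finset τ) (b : τ → G)
    (γ : G →+ ZMod m) : ℂ := (∑ j ∈ J, ZMod.stdAddChar (γ (b j))) / (J.card : ℂ)

end Pool.Agent.Ldc
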