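import Pool.Agent.Ldc.E8
set_option autoImplicit false

/-!
# P1.  First consequences of `mD q = k`.  `m = card ι ≥ 3`, `h̄ = hb q = (1/m) Σ ent (q i)`.

`H[Σ_i ω_i] = k + h̄` (definition of `mD`) is at least every `ent (q i)`  (`H_sum_ge`), so `k ≥ 0` (average) and
`ent (q i) ≤ h̄ + k`; summing over the other indices `ent (q i) ≥ h̄ - (m-1) k`.
For `i ≠ j`: `H(q_i ⊗ q_j)(u+v) ≤ h̄ + k` (a subsum, H_pf_coord2 and H_le_add), so
`rd (q i) (-q j) = H(u+v) - (ent q_i + ent q_j)/2 ≤ m k`  (`rd_neg_right`).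
For all `i, j` choose `l ≠ i, j` (m ≥ 3):  `rd (q i) (q j) ≤ rd (q i) (-q l) + rd (-q l) (q j) ≤ 2 m k`
(`rd_neg`, `rd_comm`).  `rd (q i) (-q i) ≤ rd (q i) (-q j) + rd (-q j) (-q i) ≤ 3 m k`.
Then `H(u-v) = rd + (ent+ent)/2 ≤ 2mk + h̄ + k`, `H(u+v) ≤ 3mk + h̄ + k`.
-/
namespace Pool.Agent.Ldc
open Finset
variable {G ι : Type} [AddCommGroup G] [Fintype G] [Fintype ι] [DecidableEq ι]

theorem P1_H_sum (q : ι → G → ℝ) :
    H (pf q) (fun ω => ∑ i, ω i) = mD q + hb q := by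
  unfold mD hb
  ring

theorem P1_card_hb (h3 : 3 ≤ Fintype.card ι) (q : ι → G → ℝ) :
    (Fintype.card ι : ℝ) * hb q = ∑ i, ent (q i) := by
  have h : (Fintype.card ι : ℝ) ≠ 0 := by
    have : 0 < Fintype.card ι := by omega
    positivity
  unfold hb
  field_simp

theorem P1_ent_le (q : ι → G → ℝ) (hq : ∀ i, IsP (q i)) (i : ι) :
    ent (q i) ≤ mD q + hb q := by
  rw [← P1_H_sum q, ent_eq_H]
  have h := H_sum_ge q hq (fun _ g => g) i Finset.univ (Finset.mem_univ i)
  exact h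

theorem P1_k_nonneg (h3 : 3 ≤ Fintype.card ι) (q : ι → G → ℝ) (hq : ∀ i, IsP (q i)) : 0 ≤ mD q := by
  have h1 : ∑ i, ent (q i) ≤ ∑ _i : ι, (mD q + hb q) :=
    Finset.sum_le_sum fun i _ => P1_ent_le q hq i
  rw [Finset.sum_const, Finset.card_univ, nsmul_eq_mul, mul_add, P1_card_hb h3] at h1
  have h2 : 0 ≤ (Fintype.card ι : ℝ) * mD q := by linarith
  have h4 : (0 : ℝ) < Fintype.card ι := by
    have : 0 < Fintype.card ι := by omega
    exact_mod_cast this
  exact nonneg_of_mul_nonneg_right h2 h4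

theorem P1_ent_ge (h3 : 3 ≤ Fintype.card ι) (q : ι → G → ℝ) (hq : ∀ i, IsP (q i)) (i : ι) :
    hb q - ((Fintype.card ι : ℝ) - 1) * mD q ≤ ent (q i) := by
  have h1 : ∑ j ∈ Finset.univ.erase i, ent (q j) ≤
      ∑ _j ∈ Finset.univ.erase i, (mD q + hb q) :=
    Finset.sum_le_sum fun j _ => P1_ent_le q hq j
  rw [Finset.sum_const, Finset.card_erase_of_mem (Finset.mem_univ i), Finset.card_univ,
    nsmul_eq_mul, Nat.cast_sub (by omega)] at h1
  have h2 := Finset.add_sum_erase Finset.univ (fun j => ent (q j)) (Finset.mem_univ i)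
  rw [← P1_card_hb h3] at h2
  push_cast at h1
  nlinarith [h1, h2]

theorem P1_three (h3 : 3 ≤ Fintype.card ι) : (3 : ℝ) ≤ Fintype.card ι := by exact_mod_cast h3

theorem P1_ent (h3 : 3 ≤ Fintype.card ι) (q : ι → G → ℝ) (hq : ∀ i, IsP (q i)) (i : ι) :
    hb q - (Fintype.card ι : ℝ) * mD q ≤ ent (q i) ∧
      ent (q i) ≤ hb q + (Fintype.card ι : ℝ) * mD q := by
  have h1 := P1_ent_ge h3 q hq i
  have h2 := P1_ent_le q hq i
  have h4 := P1_k_nonneg h3 q hq
  have h5 := P1_three h3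
  constructor <;> nlinarith

theorem P1_pair (q : ι → G → ℝ) (hq : ∀ i, IsP (q i)) (i j : ι) (hij : i ≠ j) :
    H (pp (q i) (q j)) (fun u => u.1 + u.2) ≤ mD q + hb q := by
  rw [← P1_H_sum q, ← H_pf_coord2 q hq i j hij]
  have hI : Indep (pf q) (fun ω : ι → G => ω i + ω j)
      (fun ω => ∑ l ∈ (Finset.univ.erase i).erase j, ω l) := by
    refine indep_pf q hq {i, j} ((Finset.univ.erase i).erase j) ?_ _ _ ?_ ?_
    · rw [Finset.disjoint_left]
      intro a ha
      simp only [Finset.mem_insert, Finset.mem_singleton] at ha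
      rcases ha with rfl | rfl <;> simp
    · intro ω ω' h
      rw [h i (by simp), h j (by simp)]
    · intro ω ω' h
      exact Finset.sum_congr rfl fun l hl => h l hl
  have h := H_le_add (pf_isP q hq) _ _ hI
  refine h.trans (le_of_eq ?_)
  congr 1
  funext ω
  rw [add_assoc, Finset.add_sum_erase _ _ (by simp [hij.symm]),
    Finset.add_sum_erase _ _ (Finset.mem_univ i)]

theorem P1_isP_neg {x : G → ℝ} (hx : IsP x) : IsP (fun g => x (-g)) := by
  refine ⟨fun g => hx.1 _, ?_⟩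
  rw [← hx.2]
  exact Fintype.sum_equiv (Equiv.neg G) _ _ (fun g => by simp)

/-- distance 0 case: used at the very end with `mD q = 0` -/
theorem P1_rd_neg (h3 : 3 ≤ Fintype.card ι) (q : ι → G → ℝ) (hq : ∀ i, IsP (q i)) (i j : ι)
    (hij : i ≠ j) :
    rd (q i) (fun g => q j (-g)) ≤ (Fintype.card ι : ℝ) * mD q := by
  rw [rd_neg_right]
  have h1 := P1_pair q hq i j hij
  have h2 := P1_ent_ge h3 q hq i
  have h4 := P1_ent_ge h3 q hq j
  nlinarith

theorem P1_rd (h3 : 3 ≤ Fintype.card ι) (q : ι → G → ℝ) (hq : ∀ i, IsP (q i)) (i j : ι) :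
    rd (q i) (q j) ≤ 2 * (Fintype.card ι : ℝ) * mD q := by
  obtain ⟨l, hl⟩ : ∃ l, l ∉ ({i, j} : Finset ι) := by
    by_contra h
    push Not at h
    have h1 : (Finset.univ : Finset ι) ⊆ {i, j} := fun a _ => h a
    have h2 := Finset.card_le_card h1
    have h4 : ({i, j} : Finset ι).card ≤ 2 := Finset.card_le_two
    rw [Finset.card_univ] at h2
    omega
  simp only [Finset.mem_insert, Finset.mem_singleton, not_or] at hl
  have h1 := rd_triangle (hq i) (P1_isP_neg (hq l)) (hq j)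
  have h2 := P1_rd_neg h3 q hq i l (fun h => hl.1 h.symm)
  have h4 := P1_rd_neg h3 q hq j l (fun h => hl.2 h.symm)
  rw [rd_comm (fun g => q l (-g)) (q j)] at h1
  linarith

theorem P1_rd_self_neg (h3 : 3 ≤ Fintype.card ι) (q : ι → G → ℝ) (hq : ∀ i, IsP (q i)) (i j : ι) :
    rd (q i) (fun g => q j (-g)) ≤ 3 * (Fintype.card ι : ℝ) * mD q := by
  obtain ⟨l, hl⟩ : ∃ l, l ∉ ({i, j} : Finset ι) := by
    by_contra h
    push Not at h
    have h1 : (Finset.univ : Finset ι) ⊆ {i, j} := fun a _ => h a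
    have h2 := Finset.card_le_card h1
    have h4 : ({i, j} : Finset ι).card ≤ 2 := Finset.card_le_two
    rw [Finset.card_univ] at h2
    omega
  simp only [Finset.mem_insert, Finset.mem_singleton, not_or] at hl
  have h1 := rd_triangle (hq i) (P1_isP_neg (hq l)) (P1_isP_neg (hq j))
  have h2 := P1_rd_neg h3 q hq i l (fun h => hl.1 h.symm)
  have h4 := P1_rd h3 q hq l j
  rw [rd_neg] at h1
  linarith

theorem P1_add (h3 : 3 ≤ Fintype.card ι) (q : ι → G → ℝ) (hq : ∀ i, IsP (q i)) (i j : ι) :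
    H (pp (q i) (q j)) (fun u => u.1 + u.2) ≤ hb q + 4 * (Fintype.card ι : ℝ) * mD q := by
  have h1 := P1_rd_self_neg h3 q hq i j
  rw [rd_neg_right] at h1
  have h2 := P1_ent_le q hq i
  have h4 := P1_ent_le q hq j
  have h5 := P1_k_nonneg h3 q hq
  have h6 := P1_three h3
  nlinarith

theorem P1_sub (h3 : 3 ≤ Fintype.card ι) (q : ι → G → ℝ) (hq : ∀ i, IsP (q i)) (i j : ι) :
    H (pp (q i) (q j)) (fun u => u.1 - u.2) ≤ hb q + 4 * (Fintype.card ι : ℝ) * mD q := by
  have h1 := P1_rd h3 q hq i j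
  unfold rd at h1
  have h2 := P1_ent_le q hq i
  have h4 := P1_ent_le q hq j
  have h5 := P1_k_nonneg h3 q hq
  have h6 := P1_three h3
  nlinarith

/-- sums of distinct coordinates of a product of copies of the `q i` -/
theorem P1_sum (h3 : 3 ≤ Fintype.card ι) (q : ι → G → ℝ) (hq : ∀ i, IsP (q i))
    {κ : Type} [Fintype κ] [DecidableEq κ] (c : κ → ι) (S : Finset κ) (hS : S.Nonempty) :
    H (pf (fun s => q (c s))) (fun ω => ∑ s ∈ S, ω s)
      ≤ hb q + 5 * (S.card : ℝ) * (Fintype.card ι : ℝ) * mD q := by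
  obtain ⟨a, ha⟩ := hS
  have h1 := KVM_sum (fun s => q (c s)) (fun s => hq (c s)) (fun _ g => g) a (S.erase a)
    (Finset.notMem_erase a S)
  simp only [Finset.add_sum_erase S _ ha] at h1
  refine h1.trans ?_
  rw [← ent_eq_H]
  have h5 := P1_k_nonneg h3 q hq
  have h6 := P1_three h3
  have h7 : ∑ s ∈ S.erase a, (H (pp (q (c a)) (q (c s))) (fun x => x.1 + x.2) - ent (q (c a))) ≤
      ∑ _s ∈ S.erase a, (5 * (Fintype.card ι : ℝ) * mD q) := by
    refine Finset.sum_le_sum fun s _ => ?_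
    have h8 := P1_add h3 q hq (c a) (c s)
    have h9 := P1_ent_ge h3 q hq (c a)
    nlinarith
  rw [Finset.sum_const, Finset.card_erase_of_mem ha, nsmul_eq_mul,
    Nat.cast_sub (Finset.card_pos.2 ⟨a, ha⟩)] at h7
  have h8 := P1_ent_le q hq (c a)
  push_cast at h7
  nlinarith

/-- sums of dilates; one coordinate `a` has coefficient 1.  (`H_dilate`, `KVM_sum`:
each other coordinate adds at most `m * (H(u+v) + H(u-u') - 2 ent u) ≤ 10 m² k`.) -/
theorem P1_dil (h3 : 3 ≤ Fintype.card ι) (q : ι → G → ℝ) (hq : ∀ i, IsP (q i))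
    {κ : Type} [Fintype κ] [DecidableEq κ] (c : κ → ι) (a : κ) (S : Finset κ) (ha : a ∉ S)
    (n : κ → ℕ) (hn : ∀ s, n s ≤ Fintype.card ι) :
    H (pf (fun s => q (c s))) (fun ω => ω a + ∑ s ∈ S, n s • ω s)
      ≤ ent (q (c a)) + 10 * (S.card : ℝ) * (Fintype.card ι : ℝ) ^ 2 * mD q := by
  have h5 := P1_k_nonneg h3 q hq
  have h6 := P1_three h3
  have h1 := KVM_sum (fun s => q (c s)) (fun s => hq (c s))
    (fun s g => if s = a then g else n s • g) a S ha
  simp only [if_true] at h1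
  have e1 : (fun ω : κ → G => ω a + ∑ s ∈ S, (if s = a then ω s else n s • ω s)) =
      fun ω => ω a + ∑ s ∈ S, n s • ω s := by
    funext ω
    congr 1
    refine Finset.sum_congr rfl fun s hs => ?_
    rw [if_neg (by rintro rfl; exact ha hs)]
  rw [e1] at h1
  refine h1.trans ?_
  rw [← ent_eq_H]
  have h7 : ∑ s ∈ S, (H (pp (q (c a)) (q (c s)))
      (fun x => x.1 + (if s = a then x.2 else n s • x.2)) - ent (q (c a))) ≤
      ∑ _s ∈ S, (10 * (Fintype.card ι : ℝ) ^ 2 * mD q) := by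
    refine Finset.sum_le_sum fun s hs => ?_
    have e2 : (fun x : G × G => x.1 + (if s = a then x.2 else n s • x.2)) =
        fun x => x.1 + n s • x.2 := by
      funext x
      rw [if_neg (by rintro rfl; exact ha hs)]
    rw [e2]
    have h8 := H_dilate (hq (c a)) (hq (c s)) (n s)
    have h9 := P1_add h3 q hq (c a) (c s)
    have h10 := P1_sub h3 q hq (c a) (c a)
    have h11 := P1_ent_ge h3 q hq (c a)
    have h12 : (n s : ℝ) ≤ Fintype.card ι := by exact_mod_cast hn s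
    have h13 : (0 : ℝ) ≤ n s := Nat.cast_nonneg _
    have h14 : H (pp (q (c a)) (q (c s))) (fun u => u.1 + u.2) +
        H (pp (q (c a)) (q (c a))) (fun u => u.1 - u.2) - 2 * ent (q (c a)) ≤
        10 * (Fintype.card ι : ℝ) * mD q := by nlinarith
    have h15 : (n s : ℝ) * (H (pp (q (c a)) (q (c s))) (fun u => u.1 + u.2) +
        H (pp (q (c a)) (q (c a))) (fun u => u.1 - u.2) - 2 * ent (q (c a))) ≤
        (Fintype.card ι : ℝ) * (10 * (Fintype.card ι : ℝ) * mD q) := by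
      refine (mul_le_mul_of_nonneg_left h14 h13).trans ?_
      exact mul_le_mul_of_nonneg_right h12 (by positivity)
    nlinarith
  rw [Finset.sum_const, nsmul_eq_mul] at h7
  nlinarith

end Pool.Agent.Ldc
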