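import Pool.Agent.Ldc.E7a
import Pool.Agent.Ldc.E3b
set_option autoImplicit false

/-!
# P2.  `WeakMin` for conditioned variables.

`(F i, Y i)`, `i ∈ ι`, an independent family of pairs on `(Ω, p)`.  Split over the value `y` of
`(Y i)_i` (`H_cond_sum` with `g = (Y i)_i : Ω → (ι → β)`; β finite).  Under `cnd p Y y` (when `P(Y = y) > 0`)
the `F i` are independent with laws `r_i = law (F i | Y i = y i)`, so
`H (cnd p Y y) (Σ F i) = mD r + (1/m) Σ ent (r i) ≥ k - η Σ rd (q (σ i)) (r i) + (1/m) Σ ent (r i)`.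
Sum with weights `P(Y = y)`; the marginal sums are `H(F i, Y i) - H(Y i)` and `rdc (q (σ i)) p (F i) (Y i)`
(`rdc_eq_sum`, `H_cond_sum`).
-/
namespace Pool.Agent.Ldc
open Finset
variable {Ω G ι β : Type} [Fintype Ω] [AddCommGroup G] [Fintype G] [Fintype ι] [DecidableEq ι]
  [Fintype β]

theorem P2_pr_cnd {α δ : Type} (p : Ω → ℝ) (f : Ω → α) (g : Ω → δ) (a : α) (c : δ) :
    pr (cnd p g c) f a = pr p (fun ω => (f ω, g ω)) (a, c) / pr p g c := by
  unfold pr pe cnd
  rw [Finset.sum_div]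
  refine Finset.sum_congr rfl fun ω _ => ?_
  by_cases h1 : f ω = a
  · by_cases h2 : g ω = c
    · simp [h1, h2, pr, pe]
    · simp [h1, h2]
  · simp [h1]

theorem P2_pr_congr {α δ : Type} (p : Ω → ℝ) (f : Ω → α) (g : Ω → δ) (a : α) (b : δ)
    (h : ∀ ω, f ω = a ↔ g ω = b) : pr p f a = pr p g b := by
  unfold pr pe
  refine Finset.sum_congr rfl fun ω _ => ?_
  by_cases h1 : f ω = a
  · rw [if_pos h1, if_pos ((h ω).1 h1)]
  · rw [if_neg h1, if_neg fun h2 => h1 ((h ω).2 h2)]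

/-- sums over the law of a vector of functions of one coordinate -/
theorem P2_marg (p : Ω → ℝ) (Y : ι → Ω → β) (i : ι) (u : β → ℝ) :
    ∑ y, pr p (fun ω i => Y i ω) y * u (y i) = ∑ b, pr p (Y i) b * u b := by
  rw [sum_pr_mul p (fun ω i => Y i ω) (fun y => u (y i)), sum_pr_mul p (Y i) u]

theorem P2_prod {p : Ω → ℝ} (hp : IsP p) (F : ι → Ω → G) (Y : ι → Ω → β)
    (hI : IndepFam p (fun i ω => (F i ω, Y i ω))) (y : ι → β) :
    pr p (fun ω i => Y i ω) y = ∏ i, pr p (Y i) (y i) :=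
  (IndepFam.comp hp (fun i ω => (F i ω, Y i ω)) hI (fun _ u => u.2)) y

theorem P2_vec {p : Ω → ℝ} (hp : IsP p) (F : ι → Ω → G) (Y : ι → Ω → β)
    (hI : IndepFam p (fun i ω => (F i ω, Y i ω))) (y : ι → β) :
    pr (cnd p (fun ω i => Y i ω) y) (fun ω i => F i ω) =
      pf (fun i => pr (cnd p (Y i) (y i)) (F i)) := by
  funext a
  rw [P2_pr_cnd, P2_prod hp F Y hI y]
  unfold pf
  simp_rw [P2_pr_cnd]
  rw [Finset.prod_div_distrib, ← hI (fun i => (a i, y i))]
  congr 1
  refine P2_pr_congr p _ _ _ _ fun ω => ?_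
  constructor
  · intro h
    rw [Prod.mk.injEq] at h
    funext i
    rw [← h.1, ← h.2]
  · intro h
    rw [Prod.mk.injEq]
    constructor
    · funext i
      exact congrArg Prod.fst (congrFun h i)
    · funext i
      exact congrArg Prod.snd (congrFun h i)

theorem weakMin_cond {η k : ℝ} {q : ι → G → ℝ} (hW : WeakMin η k q) (hη : 0 ≤ η) {p : Ω → ℝ}
    (hp : IsP p) (F : ι → Ω → G) (Y : ι → Ω → β)
    (hI : IndepFam p (fun i ω => (F i ω, Y i ω))) (σ : Equiv.Perm ι) :
    k - η * ∑ i, rdc (q (σ i)) p (F i) (Y i)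
      ≤ (H p (fun ω => (∑ i, F i ω, fun i => Y i ω)) - H p (fun ω i => Y i ω))
        - (∑ i, (H p (fun ω => (F i ω, Y i ω)) - H p (Y i))) / (Fintype.card ι : ℝ) := by
  have h1 := H_cond_sum hp (fun ω => ∑ i, F i ω) (fun ω i => Y i ω)
  -- the lower bound for each value
  have h2 : ∀ y : ι → β, pr p (fun ω i => Y i ω) y *
      (k - η * ∑ i, rd (q (σ i)) (pr (cnd p (Y i) (y i)) (F i))
        + (∑ i, ent (pr (cnd p (Y i) (y i)) (F i))) / (Fintype.card ι : ℝ)) ≤
      pr p (fun ω i => Y i ω) y * H (cnd p (fun ω i => Y i ω) y) (fun ω => ∑ i, F i ω) := by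
    intro y
    rcases (pr_nonneg hp (fun ω i => Y i ω) y).lt_or_eq with hy | hy
    · refine mul_le_mul_of_nonneg_left ?_ hy.le
      have h3 : ∀ i, 0 < pr p (Y i) (y i) := by
        intro i
        rcases (pr_nonneg hp (Y i) (y i)).lt_or_eq with h | h
        · exact h
        · exfalso
          rw [P2_prod hp F Y hI y, Finset.prod_eq_zero (Finset.mem_univ i) h.symm] at hy
          exact lt_irrefl _ hy
      have h4 : ∀ i, IsP (pr (cnd p (Y i) (y i)) (F i)) := fun i =>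
        pr_isP (cnd_isP hp (Y i) (y i) (h3 i)) (F i)
      have h5 := hW.le (fun i => pr (cnd p (Y i) (y i)) (F i)) h4 σ
      have h6 := H_law (cnd p (fun ω i => Y i ω) y) (fun ω i => F i ω)
        (fun a : ι → G => ∑ i, a i)
      rw [P2_vec hp F Y hI y] at h6
      unfold mD at h5
      rw [h6] at h5
      linarith
    · rw [← hy, zero_mul, zero_mul]
  have h3 := Finset.sum_le_sum fun y (_ : y ∈ (Finset.univ : Finset (ι → β))) => h2 y
  have h4 : ∑ y : ι → β, pr p (fun ω i => Y i ω) y *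
      (k - η * ∑ i, rd (q (σ i)) (pr (cnd p (Y i) (y i)) (F i))
        + (∑ i, ent (pr (cnd p (Y i) (y i)) (F i))) / (Fintype.card ι : ℝ)) =
      k - η * ∑ i, rdc (q (σ i)) p (F i) (Y i)
        + (∑ i, (H p (fun ω => (F i ω, Y i ω)) - H p (Y i))) / (Fintype.card ι : ℝ) := by
    have e1 : ∀ y : ι → β, pr p (fun ω i => Y i ω) y *
      (k - η * ∑ i, rd (q (σ i)) (pr (cnd p (Y i) (y i)) (F i))
        + (∑ i, ent (pr (cnd p (Y i) (y i)) (F i))) / (Fintype.card ι : ℝ)) =
      pr p (fun ω i => Y i ω) y * k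
        - η * ∑ i, pr p (fun ω i => Y i ω) y * rd (q (σ i)) (pr (cnd p (Y i) (y i)) (F i))
        + (∑ i, pr p (fun ω i => Y i ω) y * ent (pr (cnd p (Y i) (y i)) (F i)))
          / (Fintype.card ι : ℝ) := by
      intro y
      rw [← Finset.mul_sum, ← Finset.mul_sum]
      ring
    rw [Finset.sum_congr rfl fun y _ => e1 y, Finset.sum_add_distrib, Finset.sum_sub_distrib,
      ← Finset.sum_mul, (pr_isP hp (fun ω i => Y i ω)).2, one_mul, ← Finset.mul_sum,
      ← Finset.sum_div, Finset.sum_comm, Finset.sum_comm (f := fun y i =>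
        pr p (fun ω i => Y i ω) y * ent (pr (cnd p (Y i) (y i)) (F i)))]
    congr 2
    · congr 1
      refine Finset.sum_congr rfl fun i _ => ?_
      rw [P2_marg p Y i (fun b => rd (q (σ i)) (pr (cnd p (Y i) b) (F i))),
        rdc_eq_sum hp (hW.prob (σ i)) (F i) (Y i)]
    · refine Finset.sum_congr rfl fun i _ => ?_
      rw [P2_marg p Y i (fun b => ent (pr (cnd p (Y i) b) (F i))), H_cond_sum hp (F i) (Y i)]
      simp_rw [← H_eq_ent]
      ring
  rw [h4] at h3
  rw [h1]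
  linarith

end Pool.Agent.Ldc
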