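import Pool.Agent.Ldc.E2
import Pool.Agent.Ldc.E3b
set_option autoImplicit false

/-!
# P3a.  The chain rule for the array.

`C_j = Σ_i ω(i,j)`, `R_i = Σ_j ω(i,j)`, `T_{ij} = Σ_{j' ≥ j} ω(i,j')`.  Claim
`H(C,R) - H(R) ≥ Σ_{j+1 < m} (H(C_j, T_{·j}) - H(T_{·j}))`.
Chain rule over the columns (drop the last one): `H(C | R) ≥ Σ_{j+1<m} H[C_j | C_{<j}, R]`, and for each `j`
 `H[C_j | C_{<j}, R] ≥ H[C_j | (ω(i,j'))_{i, j'<j}, R] = H[C_j | (ω(i,j'))_{j'<j}, T_{·j}] = H[C_j | T_{·j}]`
 (`R_i = Σ_{j'<j} ω(i,j') + T_{ij}`; the entries of the columns `< j` are independent of `(C_j, T_{·j})`, `indep_pf`).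
One way: prove by induction on `n ≤ m - 1` that
`H((C_j)_{j<n}, R) - H(R) ≥ Σ_{j<n} (…)`.
-/
namespace Pool.Agent.Ldc
open Finset
variable {G ι : Type} [AddCommGroup G] [Fintype G] [Fintype ι] [DecidableEq ι]

/-- one step of the chain rule -/
theorem P3a_step {m : ℕ} (r : ι × Fin m → G → ℝ) (hr : ∀ s, IsP (r s)) (j0 : Fin m) :
    H (pf r) (fun ω => (∑ i, ω (i, j0),
        fun i => ∑ j' ∈ univ.filter (fun j' => j0 ≤ j'), ω (i, j')))
      - H (pf r) (fun ω (i : ι) => ∑ j' ∈ univ.filter (fun j' => j0 ≤ j'), ω (i, j'))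
    ≤ H (pf r) (fun ω => (fun j : Fin m => if (j : ℕ) < (j0 : ℕ) + 1 then ∑ i, ω (i, j) else 0,
          fun i : ι => ∑ j, ω (i, j)))
      - H (pf r) (fun ω => (fun j : Fin m => if (j : ℕ) < (j0 : ℕ) then ∑ i, ω (i, j) else 0,
          fun i : ι => ∑ j, ω (i, j))) := by
  classical
  have hP : IsP (pf r) := pf_isP r hr
  set n : ℕ := (j0 : ℕ) with hn
  set W : (ι × Fin m → G) → (ι × Fin m → G) := fun ω s => if (s.2 : ℕ) < n then ω s else 0 with hW
  set T : (ι × Fin m → G) → (ι → G) :=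
    fun ω i => ∑ j' ∈ univ.filter (fun j' => j0 ≤ j'), ω (i, j') with hT
  set C : (ι × Fin m → G) → G := fun ω => ∑ i, ω (i, j0) with hC
  set Cn : (ι × Fin m → G) → (Fin m → G) :=
    fun ω j => if (j : ℕ) < n then ∑ i, ω (i, j) else 0 with hCn
  set R : (ι × Fin m → G) → (ι → G) := fun ω i => ∑ j, ω (i, j) with hR
  -- conditioning on more
  let φ : (ι × Fin m → G) × (ι → G) → (Fin m → G) × (ι → G) :=
    fun x => (fun j => if (j : ℕ) < n then ∑ i, x.1 (i, j) else 0, fun i => ∑ j, x.1 (i, j) + x.2 i)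
  have hφ : ∀ ω, φ (W ω, T ω) = (Cn ω, R ω) := by
    intro ω
    refine Prod.ext ?_ ?_
    · funext j
      show (if (j : ℕ) < n then ∑ i, (if (j : ℕ) < n then ω (i, j) else 0) else 0)
        = if (j : ℕ) < n then ∑ i, ω (i, j) else 0
      by_cases h : (j : ℕ) < n
      · simp only [if_pos h]
      · simp only [if_neg h]
    · funext i
      show ∑ j : Fin m, (if (j : ℕ) < n then ω (i, j) else 0)
        + ∑ j' ∈ univ.filter (fun j' => j0 ≤ j'), ω (i, j') = ∑ j, ω (i, j)
      rw [← Finset.sum_filter]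
      have h2 : univ.filter (fun j' : Fin m => j0 ≤ j')
          = univ.filter (fun j' : Fin m => ¬ (j' : ℕ) < n) := by
        ext j'
        simp only [mem_filter, mem_univ, true_and, Fin.le_def, not_lt, hn]
      rw [h2, Finset.sum_filter_add_sum_filter_not]
  have h1 := H_cond_anti hP C (fun ω => (W ω, T ω)) φ
  simp only [hφ] at h1
  -- independence
  have hind : Indep (pf r) W (fun ω => (C ω, T ω)) := by
    apply indep_pf r hr (univ.filter (fun s : ι × Fin m => (s.2 : ℕ) < n))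
      (univ.filter (fun s : ι × Fin m => ¬ (s.2 : ℕ) < n))
      (Finset.disjoint_filter_filter_not _ _ _) W (fun ω => (C ω, T ω))
    · intro ω ω' h
      funext s
      show (if (s.2 : ℕ) < n then ω s else 0) = if (s.2 : ℕ) < n then ω' s else 0
      by_cases hs : (s.2 : ℕ) < n
      · rw [if_pos hs, if_pos hs]
        exact h s (mem_filter.2 ⟨mem_univ _, hs⟩)
      · rw [if_neg hs, if_neg hs]
    · intro ω ω' h
      refine Prod.ext ?_ ?_
      · show ∑ i, ω (i, j0) = ∑ i, ω' (i, j0)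
        refine Finset.sum_congr rfl (fun i _ => ?_)
        exact h (i, j0) (mem_filter.2 ⟨mem_univ _, by simp [hn]⟩)
      · funext i
        show ∑ j' ∈ univ.filter (fun j' => j0 ≤ j'), ω (i, j')
          = ∑ j' ∈ univ.filter (fun j' => j0 ≤ j'), ω' (i, j')
        refine Finset.sum_congr rfl (fun j' hj' => ?_)
        have h3 : j0 ≤ j' := (mem_filter.1 hj').2
        exact h (i, j') (mem_filter.2 ⟨mem_univ _, by
          have h4 : (j0 : ℕ) ≤ (j' : ℕ) := h3
          show ¬ (j' : ℕ) < n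
          omega⟩)
  have h2 := H_indep hP W (fun ω => (C ω, T ω)) hind
  have h3 : H (pf r) (fun ω => (W ω, T ω)) = H (pf r) W + H (pf r) T := by
    apply H_indep hP W T
    exact Indep.comp hP hind (fun x => x) Prod.snd
  have h4 : H (pf r) (fun ω => (C ω, (W ω, T ω))) = H (pf r) (fun ω => (W ω, (C ω, T ω))) :=
    H_congr hP _ _ (fun x => (x.2.1, (x.1, x.2.2))) (fun x => (x.2.1, (x.1, x.2.2)))
      (fun _ => rfl) (fun _ => rfl)
  -- the pair `(C, (Cn, R))` is a function of `(C_{n+1}, R)`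
  have h5 : H (pf r) (fun ω => (C ω, (Cn ω, R ω)))
      ≤ H (pf r) (fun ω => ((fun j : Fin m => if (j : ℕ) < n + 1 then ∑ i, ω (i, j) else 0),
          R ω)) := by
    have h6 := H_comp_le hP
      (fun ω : ι × Fin m → G => ((fun j : Fin m => if (j : ℕ) < n + 1 then ∑ i, ω (i, j) else 0),
          R ω))
      (fun x : (Fin m → G) × (ι → G) =>
        (x.1 j0, ((fun j : Fin m => if (j : ℕ) < n then x.1 j else 0), x.2)))
    have h7 : (fun ω : ι × Fin m → G => (C ω, (Cn ω, R ω)))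
        = fun ω => (fun x : (Fin m → G) × (ι → G) =>
          (x.1 j0, ((fun j : Fin m => if (j : ℕ) < n then x.1 j else 0), x.2)))
          ((fun j : Fin m => if (j : ℕ) < n + 1 then ∑ i, ω (i, j) else 0), R ω) := by
      funext ω
      refine Prod.ext ?_ (Prod.ext ?_ rfl)
      · show ∑ i, ω (i, j0) = if (j0 : ℕ) < n + 1 then ∑ i, ω (i, j0) else 0
        rw [if_pos (by omega)]
      · funext j
        show (if (j : ℕ) < n then ∑ i, ω (i, j) else 0)
          = if (j : ℕ) < n then (if (j : ℕ) < n + 1 then ∑ i, ω (i, j) else 0) else 0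
        by_cases h : (j : ℕ) < n
        · rw [if_pos h, if_pos h, if_pos (by omega)]
        · rw [if_neg h, if_neg h]
    rw [h7]
    exact h6
  rw [h4, h2, h3] at h1
  linarith

theorem P3a_ind {m : ℕ} (r : ι × Fin m → G → ℝ) (hr : ∀ s, IsP (r s)) (n : ℕ) (hn : n ≤ m) :
    ∑ j ∈ univ.filter (fun j : Fin m => (j : ℕ) < n),
        (H (pf r) (fun ω => (∑ i, ω (i, j), fun i => ∑ j' ∈ univ.filter (fun j' => j ≤ j'), ω (i, j')))
          - H (pf r) (fun ω i => ∑ j' ∈ univ.filter (fun j' => j ≤ j'), ω (i, j')))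
      ≤ H (pf r) (fun ω => (fun j : Fin m => if (j : ℕ) < n then ∑ i, ω (i, j) else 0,
          fun i : ι => ∑ j, ω (i, j)))
          - H (pf r) (fun ω (i : ι) => ∑ j, ω (i, j)) := by
  classical
  have hP : IsP (pf r) := pf_isP r hr
  induction n with
  | zero =>
    have h1 : univ.filter (fun j : Fin m => (j : ℕ) < 0) = ∅ := by
      rw [Finset.filter_eq_empty_iff]
      intro j _
      omega
    rw [h1, Finset.sum_empty, sub_nonneg]
    exact H_le_pair' hP _ _
  | succ n ih =>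
    have ih := ih (by omega)
    set j0 : Fin m := ⟨n, by omega⟩ with hj0
    have h1 : univ.filter (fun j : Fin m => (j : ℕ) < n + 1)
        = insert j0 (univ.filter (fun j : Fin m => (j : ℕ) < n)) := by
      ext j
      simp only [mem_filter, mem_univ, true_and, mem_insert, hj0, Fin.ext_iff]
      omega
    have h2 : j0 ∉ univ.filter (fun j : Fin m => (j : ℕ) < n) := by
      simp only [mem_filter, mem_univ, true_and, hj0]
      omega
    rw [h1, Finset.sum_insert h2]
    have h3 := P3a_step r hr j0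
    have h4 : (j0 : ℕ) = n := rfl
    rw [h4] at h3
    linarith

theorem P3_chain {m : ℕ} (r : ι × Fin m → G → ℝ) (hr : ∀ s, IsP (r s)) :
    ∑ j ∈ univ.filter (fun j : Fin m => (j : ℕ) + 1 < m),
        (H (pf r) (fun ω => (∑ i, ω (i, j), fun i => ∑ j' ∈ univ.filter (fun j' => j ≤ j'), ω (i, j')))
          - H (pf r) (fun ω i => ∑ j' ∈ univ.filter (fun j' => j ≤ j'), ω (i, j')))
      ≤ H (pf r) (fun ω => (fun j : Fin m => ∑ i, ω (i, j), fun i : ι => ∑ j, ω (i, j)))
          - H (pf r) (fun ω (i : ι) => ∑ j, ω (i, j)) := by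
  classical
  have hP : IsP (pf r) := pf_isP r hr
  have h1 := P3a_ind r hr (m - 1) (by omega)
  have h2 : univ.filter (fun j : Fin m => (j : ℕ) + 1 < m)
      = univ.filter (fun j : Fin m => (j : ℕ) < m - 1) := by
    ext j
    simp only [mem_filter, mem_univ, true_and]
    omega
  rw [h2]
  have h3 := H_comp_le hP
    (fun ω : ι × Fin m → G => (fun j : Fin m => ∑ i, ω (i, j), fun i : ι => ∑ j, ω (i, j)))
    (fun x : (Fin m → G) × (ι → G) => ((fun j : Fin m => if (j : ℕ) < m - 1 then x.1 j else 0), x.2))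
  simp only at h3
  linarith

end Pool.Agent.Ldc
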