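import Pool.Agent.Ldc.P1
import Pool.Agent.Ldc.P2
import Pool.Agent.Ldc.P3a
set_option autoImplicit false

/-!
# P3.  The array inequality.

Array `ω : ι × Fin m → G` (`m = card ι`), independent entries, entry `(i,j)` has law `q (c i j)`, where for
every column `j` the map `i ↦ c i j` is a permutation of `ι`.
Column sums `C_j = Σ_i ω(i,j)`, row sums `R_i = Σ_j ω(i,j)`, total `W`.  Claim
`I[(C_j)_j : (R_i)_i | W] ≤ 8 m⁵ η k`.
As `W` is a function of `C` and of `R`: `cmi = H(C) + H(R) - H(C,R) - H(W)`.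
(1) `H(C) = Σ_j H(C_j) = m (k + h̄)`  (columns independent, each column a permutation of `q`).
(2) `H(W) ≥ k - η Σ_i rd (q i) (law R_i) + (1/m) Σ_i H(R_i)`  (WeakMin.le with `q' i = law R_i`, σ = 1).
(3) `T_{ij} = Σ_{j' ≥ j} ω(i,j')`.  `P3_chain`:
 `H(C,R) - H(R) ≥ Σ_{j+1 < m} (H(C_j, T_{·j}) - H(T_{·j}))`: chain rule, and for each `j`
 `H[C_j | C_{<j}, R] ≥ H[C_j | (ω(i,j'))_{i, j'<j}, R] = H[C_j | (ω(i,j'))_{j'<j}, T_{·j}] = H[C_j | T_{·j}]`
 (the entries of the columns `< j` are independent of `(C_j, T_{·j})`).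
(4) `weakMin_cond` with `F i = ω(i,j)`, `Y i = T_{ij}` (different rows independent), σ = c · j:
 `H(C_j,T_{·j}) - H(T_{·j}) ≥ k - η Σ_i rdc (q (c i j)) (ω(i,j)) T_{ij} + (1/m) Σ_i (H(ω(i,j),T_{ij}) - H(T_{ij}))`,
 `H(ω(i,j),T_{ij}) = ent (q (c i j)) + H(T_{i,j+1})`; the sum over `j+1<m` telescopes to
 `(1/m) Σ_i (Σ_j ent (q (c i j)) - H(R_i))`.
(5) so `cmi ≤ η (Σ_i rd (q i) (law R_i) + Σ_{j+1<m} Σ_i rdc (q (c i j)) (ω(i,j)) T_{ij})`, and by P1:
 `rd (q i) (law R_i) ≤ rd (q i) (q (c i j)) + (H(R_i) - ent (q (c i j)))/2 ≤ 2mk + (5m²k + mk)/2 ≤ 4m³k`;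
 `rdc ≤ rd + (H(ω_ij)+H(T_ij)-H(ω_ij,T_ij))/2 = rd + (H(T_ij) - H(T_{i,j+1}))/2 ≤ 2mk + (5m²k+mk)/2 ≤ 4m³k`
 (P1_sum, P1_ent, H_sum_ge).  Total `≤ η (m + m²) 4m³k ≤ 8 m⁵ η k`.
-/
namespace Pool.Agent.Ldc
open Finset
variable {G ι : Type} [AddCommGroup G] [Fintype G] [Fintype ι] [DecidableEq ι]

private theorem P3_rows {m : ℕ} {β : Type} (r : ι × Fin m → G → ℝ) (hr : ∀ s, IsP (r s))
    (F : ι → (ι × Fin m → G) → β)
    (hF : ∀ i (ω ω' : ι × Fin m → G), (∀ j, ω (i, j) = ω' (i, j)) → F i ω = F i ω') :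
    IndepFam (pf r) F := by
  refine indepFam_pf r hr (fun i => univ.filter (fun s => s.1 = i)) ?_ F ?_
  · intro i j hij
    rw [Finset.disjoint_left]
    intro s hs hs'
    simp only [mem_filter, mem_univ, true_and] at hs hs'
    exact hij (hs.symm.trans hs')
  · intro i ω ω' h
    exact hF i ω ω' (fun j => h (i, j) (by simp))

private theorem P3_cols {m : ℕ} {β : Type} (r : ι × Fin m → G → ℝ) (hr : ∀ s, IsP (r s))
    (F : Fin m → (ι × Fin m → G) → β)
    (hF : ∀ j (ω ω' : ι × Fin m → G), (∀ i, ω (i, j) = ω' (i, j)) → F j ω = F j ω') :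
    IndepFam (pf r) F := by
  refine indepFam_pf r hr (fun j => univ.filter (fun s => s.2 = j)) ?_ F ?_
  · intro i j hij
    rw [Finset.disjoint_left]
    intro s hs hs'
    simp only [mem_filter, mem_univ, true_and] at hs hs'
    exact hij (hs.symm.trans hs')
  · intro j ω ω' h
    exact hF j ω ω' (fun i => h (i, j) (by simp))

/-- the law of a single entry -/
private theorem P3_entry {m : ℕ} (r : ι × Fin m → G → ℝ) (hr : ∀ s, IsP (r s)) (s : ι × Fin m) :
    pr (pf r) (fun ω => ω s) = r s := by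
  have h := pr_pf_coord r hr s (fun a : G => a)
  rw [pr_id] at h
  exact h

private theorem P3_H_entry {m : ℕ} (r : ι × Fin m → G → ℝ) (hr : ∀ s, IsP (r s))
    (s : ι × Fin m) : H (pf r) (fun ω => ω s) = ent (r s) := by
  have h := H_pf_coord r hr s (fun a : G => a)
  rw [← ent_eq_H] at h
  exact h

/-- tail sum of a row -/
private def P3_T {m : ℕ} (i : ι) (n : ℕ) (ω : ι × Fin m → G) : G :=
  ∑ j' ∈ univ.filter (fun j' : Fin m => n ≤ (j' : ℕ)), ω (i, j')

private theorem P3_T_succ {m : ℕ} (i : ι) (j : Fin m) (ω : ι × Fin m → G) :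
    P3_T i (j : ℕ) ω = ω (i, j) + P3_T i ((j : ℕ) + 1) ω := by
  unfold P3_T
  have h : univ.filter (fun j' : Fin m => (j : ℕ) ≤ (j' : ℕ))
      = insert j (univ.filter (fun j' : Fin m => (j : ℕ) + 1 ≤ (j' : ℕ))) := by
    ext j'
    simp only [mem_filter, mem_univ, true_and, mem_insert]
    constructor
    · intro h
      rcases h.lt_or_eq with h1 | h1
      · exact Or.inr h1
      · exact Or.inl (Fin.ext h1.symm)
    · rintro (h | h)
      · rw [h]
      · omega
  rw [h, Finset.sum_insert]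
  simp

/-- `T` as a sum over a set of cells -/
private theorem P3_T_cells {m : ℕ} (i : ι) (n : ℕ) (ω : ι × Fin m → G) :
    P3_T i n ω = ∑ s ∈ (univ.filter (fun j' : Fin m => n ≤ (j' : ℕ))).map
      ⟨fun j' => (i, j'), fun _ _ h => (Prod.mk.inj h).2⟩, ω s := by
  unfold P3_T
  rw [Finset.sum_map]
  rfl

/-- one step: the joint entropy of an entry and the tail which contains it -/
private theorem P3_step {m : ℕ} (r : ι × Fin m → G → ℝ) (hr : ∀ s, IsP (r s)) (i : ι) (j : Fin m) :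
    H (pf r) (fun ω => (ω (i, j), P3_T i (j : ℕ) ω))
      = ent (r (i, j)) + H (pf r) (P3_T i ((j : ℕ) + 1)) := by
  have hpf : IsP (pf r) := pf_isP r hr
  have h1 : H (pf r) (fun ω => (ω (i, j), P3_T i (j : ℕ) ω))
      = H (pf r) (fun ω => (ω (i, j), P3_T i ((j : ℕ) + 1) ω)) :=
    H_congr hpf _ _ (fun x => (x.1, x.2 - x.1)) (fun x => (x.1, x.1 + x.2))
      (fun ω => by simp [P3_T_succ]) (fun ω => by simp [P3_T_succ])
  rw [h1]
  have hI : Indep (pf r) (fun ω : ι × Fin m → G => ω (i, j))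
      (fun ω : ι × Fin m → G => P3_T i ((j : ℕ) + 1) ω) := by
    refine indep_pf r hr {(i, j)} (univ.filter (fun s => s.1 = i ∧ (j : ℕ) + 1 ≤ (s.2 : ℕ))) ?_
      _ _ ?_ ?_
    · rw [Finset.disjoint_left]
      intro s hs hs'
      simp only [mem_singleton] at hs
      simp only [mem_filter, mem_univ, true_and] at hs'
      rw [hs] at hs'
      have := hs'.2
      simp at this
    · intro ω ω' h
      exact h (i, j) (by simp)
    · intro ω ω' h
      unfold P3_T
      refine Finset.sum_congr rfl fun j' hj' => ?_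
      simp only [mem_filter, mem_univ, true_and] at hj'
      exact h (i, j') (by simp only [mem_filter, mem_univ, true_and]; exact hj')
  rw [H_indep hpf _ _ hI, P3_H_entry r hr]

/-- telescoping sum over `j + 1 < m` -/
private theorem P3_tele (m : ℕ) (hm : 1 ≤ m) (u : ℕ → ℝ) :
    ∑ j ∈ univ.filter (fun j : Fin m => (j : ℕ) + 1 < m), (u ((j : ℕ) + 1) - u (j : ℕ))
      = u (m - 1) - u 0 := by
  obtain ⟨n, rfl⟩ : ∃ n, m = n + 1 := ⟨m - 1, by omega⟩
  rw [Finset.sum_filter, Fin.sum_univ_castSucc]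
  simp only [Fin.val_castSucc, Fin.val_last, Nat.add_sub_cancel]
  rw [if_neg (by omega), add_zero]
  have : ∀ i : Fin n, (if (i : ℕ) + 1 < n + 1 then (u ((i : ℕ) + 1) - u (i : ℕ)) else 0)
      = u ((i : ℕ) + 1) - u (i : ℕ) := fun i => if_pos (by omega)
  rw [Finset.sum_congr rfl (fun i _ => this i)]
  rw [Fin.sum_univ_eq_sum_range (fun i => u (i + 1) - u i) n, Finset.sum_range_sub]

/-- dropping the last column -/
private theorem P3_drop (m : ℕ) (hm : 1 ≤ m) (u : Fin m → ℝ) :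
    ∑ j ∈ univ.filter (fun j : Fin m => (j : ℕ) + 1 < m), u j
      = ∑ j, u j - u ⟨m - 1, by omega⟩ := by
  obtain ⟨n, rfl⟩ : ∃ n, m = n + 1 := ⟨m - 1, by omega⟩
  rw [Finset.sum_filter, Fin.sum_univ_castSucc, Fin.sum_univ_castSucc (f := u)]
  have h1 : (⟨n + 1 - 1, by omega⟩ : Fin (n + 1)) = Fin.last n := by
    apply Fin.ext; simp
  rw [h1]
  simp only [Fin.val_castSucc, Fin.val_last]
  rw [if_neg (by omega)]
  have : ∀ i : Fin n, (if (i : ℕ) + 1 < n + 1 then u i.castSucc else 0)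
      = u i.castSucc := fun i => if_pos (by omega)
  rw [Finset.sum_congr rfl (fun i _ => this i)]
  ring

/-- the number of the columns but one -/
private theorem P3_count (m : ℕ) (hm : 1 ≤ m) :
    (((univ.filter (fun j : Fin m => (j : ℕ) + 1 < m)).card : ℕ) : ℝ) = (m : ℝ) - 1 := by
  have h := P3_drop m hm (fun _ => (1 : ℝ))
  simp only [Finset.sum_const, nsmul_eq_mul, mul_one, card_univ, Fintype.card_fin] at h
  exact h

private theorem P3_main {m : ℕ} (hmdef : m = Fintype.card ι) (h3 : 3 ≤ m) {η k : ℝ} (hη : 0 ≤ η)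
    {q : ι → G → ℝ} (hW : WeakMin η k q) (c : ι → Fin m → ι)
    (hc : ∀ j, Function.Bijective (fun i => c i j)) :
    cmi (pf (fun s : ι × Fin m => q (c s.1 s.2)))
        (fun ω (j : Fin m) => ∑ i, ω (i, j)) (fun ω (i : ι) => ∑ j, ω (i, j))
        (fun ω => ∑ s, ω s)
      ≤ 8 * (m : ℝ) ^ 5 * η * k := by
  classical
  have hq : ∀ i, IsP (q i) := hW.prob
  have hk : mD q = k := hW.eq
  have h3c : 3 ≤ Fintype.card ι := by rw [← hmdef]; exact h3
  have hk0 : 0 ≤ k := by rw [← hk]; exact P1_k_nonneg h3c q hq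
  have hmpos : (3 : ℝ) ≤ (m : ℝ) := by exact_mod_cast h3
  have hm1 : 1 ≤ m := by omega
  have hm0 : (m : ℝ) ≠ 0 := by linarith [hmpos]
  set r : ι × Fin m → G → ℝ := fun s => q (c s.1 s.2) with hrdef
  have hr : ∀ s, IsP (r s) := fun s => hq _
  have hpf : IsP (pf r) := pf_isP r hr
  -- entropy bounds
  have hent : ∀ i, hb q - (m : ℝ) * k ≤ ent (q i) ∧ ent (q i) ≤ hb q + (m : ℝ) * k := by
    intro i
    have := P1_ent h3c q hq i
    rw [hk, ← hmdef] at this
    exact this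
  have hrd : ∀ i j, rd (q i) (q j) ≤ 2 * (m : ℝ) * k := by
    intro i j
    have := P1_rd h3c q hq i j
    rw [hk, ← hmdef] at this
    exact this
  -- total of the entropies
  have hsumq : ∑ i, ent (q i) = (m : ℝ) * hb q := by
    unfold hb
    rw [← hmdef]
    field_simp
  -- the sums `T` for `n < m`
  have hTle : ∀ i (n : ℕ), n < m → H (pf r) (P3_T i n) ≤ hb q + 5 * (m : ℝ) ^ 2 * k := by
    intro i n hn
    have h1 := P1_sum h3c q hq (fun s : ι × Fin m => c s.1 s.2)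
      ((univ.filter (fun j' : Fin m => n ≤ (j' : ℕ))).map
        ⟨fun j' => (i, j'), fun _ _ h => (Prod.mk.inj h).2⟩)
      (by
        rw [Finset.map_nonempty]
        exact ⟨⟨n, hn⟩, by simp⟩)
    have h2 : H (pf r) (P3_T i n) = H (pf (fun s : ι × Fin m => q (c s.1 s.2))) (fun ω =>
      ∑ s ∈ (univ.filter (fun j' : Fin m => n ≤ (j' : ℕ))).map
        ⟨fun j' => (i, j'), fun _ _ h => (Prod.mk.inj h).2⟩, ω s) := by
      congr 1
      funext ω
      exact P3_T_cells i n ω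
    rw [h2]
    refine h1.trans ?_
    rw [hk, ← hmdef, Finset.card_map]
    have h4 : ((univ.filter (fun j' : Fin m => n ≤ (j' : ℕ))).card : ℝ) ≤ (m : ℝ) := by
      have h5 := Finset.card_filter_le (univ : Finset (Fin m)) (fun j' : Fin m => n ≤ (j' : ℕ))
      rw [card_univ, Fintype.card_fin] at h5
      exact_mod_cast h5
    have h5 : (m : ℝ) * (m : ℝ) * k ≥ ((univ.filter (fun j' : Fin m => n ≤ (j' : ℕ))).card : ℝ) * (m : ℝ) * k := by
      have h6 : 0 ≤ (m : ℝ) * k := by positivity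
      nlinarith [mul_le_mul_of_nonneg_right h4 h6]
    nlinarith [h5]
  have hTge : ∀ i (n : ℕ), n < m → hb q - (m : ℝ) * k ≤ H (pf r) (P3_T i n) := by
    intro i n hn
    have h1 := H_sum_ge r hr (fun _ g => g) (i, ⟨n, hn⟩)
      ((univ.filter (fun j' : Fin m => n ≤ (j' : ℕ))).map
        ⟨fun j' => (i, j'), fun _ _ h => (Prod.mk.inj h).2⟩)
      (by
        rw [Finset.mem_map]
        exact ⟨⟨n, hn⟩, by simp, rfl⟩)
    have h2 : H (pf r) (P3_T i n) = H (pf r) (fun ω =>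
      ∑ s ∈ (univ.filter (fun j' : Fin m => n ≤ (j' : ℕ))).map
        ⟨fun j' => (i, j'), fun _ _ h => (Prod.mk.inj h).2⟩, ω s) := by
      congr 1
      funext ω
      exact P3_T_cells i n ω
    rw [h2]
    refine le_trans ?_ h1
    rw [← ent_eq_H]
    exact (hent _).1
  -- the row sums are `T i 0`
  have hR0 : ∀ i (ω : ι × Fin m → G), P3_T i 0 ω = ∑ j, ω (i, j) := by
    intro i ω
    unfold P3_T
    simp
  -- (1) the columns
  have hC : H (pf r) (fun ω (j : Fin m) => ∑ i, ω (i, j)) = (m : ℝ) * (k + hb q) := by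
    have hI : IndepFam (pf r) (fun (j : Fin m) (ω : ι × Fin m → G) => ∑ i, ω (i, j)) :=
      P3_cols r hr _ (fun j ω ω' h => Finset.sum_congr rfl fun i _ => h i)
    rw [H_indepFam hpf _ hI]
    have hCj : ∀ j : Fin m, H (pf r) (fun ω => ∑ i, ω (i, j)) = k + hb q := by
      intro j
      have hI2 : IndepFam (pf r) (fun (i : ι) (ω : ι × Fin m → G) => ω (i, j)) :=
        P3_rows r hr _ (fun i ω ω' h => h j)
      have h1 := H_fun_of_indepFam hpf (fun (i : ι) (ω : ι × Fin m → G) => ω (i, j)) hI2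
        (fun u : ι → G => ∑ i, u i)
      have h2 : (fun i : ι => pr (pf r) (fun ω : ι × Fin m → G => ω (i, j))) = fun i => q (c i j) := by
        funext i
        exact P3_entry r hr (i, j)
      rw [h2] at h1
      have h3' := H_pf_reindex q (Equiv.ofBijective (fun i => c i j) (hc j))
        (fun u : ι → G => ∑ i, u i)
      have h4 : (fun ω : ι → G => ∑ k, ω ((Equiv.ofBijective (fun i => c i j) (hc j)).symm k))
          = fun ω => ∑ i, ω i := by
        funext ω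
        exact Equiv.sum_comp (Equiv.ofBijective (fun i => c i j) (hc j)).symm ω
      rw [h4] at h3'
      have h5 : (fun i : ι => q ((Equiv.ofBijective (fun i => c i j) (hc j)) i))
          = fun i => q (c i j) := rfl
      rw [h5] at h3'
      have h6 : H (pf q) (fun u : ι → G => ∑ i, u i) = k + hb q := by
        have : mD q = H (pf q) (fun u : ι → G => ∑ i, u i) - hb q := rfl
        linarith
      exact h1.trans (h3'.symm.trans h6)
    rw [Finset.sum_congr rfl (fun j _ => hCj j), Finset.sum_const, nsmul_eq_mul, card_univ,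
      Fintype.card_fin]
  -- (2) the total
  have hRI : IndepFam (pf r) (fun (i : ι) (ω : ι × Fin m → G) => ∑ j, ω (i, j)) :=
    P3_rows r hr _ (fun i ω ω' h => Finset.sum_congr rfl fun j _ => h j)
  have hWt : k - η * ∑ i, rd (q i) (pr (pf r) (fun ω => ∑ j, ω (i, j)))
      + (∑ i, H (pf r) (fun ω => ∑ j, ω (i, j))) / (m : ℝ) ≤ H (pf r) (fun ω => ∑ s, ω s) := by
    have h1 := hW.le (fun i => pr (pf r) (fun ω => ∑ j, ω (i, j))) (fun i => pr_isP hpf _) 1
    have h2 := H_fun_of_indepFam hpf (fun (i : ι) (ω : ι × Fin m → G) => ∑ j, ω (i, j)) hRI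
      (fun u : ι → G => ∑ i, u i)
    have h4 : (fun ω : ι × Fin m → G => ∑ i, ∑ j, ω (i, j)) = fun ω => ∑ s, ω s := by
      funext ω
      exact (Fintype.sum_prod_type ω).symm
    have h2' : H (pf r) (fun ω : ι × Fin m → G => ∑ s, ω s)
        = H (pf (fun i => pr (pf r) (fun ω : ι × Fin m → G => ∑ j, ω (i, j))))
          (fun u : ι → G => ∑ i, u i) := by
      rw [← h4]; exact h2
    unfold mD at h1
    rw [← h2', ← hmdef] at h1
    have h5 : ∀ i, ent (pr (pf r) (fun ω : ι × Fin m → G => ∑ j, ω (i, j)))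
        = H (pf r) (fun ω => ∑ j, ω (i, j)) := fun i => (H_eq_ent _ _).symm
    rw [Finset.sum_congr rfl (fun i _ => h5 i)] at h1
    simp only [Equiv.Perm.coe_one, id_eq] at h1
    linarith
  -- (3), (4) one column
  have hcol : ∀ j : Fin m, (j : ℕ) + 1 < m →
      k - η * ∑ i, rdc (q (c i j)) (pf r) (fun ω => ω (i, j)) (P3_T i (j : ℕ))
        + (∑ i, (ent (q (c i j)) + (H (pf r) (P3_T i ((j : ℕ) + 1)) - H (pf r) (P3_T i (j : ℕ)))))
          / (m : ℝ)
      ≤ H (pf r) (fun ω => (∑ i, ω (i, j), fun i => P3_T i (j : ℕ) ω))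
          - H (pf r) (fun ω i => P3_T i (j : ℕ) ω) := by
    intro j hj
    have hI : IndepFam (pf r) (fun (i : ι) (ω : ι × Fin m → G) => (ω (i, j), P3_T i (j : ℕ) ω)) := by
      refine P3_rows r hr _ (fun i ω ω' h => ?_)
      have h1 : P3_T i (j : ℕ) ω = P3_T i (j : ℕ) ω' := by
        unfold P3_T
        exact Finset.sum_congr rfl fun j' _ => h j'
      rw [h1, h j]
    have h1 := weakMin_cond hW hη hpf (fun (i : ι) (ω : ι × Fin m → G) => ω (i, j))
      (fun i => P3_T i (j : ℕ)) hI (Equiv.ofBijective (fun i => c i j) (hc j))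
    rw [← hmdef] at h1
    have h2 : ∀ i, H (pf r) (fun ω => (ω (i, j), P3_T i (j : ℕ) ω)) - H (pf r) (P3_T i (j : ℕ))
        = ent (q (c i j)) + (H (pf r) (P3_T i ((j : ℕ) + 1)) - H (pf r) (P3_T i (j : ℕ))) := by
      intro i
      rw [P3_step r hr i j]
      ring
    rw [Finset.sum_congr rfl (fun i _ => h2 i)] at h1
    have h3' : ∀ i, (Equiv.ofBijective (fun i => c i j) (hc j)) i = c i j := fun i => rfl
    simp only [h3'] at h1
    linarith
  have hchain := P3_chain r hr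
  have hchain' : ∑ j ∈ univ.filter (fun j : Fin m => (j : ℕ) + 1 < m),
      (k - η * ∑ i, rdc (q (c i j)) (pf r) (fun ω => ω (i, j)) (P3_T i (j : ℕ))
        + (∑ i, (ent (q (c i j)) + (H (pf r) (P3_T i ((j : ℕ) + 1)) - H (pf r) (P3_T i (j : ℕ)))))
          / (m : ℝ))
      ≤ H (pf r) (fun ω => (fun j : Fin m => ∑ i, ω (i, j), fun i : ι => ∑ j, ω (i, j)))
          - H (pf r) (fun ω (i : ι) => ∑ j, ω (i, j)) := by
    refine le_trans (Finset.sum_le_sum fun j hj => ?_) hchain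
    have hj' : (j : ℕ) + 1 < m := (Finset.mem_filter.mp hj).2
    have h1 := hcol j hj'
    have h2 : ∀ (i : ι) (ω : ι × Fin m → G),
        ∑ j' ∈ univ.filter (fun j' => j ≤ j'), ω (i, j') = P3_T i (j : ℕ) ω := by
      intro i ω
      unfold P3_T
      exact Finset.sum_congr (Finset.filter_congr fun j' _ => Fin.le_def) fun _ _ => rfl
    simp only [h2]
    exact h1
  -- evaluate the left side
  have hS1 : ∑ j ∈ univ.filter (fun j : Fin m => (j : ℕ) + 1 < m),
      (k - η * ∑ i, rdc (q (c i j)) (pf r) (fun ω => ω (i, j)) (P3_T i (j : ℕ))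
        + (∑ i, (ent (q (c i j)) + (H (pf r) (P3_T i ((j : ℕ) + 1)) - H (pf r) (P3_T i (j : ℕ)))))
          / (m : ℝ))
      = ((m : ℝ) - 1) * k
        - η * (∑ j ∈ univ.filter (fun j : Fin m => (j : ℕ) + 1 < m),
            ∑ i, rdc (q (c i j)) (pf r) (fun ω => ω (i, j)) (P3_T i (j : ℕ)))
        + ((m : ℝ) * ((m : ℝ) * hb q) - ∑ i, H (pf r) (fun ω => ∑ j, ω (i, j))) / (m : ℝ) := by
    rw [Finset.sum_add_distrib, Finset.sum_sub_distrib, Finset.sum_const, nsmul_eq_mul,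
      P3_count m hm1, ← Finset.mul_sum, ← Finset.sum_div]
    congr 2
    rw [Finset.sum_comm]
    have h1 : ∀ i : ι, ∑ j ∈ univ.filter (fun j : Fin m => (j : ℕ) + 1 < m),
        (ent (q (c i j)) + (H (pf r) (P3_T i ((j : ℕ) + 1)) - H (pf r) (P3_T i (j : ℕ))))
        = ∑ j, ent (q (c i j)) - H (pf r) (fun ω => ∑ j, ω (i, j)) := by
      intro i
      rw [Finset.sum_add_distrib, P3_drop m hm1 (fun j => ent (q (c i j))),
        P3_tele m hm1 (fun n => H (pf r) (P3_T i n))]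
      have h2 : H (pf r) (P3_T i 0) = H (pf r) (fun ω => ∑ j, ω (i, j)) := by
        congr 1
        funext ω
        exact hR0 i ω
      have h4 : H (pf r) (P3_T i (m - 1)) = ent (q (c i ⟨m - 1, by omega⟩)) := by
        have h5 : P3_T i (m - 1) = fun ω : ι × Fin m → G => ω (i, ⟨m - 1, by omega⟩) := by
          funext ω
          unfold P3_T
          rw [Finset.sum_eq_single ⟨m - 1, by omega⟩]
          · intro j' hj' hne
            exfalso
            have h6 := (Finset.mem_filter.mp hj').2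
            have h7 := j'.2
            exact hne (Fin.ext (by simp only; omega))
          · intro hn
            exfalso
            exact hn (Finset.mem_filter.mpr ⟨mem_univ _, le_refl _⟩)
        rw [h5]
        exact P3_H_entry r hr (i, ⟨m - 1, by omega⟩)
      rw [h2, h4]
      ring
    rw [Finset.sum_congr rfl (fun i _ => h1 i), Finset.sum_sub_distrib]
    congr 1
    rw [Finset.sum_comm]
    have h2 : ∀ j : Fin m, ∑ i, ent (q (c i j)) = (m : ℝ) * hb q := by
      intro j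
      rw [← hsumq]
      exact Equiv.sum_comp (Equiv.ofBijective (fun i => c i j) (hc j)) (fun i => ent (q i))
    rw [Finset.sum_congr rfl (fun j _ => h2 j)]
    simp
  -- (5) the errors
  have hE1 : ∀ i, rd (q i) (pr (pf r) (fun ω => ∑ j, ω (i, j))) ≤ 4 * (m : ℝ) ^ 3 * k := by
    intro i
    have hI : Indep (pf r) (fun ω : ι × Fin m → G => ω (i, ⟨0, by omega⟩))
        (fun ω : ι × Fin m → G => P3_T i 1 ω) := by
      refine indep_pf r hr {(i, ⟨0, by omega⟩)} (univ.filter (fun s => s.1 = i ∧ 1 ≤ (s.2 : ℕ))) ?_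
        _ _ ?_ ?_
      · rw [Finset.disjoint_left]
        intro s hs hs'
        simp only [mem_singleton] at hs
        simp only [mem_filter, mem_univ, true_and] at hs'
        rw [hs] at hs'
        have := hs'.2
        simp at this
      · intro ω ω' h
        exact h (i, ⟨0, by omega⟩) (by simp)
      · intro ω ω' h
        unfold P3_T
        refine Finset.sum_congr rfl fun j' hj' => ?_
        simp only [mem_filter, mem_univ, true_and] at hj'
        exact h (i, j') (by simp only [mem_filter, mem_univ, true_and]; exact hj')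
    have h1 := rd_add_le hpf (hq i) _ _ hI
    have h2 : (fun ω : ι × Fin m → G => ω (i, ⟨0, by omega⟩) + P3_T i 1 ω)
        = fun ω => ∑ j, ω (i, j) := by
      funext ω
      rw [← hR0 i ω]
      exact (P3_T_succ i ⟨0, by omega⟩ ω).symm
    rw [h2, P3_entry r hr, P3_H_entry r hr] at h1
    have h4 : H (pf r) (fun ω => ∑ j, ω (i, j)) ≤ hb q + 5 * (m : ℝ) ^ 2 * k := by
      have h5 := hTle i 0 (by omega)
      have h6 : H (pf r) (P3_T i 0) = H (pf r) (fun ω => ∑ j, ω (i, j)) := by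
        congr 1
        funext ω
        exact hR0 i ω
      rw [← h6]; exact h5
    have h7 := hrd i (c i ⟨0, by omega⟩)
    have h8 := (hent (c i ⟨0, by omega⟩)).1
    have h9 : rd (q i) (pr (pf r) (fun ω => ∑ j, ω (i, j)))
        ≤ 2 * (m : ℝ) * k + (5 * (m : ℝ) ^ 2 * k + (m : ℝ) * k) / 2 := by
      have : r (i, ⟨0, by omega⟩) = q (c i ⟨0, by omega⟩) := rfl
      rw [this] at h1
      linarith
    refine h9.trans ?_
    have h10 : 2 * (m : ℝ) + (5 * (m : ℝ) ^ 2 + (m : ℝ)) / 2 ≤ 4 * (m : ℝ) ^ 3 := by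
      nlinarith [hmpos, mul_nonneg (by linarith : (0:ℝ) ≤ (m:ℝ) - 3) (by positivity : (0:ℝ) ≤ (m:ℝ)),
        mul_nonneg (by linarith : (0:ℝ) ≤ (m:ℝ) - 3) (by positivity : (0:ℝ) ≤ (m:ℝ)^2)]
    nlinarith [mul_le_mul_of_nonneg_right h10 hk0]
  have hE2 : ∀ j : Fin m, (j : ℕ) + 1 < m → ∀ i,
      rdc (q (c i j)) (pf r) (fun ω => ω (i, j)) (P3_T i (j : ℕ)) ≤ 4 * (m : ℝ) ^ 3 * k := by
    intro j hj i
    have h1 := rdc_le hpf (hq (c i j)) (fun ω : ι × Fin m → G => ω (i, j)) (P3_T i (j : ℕ))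
    rw [P3_step r hr i j, P3_entry r hr, P3_H_entry r hr] at h1
    have h2 := hTle i (j : ℕ) j.2
    have h4 := hTge i ((j : ℕ) + 1) hj
    have h7 := hrd (c i j) (c i j)
    have h9 : rdc (q (c i j)) (pf r) (fun ω => ω (i, j)) (P3_T i (j : ℕ))
        ≤ 2 * (m : ℝ) * k + (5 * (m : ℝ) ^ 2 * k + (m : ℝ) * k) / 2 := by
      have : r (i, j) = q (c i j) := rfl
      rw [this] at h1
      linarith
    refine h9.trans ?_
    have h10 : 2 * (m : ℝ) + (5 * (m : ℝ) ^ 2 + (m : ℝ)) / 2 ≤ 4 * (m : ℝ) ^ 3 := by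
      nlinarith [hmpos, mul_nonneg (by linarith : (0:ℝ) ≤ (m:ℝ) - 3) (by positivity : (0:ℝ) ≤ (m:ℝ)),
        mul_nonneg (by linarith : (0:ℝ) ≤ (m:ℝ) - 3) (by positivity : (0:ℝ) ≤ (m:ℝ)^2)]
    nlinarith [mul_le_mul_of_nonneg_right h10 hk0]
  have hE1s : ∑ i, rd (q i) (pr (pf r) (fun ω => ∑ j, ω (i, j))) ≤ (m : ℝ) * (4 * (m : ℝ) ^ 3 * k) := by
    refine (Finset.sum_le_sum fun i _ => hE1 i).trans ?_
    rw [Finset.sum_const, nsmul_eq_mul, card_univ, ← hmdef]
  have hE2s : ∑ j ∈ univ.filter (fun j : Fin m => (j : ℕ) + 1 < m),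
      ∑ i, rdc (q (c i j)) (pf r) (fun ω => ω (i, j)) (P3_T i (j : ℕ))
      ≤ ((m : ℝ) - 1) * ((m : ℝ) * (4 * (m : ℝ) ^ 3 * k)) := by
    have h1 : ∀ j ∈ univ.filter (fun j : Fin m => (j : ℕ) + 1 < m),
        ∑ i, rdc (q (c i j)) (pf r) (fun ω => ω (i, j)) (P3_T i (j : ℕ))
          ≤ (m : ℝ) * (4 * (m : ℝ) ^ 3 * k) := by
      intro j hj
      refine (Finset.sum_le_sum fun i _ => hE2 j (Finset.mem_filter.mp hj).2 i).trans ?_
      rw [Finset.sum_const, nsmul_eq_mul, card_univ, ← hmdef]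
    refine (Finset.sum_le_sum h1).trans ?_
    rw [Finset.sum_const, nsmul_eq_mul, P3_count m hm1]
  -- cmi
  have hcm1 : H (pf r) (fun ω => ((fun j : Fin m => ∑ i, ω (i, j)), ∑ s, ω s))
      = H (pf r) (fun ω (j : Fin m) => ∑ i, ω (i, j)) :=
    H_congr hpf _ _ (fun x => x.1) (fun x => (x, ∑ j, x j)) (fun ω => rfl)
      (fun ω => by
        have : ∑ s, ω s = ∑ j, ∑ i, ω (i, j) := Fintype.sum_prod_type_right ω
        rw [this])
  have hcm2 : H (pf r) (fun ω => ((fun i : ι => ∑ j, ω (i, j)), ∑ s, ω s))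
      = H (pf r) (fun ω (i : ι) => ∑ j, ω (i, j)) :=
    H_congr hpf _ _ (fun x => x.1) (fun x => (x, ∑ i, x i)) (fun ω => rfl)
      (fun ω => by
        have : ∑ s, ω s = ∑ i, ∑ j, ω (i, j) := Fintype.sum_prod_type ω
        rw [this])
  have hcm3 : H (pf r) (fun ω => ((fun j : Fin m => ∑ i, ω (i, j)), (fun i : ι => ∑ j, ω (i, j)),
        ∑ s, ω s))
      = H (pf r) (fun ω => (fun j : Fin m => ∑ i, ω (i, j), fun i : ι => ∑ j, ω (i, j))) :=
    H_congr hpf _ _ (fun x => (x.1, x.2.1)) (fun x => (x.1, x.2, ∑ i, x.2 i)) (fun ω => rfl)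
      (fun ω => by
        have : ∑ s, ω s = ∑ i, ∑ j, ω (i, j) := Fintype.sum_prod_type ω
        rw [this])
  show H (pf r) (fun ω => ((fun j : Fin m => ∑ i, ω (i, j)), ∑ s, ω s))
    + H (pf r) (fun ω => ((fun i : ι => ∑ j, ω (i, j)), ∑ s, ω s))
    - H (pf r) (fun ω => ((fun j : Fin m => ∑ i, ω (i, j)), (fun i : ι => ∑ j, ω (i, j)),
        ∑ s, ω s)) - H (pf r) (fun ω => ∑ s, ω s) ≤ _
  rw [hcm1, hcm2, hcm3, hC]
  rw [hS1] at hchain'
  have hdiv : ((m : ℝ) * ((m : ℝ) * hb q) - ∑ i, H (pf r) (fun ω => ∑ j, ω (i, j))) / (m : ℝ)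
      = (m : ℝ) * hb q - (∑ i, H (pf r) (fun ω => ∑ j, ω (i, j))) / (m : ℝ) := by
    field_simp
  rw [hdiv] at hchain'
  have hE1' := mul_le_mul_of_nonneg_left hE1s hη
  have hE2' := mul_le_mul_of_nonneg_left hE2s hη
  have hfin : η * ((m : ℝ) * (4 * (m : ℝ) ^ 3 * k)) + η * (((m : ℝ) - 1) * ((m : ℝ) * (4 * (m : ℝ) ^ 3 * k)))
      ≤ 8 * (m : ℝ) ^ 5 * η * k := by
    have h1 : 0 ≤ (m : ℝ) ^ 5 * η * k := by positivity
    have h2 : η * ((m : ℝ) * (4 * (m : ℝ) ^ 3 * k)) + η * (((m : ℝ) - 1) * ((m : ℝ) * (4 * (m : ℝ) ^ 3 * k)))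
        = 4 * ((m : ℝ) ^ 5 * η * k) := by ring
    rw [h2]
    nlinarith
  linarith



theorem array_ineq (h3 : 3 ≤ Fintype.card ι) {η k : ℝ} (hη : 0 ≤ η) {q : ι → G → ℝ}
    (hW : WeakMin η k q) (c : ι → Fin (Fintype.card ι) → ι) (hc : ∀ j, Function.Bijective (fun i => c i j)) :
    cmi (pf (fun s : ι × Fin (Fintype.card ι) => q (c s.1 s.2)))
        (fun ω (j : Fin (Fintype.card ι)) => ∑ i, ω (i, j)) (fun ω (i : ι) => ∑ j, ω (i, j))
        (fun ω => ∑ s, ω s)
      ≤ 8 * (Fintype.card ι : ℝ) ^ 5 * η * k :=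
  P3_main rfl h3 hη hW c hc

end Pool.Agent.Ldc
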