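import Pool.Agent.Ldc.P3
set_option autoImplicit false

/-!
# P4.  The three combinations `Z1, Z2, Z3` of the array.

`ω : ZMod m × ZMod m → G`, entry `(i,j)` has law `q i`, `G` a `ZMod m`-module,
`W = Σ ω`, `Z1 = Σ i•ω(i,j)`, `Z2 = Σ j•ω(i,j)`, `Z3 = Σ (-i-j)•ω(i,j)`.
`I[Z_a : Z_b | W] ≤ 8 m⁵ η k`: `array_ineq` for a reindexed array (`H_pf_reindex`) and `cmi_comp_le`
(`Z_a` is a function of the row sums, `Z_b` of the column sums), columns numbered by `Fin m ≃ ZMod m`.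
* (Z2, Z1): rows `i`, columns `j`, `c i j = i`.
* (Z3, Z1): entry in row `i`, column `b` is `ω(i, -i-b)`, law `q i`: `c i b = i`.
  Row sums `Σ_j ω(i,j)`; column sums `Σ_i ω(i,-i-b)`; `Z3 = Σ_b b • (column sum b)`.
* (Z3, Z2): entry in row `a`, column `b` is `ω(-a-b, a)`, law `q (-a-b)`: `c a b = -a-b`, bijective in `a`.
  Row sum `a` is `Σ_i ω(i,a)`, `Z2 = Σ_a a • (row sum a)`, `Z3 = Σ_b b • (column sum b)`.
-/
namespace Pool.Agent.Ldc
open Finset
variable {m : ℕ} [NeZero m] {G : Type} [AddCommGroup G] [Fintype G] [Module (ZMod m) G]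

/-- law of the array -/
noncomputable def arr (q : ZMod m → G → ℝ) : (ZMod m × ZMod m → G) → ℝ := pf (fun s => q s.1)

/-- the total sum and the three combinations -/
def Wt (ω : ZMod m × ZMod m → G) : G := ∑ s, ω s
def Z1 (ω : ZMod m × ZMod m → G) : G := ∑ s : ZMod m × ZMod m, s.1 • ω s
def Z2 (ω : ZMod m × ZMod m → G) : G := ∑ s : ZMod m × ZMod m, s.2 • ω s
def Z3 (ω : ZMod m × ZMod m → G) : G := ∑ s : ZMod m × ZMod m, (-s.1 - s.2) • ω s

theorem P4_cmi_comm {Ω α β δ : Type} [Fintype Ω] {p : Ω → ℝ} (hp : IsP p) (f : Ω → α) (g : Ω → β)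
    (h : Ω → δ) : cmi p f g h = cmi p g f h := by
  unfold cmi
  rw [H_congr hp (fun ω => (f ω, g ω, h ω)) (fun ω => (g ω, f ω, h ω))
    (fun u => (u.2.1, u.1, u.2.2)) (fun u => (u.2.1, u.1, u.2.2)) (fun _ => rfl) (fun _ => rfl)]
  ring

theorem P4_arr_isP {q : ZMod m → G → ℝ} (hq : ∀ i, IsP (q i)) : IsP (arr q) :=
  pf_isP _ fun s => hq s.1

theorem P4_gen (h3 : 3 ≤ m) {η k : ℝ} (hη : 0 ≤ η) {q : ZMod m → G → ℝ} (hW : WeakMin η k q)
    (e : Fin (Fintype.card (ZMod m)) ≃ ZMod m)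
    (ψ : ZMod m × Fin (Fintype.card (ZMod m)) ≃ ZMod m × ZMod m)
    (hψ : ∀ j, Function.Bijective (fun i => (ψ (i, j)).1))
    (wc wr : ZMod m × ZMod m → ZMod m) (hc : ∀ s, wc (ψ s) = e s.2) (hr : ∀ s, wr (ψ s) = s.1) :
    cmi (arr q) (fun ω => ∑ s, wc s • ω s) (fun ω => ∑ s, wr s • ω s) Wt
      ≤ 8 * (m : ℝ) ^ 5 * η * k := by
  have hcard : Fintype.card (ZMod m) = m := ZMod.card m
  have hA := array_ineq (by rw [hcard]; exact h3) hη hW (fun i j => (ψ (i, j)).1) hψ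
  have hN : ((Fintype.card (ZMod m) : ℕ) : ℝ) = (m : ℝ) := by exact_mod_cast hcard
  rw [hN] at hA
  have hP : IsP (pf (fun s : ZMod m × Fin (Fintype.card (ZMod m)) => q ((ψ s).1))) :=
    pf_isP _ fun s => hW.prob _
  have hB := cmi_comp_le hP
    (fun ω (j : Fin (Fintype.card (ZMod m))) => ∑ i, ω (i, j)) (fun ω (i : ZMod m) => ∑ j, ω (i, j))
    (fun ω => ∑ s, ω s) (fun v : Fin (Fintype.card (ZMod m)) → G => ∑ j, e j • v j)
    (fun v : ZMod m → G => ∑ i, i • v i)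
  refine le_trans (le_of_eq ?_) (hB.trans hA)
  have e1 : ∀ ω : ZMod m × Fin (Fintype.card (ZMod m)) → G,
      ∑ s, wc s • ω (ψ.symm s) = ∑ j, e j • ∑ i, ω (i, j) := by
    intro ω
    rw [← Equiv.sum_comp ψ, Fintype.sum_prod_type_right]
    refine Finset.sum_congr rfl fun j _ => ?_
    rw [Finset.smul_sum]
    refine Finset.sum_congr rfl fun i _ => ?_
    rw [hc, Equiv.symm_apply_apply]
  have e2 : ∀ ω : ZMod m × Fin (Fintype.card (ZMod m)) → G,
      ∑ s, wr s • ω (ψ.symm s) = ∑ i, i • ∑ j, ω (i, j) := by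
    intro ω
    rw [← Equiv.sum_comp ψ, Fintype.sum_prod_type]
    refine Finset.sum_congr rfl fun j _ => ?_
    rw [Finset.smul_sum]
    refine Finset.sum_congr rfl fun i _ => ?_
    rw [hr, Equiv.symm_apply_apply]
  have e3 : ∀ ω : ZMod m × Fin (Fintype.card (ZMod m)) → G,
      Wt (fun s => ω (ψ.symm s)) = ∑ s, ω s := by
    intro ω
    unfold Wt
    exact Equiv.sum_comp ψ.symm ω
  unfold cmi arr
  rw [H_pf_reindex _ ψ, H_pf_reindex _ ψ, H_pf_reindex _ ψ, H_pf_reindex _ ψ]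
  simp only [e1, e2, e3]

theorem P4_21 (h3 : 3 ≤ m) {η k : ℝ} (hη : 0 ≤ η) {q : ZMod m → G → ℝ} (hW : WeakMin η k q) :
    cmi (arr q) Z2 Z1 Wt ≤ 8 * (m : ℝ) ^ 5 * η * k := by
  obtain e := (Fintype.equivFin (ZMod m)).symm
  exact P4_gen h3 hη hW e (Equiv.prodCongr (Equiv.refl _) e)
    (fun j => Function.bijective_id) (fun s => s.2) (fun s => s.1) (fun s => rfl) (fun s => rfl)

theorem P4_12 (h3 : 3 ≤ m) {η k : ℝ} (hη : 0 ≤ η) {q : ZMod m → G → ℝ} (hW : WeakMin η k q) :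
    cmi (arr q) Z1 Z2 Wt ≤ 8 * (m : ℝ) ^ 5 * η * k := by
  rw [P4_cmi_comm (P4_arr_isP hW.prob)]
  exact P4_21 h3 hη hW

theorem P4_23 (h3 : 3 ≤ m) {η k : ℝ} (hη : 0 ≤ η) {q : ZMod m → G → ℝ} (hW : WeakMin η k q) :
    cmi (arr q) Z2 Z3 Wt ≤ 8 * (m : ℝ) ^ 5 * η * k := by
  rw [P4_cmi_comm (P4_arr_isP hW.prob)]
  obtain e := (Fintype.equivFin (ZMod m)).symm
  let ψ : ZMod m × Fin (Fintype.card (ZMod m)) ≃ ZMod m × ZMod m :=
    { toFun := fun s => (-s.1 - e s.2, s.1)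
      invFun := fun s => (s.2, e.symm (-s.2 - s.1))
      left_inv := fun s => by
        ext
        · rfl
        · simp
      right_inv := fun s => by
        ext
        · simp
        · rfl }
  refine P4_gen h3 hη hW e ψ ?_ (fun s => -s.1 - s.2) (fun s => s.2) ?_ (fun s => rfl)
  · intro j
    constructor
    · intro a b h
      have h' : -a - e j = -b - e j := h
      simpa using h'
    · intro b
      refine ⟨-b - e j, ?_⟩
      change -(-b - e j) - e j = b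
      ring
  · intro s
    change -(-s.1 - e s.2) - s.1 = e s.2
    ring

theorem P4_31 (h3 : 3 ≤ m) {η k : ℝ} (hη : 0 ≤ η) {q : ZMod m → G → ℝ} (hW : WeakMin η k q) :
    cmi (arr q) Z3 Z1 Wt ≤ 8 * (m : ℝ) ^ 5 * η * k := by
  obtain e := (Fintype.equivFin (ZMod m)).symm
  let ψ : ZMod m × Fin (Fintype.card (ZMod m)) ≃ ZMod m × ZMod m :=
    { toFun := fun s => (s.1, -s.1 - e s.2)
      invFun := fun s => (s.1, e.symm (-s.1 - s.2))
      left_inv := fun s => by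
        ext
        · rfl
        · simp
      right_inv := fun s => by
        ext
        · rfl
        · simp }
  refine P4_gen h3 hη hW e ψ ?_ (fun s => -s.1 - s.2) (fun s => s.1) ?_ (fun s => rfl)
  · intro j
    exact Function.bijective_id
  · intro s
    change -s.1 - (-s.1 - e s.2) = e s.2
    ring

end Pool.Agent.Ldc
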