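import Pool.Agent.Ldc.P4
set_option autoImplicit false
set_option linter.unusedSectionVars false

/-!
# P5.  Bounds for `W` and `Z2` on the array.

* `P5_W`: `I[Z2 : W] = H(W) - (H(W,Z2) - H(Z2))`.  `H(W) ≤ h̄ + 5 m² m k` (P1_sum with S = univ), and
  `H(W | Z2) ≥ H(W | all ω(i,j), j ≠ 0) = H(Σ_i ω(i,0)) ≥ h̄ - m k` (the entries with `j = 0` do not enter
  `Z2`; independence).  So `≤ 5m³k + mk ≤ 6 m³ k`.
* `P5_rd`: `rd (q i) (law Z2) ≤ rd (q i) (law ω(i,1)) + (H(Z2) - H(ω(i,1)))/2`  (`rd_add_le`,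
  `Z2 = ω(i,1) + Σ_{s ≠ (i,1)} s.2 • ω s`, as `1 • x = x`; `s.2 • x = (s.2).val • x`), `P1_dil` with
  `card S ≤ m²`: `≤ 2mk + 5m⁴k ≤ 6 m⁴ k`.
-/
namespace Pool.Agent.Ldc
open Finset
variable {m : ℕ} [NeZero m] {G : Type} [AddCommGroup G] [Fintype G] [Module (ZMod m) G]

/-- the array with the column `0` erased -/
def P5_g (ω : ZMod m × ZMod m → G) : ZMod m × ZMod m → G := fun s => if s.2 = 0 then 0 else ω s

/-- the sum of the column `0` -/
def P5_U (ω : ZMod m × ZMod m → G) : G :=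
  ∑ s ∈ univ.filter (fun s : ZMod m × ZMod m => s.2 = 0), ω s

theorem P5_Z2_g (ω : ZMod m × ZMod m → G) : Z2 (P5_g ω) = Z2 ω := by
  unfold Z2 P5_g
  refine Finset.sum_congr rfl (fun s _ => ?_)
  by_cases h : s.2 = 0
  · simp [h]
  · simp [h]

theorem P5_W_split (ω : ZMod m × ZMod m → G) : Wt ω = P5_U ω + ∑ s, P5_g ω s := by
  unfold Wt P5_U P5_g
  rw [Finset.sum_filter, ← Finset.sum_add_distrib]
  refine Finset.sum_congr rfl (fun s _ => ?_)
  by_cases h : s.2 = 0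
  · simp [h]
  · simp [h]

theorem P5_arr_isP {q : ZMod m → G → ℝ} (hq : ∀ i, IsP (q i)) : IsP (arr q) :=
  pf_isP _ (fun s => hq s.1)

theorem P5_W (h3 : 3 ≤ m) {q : ZMod m → G → ℝ} (hq : ∀ i, IsP (q i)) :
    H (arr q) Z2 + H (arr q) Wt - H (arr q) (fun ω => (Z2 ω, Wt ω)) ≤ 6 * (m : ℝ) ^ 3 * mD q := by
  have hcard : Fintype.card (ZMod m) = m := ZMod.card m
  have h3' : 3 ≤ Fintype.card (ZMod m) := by rw [hcard]; exact h3
  have hp : IsP (arr q) := P5_arr_isP hq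
  have hk : 0 ≤ mD q := P1_k_nonneg h3' q hq
  have hm3 : (3 : ℝ) ≤ (m : ℝ) := by exact_mod_cast h3
  -- upper bound on `H(W)`
  have h1 : H (arr q) Wt ≤ hb q + 5 * ((m : ℝ) * m) * (m : ℝ) * mD q := by
    have h := P1_sum h3' q hq (κ := ZMod m × ZMod m) (fun s => s.1) univ univ_nonempty
    rw [Finset.card_univ, Fintype.card_prod, hcard] at h
    push_cast at h
    exact h
  -- lower bound on the conditional entropy
  have h2 : H (arr q) (fun ω => (Wt ω, P5_g ω)) - H (arr q) P5_g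
      ≤ H (arr q) (fun ω => (Wt ω, Z2 ω)) - H (arr q) Z2 := by
    have h := H_cond_anti hp Wt (P5_g (m := m) (G := G)) (Z2 (m := m) (G := G))
    simp only [P5_Z2_g] at h
    exact h
  have h3a : H (arr q) (fun ω => (Wt ω, P5_g ω)) = H (arr q) (fun ω => (P5_U ω, P5_g ω)) := by
    refine H_congr hp _ _ (fun x => (x.1 - ∑ s, x.2 s, x.2)) (fun x => (x.1 + ∑ s, x.2 s, x.2)) ?_ ?_
    · intro ω
      simp only [P5_W_split ω, add_sub_cancel_right]
    · intro ω
      simp only [P5_W_split ω]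
  have h3b : Indep (arr q) P5_U P5_g := by
    refine indep_pf (fun s : ZMod m × ZMod m => q s.1) (fun s => hq s.1)
      (univ.filter (fun s : ZMod m × ZMod m => s.2 = 0))
      (univ.filter (fun s : ZMod m × ZMod m => ¬ s.2 = 0)) ?_ _ _ ?_ ?_
    · exact Finset.disjoint_filter_filter_not _ _ _
    · intro ω ω' h
      unfold P5_U
      exact Finset.sum_congr rfl h
    · intro ω ω' h
      funext s
      unfold P5_g
      by_cases hs : s.2 = 0
      · simp [hs]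
      · simp only [hs, if_false]
        exact h s (by simp [hs])
  have h3c : H (arr q) (fun ω => (P5_U ω, P5_g ω)) = H (arr q) P5_U + H (arr q) P5_g :=
    H_indep hp _ _ h3b
  have h4 : ent (q 0) ≤ H (arr q) P5_U := by
    have h := H_sum_ge (fun s : ZMod m × ZMod m => q s.1) (fun s => hq s.1) (fun _ x => x)
      ((0 : ZMod m), (0 : ZMod m)) (univ.filter (fun s : ZMod m × ZMod m => s.2 = 0)) (by simp)
    rw [← ent_eq_H] at h
    exact h
  have h5 := (P1_ent h3' q hq 0).1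
  rw [hcard] at h5
  have h6 : H (arr q) (fun ω => (Z2 ω, Wt ω)) = H (arr q) (fun ω => (Wt ω, Z2 ω)) :=
    H_congr hp _ _ Prod.swap Prod.swap (fun _ => rfl) (fun _ => rfl)
  have h7 : (m : ℝ) * mD q ≤ (m : ℝ) ^ 3 * mD q := by
    refine mul_le_mul_of_nonneg_right ?_ hk
    nlinarith
  rw [h6]
  nlinarith

theorem P5_Z2_split (ω : ZMod m × ZMod m → G) (i : ZMod m) :
    Z2 ω = ω (i, 1) + ∑ s ∈ univ.erase ((i, 1) : ZMod m × ZMod m), (s.2).val • ω s := by
  unfold Z2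
  rw [← Finset.add_sum_erase univ _ (Finset.mem_univ ((i, 1) : ZMod m × ZMod m))]
  simp only [one_smul]
  congr 1
  refine Finset.sum_congr rfl (fun s _ => ?_)
  rw [← Nat.cast_smul_eq_nsmul (ZMod m), ZMod.natCast_zmod_val]

theorem P5_rd (h3 : 3 ≤ m) {q : ZMod m → G → ℝ} (hq : ∀ i, IsP (q i)) (i : ZMod m) :
    rd (q i) (pr (arr q) Z2) ≤ 6 * (m : ℝ) ^ 4 * mD q := by
  have hcard : Fintype.card (ZMod m) = m := ZMod.card m
  have h3' : 3 ≤ Fintype.card (ZMod m) := by rw [hcard]; exact h3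
  have hp : IsP (arr q) := P5_arr_isP hq
  have hk : 0 ≤ mD q := P1_k_nonneg h3' q hq
  have hm3 : (3 : ℝ) ≤ (m : ℝ) := by exact_mod_cast h3
  have hZ : (Z2 : (ZMod m × ZMod m → G) → G) = fun ω => ω (i, 1)
      + ∑ s ∈ univ.erase ((i, 1) : ZMod m × ZMod m), (s.2).val • ω s := by
    funext ω
    exact P5_Z2_split ω i
  have hI : Indep (arr q) (fun ω => ω (i, 1))
      (fun ω => ∑ s ∈ univ.erase ((i, 1) : ZMod m × ZMod m), (s.2).val • ω s) := by
    refine indep_pf (fun s : ZMod m × ZMod m => q s.1) (fun s => hq s.1)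
      {(i, 1)} (univ.erase ((i, 1) : ZMod m × ZMod m)) ?_ _ _ ?_ ?_
    · rw [Finset.disjoint_singleton_left]
      exact Finset.notMem_erase _ _
    · intro ω ω' h
      exact h _ (Finset.mem_singleton_self _)
    · intro ω ω' h
      refine Finset.sum_congr rfl (fun s hs => ?_)
      rw [h s hs]
  have h1 := rd_add_le hp (hq i) _ _ hI
  have hpr : pr (arr q) (fun ω => ω (i, 1)) = q i := by
    have h := pr_pf_coord (fun s : ZMod m × ZMod m => q s.1) (fun s => hq s.1) (i, 1)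
      (fun x : G => x)
    rw [pr_id] at h
    exact h
  have hH : H (arr q) (fun ω => ω (i, 1)) = ent (q i) := by
    rw [H_eq_ent, hpr]
  rw [hpr, hH] at h1
  have h2 := P1_rd h3' q hq i i
  rw [hcard] at h2
  have h4 := P1_dil h3' q hq (κ := ZMod m × ZMod m) (fun s => s.1) (i, 1)
    (univ.erase ((i, 1) : ZMod m × ZMod m)) (Finset.notMem_erase _ _) (fun s => (s.2).val)
    (fun s => by rw [hcard]; exact (ZMod.val_lt s.2).le)
  rw [hcard] at h4
  have h5 : ((univ.erase ((i, 1) : ZMod m × ZMod m)).card : ℝ) ≤ (m : ℝ) ^ 2 := by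
    have h := Finset.card_erase_le (s := (univ : Finset (ZMod m × ZMod m))) (a := (i, 1))
    rw [Finset.card_univ, Fintype.card_prod, hcard] at h
    have h' : ((univ.erase ((i, 1) : ZMod m × ZMod m)).card : ℝ) ≤ ((m * m : ℕ) : ℝ) := by
      exact_mod_cast h
    push_cast at h'
    nlinarith
  have h6 : 10 * ((univ.erase ((i, 1) : ZMod m × ZMod m)).card : ℝ) * (m : ℝ) ^ 2 * mD q
      ≤ 10 * (m : ℝ) ^ 4 * mD q := by
    have h61 : 0 ≤ (m : ℝ) ^ 2 * mD q := by positivity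
    nlinarith [mul_le_mul_of_nonneg_right h5 h61]
  have h7 : H (arr q) (fun ω => ω (i, 1)
      + ∑ s ∈ univ.erase ((i, 1) : ZMod m × ZMod m), (s.2).val • ω s)
      ≤ ent (q i) + 10 * (m : ℝ) ^ 4 * mD q := by
    refine le_trans h4 ?_
    linarith
  have h8 : 2 * (m : ℝ) * mD q ≤ (m : ℝ) ^ 4 * mD q := by
    refine mul_le_mul_of_nonneg_right ?_ hk
    have h81 : (2 : ℝ) ≤ (m : ℝ) ^ 3 := by nlinarith [mul_self_nonneg ((m : ℝ) - 3)]
    nlinarith
  rw [hZ]
  linarith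

end Pool.Agent.Ldc
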