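import Pool.Agent.Ldc.P5
import Pool.Agent.Ldc.E7c
set_option autoImplicit false

/-!
# P6.  Endgame: a `WeakMin` with `η = 1/(600 m⁷)` has `k = 0`.

`V = (Z1 + Z2, W) = (-Z3, W)`.  For each value `v` of `V` with positive probability let
`A_v = law (Z1 | V = v)`, `U_v = law (Z2 | V = v)`.
(1) BSG for `(Z1,Z2)`, `(Z2,Z3)`, `(Z3,Z1)` given `W` (`Z_a+Z_b = -Z_c`): the sum of the three right sides is
 `3 (I[Z1:Z2|W] + I[Z2:Z3|W] + I[Z3:Z1|W]) ≤ 72 m⁵ η k` (P4; the other terms cancel), all left sides are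
 `≥ 0`; so `Σ_v P(V=v) rd A_v U_v ≤ 72 m⁵ η k`, and `rd U_v U_v ≤ 2 rd A_v U_v` (`rd_self_le`).
(2) WeakMin.le for the constant tuple `U_v`, `mD_const_le`:
 `k ≤ 2 m² rd U_v U_v + η Σ_i rd (q i) U_v`.
(3) average over `v`: `Σ_v P(v) rd (q i) U_v = rdc (q i) Z2 V ≤ rd (q i) (law Z2) + I[Z2 : V]/2`
 (`rdc_eq_sum`, `rdc_le`), `I[Z2:V] = I[Z2:W] + I[Z2 : Z3 | W] ≤ 6m³k + 8m⁵ηk` (V is equivalent to (Z3, W)).
 So `k ≤ 288 m⁷ η k + η m (6m⁴ + 3m³ + 4m⁵η) k ≤ 300 m⁷ η k = k/2`, and `k ≥ 0`.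
-/
namespace Pool.Agent.Ldc
open Finset
variable {m : ℕ} [NeZero m] {G : Type} [AddCommGroup G] [Fintype G] [Module (ZMod m) G]

omit [NeZero m] in
private theorem P6_lhs_nonneg {Ω β : Type} [Fintype Ω] [Fintype β] {p : Ω → ℝ} (hp : IsP p)
    (A B : Ω → G) (V : Ω → β) :
    0 ≤ ∑ v, pr p V v * rd (pr (cnd p V v) A) (pr (cnd p V v) B) := by
  apply Finset.sum_nonneg
  intro v _
  rcases (pr_nonneg hp V v).eq_or_lt with h | h
  · rw [← h, zero_mul]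
  · exact mul_nonneg h.le (rd_nonneg (pr_isP (cnd_isP hp V v h) A) (pr_isP (cnd_isP hp V v h) B))

theorem endgame (h3 : 3 ≤ m) {k : ℝ} {q : ZMod m → G → ℝ}
    (hW : WeakMin (1 / (600 * (m : ℝ) ^ 7)) k q) : k = 0 := by
  have hm3 : (3 : ℝ) ≤ m := by exact_mod_cast h3
  have hm0 : (0 : ℝ) < m := by linarith
  set η : ℝ := 1 / (600 * (m : ℝ) ^ 7) with hη
  have hη0 : 0 < η := by positivity
  have hq := hW.prob
  have hk : mD q = k := hW.eq
  have hcard : Fintype.card (ZMod m) = m := ZMod.card m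
  have hk0 : 0 ≤ k := by
    rw [← hk]
    exact P1_k_nonneg (by rw [hcard]; exact h3) q hq
  set p : (ZMod m × ZMod m → G) → ℝ := arr q with hpd
  have hp : IsP p := pf_isP _ (fun s => hq s.1)
  -- relations
  have hrel : ∀ ω : ZMod m × ZMod m → G, Z1 ω + Z2 ω + Z3 ω = 0 := by
    intro ω
    simp only [Z1, Z2, Z3]
    rw [← Finset.sum_add_distrib, ← Finset.sum_add_distrib]
    apply Finset.sum_eq_zero
    intro s _
    rw [← add_smul, ← add_smul]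
    have : s.1 + s.2 + (-s.1 - s.2) = 0 := by ring
    rw [this, zero_smul]
  have h12 := P4_12 h3 hη0.le hW
  have h23 := P4_23 h3 hη0.le hW
  have h31 := P4_31 h3 hη0.le hW
  have b12 := BSG (G := G) hp Z1 Z2 Wt
  have b23 := BSG (G := G) hp Z2 Z3 Wt
  have b31 := BSG (G := G) hp Z3 Z1 Wt
  have n23 := P6_lhs_nonneg hp Z2 Z3 (fun ω => (Z2 ω + Z3 ω, Wt ω))
  have n31 := P6_lhs_nonneg hp Z3 Z1 (fun ω => (Z3 ω + Z1 ω, Wt ω))
  have e12 : H p (fun ω => (Z1 ω + Z2 ω, Wt ω)) = H p (fun ω => (Z3 ω, Wt ω)) := by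
    refine H_congr hp _ _ (fun x => (-x.1, x.2)) (fun x => (-x.1, x.2)) ?_ ?_
    · intro ω
      have := hrel ω
      refine Prod.ext ?_ rfl
      simp only
      exact (neg_eq_of_add_eq_zero_right this).symm
    · intro ω
      have := hrel ω
      refine Prod.ext ?_ rfl
      simp only
      exact eq_neg_of_add_eq_zero_left this
  have e23 : H p (fun ω => (Z2 ω + Z3 ω, Wt ω)) = H p (fun ω => (Z1 ω, Wt ω)) := by
    refine H_congr hp _ _ (fun x => (-x.1, x.2)) (fun x => (-x.1, x.2)) ?_ ?_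
    · intro ω
      have : Z2 ω + Z3 ω + Z1 ω = 0 := by rw [← hrel ω]; abel
      refine Prod.ext ?_ rfl
      simp only
      exact (neg_eq_of_add_eq_zero_right this).symm
    · intro ω
      have : Z2 ω + Z3 ω + Z1 ω = 0 := by rw [← hrel ω]; abel
      refine Prod.ext ?_ rfl
      simp only
      exact eq_neg_of_add_eq_zero_left this
  have e31 : H p (fun ω => (Z3 ω + Z1 ω, Wt ω)) = H p (fun ω => (Z2 ω, Wt ω)) := by
    refine H_congr hp _ _ (fun x => (-x.1, x.2)) (fun x => (-x.1, x.2)) ?_ ?_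
    · intro ω
      have : Z3 ω + Z1 ω + Z2 ω = 0 := by rw [← hrel ω]; abel
      refine Prod.ext ?_ rfl
      simp only
      exact (neg_eq_of_add_eq_zero_right this).symm
    · intro ω
      have : Z3 ω + Z1 ω + Z2 ω = 0 := by rw [← hrel ω]; abel
      refine Prod.ext ?_ rfl
      simp only
      exact eq_neg_of_add_eq_zero_left this
  rw [e12] at b12
  rw [e23] at b23
  rw [e31] at b31
  set V : (ZMod m × ZMod m → G) → G × G := fun ω => (Z1 ω + Z2 ω, Wt ω) with hV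
  have hS : ∑ v, pr p V v * rd (pr (cnd p V v) Z1) (pr (cnd p V v) Z2) ≤ 72 * (m : ℝ) ^ 5 * η * k := by
    linarith
  -- the minimiser property, averaged
  have hmin : ∀ v, 0 < pr p V v → k ≤ 4 * (m : ℝ) ^ 2 * rd (pr (cnd p V v) Z1) (pr (cnd p V v) Z2)
      + η * ∑ i, rd (q i) (pr (cnd p V v) Z2) := by
    intro v hv
    have hU : IsP (pr (cnd p V v) Z2) := pr_isP (cnd_isP hp V v hv) Z2
    have hA : IsP (pr (cnd p V v) Z1) := pr_isP (cnd_isP hp V v hv) Z1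
    have h1 := hW.le (fun _ => pr (cnd p V v) Z2) (fun _ => hU) 1
    have h2 : mD (fun _ : ZMod m => pr (cnd p V v) Z2)
        ≤ 2 * (Fintype.card (ZMod m) : ℝ) ^ 2 * rd (pr (cnd p V v) Z2) (pr (cnd p V v) Z2) := by
      refine mD_const_le (by rw [hcard]; omega) ?_ hU
      intro g
      rw [hcard]
      exact ZModModule.char_nsmul_eq_zero m g
    have h4 := rd_self_le hU hA
    rw [rd_comm (pr (cnd p V v) Z2) (pr (cnd p V v) Z1)] at h4
    rw [hcard] at h2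
    simp only [Equiv.Perm.coe_one, id_eq] at h1
    have h5 : 2 * (m : ℝ) ^ 2 * rd (pr (cnd p V v) Z2) (pr (cnd p V v) Z2)
        ≤ 2 * (m : ℝ) ^ 2 * (2 * rd (pr (cnd p V v) Z1) (pr (cnd p V v) Z2)) :=
      mul_le_mul_of_nonneg_left h4 (by positivity)
    linarith
  have havg := avg_le hp V (fun v => 4 * (m : ℝ) ^ 2 * rd (pr (cnd p V v) Z1) (pr (cnd p V v) Z2)
      + η * ∑ i, rd (q i) (pr (cnd p V v) Z2)) k hmin
  have hsplit : ∑ v, pr p V v * (4 * (m : ℝ) ^ 2 * rd (pr (cnd p V v) Z1) (pr (cnd p V v) Z2)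
      + η * ∑ i, rd (q i) (pr (cnd p V v) Z2))
      = 4 * (m : ℝ) ^ 2 * (∑ v, pr p V v * rd (pr (cnd p V v) Z1) (pr (cnd p V v) Z2))
        + η * ∑ i, rdc (q i) p Z2 V := by
    have h1 : ∀ i, rdc (q i) p Z2 V = ∑ v, pr p V v * rd (q i) (pr (cnd p V v) Z2) :=
      fun i => rdc_eq_sum hp (hq i) Z2 V
    simp_rw [h1]
    rw [Finset.sum_comm, Finset.mul_sum, Finset.mul_sum, ← Finset.sum_add_distrib]
    apply Finset.sum_congr rfl
    intro v _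
    rw [← Finset.mul_sum]
    ring
  rw [hsplit] at havg
  -- the conditional distances
  have hVH : H p V = H p (fun ω => (Z3 ω, Wt ω)) := e12
  have hV2 : H p (fun ω => (Z2 ω, V ω)) = H p (fun ω => (Z2 ω, Z3 ω, Wt ω)) := by
    refine H_congr hp _ _ (fun x => (x.1, -x.2.1, x.2.2)) (fun x => (x.1, -x.2.1, x.2.2)) ?_ ?_
    · intro ω
      have := hrel ω
      refine Prod.ext rfl (Prod.ext ?_ rfl)
      simp only [hV]
      exact (neg_eq_of_add_eq_zero_right this).symm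
    · intro ω
      have := hrel ω
      refine Prod.ext rfl (Prod.ext ?_ rfl)
      simp only [hV]
      exact eq_neg_of_add_eq_zero_left this
  have hPW := P5_W h3 hq
  rw [hk] at hPW
  have hrdc : ∀ i, rdc (q i) p Z2 V ≤ (6 * (m : ℝ) ^ 4 + 3 * (m : ℝ) ^ 3 + 4 * (m : ℝ) ^ 5 * η) * k := by
    intro i
    have h1 := rdc_le hp (hq i) Z2 V
    have h2 := P5_rd h3 hq i
    rw [hk] at h2
    rw [hVH, hV2] at h1
    unfold cmi at h23
    rw [← hpd] at h2 hPW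
    have h4 : rdc (q i) p Z2 V ≤ 6 * (m : ℝ) ^ 4 * k + (6 * (m : ℝ) ^ 3 * k + 8 * (m : ℝ) ^ 5 * η * k) / 2 := by
      linarith
    linarith
  have hsum : ∑ i, rdc (q i) p Z2 V
      ≤ m * ((6 * (m : ℝ) ^ 4 + 3 * (m : ℝ) ^ 3 + 4 * (m : ℝ) ^ 5 * η) * k) := by
    calc ∑ i, rdc (q i) p Z2 V
        ≤ ∑ _i : ZMod m, (6 * (m : ℝ) ^ 4 + 3 * (m : ℝ) ^ 3 + 4 * (m : ℝ) ^ 5 * η) * k :=
          Finset.sum_le_sum (fun i _ => hrdc i)
      _ = _ := by rw [Finset.sum_const, card_univ, hcard, nsmul_eq_mul]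
  have h6 : 4 * (m : ℝ) ^ 2 * (∑ v, pr p V v * rd (pr (cnd p V v) Z1) (pr (cnd p V v) Z2))
      ≤ 4 * (m : ℝ) ^ 2 * (72 * (m : ℝ) ^ 5 * η * k) := mul_le_mul_of_nonneg_left hS (by positivity)
  have h7 : η * ∑ i, rdc (q i) p Z2 V
      ≤ η * (m * ((6 * (m : ℝ) ^ 4 + 3 * (m : ℝ) ^ 3 + 4 * (m : ℝ) ^ 5 * η) * k)) :=
    mul_le_mul_of_nonneg_left hsum hη0.le
  have hη1 : η ≤ 1 := by
    rw [hη, div_le_one (by positivity)]
    have : (1 : ℝ) ≤ (m : ℝ) ^ 7 := one_le_pow₀ (by linarith)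
    linarith
  have hm6 : 6 * (m : ℝ) ^ 5 + 3 * (m : ℝ) ^ 4 + 4 * (m : ℝ) ^ 6 * η ≤ 12 * (m : ℝ) ^ 7 := by
    have e1 : (m : ℝ) ^ 5 ≤ (m : ℝ) ^ 7 := pow_le_pow_right₀ (by linarith) (by norm_num)
    have e2 : (m : ℝ) ^ 4 ≤ (m : ℝ) ^ 7 := pow_le_pow_right₀ (by linarith) (by norm_num)
    have e3 : 3 * (m : ℝ) ^ 6 ≤ (m : ℝ) ^ 7 := by
      have : (m : ℝ) ^ 7 = m * (m : ℝ) ^ 6 := by ring
      rw [this]
      exact mul_le_mul_of_nonneg_right hm3 (by positivity)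
    have e4 : (m : ℝ) ^ 6 * η ≤ (m : ℝ) ^ 6 := mul_le_of_le_one_right (by positivity) hη1
    have e5 : 0 ≤ (m : ℝ) ^ 7 := by positivity
    linarith
  have hη7 : η * (m : ℝ) ^ 7 = 1 / 600 := by
    rw [hη]
    field_simp
  have h8 : k ≤ k / 2 := by
    calc k ≤ 4 * (m : ℝ) ^ 2 * (72 * (m : ℝ) ^ 5 * η * k)
          + η * (m * ((6 * (m : ℝ) ^ 4 + 3 * (m : ℝ) ^ 3 + 4 * (m : ℝ) ^ 5 * η) * k)) := by linarith
      _ = η * k * (288 * (m : ℝ) ^ 7 + (6 * (m : ℝ) ^ 5 + 3 * (m : ℝ) ^ 4 + 4 * (m : ℝ) ^ 6 * η)) := by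
          ring
      _ ≤ η * k * (288 * (m : ℝ) ^ 7 + 12 * (m : ℝ) ^ 7) := by
          apply mul_le_mul_of_nonneg_left _ (by positivity)
          linarith
      _ = (η * (m : ℝ) ^ 7) * (300 * k) := by ring
      _ = k / 2 := by rw [hη7]; ring
  linarith

end Pool.Agent.Ldc
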