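import Pool.Agent.Ldc.P6
import Pool.Agent.Ldc.E9
import Pool.Agent.Ldc.E10
set_option autoImplicit false

/-!
# P7.  Entropic PFR for `m`-torsion groups.

Take the minimiser of E9 with `ι = ZMod m`, `η = 1/(600 m⁷)`; `mD q = 0` (`endgame`).
`η Σ_i rd (q i) x ≤ mD (const x) + η m rd x x ≤ (2m² + η m) rd x x` (`mD_const_le`, `rd ≥ 0`, `mD q = 0`).  Some `i` has
`rd (q i) x ≤ (2m²+ηm)/(ηm) rd x x ≤ 1201 m⁸ rd x x`.  For `j ≠ i`, `rd (q i) (-(q j)) ≤ m * 0` (`P1_rd_neg`) so it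
is `0` and `q i` is uniform on a coset of `V` (`rd_eq_zero`); conclude by `rd_translate`, `rd_comm`.
-/
namespace Pool.Agent.Ldc
open Finset
variable {m : ℕ} [NeZero m] {G : Type} [AddCommGroup G] [Fintype G] [Module (ZMod m) G]

theorem ent_pfr (h3 : 3 ≤ m) (x : G → ℝ) (hx : IsP x) :
    ∃ V : AddSubgroup G, rd x (uS V) ≤ 1201 * (m : ℝ) ^ 8 * rd x x := by
  have hm3 : (3 : ℝ) ≤ (m : ℝ) := by exact_mod_cast h3
  have hm0 : (0 : ℝ) < (m : ℝ) := by linarith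
  have hcard : Fintype.card (ZMod m) = m := ZMod.card m
  have hη : (0 : ℝ) < 1 / (600 * (m : ℝ) ^ 7) := by positivity
  obtain ⟨q, hW, hle⟩ := exists_weakMin (ι := ZMod m) (1 / (600 * (m : ℝ) ^ 7)) hη x hx
  have hk : mD q = 0 := endgame h3 hW
  have hG : ∀ g : G, Fintype.card (ZMod m) • g = 0 := by
    intro g
    rw [hcard]
    have h1 : ((m : ZMod m)) • g = (m : ℕ) • g := by
      rw [Nat.cast_smul_eq_nsmul]
    rw [← h1, ZMod.natCast_self, zero_smul]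
  have hc := mD_const_le (ι := ZMod m) (by rw [hcard]; omega) hG hx
  rw [hcard] at hc hle
  rw [hk, zero_add] at hle
  have hxx : 0 ≤ rd x x := rd_nonneg hx hx
  have hex : ∃ i, rd (q i) x ≤ 1201 * (m : ℝ) ^ 8 * rd x x := by
    by_contra hcon
    push Not at hcon
    have h4 : ∑ _i : ZMod m, (1201 * (m : ℝ) ^ 8 * rd x x) < ∑ i, rd (q i) x :=
      Finset.sum_lt_sum_of_nonempty ⟨0, Finset.mem_univ _⟩ (fun i _ => hcon i)
    rw [Finset.sum_const, Finset.card_univ, hcard, nsmul_eq_mul] at h4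
    have h5 : 1 / (600 * (m : ℝ) ^ 7) * ((m : ℝ) * (1201 * (m : ℝ) ^ 8 * rd x x))
        < 2 * (m : ℝ) ^ 2 * rd x x + 1 / (600 * (m : ℝ) ^ 7) * (m : ℝ) * rd x x := by
      calc 1 / (600 * (m : ℝ) ^ 7) * ((m : ℝ) * (1201 * (m : ℝ) ^ 8 * rd x x))
          < 1 / (600 * (m : ℝ) ^ 7) * ∑ i, rd (q i) x := mul_lt_mul_of_pos_left h4 hη
        _ ≤ _ := hle
        _ ≤ _ := by linarith
    have h6 : 1 / (600 * (m : ℝ) ^ 7) * ((m : ℝ) * (1201 * (m : ℝ) ^ 8 * rd x x))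
        = (1201 / 600) * (m : ℝ) ^ 2 * rd x x := by
      field_simp
    have h7 : 1 / (600 * (m : ℝ) ^ 7) * (m : ℝ) * rd x x ≤ (1 / 600) * (m : ℝ) ^ 2 * rd x x := by
      have h8 : 1 / (600 * (m : ℝ) ^ 7) * (m : ℝ) = (1 / 600) * (1 / (m : ℝ) ^ 6) := by
        field_simp
      have h9 : (1 : ℝ) / (m : ℝ) ^ 6 ≤ 1 := by
        rw [div_le_one (by positivity)]
        exact one_le_pow₀ (by linarith)
      have h10 : (1 : ℝ) ≤ (m : ℝ) ^ 2 := one_le_pow₀ (by linarith)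
      rw [h8]
      apply mul_le_mul_of_nonneg_right _ hxx
      nlinarith
    rw [h6] at h5
    nlinarith
  obtain ⟨i, hi⟩ := hex
  have : Fact (1 < m) := ⟨by omega⟩
  have hij : i ≠ i + 1 := by
    intro h
    have : (1 : ZMod m) = 0 := by
      have h2 : i + 0 = i + 1 := by rw [add_zero]; exact h
      exact (add_left_cancel h2).symm
    exact one_ne_zero this
  have hneg := P1_rd_neg (by rw [hcard]; exact h3) q hW.prob i (i + 1) hij
  rw [hk, mul_zero] at hneg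
  have hqneg : IsP (fun g => q (i + 1) (-g)) := by
    refine ⟨fun g => (hW.prob (i + 1)).1 (-g), ?_⟩
    rw [← (hW.prob (i + 1)).2]
    exact Equiv.sum_comp (Equiv.neg G) (q (i + 1))
  have h0 := le_antisymm hneg (rd_nonneg (hW.prob i) hqneg)
  obtain ⟨V, a, hVa⟩ := rd_eq_zero (hW.prob i) hqneg h0
  refine ⟨V, ?_⟩
  rw [rd_comm, ← rd_translate (uS V) x a, ← hVa]
  exact hi

end Pool.Agent.Ldc
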